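import Mathlib

/-!
# H13Y: two pigeonhole lemmas
-/

namespace H13Y

variable {Ω : Type} [Field Ω]

/-- Chunk YPG1 (S). f i = a class j with V (a i - r j) < 1 (hr); f is injective (if f i = f i' then V (a i - a i') < 1), so surjective (Finite.injective_iff_surjective); the class j of x is f i for some i, V (x - a i) < 1. -/
theorem pigeon (V : ValuationSubring Ω) {q : ℕ} (S : Set Ω) (r a : Fin q → Ω)
    (hr : ∀ x ∈ S, x ∈ V → ∃ i, V.valuation (x - r i) < 1) (ha : ∀ i, a i ∈ S ∧ V.valuation (a i) ≤ 1)
    (hinj : ∀ i i', i ≠ i' → ¬ V.valuation (a i - a i') < 1) {x : Ω} (hx : x ∈ S)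
    (hx1 : V.valuation x ≤ 1) : ∃ i, V.valuation (x - a i) < 1 := by
  have h1 : ∀ i, ∃ j, V.valuation (a i - r j) < 1 := fun i =>
    hr (a i) (ha i).1 ((V.valuation_le_one_iff _).1 (ha i).2)
  choose f hf using h1
  have hfi : Function.Injective f := by
    intro i i' h
    by_contra hne
    apply hinj i i' hne
    have e : a i - a i' = (a i - r (f i)) - (a i' - r (f i')) := by
      rw [h]
      ring
    rw [e]
    exact lt_of_le_of_lt (Valuation.map_sub _ _ _) (max_lt (hf i) (hf i'))
  obtain ⟨j, hj⟩ := hr x hx ((V.valuation_le_one_iff _).1 hx1)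
  obtain ⟨i, hi⟩ := (Finite.injective_iff_surjective.1 hfi) j
  refine ⟨i, ?_⟩
  have e : x - a i = (x - r j) - (a i - r (f i)) := by
    rw [hi]
    ring
  rw [e]
  exact lt_of_le_of_lt (Valuation.map_sub _ _ _) (max_lt hj (hf i))

/-- Chunk YPG2 (S/M). In the residue field k of V the polynomial X^q - n X (q ≥ 2: not zero, degree q) has at most q roots (card_roots), and the classes of the x i are q distinct roots; the class of z is a root, so it is one of them. (IsLocalRing.residue V; residue = 0 iff V.valuation < 1: IsLocalRing.residue_eq_zero_iff, ValuationSubring.valuation_lt_one_iff.) -/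
theorem pigeon2 (V : ValuationSubring Ω) {q n : ℕ} (hq : 2 ≤ q) (x : Fin q → Ω)
    (hx : ∀ i, V.valuation (x i) ≤ 1 ∧ V.valuation (x i ^ q - n * x i) < 1)
    (hinj : ∀ i i', i ≠ i' → ¬ V.valuation (x i - x i') < 1) {z : Ω} (hz : V.valuation z ≤ 1)
    (h : V.valuation (z ^ q - n * z) < 1) : ∃ i, V.valuation (z - x i) < 1 := by
  classical
  have hres : ∀ y : V, IsLocalRing.residue V y = 0 ↔ V.valuation (y : Ω) < 1 := by
    intro y
    rw [IsLocalRing.residue_eq_zero_iff, V.valuation_lt_one_iff]
  have hmem : ∀ i, x i ∈ V := fun i => (V.valuation_le_one_iff _).1 (hx i).1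
  have hzV : z ∈ V := (V.valuation_le_one_iff _).1 hz
  obtain ⟨P, hP⟩ : ∃ P : Polynomial (IsLocalRing.ResidueField V),
      P = Polynomial.X ^ q - Polynomial.C (n : IsLocalRing.ResidueField V) * Polynomial.X := ⟨_, rfl⟩
  obtain ⟨k, rfl⟩ : ∃ k, q = k + 1 := ⟨q - 1, by omega⟩
  have hPm : P.Monic := by
    rw [hP]
    apply Polynomial.monic_X_pow_sub
    refine lt_of_le_of_lt (Polynomial.degree_C_mul_X_le (n : IsLocalRing.ResidueField V)) ?_
    exact_mod_cast (by omega : 1 < k + 1)
  have hPd : P.natDegree ≤ k + 1 := by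
    rw [hP]
    refine (Polynomial.natDegree_sub_le _ _).trans (max_le ?_ ?_)
    · exact Polynomial.natDegree_X_pow_le _
    · refine le_trans (Polynomial.natDegree_C_mul_le _ _) ?_
      refine le_trans Polynomial.natDegree_X_le ?_
      omega
  have hroot : ∀ y : V, V.valuation ((y : Ω) ^ (k + 1) - n * y) < 1 → IsLocalRing.residue V y ∈ P.roots.toFinset := by
    intro y hy
    rw [Multiset.mem_toFinset, Polynomial.mem_roots hPm.ne_zero, Polynomial.IsRoot, hP]
    rw [Polynomial.eval_sub, Polynomial.eval_pow, Polynomial.eval_X, Polynomial.eval_mul, Polynomial.eval_C,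
      Polynomial.eval_X]
    have h1 := (hres (y ^ (k + 1) - n * y)).2 (by push_cast; exact hy)
    rw [map_sub, map_pow, map_mul, map_natCast] at h1
    exact h1
  by_contra hcon
  push Not at hcon
  have hinj2 : Function.Injective (fun i => IsLocalRing.residue V (⟨x i, hmem i⟩ : V)) := by
    intro i i' hi
    by_contra hne
    apply hinj i i' hne
    have h1 : IsLocalRing.residue V ((⟨x i, hmem i⟩ : V) - ⟨x i', hmem i'⟩) = 0 := by
      rw [map_sub, sub_eq_zero]
      exact hi
    exact (hres _).1 h1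
  have hz2 : IsLocalRing.residue V (⟨z, hzV⟩ : V) ∉
      Finset.univ.image (fun i => IsLocalRing.residue V (⟨x i, hmem i⟩ : V)) := by
    intro hh
    obtain ⟨i, -, hi⟩ := Finset.mem_image.1 hh
    have h1 : IsLocalRing.residue V ((⟨z, hzV⟩ : V) - ⟨x i, hmem i⟩) = 0 := by
      rw [map_sub, sub_eq_zero]
      exact hi.symm
    exact absurd ((hres _).1 h1) (not_lt.2 (hcon i))
  have hsub : insert (IsLocalRing.residue V (⟨z, hzV⟩ : V))
      (Finset.univ.image (fun i => IsLocalRing.residue V (⟨x i, hmem i⟩ : V))) ⊆ P.roots.toFinset := by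
    intro y hy
    rw [Finset.mem_insert, Finset.mem_image] at hy
    rcases hy with rfl | ⟨i, -, rfl⟩
    · exact hroot _ h
    · exact hroot _ (hx i).2
  have h1 := Finset.card_le_card hsub
  rw [Finset.card_insert_of_notMem hz2, Finset.card_image_of_injective _ hinj2, Finset.card_univ,
    Fintype.card_fin] at h1
  have h2 := Multiset.toFinset_card_le P.roots
  have h3 := P.card_roots'
  omega

end H13Y
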