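import Mathlib
import Pool.Agent.Lib.H28G.GB2
import Pool.Agent.Lib.H55B.H2
import Pool.Agent.Lib.H55R.BF1
import Pool.Agent.Lib.H99B.Defs

/-!
# H13Y, part GN: the global class over an arbitrary base field N (definitions)

L = N(E[π]), w a prime of N over γ with Nm w = Nm γ^f, π | γ^f - 1: there is a nonzero element of the χ-part of Lˣ modulo
l-th powers, a unit outside w modulo l-th powers, trivial of level one at all primes above π. The proof counts: the
χ-part of the w-units has rank [N : F] + 1 (one for each infinite place of N and one for w) and the level at the primes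
above π has values in a space of dimension at most [N : F] over k = O/π.
-/

open NumberField IsDedekindDomain

namespace H13Y

open H55B H55R H28G H99B

section gn

variable {N L : Type} [Field N] [Field L] [Algebra N L]

/-- The Galois action on the multiplicative group of L. -/
noncomputable def guN : Gal(L/N) →* Monoid.End Lˣ where
  toFun σ := Units.map ((σ : L ≃ₐ[N] L) : L →* L)
  map_one' := by
    ext x
    rfl
  map_mul' σ τ := by
    ext x
    rfl

theorem guN_apply (σ : Gal(L/N)) (x : Lˣ) : ((guN σ x : Lˣ) : L) = σ (x : L) := rfl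

/-- Equivariant homomorphisms from k to Lˣ modulo l-th powers, given by representatives. -/
structure EqHomN {k : Type} [Field k] (l : ℕ) (χ : Gal(L/N) →* kˣ) (m : k → Lˣ) : Prop where
  add : ∀ a b : k, ∃ z : Lˣ, m (a + b) = m a * m b * z ^ l
  equiv : ∀ (σ : Gal(L/N)) (a : k), ∃ z : Lˣ, m (χ σ * a) = guN σ (m a) * z ^ l

variable [NumberField N] [NumberField L]

theorem ord_guN (v : Pl L) (σ : Gal(L/N)) (x : Lˣ) : ord v (guN σ x) = ord (smulP σ⁻¹ v) x := by
  have h := ord_smul σ (smulP σ⁻¹ v) x
  rw [← smulP_mul, mul_inv_cancel, smulP_one] at h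
  exact h

/-- Local data at the totally ramified prime W of L: r is the reduction modulo W with values in κ, every element of κ is the
reduction of an element of 𝓞 N, t is a uniformizer on which the Galois group acts through χ modulo the square of W. -/
structure LocN {k κ : Type} [Field k] [Field κ] (j : k →+* κ) (χ : Gal(L/N) →* kˣ) (W : Pl L) (t : Lˣ)
    (r : 𝓞 L →+* κ) : Prop where
  ker : ∀ x : 𝓞 L, r x = 0 ↔ x ∈ W.asIdeal
  surj : ∀ b : κ, ∃ y : 𝓞 N, r (algebraMap (𝓞 N) (𝓞 L) y) = b
  ram : ∀ y : 𝓞 N, r (algebraMap (𝓞 N) (𝓞 L) y) = 0 →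
    W.valuation L (algebraMap N L (y : N)) ≤ WithZero.exp (-2 : ℤ)
  inv : ∀ σ : Gal(L/N), smulP σ W = W
  unif : ord W t = 1
  act : ∀ (σ : Gal(L/N)) (y : 𝓞 N), r (algebraMap (𝓞 N) (𝓞 L) y) = j (χ σ : k) →
    W.valuation L (σ (t : L) - algebraMap N L (y : N) * (t : L)) ≤ WithZero.exp (-2 : ℤ)

/-- The residue field of a prime of L. -/
def Kap (W : Pl L) : Type := 𝓞 L ⧸ W.asIdeal

noncomputable instance instFieldKap (W : Pl L) : Field (Kap W) := @Ideal.Quotient.field _ _ W.asIdeal W.isMaximal

instance instFiniteKap (W : Pl L) : Finite (Kap W) := Ideal.finiteQuotientOfFreeOfNeBot W.asIdeal W.ne_bot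

/-- The reduction. -/
noncomputable def kmk (W : Pl L) : 𝓞 L →+* Kap W := Ideal.Quotient.mk W.asIdeal

theorem kmk_zero (W : Pl L) (x : 𝓞 L) : kmk W x = 0 ↔ x ∈ W.asIdeal := Ideal.Quotient.eq_zero_iff_mem

theorem kmk_surj (W : Pl L) : Function.Surjective (kmk W) := Ideal.Quotient.mk_surjective

/-- The units of L outside the primes above w. -/
def SU (L : Type) [Field L] [NumberField L] [Algebra N L] (w : Pl N) : Subgroup Lˣ where
  carrier := {x | ∀ v : Pl L, v.under (𝓞 N) ≠ w → ord v x = 0}
  mul_mem' := fun {x y} hx hy v hv => by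
    rw [ord_mul, hx v hv, hy v hv, add_zero]
  one_mem' := fun v _ => ord_one v
  inv_mem' := fun {x} hx v hv => by
    rw [ord_inv, hx v hv, neg_zero]

theorem mem_SU {w : Pl N} {x : Lˣ} : x ∈ SU L w ↔ ∀ v : Pl L, v.under (𝓞 N) ≠ w → ord v x = 0 := Iff.rfl

theorem SU_act {w : Pl N} (σ : Gal(L/N)) {x : Lˣ} (hx : x ∈ SU L w) : guN σ x ∈ SU L w := by
  intro v hv
  rw [ord_guN]
  exact hx _ (by rwa [under_smulP])

end gn

end H13Y
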