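import Mathlib
import Pool.Agent.Lib.H13Y.GN0
import Pool.Agent.Lib.H13Z.GA4

open NumberField IsDedekindDomain

namespace H13Y

open H55B H55R H28G H99B

open scoped WithZero

theorem gn2_gal {N L : Type} [Field N] [NumberField N] [Field L] [NumberField L] [Algebra N L] {w : Pl L} {σ : Gal(L/N)}
    (h : smulP σ w = w) (x : L) : w.valuation L (σ x) = w.valuation L x := by
  by_cases hx : x = 0
  · rw [hx, map_zero]
  · have h1 := ord_smul σ w (Units.mk0 x hx)
    rw [h] at h1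
    have h2 := BF1_val w (Units.map ((σ : L ≃ₐ[N] L) : L →* L) (Units.mk0 x hx))
    rw [h1, ← BF1_val w (Units.mk0 x hx)] at h2
    exact h2

theorem gn2_val {N L : Type} [Field N] [NumberField N] [Field L] [NumberField L] [Algebra N L]
    {k κ : Type} [Field k] [Field κ] {j : k →+* κ} {χ : Gal(L/N) →* kˣ} {w : Pl L} {t : Lˣ} {r : 𝓞 L →+* κ}
    (hloc : LocN j χ w t r) (y : 𝓞 N) :
    w.valuation L (algebraMap N L (y : N)) ≤ 1 ∧
    (w.valuation L (algebraMap N L (y : N)) < 1 → r (algebraMap (𝓞 N) (𝓞 L) y) = 0) := by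
  have e : algebraMap N L (y : N) = algebraMap (𝓞 L) L (algebraMap (𝓞 N) (𝓞 L) y) := by
    rfl
  rw [e]
  refine ⟨w.valuation_le_one _, fun h => ?_⟩
  rw [hloc.ker]
  exact (w.valuation_lt_one_iff_mem _).1 h

theorem gn2_lift {N L : Type} [Field N] [NumberField N] [Field L] [NumberField L] [Algebra N L]
    {k κ : Type} [Field k] [Field κ] {j : k →+* κ} {χ : Gal(L/N) →* kˣ} {w : Pl L} {t : Lˣ}
    {r : 𝓞 L →+* κ} (hloc : LocN j χ w t r) (x : L) (hx : w.valuation L x ≤ 1) :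
    ∃ y0 : 𝓞 N, w.valuation L (x - algebraMap N L (y0 : N)) ≤ WithZero.exp (-1 : ℤ) := by
  obtain ⟨n, d, h⟩ := HeightOneSpectrum.exists_primeCompl_mul_eq_of_integer w x hx
  have hd : (d : 𝓞 L) ∉ w.asIdeal := d.2
  have hd1 : w.valuation L (algebraMap (𝓞 L) L (d : 𝓞 L)) = 1 :=
    (HeightOneSpectrum.valuation_eq_one_iff_notMem (K := L) w).2 hd
  have hrd : r (d : 𝓞 L) ≠ 0 := fun h => hd ((hloc.ker _).1 h)
  obtain ⟨y0, hy0⟩ := hloc.surj (r n / r (d : 𝓞 L))
  refine ⟨y0, e1_lt ?_⟩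
  have hmem : n - (d : 𝓞 L) * algebraMap (𝓞 N) (𝓞 L) y0 ∈ w.asIdeal := by
    rw [← hloc.ker, map_sub, map_mul, hy0, mul_div_cancel₀ _ hrd, sub_self]
  have hlt : w.valuation L (algebraMap (𝓞 L) L (n - (d : 𝓞 L) * algebraMap (𝓞 N) (𝓞 L) y0)) < 1 :=
    (w.valuation_lt_one_iff_mem (K := L) _).2 hmem
  have e : algebraMap (𝓞 L) L (n - (d : 𝓞 L) * algebraMap (𝓞 N) (𝓞 L) y0) =
      (x - algebraMap N L (y0 : N)) * algebraMap (𝓞 L) L (d : 𝓞 L) := by
    have h2 : algebraMap (𝓞 L) L (algebraMap (𝓞 N) (𝓞 L) y0) = algebraMap N L (y0 : N) := rfl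
    rw [map_sub, map_mul, ← h, h2]
    ring
  rw [e, map_mul, hd1, mul_one] at hlt
  exact hlt

theorem gn2_vl {N L : Type} [Field N] [NumberField N] [Field L] [NumberField L] [Algebra N L] {l : ℕ}
    {k κ : Type} [Field k] [Field κ] [CharP κ l] {j : k →+* κ} {χ : Gal(L/N) →* kˣ} {w : Pl L} {t : Lˣ}
    {r : 𝓞 L →+* κ} (hloc : LocN j χ w t r) :
    w.valuation L ((l : ℕ) : L) ≤ WithZero.exp (-2 : ℤ) := by
  have h3 := hloc.ram ((l : ℕ) : 𝓞 N) (by rw [map_natCast, map_natCast, CharP.cast_eq_zero])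
  have e1 : algebraMap N L (((l : ℕ) : 𝓞 N) : N) = ((l : ℕ) : L) := by
    have : (((l : ℕ) : 𝓞 N) : N) = ((l : ℕ) : N) := map_natCast (algebraMap (𝓞 N) N) l
    rw [this, map_natCast]
  rw [e1] at h3
  exact h3

theorem gn2_t {N L : Type} [Field N] [NumberField N] [Field L] [NumberField L] [Algebra N L]
    {k κ : Type} [Field k] [Field κ] {j : k →+* κ} {χ : Gal(L/N) →* kˣ} {w : Pl L} {t : Lˣ}
    {r : 𝓞 L →+* κ} (hloc : LocN j χ w t r) : w.valuation L (t : L) = WithZero.exp (-1 : ℤ) := by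
  rw [BF1_val, hloc.unif]

/-- An l-th power congruent to 1 modulo w is congruent to 1 modulo the square. -/
theorem gn2_root {N L : Type} [Field N] [NumberField N] [Field L] [NumberField L] [Algebra N L] {l : ℕ} [Fact l.Prime]
    {k κ : Type} [Field k] [Field κ] [CharP κ l] {j : k →+* κ} {χ : Gal(L/N) →* kˣ} {w : Pl L} {t : Lˣ}
    {r : 𝓞 L →+* κ} (hloc : LocN j χ w t r) (y : L) (hy : w.valuation L y ≤ 1)
    (h : w.valuation L (y ^ l - 1) ≤ WithZero.exp (-1 : ℤ)) :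
    w.valuation L (y ^ l - 1) ≤ WithZero.exp (-2 : ℤ) := by
  obtain ⟨y0, hy0⟩ := gn2_lift hloc y hy
  have hpow := e1_lpow (w.valuation L) (Fact.out : l.Prime) (gn2_vl hloc) (gn2_val hloc y0).1 hy0
  have e3 : algebraMap N L (y0 : N) + (y - algebraMap N L (y0 : N)) = y := by ring
  rw [e3] at hpow
  have e5 : algebraMap N L (y0 : N) ^ l - 1 = algebraMap N L ((y0 ^ l - 1 : 𝓞 N) : N) := by
    have : ((y0 ^ l - 1 : 𝓞 N) : N) = (y0 : N) ^ l - 1 := rfl
    rw [this, map_sub, map_pow, map_one]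
  have hlt : w.valuation L (algebraMap N L ((y0 ^ l - 1 : 𝓞 N) : N)) < 1 := by
    rw [← e5]
    have e6 : algebraMap N L (y0 : N) ^ l - 1 = (y ^ l - 1) -
        (y ^ l - algebraMap N L (y0 : N) ^ l) := by ring
    rw [e6]
    exact lt_of_le_of_lt (Valuation.map_sub_le _ h (hpow.trans H13Z.GA4_21)) H13Z.GA4_1
  have h7 := hloc.ram _ ((gn2_val hloc _).2 hlt)
  rw [← e5] at h7
  have e6 : y ^ l - 1 = (y ^ l - algebraMap N L (y0 : N) ^ l) + (algebraMap N L (y0 : N) ^ l - 1) := by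
    ring
  rw [e6]
  exact Valuation.map_add_le _ hpow h7

/-- An element congruent to 1 + c t is a unit, congruent to 1. -/
theorem gn2_one {N L : Type} [Field N] [NumberField N] [Field L] [NumberField L] [Algebra N L]
    {k κ : Type} [Field k] [Field κ] {j : k →+* κ} {χ : Gal(L/N) →* kˣ} {w : Pl L} {t : Lˣ}
    {r : 𝓞 L →+* κ} (hloc : LocN j χ w t r) (u : L) (c : 𝓞 N)
    (h : w.valuation L (u - 1 - algebraMap N L (c : N) * (t : L)) ≤ WithZero.exp (-2 : ℤ)) :
    w.valuation L (u - 1) ≤ WithZero.exp (-1 : ℤ) ∧ w.valuation L u = 1 := by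
  have h1 : w.valuation L (u - 1) ≤ WithZero.exp (-1 : ℤ) := by
    have e : u - 1 = (u - 1 - algebraMap N L (c : N) * (t : L)) + algebraMap N L (c : N) * (t : L) := by
      ring
    rw [e]
    refine Valuation.map_add_le _ (h.trans H13Z.GA4_21) ?_
    rw [map_mul, gn2_t hloc]
    calc _ ≤ 1 * WithZero.exp (-1 : ℤ) := mul_le_mul' (gn2_val hloc c).1 le_rfl
      _ = _ := one_mul _
  refine ⟨h1, ?_⟩
  have e : u = 1 + (u - 1) := by ring
  rw [e]
  exact Valuation.map_one_add_of_lt _ (lt_of_le_of_lt h1 H13Z.GA4_1)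

/-- Chunk GA4 (M), three lemmas on the level one component c of an element x = z^l (1 + c t + ..), c in 𝓞 N modulo w. First: existence. y = x/s^l with ord w y = 0 (s = power of t, hloc.unif); y or its inverse is a unit at w; the residue field is k (finite of characteristic l, Frobenius surjective, hloc.surj): b in 𝓞 N,
b not in w, with w.valuation (y - b^l) < 1 (write y as a quotient of integers prime to w: H55R.HB1, or exists_frac). u = y/b^l is congruent to 1; (u - 1)/t is w-integral, congruent to an element c of 𝓞 N (hloc.surj, hloc.ker; again through a quotient of integers). -/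
theorem gn2_ex {N L : Type} [Field N] [NumberField N] [Field L] [NumberField L] [Algebra N L] {l : ℕ} [Fact l.Prime]
    {k κ : Type} [Field k] [Field κ] [Finite κ] [CharP κ l] {j : k →+* κ} {χ : Gal(L/N) →* kˣ} {w : Pl L} {t : Lˣ}
    {r : 𝓞 L →+* κ} (hloc : LocN j χ w t r) (x : Lˣ) (hx : (l : ℤ) ∣ ord w x) :
    ∃ (c : 𝓞 N) (z : Lˣ), w.valuation L (((x * (z ^ l)⁻¹ : Lˣ) : L) - 1 -
      algebraMap N L (c : N) * (t : L)) ≤ WithZero.exp (-2 : ℤ) := by
  have hlp : l.Prime := Fact.out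
  obtain ⟨n, hn⟩ := hx
  have ht := gn2_t hloc
  obtain ⟨y, hy⟩ : ∃ y : Lˣ, y = x * ((t ^ n) ^ l)⁻¹ := ⟨_, rfl⟩
  have hoy : ord w y = 0 := by
    rw [hy, ord_mul, ord_inv, ← zpow_natCast, ← zpow_mul, ord_zpow, hloc.unif, hn]
    ring
  have hvy : w.valuation L (y : L) = 1 := by
    rw [BF1_val, hoy, neg_zero, WithZero.exp_zero]
  obtain ⟨y0, hy0⟩ := gn2_lift hloc (y : L) hvy.le
  have hvy0 : w.valuation L (algebraMap N L (y0 : N)) = 1 := by
    have e : algebraMap N L (y0 : N) = (y : L) - ((y : L) - algebraMap N L (y0 : N)) := by ring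
    refine le_antisymm (gn2_val hloc y0).1 (not_lt.1 fun hlt => ?_)
    have e2 : (y : L) = ((y : L) - algebraMap N L (y0 : N)) + algebraMap N L (y0 : N) := by ring
    have h3 := Valuation.map_add_lt _ (lt_of_le_of_lt hy0 H13Z.GA4_1) hlt
    rw [← e2, hvy] at h3
    exact lt_irrefl _ h3
  obtain ⟨b0, hb0⟩ : ∃ b0 : κ, b0 ^ l = r (algebraMap (𝓞 N) (𝓞 L) y0) := by
    have : ExpChar κ l := ExpChar.prime hlp
    have hsur : Function.Surjective (frobenius κ l) :=
      Finite.surjective_of_injective (frobenius κ l).injective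
    obtain ⟨b0, hb0⟩ := hsur (r (algebraMap (𝓞 N) (𝓞 L) y0))
    exact ⟨b0, hb0⟩
  obtain ⟨b, hb⟩ := hloc.surj b0
  have e5 : algebraMap N L (b : N) ^ l - algebraMap N L (y0 : N) =
      algebraMap N L ((b ^ l - y0 : 𝓞 N) : N) := by
    have : ((b ^ l - y0 : 𝓞 N) : N) = (b : N) ^ l - (y0 : N) := rfl
    rw [this, map_sub, map_pow]
  have hby := hloc.ram (b ^ l - y0) (by rw [map_sub, map_sub, map_pow, map_pow, hb, hb0, sub_self])
  rw [← e5] at hby
  have hyb : w.valuation L ((y : L) - algebraMap N L (b : N) ^ l) ≤ WithZero.exp (-1 : ℤ) := by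
    have e : (y : L) - algebraMap N L (b : N) ^ l = ((y : L) - algebraMap N L (y0 : N)) -
        (algebraMap N L (b : N) ^ l - algebraMap N L (y0 : N)) := by ring
    rw [e]
    exact Valuation.map_sub_le _ hy0 (hby.trans H13Z.GA4_21)
  have hvbl : w.valuation L (algebraMap N L (b : N) ^ l) = 1 := by
    have h1 : w.valuation L (algebraMap N L (b : N) ^ l) ≤ 1 := by
      rw [map_pow]
      exact pow_le_one' (gn2_val hloc b).1 l
    refine le_antisymm h1 (not_lt.1 fun hlt => ?_)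
    have e2 : (y : L) = ((y : L) - algebraMap N L (b : N) ^ l) + algebraMap N L (b : N) ^ l := by ring
    have h3 := Valuation.map_add_lt _ (lt_of_le_of_lt hyb H13Z.GA4_1) hlt
    rw [← e2, hvy] at h3
    exact lt_irrefl _ h3
  have hb0' : algebraMap N L (b : N) ≠ 0 := by
    intro h0
    rw [h0, zero_pow hlp.ne_zero, map_zero] at hvbl
    exact zero_ne_one hvbl
  obtain ⟨B, hB⟩ : ∃ B : Lˣ, (B : L) = algebraMap N L (b : N) := ⟨Units.mk0 _ hb0', rfl⟩
  obtain ⟨u, hu⟩ : ∃ u : Lˣ, u = x * ((t ^ n * B) ^ l)⁻¹ := ⟨_, rfl⟩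
  have huy : (u : L) * algebraMap N L (b : N) ^ l = (y : L) := by
    have h1 : u * B ^ l = y := by
      rw [hu, hy, mul_pow, mul_inv]
      exact H13Z.GA4_g3 _ _ _
    rw [← h1, Units.val_mul, Units.val_pow_eq_pow_val, hB]
  have hu1 : w.valuation L ((u : L) - 1) ≤ WithZero.exp (-1 : ℤ) := by
    have e : ((u : L) - 1) * algebraMap N L (b : N) ^ l = (y : L) - algebraMap N L (b : N) ^ l := by
      rw [← huy]
      ring
    have h2 := congrArg (w.valuation L) e
    rw [map_mul, hvbl, mul_one] at h2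
    rw [h2]
    exact hyb
  have ht0 : (t : L) ≠ 0 := t.ne_zero
  have hvt0 : w.valuation L (t : L) ≠ 0 := by
    rw [ht]
    exact WithZero.exp_ne_zero
  have hut : w.valuation L (((u : L) - 1) / (t : L)) ≤ 1 := by
    rw [map_div₀]
    refine div_le_one_of_le₀ ?_ zero_le
    rw [ht]
    exact hu1
  obtain ⟨c, hc⟩ := gn2_lift hloc (((u : L) - 1) / (t : L)) hut
  refine ⟨c, t ^ n * B, ?_⟩
  rw [← hu]
  have e : (u : L) - 1 - algebraMap N L (c : N) * (t : L) =
      (((u : L) - 1) / (t : L) - algebraMap N L (c : N)) * (t : L) := by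
    rw [sub_mul, div_mul_cancel₀ _ ht0]
  rw [e, map_mul, ht]
  calc _ ≤ WithZero.exp (-1 : ℤ) * WithZero.exp (-1 : ℤ) := mul_le_mul' hc le_rfl
    _ = _ := by
      rw [← WithZero.exp_add]
      norm_num

/-- Uniqueness: (z'/z)^l = u/u' is congruent to 1 modulo w, so z'/z is congruent to 1 modulo w (Frobenius injective: (z'/z - 1)^l = (z'/z)^l - 1 modulo l), (z'/z)^l is congruent to 1 modulo the square (e1_lpow, hloc.ram for l), so u = u' modulo the square. -/
theorem gn2_un {N L : Type} [Field N] [NumberField N] [Field L] [NumberField L] [Algebra N L] {l : ℕ} [Fact l.Prime]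
    {k κ : Type} [Field k] [Field κ] [Finite κ] [CharP κ l] {j : k →+* κ} {χ : Gal(L/N) →* kˣ} {w : Pl L} {t : Lˣ}
    {r : 𝓞 L →+* κ} (hloc : LocN j χ w t r) (x : Lˣ) (c c' : 𝓞 N) (z z' : Lˣ)
    (h : w.valuation L (((x * (z ^ l)⁻¹ : Lˣ) : L) - 1 - algebraMap N L (c : N) * (t : L)) ≤
      WithZero.exp (-2 : ℤ))
    (h' : w.valuation L (((x * (z' ^ l)⁻¹ : Lˣ) : L) - 1 - algebraMap N L (c' : N) * (t : L)) ≤
      WithZero.exp (-2 : ℤ)) :
    r (algebraMap (𝓞 N) (𝓞 L) c) = r (algebraMap (𝓞 N) (𝓞 L) c') := by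
  have hlp : l.Prime := Fact.out
  obtain ⟨u, hu⟩ : ∃ u : Lˣ, u = x * (z ^ l)⁻¹ := ⟨_, rfl⟩
  obtain ⟨u', hu'⟩ : ∃ u' : Lˣ, u' = x * (z' ^ l)⁻¹ := ⟨_, rfl⟩
  rw [← hu] at h
  rw [← hu'] at h'
  obtain ⟨h1, h2⟩ := gn2_one hloc (u : L) c h
  obtain ⟨h1', h2'⟩ := gn2_one hloc (u' : L) c' h'
  obtain ⟨y, hy⟩ : ∃ y : Lˣ, y = z' * z⁻¹ := ⟨_, rfl⟩
  have hyu : (y : L) ^ l * (u' : L) = (u : L) := by
    have h3 : y ^ l * u' = u := by
      rw [hy, hu, hu', mul_pow, inv_pow]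
      exact H13Z.GA4_g1 _ _ _
    rw [← h3, Units.val_mul, Units.val_pow_eq_pow_val]
  have hvyl : w.valuation L ((y : L) ^ l) = 1 := by
    have h4 := congrArg (w.valuation L) hyu
    rw [map_mul, h2', mul_one, h2] at h4
    exact h4
  have hvy : w.valuation L (y : L) = 1 := by
    rw [map_pow] at hvyl
    exact (pow_eq_one_iff_of_nonneg zero_le hlp.ne_zero).1 hvyl
  have huu : ((y : L) ^ l - 1) * (u' : L) = (u : L) - (u' : L) := by
    rw [← hyu]
    ring
  have hvuu := congrArg (w.valuation L) huu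
  rw [map_mul, h2', mul_one] at hvuu
  have h5 : w.valuation L ((y : L) ^ l - 1) ≤ WithZero.exp (-1 : ℤ) := by
    rw [hvuu]
    have e : (u : L) - (u' : L) = ((u : L) - 1) - ((u' : L) - 1) := by ring
    rw [e]
    exact Valuation.map_sub_le _ h1 h1'
  have h6 := gn2_root hloc (y : L) hvy.le h5
  rw [hvuu] at h6
  have h7 : w.valuation L (algebraMap N L ((c - c' : 𝓞 N) : N) * (t : L)) ≤ WithZero.exp (-2 : ℤ) := by
    have e : algebraMap N L ((c - c' : 𝓞 N) : N) * (t : L) = (((u : L) - (u' : L)) -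
        ((u : L) - 1 - algebraMap N L (c : N) * (t : L))) +
        ((u' : L) - 1 - algebraMap N L (c' : N) * (t : L)) := by
      have : ((c - c' : 𝓞 N) : N) = (c : N) - (c' : N) := rfl
      rw [this, map_sub]
      ring
    rw [e]
    exact Valuation.map_add_le _ (Valuation.map_sub_le _ h6 h) h'
  have h8 : w.valuation L (algebraMap N L ((c - c' : 𝓞 N) : N)) < 1 := by
    rw [map_mul, gn2_t hloc] at h7
    refine not_le.1 fun hge => ?_
    have h9 : WithZero.exp (-1 : ℤ) ≤ WithZero.exp (-2 : ℤ) := by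
      calc WithZero.exp (-1 : ℤ) = 1 * WithZero.exp (-1 : ℤ) := (one_mul _).symm
        _ ≤ w.valuation L (algebraMap N L ((c - c' : 𝓞 N) : N)) * WithZero.exp (-1 : ℤ) :=
          mul_le_mul' hge le_rfl
        _ ≤ _ := h7
    rw [WithZero.exp_le_exp] at h9
    norm_num at h9
  have h10 := (gn2_val hloc _).2 h8
  rw [map_sub, map_sub] at h10
  exact sub_eq_zero.1 h10


/-- Chunk GN2 (M), PORT of H13Z/GA4.lean to the base field N: the level one component. lev_exists (GA4, and GA4_lift, GA4_vl, GA4_t, GA4_root, GA4_one) and lev_unique with 𝓞 N for 𝓞 F and LocN for Loc (e1_val, e1_gal of H99B/E1.lean are stated over F: port the two lines; e1_mul, e1_lpow are general); additivity and equivariance as in lev_linear.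
Then c x = r (algebraMap (the element of 𝓞 N of lev_exists)) if l | ord W x, 0 otherwise. c x = 0: x z^-l - 1 = c t + .. with c of valuation at most exp(-2) (ram), so Lev (as hzero in GA5.lean). -/
theorem exists_lev {N L : Type} [Field N] [NumberField N] [Field L] [NumberField L] [Algebra N L] {l : ℕ}
    [Fact l.Prime] {k κ : Type} [Field k] [Field κ] [Finite κ] [CharP κ l] {j : k →+* κ}
    {χ : Gal(L/N) →* kˣ} {W : Pl L} {t : Lˣ} {r : 𝓞 L →+* κ} (hloc : LocN j χ W t r) :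
    ∃ c : Lˣ → κ,
      (∀ x y : Lˣ, (l : ℤ) ∣ ord W x → (l : ℤ) ∣ ord W y → c (x * y) = c x + c y) ∧
      (∀ (σ : Gal(L/N)) (x : Lˣ), (l : ℤ) ∣ ord W x → c (guN σ x) = j (χ σ : k) * c x) ∧
      ∀ x : Lˣ, (l : ℤ) ∣ ord W x → c x = 0 → Lev l W x := by
  have ht := gn2_t hloc
  have hex : ∀ x : Lˣ, ∃ (c : 𝓞 N) (z : Lˣ), (l : ℤ) ∣ ord W x →
      W.valuation L (((x * (z ^ l)⁻¹ : Lˣ) : L) - 1 - algebraMap N L (c : N) * (t : L)) ≤ WithZero.exp (-2 : ℤ) := by
    intro x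
    by_cases hx : (l : ℤ) ∣ ord W x
    · obtain ⟨c, z, h⟩ := gn2_ex hloc x hx
      exact ⟨c, z, fun _ => h⟩
    · exact ⟨0, 1, fun h => absurd h hx⟩
  choose C Z hC using hex
  refine ⟨fun x => r (algebraMap (𝓞 N) (𝓞 L) (C x)), ?_, ?_, ?_⟩
  · intro x y hx hy
    have hxy : (l : ℤ) ∣ ord W (x * y) := by
      rw [ord_mul]
      exact dvd_add hx hy
    have e1 : (x * y) * ((Z x * Z y) ^ l)⁻¹ = (x * (Z x ^ l)⁻¹) * (y * (Z y ^ l)⁻¹) := by
      rw [mul_pow, mul_inv]
      exact mul_mul_mul_comm x y _ _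
    have h1 := e1_mul (W.valuation L) ht.le (gn2_val hloc (C x)).1 (gn2_val hloc (C y)).1 (hC x hx) (hC y hy)
    rw [← Units.val_mul, ← e1] at h1
    have e2 : algebraMap N L (C x : N) + algebraMap N L (C y : N) = algebraMap N L ((C x + C y : 𝓞 N) : N) := by
      have : ((C x + C y : 𝓞 N) : N) = (C x : N) + (C y : N) := rfl
      rw [this, map_add]
    rw [e2] at h1
    have h2 := gn2_un hloc (x * y) (C (x * y)) (C x + C y) (Z (x * y)) (Z x * Z y) (hC _ hxy) h1
    show r (algebraMap (𝓞 N) (𝓞 L) (C (x * y))) = _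
    rw [h2, map_add, map_add]
  · intro σ x hx
    obtain ⟨X, hX⟩ := hloc.surj (j (χ σ : k))
    have hsx : (l : ℤ) ∣ ord W (guN σ x) := by
      rw [ord_guN, hloc.inv]
      exact hx
    have e1 : guN σ x * ((guN σ (Z x)) ^ l)⁻¹ = guN σ (x * (Z x ^ l)⁻¹) := by
      rw [map_mul, map_inv, map_pow]
    have h1 : W.valuation L (σ (((x * (Z x ^ l)⁻¹ : Lˣ) : L) - 1 -
        algebraMap N L (C x : N) * (t : L))) ≤ WithZero.exp (-2 : ℤ) := by
      rw [gn2_gal (hloc.inv σ)]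
      exact hC x hx
    have h0 : σ (((x * (Z x ^ l)⁻¹ : Lˣ) : L) - 1 - algebraMap N L (C x : N) * (t : L)) =
        σ ((x * (Z x ^ l)⁻¹ : Lˣ) : L) - 1 - algebraMap N L (C x : N) * σ (t : L) := by
      rw [map_sub, map_sub, map_mul, map_one, AlgEquiv.commutes]
    rw [h0, ← guN_apply, ← e1] at h1
    have h2 := hloc.act σ X hX
    have h3 : W.valuation L (((guN σ x * ((guN σ (Z x)) ^ l)⁻¹ : Lˣ) : L) - 1 -
        algebraMap N L ((C x * X : 𝓞 N) : N) * (t : L)) ≤ WithZero.exp (-2 : ℤ) := by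
      have e : ((guN σ x * ((guN σ (Z x)) ^ l)⁻¹ : Lˣ) : L) - 1 -
          algebraMap N L ((C x * X : 𝓞 N) : N) * (t : L) =
          (((guN σ x * ((guN σ (Z x)) ^ l)⁻¹ : Lˣ) : L) - 1 -
          algebraMap N L (C x : N) * σ (t : L)) +
          algebraMap N L (C x : N) * (σ (t : L) - algebraMap N L (X : N) * (t : L)) := by
        have : ((C x * X : 𝓞 N) : N) = (C x : N) * (X : N) := rfl
        rw [this, map_mul]
        ring
      rw [e]
      refine Valuation.map_add_le _ h1 ?_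
      rw [map_mul]
      calc _ ≤ 1 * WithZero.exp (-2 : ℤ) := mul_le_mul' (gn2_val hloc (C x)).1 h2
        _ = _ := one_mul _
    have h4 := gn2_un hloc (guN σ x) (C (guN σ x)) (C x * X) (Z (guN σ x)) (guN σ (Z x)) (hC _ hsx) h3
    show r (algebraMap (𝓞 N) (𝓞 L) (C (guN σ x))) = _
    rw [h4, map_mul, map_mul, hX, mul_comm]
  · intro x hx h0
    refine ⟨Z x, ?_⟩
    have e1 : ((x * (Z x ^ l)⁻¹ : Lˣ) : L) - 1 = (((x * (Z x ^ l)⁻¹ : Lˣ) : L) - 1 -
        algebraMap N L (C x : N) * (t : L)) + algebraMap N L (C x : N) * (t : L) := by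
      ring
    rw [e1]
    refine Valuation.map_add_le _ (hC x hx) ?_
    rw [map_mul]
    have h11 : WithZero.exp (-1 : ℤ) ≤ (1 : WithZero (Multiplicative ℤ)) := by
      rw [← WithZero.exp_zero, WithZero.exp_le_exp]
      norm_num
    calc W.valuation L (algebraMap N L (C x : N)) * W.valuation L (t : L) ≤ WithZero.exp (-2 : ℤ) * 1 :=
          mul_le_mul' (hloc.ram _ h0) (ht.le.trans h11)
      _ = _ := mul_one _

end H13Y
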