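import Mathlib
import Pool.Agent.Lib.H13Y.GN0
import Pool.Agent.Lib.H28G.K3

open NumberField IsDedekindDomain WeierstrassCurve

namespace H13Y

open H55B H55R H28G H99B

theorem gn9b_tower {N L : Type} [Field N] [NumberField N] [Field L] [NumberField L] [Algebra F N]
    [Algebra N L] [Algebra F L] [IsScalarTower F N L] (y : O) :
    algebraMap O (𝓞 L) y = algebraMap (𝓞 N) (𝓞 L) (algebraMap O (𝓞 N) y) := by
  apply RingOfIntegers.ext
  exact IsScalarTower.algebraMap_apply F N L (y : F)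

theorem gn9b_surj {N L : Type} [Field N] [NumberField N] [Field L] [NumberField L] [Algebra N L] [IsGalois N L]
    (v : Pl N) (w : Pl L) (hw : w.under (𝓞 N) = v) (hf : fs N L v = 1) (b : 𝓞 L ⧸ w.asIdeal) :
    ∃ y : 𝓞 N, Ideal.Quotient.mk w.asIdeal (algebraMap (𝓞 N) (𝓞 L) y) = b := by
  have hu : ∀ y : 𝓞 N, y ∈ v.asIdeal ↔ algebraMap (𝓞 N) (𝓞 L) y ∈ w.asIdeal := by
    intro y
    rw [← hw]
    exact Iff.rfl
  let φ : (𝓞 N ⧸ v.asIdeal) →+* (𝓞 L ⧸ w.asIdeal) :=
    Ideal.quotientMap w.asIdeal (algebraMap (𝓞 N) (𝓞 L)) fun y hy => (hu y).1 hy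
  have hφ1 : Function.Injective φ := Ideal.quotientMap_injective' fun y hy => (hu y).2 hy
  have hfin1 : Finite (𝓞 N ⧸ v.asIdeal) := Ideal.finiteQuotientOfFreeOfNeBot v.asIdeal v.ne_bot
  have hfin2 : Finite (𝓞 L ⧸ w.asIdeal) := Ideal.finiteQuotientOfFreeOfNeBot w.asIdeal w.ne_bot
  have hcard : Nat.card (𝓞 N ⧸ v.asIdeal) = Nat.card (𝓞 L ⧸ w.asIdeal) := by
    have h1 := D5_norm v w hw
    rw [hf, pow_one, Ideal.absNorm_apply, Ideal.absNorm_apply, Submodule.cardQuot_apply,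
      Submodule.cardQuot_apply] at h1
    exact h1.symm
  have hφ : Function.Bijective φ := (Nat.bijective_iff_injective_and_card φ).2 ⟨hφ1, hcard⟩
  obtain ⟨z, hz⟩ := hφ.2 b
  obtain ⟨y, rfl⟩ := Ideal.Quotient.mk_surjective z
  exact ⟨y, hz⟩

theorem gn9b_ram {N L : Type} [Field N] [NumberField N] [Field L] [NumberField L] [Algebra N L] [IsGalois N L]
    (v : Pl N) (w : Pl L) (hw : w.under (𝓞 N) = v) (he : 2 ≤ es N L v) (y : 𝓞 N)
    (hy : algebraMap (𝓞 N) (𝓞 L) y ∈ w.asIdeal) :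
    w.valuation L (algebraMap N L (y : N)) ≤ WithZero.exp (-2 : ℤ) := by
  have hyv : y ∈ v.asIdeal := by
    rw [← hw]
    exact hy
  by_cases h0 : (y : N) = 0
  · rw [h0, map_zero, map_zero]
    exact zero_le
  · let u : Nˣ := Units.mk0 (y : N) h0
    have h1 : v.valuation N (y : N) < 1 := (v.valuation_lt_one_iff_mem y).2 hyv
    have h2 := BF1_val v u
    have h3 : (u : N) = (y : N) := rfl
    rw [h3] at h2
    rw [h2, ← WithZero.exp_zero, WithZero.exp_lt_exp] at h1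
    have h4 := ord_map w v hw u
    have h5 := BF1_val w (Units.map (algebraMap N L : N →* L) u)
    have h6 : ((Units.map (algebraMap N L : N →* L) u : Lˣ) : L) = algebraMap N L (y : N) := rfl
    rw [h6, h4] at h5
    rw [h5, WithZero.exp_le_exp]
    have h7 : (2 : ℤ) ≤ (es N L v : ℤ) := by exact_mod_cast he
    have h8 : 1 ≤ ord v u := by omega
    nlinarith

/-- Chunk GN9b (M), PORT of H28G.exists_loc (K7.lean) to the base field N, at every prime W above π. TotRam N L π v for v = W.under (𝓞 N) (tot_ram hp hπ hL v (hun v ..)); t = tt T, T in Tor π L, T ≠ 0 (exists_tor hp hL.full), ord W t = 1 (TotRam.val). j: k →+* Kap W: k = O/(π) through q (hq, hk) and O → 𝓞 L → Kap W kills π: j (q c) = kmk W (algebraMap c) (Ideal.Quotient.lift and the isomorphism O/ker q ≃ k, as q' in K7_res).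
surj: fs N L v = 1, so 𝓞 N / v → 𝓞 L / W is bijective (D5_norm and cardinalities, as in K7_res). ram: y in W ∩ 𝓞 N = v, W.valuation y ≤ exp(-es), es = Nm π - 1 ≥ 2 (ord_map / valuation of y at v ≤ exp(-1)). inv: TotRam.one, under_smulP. act: r y = j (χ σ) = kmk W c with q c = χ σ, c in O: sp σ T = act c T (hχ), so W.valuation (σ t - c t) ≤ exp(-2) (E1_act, tt_sp), y - c in W ∩ 𝓞 N, W.valuation ((y - c) t) ≤ exp(-2) by ram. -/
theorem exists_locN {l : ℕ} [Fact l.Prime] {π : O} (hp : Prime π) (hπ : Prim π) {N L : Type} [Field N]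
    [NumberField N] [Field L] [NumberField L] [DecidableEq L] [Algebra F N] [Algebra N L] [Algebra F L]
    [IsScalarTower F N L] (hL : TFld N L π) (h2 : 2 < Nm π)
    (hun : ∀ v : Pl N, algebraMap O (𝓞 N) π ∈ v.asIdeal → v.valuation N (ak N π) = WithZero.exp (-1 : ℤ))
    {k : Type} [Field k] (q : O →+* k) (hq : Function.Surjective q) (hk : ∀ x, q x = 0 ↔ π ∣ x)
    (χ : Gal(L/N) →* kˣ) (hχ : ∀ (σ : Gal(L/N)) (c : O), q c = χ σ → ∀ R ∈ Tor π L, sp σ R = act c R)
    (W : Pl L) (hW : algebraMap O (𝓞 L) π ∈ W.asIdeal) :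
    ∃ (j : k →+* Kap W) (t : Lˣ), LocN j χ W t (kmk W) := by
  have hgal : IsGalois N L := hL.gal
  obtain ⟨v, hWv⟩ : ∃ v : Pl N, W.under (𝓞 N) = v := ⟨_, rfl⟩
  have hmem : ∀ y : 𝓞 N, y ∈ v.asIdeal ↔ algebraMap (𝓞 N) (𝓞 L) y ∈ W.asIdeal := by
    intro y
    rw [← hWv]
    exact Iff.rfl
  have hv : algebraMap O (𝓞 N) π ∈ v.asIdeal := by
    rw [hmem, ← gn9b_tower]
    exact hW
  have TR := tot_ram hp hπ hL v (hun v hv)
  have he : 2 ≤ es N L v := by
    rw [TR.es]
    omega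
  obtain ⟨T, hT, h0⟩ := exists_tor hp hL.full
  obtain ⟨hT1, hT2⟩ := TR.val W hWv T hT h0
  have ht0 : tt T ≠ 0 := by
    intro h
    rw [h, map_zero] at hT2
    exact WithZero.exp_ne_zero hT2.symm
  have hψ : ∀ a : O, q a = 0 → ((kmk W).comp (algebraMap O (𝓞 L))) a = 0 := by
    intro a ha
    rw [hk] at ha
    obtain ⟨c, rfl⟩ := ha
    rw [map_mul, RingHom.comp_apply, (kmk_zero W _).2 hW, zero_mul]
  let j : k →+* Kap W := q.liftOfSurjective hq ⟨(kmk W).comp (algebraMap O (𝓞 L)), fun a ha => hψ a ha⟩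
  have hj : ∀ y : O, j (q y) = kmk W (algebraMap (𝓞 N) (𝓞 L) (algebraMap O (𝓞 N) y)) := by
    intro y
    rw [← gn9b_tower]
    exact RingHom.liftOfRightInverse_comp_apply q (Function.surjInv hq) (Function.rightInverse_surjInv hq)
      ⟨(kmk W).comp (algebraMap O (𝓞 L)), fun a ha => hψ a ha⟩ y
  refine ⟨j, Units.mk0 (tt T) ht0, ⟨fun x => kmk_zero W x, fun b => ?_, fun y hy => ?_, fun σ => ?_, ?_,
    fun σ y hy => ?_⟩⟩
  · exact gn9b_surj v W hWv TR.fs b
  · exact gn9b_ram v W hWv he y ((kmk_zero W _).1 hy)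
  · exact TR.one _ _ ((under_smulP σ W).trans hWv) hWv
  · have h1 := BF1_val W (Units.mk0 (tt T) ht0)
    rw [Units.val_mk0, hT2, WithZero.exp_inj] at h1
    omega
  · obtain ⟨c, hc⟩ := hq (χ σ : k)
    have h1 := hχ σ c hc T hT
    have h4 := (E1_act (W.valuation L) (P := T) (Or.inr hT1) c).2.1
    rw [← h1, tt_sp, hT2] at h4
    have h5 : W.valuation L (algebraMap N L (((y - algebraMap O (𝓞 N) c : 𝓞 N)) : N)) ≤
        WithZero.exp (-2 : ℤ) := by
      refine gn9b_ram v W hWv he _ ((kmk_zero W _).1 ?_)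
      rw [map_sub, map_sub, hy, ← hc, hj, sub_self]
    have h6 : ((y - algebraMap O (𝓞 N) c : 𝓞 N) : N) = (y : N) - algebraMap F N (c : F) := rfl
    have h10 : algebraMap N L (y : N) - algebraMap F L (c : F) =
        algebraMap N L (((y - algebraMap O (𝓞 N) c : 𝓞 N)) : N) := by
      rw [h6, map_sub, IsScalarTower.algebraMap_apply F N L]
    rw [← h10] at h5
    have h7 : σ ((Units.mk0 (tt T) ht0 : Lˣ) : L) - algebraMap N L (y : N) * ((Units.mk0 (tt T) ht0 : Lˣ) : L) =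
        (σ (tt T) - ak L c * tt T) - (algebraMap N L (y : N) - algebraMap F L (c : F)) * tt T := by
      have h8 : ak L c = algebraMap F L (c : F) := rfl
      rw [Units.val_mk0, h8]
      ring
    rw [h7]
    have h9 : (WithZero.exp (-1 : ℤ)) ^ 2 = (WithZero.exp (-2 : ℤ)) := by
      rw [← WithZero.exp_nsmul]
      norm_num
    rw [h9] at h4
    refine (W.valuation L).map_sub_le h4 ?_
    rw [map_mul, hT2]
    refine (mul_le_of_le_one_right' ?_).trans h5
    rw [← WithZero.exp_zero, WithZero.exp_le_exp]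
    norm_num

end H13Y
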