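import Mathlib
import Pool.Agent.Lib.H13Y.GN0
import Pool.Agent.Lib.H99B.Defs

open NumberField IsDedekindDomain

namespace H13Y

open H55B H55R H28G H99B

section

variable {N L : Type} [Field N] [NumberField N] [Field L] [NumberField L] [Algebra N L]
variable {l : ℕ} {k : Type} [Field k]

/-- Chunk GN1 (S/M), PORT of H99B.eta_hom (B5.lean) to the base field N: the maps a -> M_a x. (Look at B5.lean; the abstract lemmas on pw and cf there are general or copy them with guN for gu.) -/
theorem etaN_hom [Fact l.Prime] [Fintype k] [DecidableEq k] [CharP k l] (χ : Gal(L/N) →* kˣ)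
    (ρ : k →+ ZMod l) (x : Lˣ) : EqHomN l χ fun a => pw guN (cf χ ρ a) x := by
  constructor
  · intro a b
    have hcf : ∀ g, ∃ t : ℤ, cf χ ρ (a + b) g = cf χ ρ a g + cf χ ρ b g + t * l := by
      intro g
      have h : ((cf χ ρ a g + cf χ ρ b g : ℤ) : ZMod l) = ((cf χ ρ (a + b) g : ℤ) : ZMod l) := by
        unfold cf
        push_cast
        simp only [ZMod.natCast_zmod_val]
        rw [← map_add, ← add_mul]
      rw [ZMod.intCast_eq_intCast_iff_dvd_sub] at h
      obtain ⟨t, ht⟩ := h
      exact ⟨t, by rw [mul_comm t, ← ht]; ring⟩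
    choose t ht using hcf
    refine ⟨∏ g, (guN g x) ^ t g, ?_⟩
    change pw guN (cf χ ρ (a + b)) x = pw guN (cf χ ρ a) x * pw guN (cf χ ρ b) x * _
    unfold pw
    rw [← Finset.prod_mul_distrib, ← Finset.prod_pow, ← Finset.prod_mul_distrib]
    refine Finset.prod_congr rfl fun g _ => ?_
    rw [ht g, zpow_add, zpow_add, zpow_mul, zpow_natCast]
  · intro τ a
    refine ⟨1, ?_⟩
    rw [one_pow, mul_one]
    change pw guN (cf χ ρ (χ τ * a)) x = guN τ (pw guN (cf χ ρ a) x)
    unfold pw
    rw [map_prod]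
    refine (Fintype.prod_equiv (Equiv.mulLeft τ) _ _ fun g => ?_).symm
    simp only [Equiv.coe_mulLeft]
    rw [map_zpow, map_mul]
    have e : cf χ ρ ((χ τ : k) * a) (τ * g) = cf χ ρ a g := by
      unfold cf
      congr 3
      rw [map_mul, mul_inv, Units.val_mul]
      have h : (χ τ : k) * (((χ τ)⁻¹ : kˣ) : k) = 1 := Units.mul_inv _
      linear_combination (a * (((χ g)⁻¹ : kˣ) : k)) * h
    rw [e]
    rfl

theorem pwN_mem {w : Pl N} (α : Gal(L/N) → ℤ) {x : Lˣ} (hx : x ∈ SU L w) : pw guN α x ∈ SU L w := by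
  unfold pw
  exact Subgroup.prod_mem _ fun σ _ => Subgroup.zpow_mem _ (SU_act σ hx) _

/-- An l-th power in Lˣ of an element of SU is the l-th power of an element of SU. -/
theorem SU_pow {w : Pl N} (hl : l ≠ 0) {x z : Lˣ} (hx : x ∈ SU L w) (h : x = z ^ l) : z ∈ SU L w := by
  intro v hv
  have h1 := hx v hv
  rw [h, ← zpow_natCast, ord_zpow, mul_eq_zero] at h1
  rcases h1 with h1 | h1
  · exact absurd (by exact_mod_cast h1) hl
  · exact h1

end

end H13Y
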