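import Mathlib
import Pool.Agent.Lib.H28G.K14
import Pool.Agent.Lib.H28G.K3
import Pool.Agent.Lib.H28G.K4

open NumberField IsDedekindDomain WeierstrassCurve

namespace H13Y

open H55B H55R H28G H99B

/-- Chunk GN11a (S). There is a prime v of N above π (a prime of N above the prime span {π} of O); TotRam gives [L : N] = Nm π - 1 = card kˣ and χ is injective (TFld.gen: χ σ = 1 gives sp σ R = act 1 R = R): bijective. Compare H28G.chi_bij (K14.lean). -/
theorem chi_bijN {π : O} (hp : Prime π) (hπ : Prim π) {N L : Type} [Field N]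
    [NumberField N] [Field L] [NumberField L] [DecidableEq L] [Algebra F N] [Algebra N L] [Algebra F L]
    [IsScalarTower F N L] (hL : TFld N L π)
    (hun : ∀ v : Pl N, algebraMap O (𝓞 N) π ∈ v.asIdeal → v.valuation N (ak N π) = WithZero.exp (-1 : ℤ))
    {k : Type} [Field k] [Fintype k] (q : O →+* k) (hq : Function.Surjective q)
    (hk : ∀ x, q x = 0 ↔ π ∣ x) (χ : Gal(L/N) →* kˣ)
    (hχ : ∀ (σ : Gal(L/N)) (c : O), q c = χ σ → ∀ R ∈ Tor π L, sp σ R = act c R) :
    Fintype.card k = Nm π ∧ Function.Bijective χ := by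
  classical
  obtain ⟨v, hv⟩ : ∃ v : Pl N, algebraMap O (𝓞 N) π ∈ v.asIdeal := by
    have h1 : ¬ IsUnit (algebraMap O (𝓞 N) π) := by
      intro h
      exact hp.not_isUnit ((isUnit_map_iff (algebraMap O (𝓞 N)) π).1 h)
    have h0 : algebraMap O (𝓞 N) π ≠ 0 := by
      intro h
      apply hp.ne_zero
      exact (FaithfulSMul.algebraMap_injective O (𝓞 N)) (by rw [h, map_zero])
    obtain ⟨M, hM, hle⟩ := Ideal.exists_le_maximal (Ideal.span {algebraMap O (𝓞 N) π})
      (by rwa [Ne, Ideal.span_singleton_eq_top])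
    have hmem : algebraMap O (𝓞 N) π ∈ M := hle (Ideal.mem_span_singleton_self _)
    refine ⟨⟨M, hM.isPrime, ?_⟩, hmem⟩
    rintro rfl
    exact h0 (by simpa using hmem)
  have htot := tot_ram hp hπ hL v (hun v hv)
  have hgal : IsGalois N L := hL.gal
  have hfin : Finite kˣ := inferInstance
  refine ⟨by rw [← Nat.card_eq_fintype_card, K14_card q hq hk], ?_⟩
  rw [Nat.bijective_iff_injective_and_card]
  constructor
  · rw [injective_iff_map_eq_one]
    intro σ hσ
    refine hL.gen σ fun R hR => ?_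
    rw [hχ σ 1 (by rw [hσ, map_one, Units.val_one]) R hR, act_one]
  · rw [IsGalois.card_aut_eq_finrank, htot.deg, ← K14_card q hq hk, Nat.card_units]

end H13Y
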