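import Mathlib
import Pool.Agent.Lib.H99B.Defs

open NumberField IsDedekindDomain

namespace H13Y

open H99B

/-- Chunk GN4 (M). The complex Teichmueller character. V: a valuation subring of ℂ in which l is not a unit (LocalSubring.exists_le_valuationSubring for the local ring ℤ localized at l, or ValuationSubring from an extension of the l-adic valuation; or: a maximal element of the set of pairs (subring, prime over l); look in Mathlib for `exists_le_valuationSubring` or `bijective_rangeRestrict_comp_of_valuationRing`, and in Lib/H55N, Lib/H55P, Lib/H13S for an existing construction of a ValuationSubring with V l < 1).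
The residue field kV of V is algebraically closed (a monic polynomial over kV lifts to a monic polynomial over V, its roots in ℂ lie in V: V is integrally closed) and has characteristic l. So there is a ring homomorphism i : k →+* kV (IsAlgClosed.lift, k algebraic over ZMod l). q = card k. The (q - 1)-th roots of unity of ℂ lie in V, and two different ones are different in kV
(X^(q-1) - 1 is separable over kV because q - 1 = -1 in kV; or: the product of 1 - ζ over ζ ≠ 1 is q - 1, a unit of V). They are q - 1 in number, so the reduction is a bijection onto the (q - 1)-th roots of unity of kV, and i (c), c in kˣ, is such a root: ω g = the lift of i (χ g), multiplicative by uniqueness, injective as χ and i are.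
The sum over g of α g ω g lies in V and reduces to i (chs χ α) ≠ 0, so it is a unit of V. -/
theorem exists_teich (l : ℕ) [Fact l.Prime] {k : Type} [Field k] [Fintype k] [CharP k l] {G : Type}
    [Group G] [Fintype G] (χ : G →* kˣ) (hχ : Function.Injective χ) :
    ∃ (V : ValuationSubring ℂ) (ω : G →* ℂˣ), V.valuation (l : ℂ) < 1 ∧ Function.Injective ω ∧
      ∀ α : G → ℤ, chs χ α ≠ 0 → V.valuation (∑ g, (α g : ℂ) * (ω g : ℂ)) = 1 := by
  classical
  have hcyc : IsCyclic G := isCyclic_of_injective χ hχ
  obtain ⟨g0, hg0⟩ := IsCyclic.exists_generator (α := G)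
  set m := orderOf g0 with hm
  have hmpos : 0 < m := orderOf_pos g0
  have hζ := Complex.isPrimitiveRoot_exp m hmpos.ne'
  set ζ : ℂ := Complex.exp (2 * Real.pi * Complex.I / m) with hζd
  let ζu : ℂˣ := (hζ.isUnit hmpos.ne').unit
  have hζc : (ζu : ℂ) = ζ := rfl
  have hζu : IsPrimitiveRoot ζu m := by
    rw [← IsPrimitiveRoot.coe_units_iff]; exact hζ
  have hord : orderOf ζu = m := hζu.eq_orderOf.symm
  have hdv : orderOf ζu ∣ orderOf g0 := by rw [hord]
  let ω : G →* ℂˣ := monoidHomOfForallMemZpowers hg0 hdv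
  have hω0 : ω g0 = ζu := monoidHomOfForallMemZpowers_apply_gen hg0 _
  let φ : Polynomial ℤ →+* ℂ := Polynomial.eval₂RingHom (Int.castRingHom ℂ) ζ
  let ψ : Polynomial ℤ →+* k := Polynomial.eval₂RingHom (Int.castRingHom k) (χ g0 : k)
  have hχ0 : IsPrimitiveRoot (χ g0 : k) m := by
    rw [IsPrimitiveRoot.coe_units_iff]
    have : orderOf (χ g0) = m := orderOf_injective χ hχ g0
    exact this ▸ IsPrimitiveRoot.orderOf (χ g0)
  have hker : ∀ p : Polynomial ℤ, φ p = 0 → ψ p = 0 := by
    intro p hp
    have h1 : minpoly ℤ ζ ∣ p :=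
      minpoly.isIntegrallyClosed_dvd (hζ.isIntegral hmpos) (by rw [Polynomial.aeval_def]; exact hp)
    rw [← Polynomial.cyclotomic_eq_minpoly hζ hmpos] at h1
    obtain ⟨r, rfl⟩ := h1
    rw [map_mul]
    have h2 : ψ (Polynomial.cyclotomic m ℤ) = 0 := by
      show Polynomial.eval₂ _ _ _ = 0
      rw [← Polynomial.eval_map, Polynomial.map_cyclotomic]
      exact hχ0.isRoot_cyclotomic hmpos
    rw [h2, zero_mul]
  let I : Ideal φ.range := Ideal.map φ.rangeRestrict (RingHom.ker ψ)
  have hI : I ≠ ⊤ := by
    intro h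
    have h1 : (1 : φ.range) ∈ I := by rw [h]; trivial
    obtain ⟨p, hp, hp1⟩ := (Ideal.mem_map_iff_of_surjective _ φ.rangeRestrict_surjective).1 h1
    have h2 : φ p = 1 := congrArg Subtype.val hp1
    have h3 : ψ (p - 1) = 0 := hker _ (by rw [map_sub, map_one, h2, sub_self])
    rw [map_sub, map_one, (RingHom.mem_ker).1 hp, zero_sub, neg_eq_zero] at h3
    exact one_ne_zero h3
  obtain ⟨V, hV1, hV2⟩ := Ideal.image_subset_nonunits_valuationSubring I hI
  have hle : ∀ p, V.valuation (φ p) ≤ 1 := fun p => (V.valuation_le_one_iff _).2 (hV1 ⟨p, rfl⟩)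
  have hlt : ∀ p, ψ p = 0 → V.valuation (φ p) < 1 := by
    intro p hp
    rw [← ValuationSubring.mem_nonunits_iff]
    exact hV2 ⟨φ.rangeRestrict p, Ideal.mem_map_of_mem _ ((RingHom.mem_ker).2 hp), rfl⟩
  have hone : ∀ p, ψ p ≠ 0 → V.valuation (φ p) = 1 := by
    intro p hp
    have h1 : ψ (p ^ (Fintype.card k - 1) - 1) = 0 := by
      rw [map_sub, map_pow, map_one, FiniteField.pow_card_sub_one_eq_one _ hp, sub_self]
    have h2 := hlt _ h1
    refine le_antisymm (hle p) (not_lt.1 fun h3 => ?_)
    have hc : Fintype.card k - 1 ≠ 0 := by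
      have := Fintype.one_lt_card (α := k)
      omega
    have h4 : V.valuation (φ (p ^ (Fintype.card k - 1))) < 1 := by
      rw [map_pow, map_pow]
      exact pow_lt_one₀ zero_le h3 hc
    have h5 : V.valuation (φ (p ^ (Fintype.card k - 1)) - φ (p ^ (Fintype.card k - 1) - 1)) < 1 :=
      lt_of_le_of_lt (Valuation.map_sub _ _ _) (max_lt h4 h2)
    rw [← map_sub, sub_sub_cancel, map_one, map_one] at h5
    exact lt_irrefl _ h5
  refine ⟨V, ω, ?_, ?_, ?_⟩
  · have h1 : ψ (l : Polynomial ℤ) = 0 := by
      rw [map_natCast, CharP.cast_eq_zero]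
    have h2 := hlt _ h1
    rwa [map_natCast] at h2
  · rw [injective_iff_map_eq_one]
    intro x hx
    obtain ⟨j, rfl⟩ := hg0 x
    have h1 : ζu ^ j = 1 := by rw [← hω0, ← map_zpow]; exact hx
    rw [← orderOf_dvd_iff_zpow_eq_one, hord] at h1
    exact orderOf_dvd_iff_zpow_eq_one.1 h1
  · intro α hα
    have hj : ∀ g : G, ∃ j : ℕ, g0 ^ j = g := fun g => by
      have := hg0 g
      rw [← mem_powers_iff_mem_zpowers] at this
      exact this
    choose j hj using hj
    have h1 : ψ (∑ g, Polynomial.C (α g) * Polynomial.X ^ j g) = chs χ α := by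
      rw [map_sum]
      refine Finset.sum_congr rfl fun g _ => ?_
      rw [map_mul, map_pow]
      show Polynomial.eval₂ _ _ _ * Polynomial.eval₂ _ _ _ ^ _ = _
      rw [Polynomial.eval₂_C, Polynomial.eval₂_X, ← Units.val_pow_eq_pow_val, ← map_pow, hj]
      rfl
    have h2 : φ (∑ g, Polynomial.C (α g) * Polynomial.X ^ j g) = ∑ g, (α g : ℂ) * (ω g : ℂ) := by
      rw [map_sum]
      refine Finset.sum_congr rfl fun g _ => ?_
      rw [map_mul, map_pow]
      show Polynomial.eval₂ _ _ _ * Polynomial.eval₂ _ _ _ ^ _ = _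
      rw [Polynomial.eval₂_C, Polynomial.eval₂_X, ← hζc, ← hω0, ← Units.val_pow_eq_pow_val, ← map_pow, hj]
      rfl
    rw [← h2]
    exact hone _ (by rw [h1]; exact hα)

end H13Y
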