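import Mathlib

open NumberField

namespace H13Y

theorem gn5_real {L : Type} [Field L] [NumberField L] (hc : ∀ w : InfinitePlace L, w.IsComplex)
    (b : InfinitePlace L → ℝ)
    (h : ∀ u : (𝓞 L)ˣ, ∑ w : InfinitePlace L, b w * Real.log (w ((u : 𝓞 L) : L)) = 0)
    (w w' : InfinitePlace L) : b w = b w' := by
  classical
  obtain ⟨w₁, hw₁⟩ := Finite.exists_max b
  obtain ⟨u, hu⟩ := NumberField.Units.dirichletUnitTheorem.exists_unit L w₁
  have h0 : ∑ w : InfinitePlace L, Real.log (w ((u : 𝓞 L) : L)) = 0 := by
    have h1 := NumberField.Units.sum_mult_mul_log u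
    have h2 : ∀ w : InfinitePlace L, (w.mult : ℝ) * Real.log (w ((u : 𝓞 L) : L)) = 2 * Real.log (w ((u : 𝓞 L) : L)) := by
      intro w
      rw [InfinitePlace.mult, if_neg (InfinitePlace.not_isReal_iff_isComplex.2 (hc w))]
      norm_num
    simp only [h2] at h1
    rw [← Finset.mul_sum] at h1
    linarith
  have h3 : ∑ w : InfinitePlace L, (b w - b w₁) * Real.log (w ((u : 𝓞 L) : L)) = 0 := by
    simp only [sub_mul]
    rw [Finset.sum_sub_distrib, h u, ← Finset.mul_sum, h0]
    ring
  have h4 : ∀ w ∈ (Finset.univ : Finset (InfinitePlace L)), 0 ≤ (b w - b w₁) * Real.log (w ((u : 𝓞 L) : L)) := by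
    intro w _
    by_cases e : w = w₁
    · rw [e, sub_self, zero_mul]
    · exact mul_nonneg_of_nonpos_of_nonpos (sub_nonpos.2 (hw₁ w)) (hu w e).le
  have h5 : ∀ w, b w = b w₁ := by
    intro w
    by_cases e : w = w₁
    · rw [e]
    · have h6 := (Finset.sum_eq_zero_iff_of_nonneg h4).1 h3 w (Finset.mem_univ w)
      rcases mul_eq_zero.1 h6 with h7 | h7
      · linarith
      · exact absurd h7 (hu w e).ne
  rw [h5 w, h5 w']

/-- Chunk GN5 (S/M). The only relations between the logarithms of units. First b real: w₁ with b w₁ maximal (Finite (InfinitePlace L)), Mathlib NumberField.Units.dirichletUnitTheorem.exists_unit w₁: a unit u with log (w u) < 0 for all w ≠ w₁. Product formula for units (NumberField.InfinitePlace.prod_eq_abs_norm and Units.norm / sum_mult_mul_log; mult = 2 at complex places): sum over w of log (w u) = 0.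
So 0 = sum of b w log (w u) = sum over w ≠ w₁ of (b w - b w₁) log (w u), a sum of terms ≥ 0: all are 0 and b w = b w₁. For complex b take real and imaginary parts. -/
theorem dir_rel {L : Type} [Field L] [NumberField L] (hc : ∀ w : InfinitePlace L, w.IsComplex)
    (b : InfinitePlace L → ℂ)
    (h : ∀ u : (𝓞 L)ˣ, ∑ w : InfinitePlace L, b w * (Real.log (w ((u : 𝓞 L) : L)) : ℂ) = 0)
    (w w' : InfinitePlace L) : b w = b w' := by
  apply Complex.ext
  · refine gn5_real hc (fun w => (b w).re) (fun u => ?_) w w'
    have h1 := congrArg Complex.re (h u)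
    rw [Complex.re_sum] at h1
    simpa using h1
  · refine gn5_real hc (fun w => (b w).im) (fun u => ?_) w w'
    have h1 := congrArg Complex.im (h u)
    rw [Complex.im_sum] at h1
    simpa using h1

end H13Y
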