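import Mathlib
import Pool.Agent.Lib.H28G.GB2
import Pool.Agent.Lib.H55B.H2
import Pool.Agent.Lib.H99B.Defs

open NumberField IsDedekindDomain

namespace H13Y

open H55B H55R H28G H99B

theorem gn6a_comap {N L : Type} [Field N] [Field L] [Algebra N L] (w : InfinitePlace L) (σ : Gal(L/N)) :
    (w.comap ((σ : L ≃ₐ[N] L) : L →+* L)).comap (algebraMap N L) = w.comap (algebraMap N L) := by
  rw [← InfinitePlace.comap_comp]
  congr 1
  ext x
  exact σ.commutes x

theorem gn6a_smul {N L : Type} [Field N] [Field L] [Algebra N L] (w : InfinitePlace L) (σ : Gal(L/N)) :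
    w.comap ((σ : L ≃ₐ[N] L) : L →+* L) = σ⁻¹ • w := rfl

/-- Chunk GN6a (M). The infinite places of a Galois extension L of a totally complex field N: u v = a place above v (InfinitePlace.comap_surjective); Galois is transitive on the places above v (InfinitePlace.exists_smul_eq_of_comap_eq) and the stabilizers are trivial (v is complex, so v is unramified in L: InfinitePlace.IsUnramified, isUnramified_iff.. / card_stabilizer = 1). σ • w = w.comap σ.symm (InfinitePlace.smul_eq_comap). -/
theorem places_bij {N L : Type} [Field N] [NumberField N] [Field L] [NumberField L] [Algebra N L]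
    [IsGalois N L] (hc : ∀ v : InfinitePlace N, v.IsComplex) :
    ∃ u : InfinitePlace N → InfinitePlace L,
      Function.Bijective fun p : Gal(L/N) × InfinitePlace N => (u p.2).comap ((p.1 : L ≃ₐ[N] L) : L →+* L) := by
  choose u hu using fun v : InfinitePlace N => InfinitePlace.comap_surjective (K := L) v
  have hu' : ∀ v, (u v).comap (algebraMap N L) = v := hu
  refine ⟨u, ?_, ?_⟩
  · rintro ⟨σ, v⟩ ⟨τ, v'⟩ h
    have h1 : (u v).comap ((σ : L ≃ₐ[N] L) : L →+* L) = (u v').comap ((τ : L ≃ₐ[N] L) : L →+* L) := h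
    have h2 := congrArg (fun w => InfinitePlace.comap w (algebraMap N L)) h1
    simp only [gn6a_comap, hu'] at h2
    subst h2
    rw [gn6a_smul, gn6a_smul] at h1
    have h3 : (τ * σ⁻¹) • u v = u v := by
      rw [mul_smul, h1, smul_inv_smul]
    have h4 : InfinitePlace.IsUnramified N (u v) := by
      rw [InfinitePlace.isUnramified_iff]
      right
      rw [hu']
      exact hc v
    rw [InfinitePlace.isUnramified_iff_stabilizer_eq_bot] at h4
    have h5 : τ * σ⁻¹ ∈ MulAction.stabilizer Gal(L/N) (u v) := h3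
    rw [h4, Subgroup.mem_bot, mul_inv_eq_one] at h5
    rw [h5]
  · intro w
    obtain ⟨σ, hσ⟩ := InfinitePlace.exists_smul_eq_of_comap_eq (k := N) (w := u (w.comap (algebraMap N L))) (w' := w)
      (hu' _)
    refine ⟨(σ⁻¹, w.comap (algebraMap N L)), ?_⟩
    show (u (w.comap (algebraMap N L))).comap (((σ⁻¹ : Gal(L/N)) : L ≃ₐ[N] L) : L →+* L) = w
    rw [gn6a_smul, inv_inv, hσ]

end H13Y
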