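import Mathlib
import Pool.Agent.Lib.H28G.GB2
import Pool.Agent.Lib.H55R.HA7
import Pool.Agent.Lib.H99B.C1

open NumberField IsDedekindDomain

namespace H13Y

open H55B H55R H28G H99B

/-- Chunk GN7a (S). Q^h is principal, h = the class number of L (or use the finiteness H99B.fin_class of divisors modulo principal divisors: h = the order of that group; divF). -/
theorem exists_zQ {L : Type} [Field L] [NumberField L] (Q : Pl L) :
    ∃ (h : ℕ) (z : Lˣ), h ≠ 0 ∧ ord Q z = h ∧ ∀ v : Pl L, v ≠ Q → ord v z = 0 := by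
  classical
  have hfin := fin_class (L := L)
  obtain ⟨h, hh, he⟩ := isOfFinAddOrder_iff_nsmul_eq_zero.1
    (isOfFinAddOrder_of_finite (QuotientAddGroup.mk (s := (divF (L := L)).range) (Finsupp.single Q (1 : ℤ))))
  have h1 : QuotientAddGroup.mk (s := (divF (L := L)).range) (h • Finsupp.single Q (1 : ℤ)) = 0 := he
  rw [QuotientAddGroup.eq_zero_iff] at h1
  obtain ⟨z, hz⟩ := h1
  refine ⟨h, z.toMul, hh.ne', ?_, ?_⟩
  · have h2 := DFunLike.congr_fun hz Q
    have h3 : ord Q z.toMul = (h • Finsupp.single Q (1 : ℤ)) Q := h2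
    rw [h3, Finsupp.smul_apply, Finsupp.single_eq_same, nsmul_eq_mul, mul_one]
  · intro v hv
    have h2 := DFunLike.congr_fun hz v
    have h3 : ord v z.toMul = (h • Finsupp.single Q (1 : ℤ)) v := h2
    rw [h3, Finsupp.smul_apply, Finsupp.single_eq_of_ne hv, smul_zero]

/-- Second lemma of the chunk GN7a (S). An element of Lˣ with ord v x = 0 for all v comes from a unit of 𝓞 L. -/
theorem unit_of_ord {L : Type} [Field L] [NumberField L] {x : Lˣ} (hx : ∀ v : Pl L, ord v x = 0) :
    ∃ u : (𝓞 L)ˣ, ((u : 𝓞 L) : L) = (x : L) := by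
  obtain ⟨u, hu⟩ := HA7_unit x hx
  exact ⟨u, congrArg Units.val hu⟩

end H13Y
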