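import Mathlib
import Pool.Agent.Lib.H13Y.GN0
import Pool.Agent.Lib.H13Y.GN5
import Pool.Agent.Lib.H13Y.GN6a
import Pool.Agent.Lib.H13Y.GN7a
import Pool.Agent.Lib.H28G.K4

open NumberField IsDedekindDomain

namespace H13Y

open H55B H55R H28G H99B

section

variable {N L : Type} [Field N] [NumberField N] [Field L] [NumberField L] [Algebra N L]

/-- the twisted average of a function -/
noncomputable def gn6b_F (ω : Gal(L/N) →* ℂˣ) (f : Lˣ → ℂ) (x : Lˣ) : ℂ :=
  ∑ σ : Gal(L/N), ((ω σ : ℂ))⁻¹ * f (guN σ x)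

theorem gn6b_add (ω : Gal(L/N) →* ℂˣ) (f : Lˣ → ℂ) (hf : ∀ x y, f (x * y) = f x + f y) (x y : Lˣ) :
    gn6b_F ω f (x * y) = gn6b_F ω f x + gn6b_F ω f y := by
  unfold gn6b_F
  rw [← Finset.sum_add_distrib]
  refine Finset.sum_congr rfl fun σ _ => ?_
  rw [map_mul, hf, mul_add]

theorem gn6b_equiv (ω : Gal(L/N) →* ℂˣ) (f : Lˣ → ℂ) (g : Gal(L/N)) (x : Lˣ) :
    gn6b_F ω f (guN g x) = (ω g : ℂ) * gn6b_F ω f x := by
  unfold gn6b_F
  rw [Finset.mul_sum]
  refine Fintype.sum_equiv (Equiv.mulRight g) _ _ fun σ => ?_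
  have h1 : guN σ (guN g x) = guN (σ * g) x := by
    rw [map_mul]
    rfl
  rw [Equiv.coe_mulRight, ← h1, map_mul, Units.val_mul, mul_inv]
  have h2 : (ω g : ℂ) ≠ 0 := (ω g).ne_zero
  field_simp

/-- the functionals -/
noncomputable def gn6b_psi (ω : Gal(L/N) →* ℂˣ) (u : InfinitePlace N → InfinitePlace L) (Q : Pl L) :
    Option (InfinitePlace N) → Lˣ → ℂ
  | none => gn6b_F ω (fun x => ((ord Q x : ℤ) : ℂ))
  | some v => gn6b_F ω (fun x => ((Real.log (u v (x : L)) : ℝ) : ℂ))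

theorem gn6b_psi_add (ω : Gal(L/N) →* ℂˣ) (u : InfinitePlace N → InfinitePlace L) (Q : Pl L)
    (i : Option (InfinitePlace N)) (x y : Lˣ) :
    gn6b_psi ω u Q i (x * y) = gn6b_psi ω u Q i x + gn6b_psi ω u Q i y := by
  cases i with
  | none =>
    refine gn6b_add ω (fun x => ((ord Q x : ℤ) : ℂ)) (fun x y => ?_) x y
    show ((ord Q (x * y) : ℤ) : ℂ) = ((ord Q x : ℤ) : ℂ) + ((ord Q y : ℤ) : ℂ)
    rw [ord_mul]
    push_cast
    rfl
  | some v =>
    refine gn6b_add ω (fun x => ((Real.log (u v (x : L)) : ℝ) : ℂ)) (fun x y => ?_) x y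
    show ((Real.log (u v ((x * y : Lˣ) : L)) : ℝ) : ℂ) =
      ((Real.log (u v (x : L)) : ℝ) : ℂ) + ((Real.log (u v (y : L)) : ℝ) : ℂ)
    rw [Units.val_mul, map_mul, Real.log_mul (by simp) (by simp)]
    push_cast
    rfl

theorem gn6b_psi_equiv (ω : Gal(L/N) →* ℂˣ) (u : InfinitePlace N → InfinitePlace L) (Q : Pl L)
    (i : Option (InfinitePlace N)) (g : Gal(L/N)) (x : Lˣ) :
    gn6b_psi ω u Q i (guN g x) = (ω g : ℂ) * gn6b_psi ω u Q i x := by
  cases i with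
  | none => exact gn6b_equiv ω (fun x => ((ord Q x : ℤ) : ℂ)) g x
  | some v => exact gn6b_equiv ω (fun x => ((Real.log (u v (x : L)) : ℝ) : ℂ)) g x

theorem gn6b_cpx (hc : ∀ v : InfinitePlace N, v.IsComplex) (w : InfinitePlace L) : w.IsComplex := by
  rw [← InfinitePlace.not_isReal_iff_isComplex]
  intro h
  exact (InfinitePlace.not_isReal_iff_isComplex.2 (hc (w.comap (algebraMap N L)))) (h.comap _)

theorem gn6b_some [IsGalois N L] (hc : ∀ v : InfinitePlace N, v.IsComplex) (ω : Gal(L/N) →* ℂˣ)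
    (hω : ω ≠ 1) (u : InfinitePlace N → InfinitePlace L)
    (hu : Function.Bijective fun p : Gal(L/N) × InfinitePlace N =>
      (u p.2).comap ((p.1 : L ≃ₐ[N] L) : L →+* L))
    (w : Pl N) (Q : Pl L) (c : Option (InfinitePlace N) → ℂ)
    (h : ∀ x ∈ SU L w, ∑ i, c i * gn6b_psi ω u Q i x = 0) (v : InfinitePlace N) : c (some v) = 0 := by
  let e : Gal(L/N) × InfinitePlace N ≃ InfinitePlace L := Equiv.ofBijective _ hu
  have he : ∀ p, e p = (u p.2).comap ((p.1 : L ≃ₐ[N] L) : L →+* L) := fun p => rfl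
  let b : InfinitePlace L → ℂ := fun w' => c (some (e.symm w').2) * ((ω (e.symm w').1 : ℂ))⁻¹
  have hb : ∀ p, b (e p) = c (some p.2) * ((ω p.1 : ℂ))⁻¹ := by
    intro p
    show c (some (e.symm (e p)).2) * ((ω (e.symm (e p)).1 : ℂ))⁻¹ = _
    rw [Equiv.symm_apply_apply]
  have hrel : ∀ y : (𝓞 L)ˣ, ∑ w' : InfinitePlace L, b w' * (Real.log (w' ((y : 𝓞 L) : L)) : ℂ) = 0 := by
    intro y
    set x : Lˣ := Units.map (algebraMap (𝓞 L) L : 𝓞 L →* L) y with hx
    have hxv : (x : L) = ((y : 𝓞 L) : L) := rfl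
    have hord : ∀ v : Pl L, ord v x = 0 := HA7_ord_unit y
    have h1 := h x (fun v _ => hord v)
    rw [Fintype.sum_option] at h1
    have h2 : gn6b_psi ω u Q none x = 0 := by
      show ∑ σ : Gal(L/N), ((ω σ : ℂ))⁻¹ * ((ord Q (guN σ x) : ℤ) : ℂ) = 0
      refine Finset.sum_eq_zero fun σ _ => ?_
      rw [ord_guN, hord]
      simp
    rw [h2, mul_zero, zero_add] at h1
    rw [← h1, ← Equiv.sum_comp e, Fintype.sum_prod_type_right]
    refine Finset.sum_congr rfl fun v' _ => ?_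
    show _ = c (some v') * ∑ σ : Gal(L/N), ((ω σ : ℂ))⁻¹ * ((Real.log (u v' (guN σ x : Lˣ)) : ℝ) : ℂ)
    rw [Finset.mul_sum]
    refine Finset.sum_congr rfl fun σ _ => ?_
    rw [hb (σ, v'), mul_assoc]
    rfl
  have hconst := dir_rel (gn6b_cpx hc) b hrel
  obtain ⟨g, hg⟩ : ∃ g, ω g ≠ 1 := by
    by_contra hh
    push Not at hh
    exact hω (MonoidHom.ext hh)
  have h3 := hconst (e (1, v)) (e (g, v))
  rw [hb, hb] at h3
  by_contra hcv
  have h4 := mul_left_cancel₀ hcv h3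
  apply hg
  rw [map_one, Units.val_one, inv_one] at h4
  have h5 : (ω g : ℂ) = 1 := by
    rw [eq_comm, inv_eq_one] at h4
    exact h4
  exact Units.ext h5

theorem gn6b_none (ω : Gal(L/N) →* ℂˣ) (u : InfinitePlace N → InfinitePlace L)
    (w : Pl N) (Q : Pl L) (hQ : Q.under (𝓞 N) = w) (hst : ∀ σ : Gal(L/N), smulP σ Q = Q → σ = 1)
    (c : Option (InfinitePlace N) → ℂ)
    (h : ∀ x ∈ SU L w, ∑ i, c i * gn6b_psi ω u Q i x = 0) (hv : ∀ v, c (some v) = 0) : c none = 0 := by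
  obtain ⟨m, z, hm, hz, hz2⟩ := exists_zQ Q
  have h1 := h z (fun v hv' => hz2 v (by rintro rfl; exact hv' hQ))
  rw [Fintype.sum_option] at h1
  have h2 : ∑ v : InfinitePlace N, c (some v) * gn6b_psi ω u Q (some v) z = 0 :=
    Finset.sum_eq_zero fun v _ => by rw [hv, zero_mul]
  rw [h2, add_zero] at h1
  have h3 : gn6b_psi ω u Q none z = (m : ℂ) := by
    show ∑ σ : Gal(L/N), ((ω σ : ℂ))⁻¹ * ((ord Q (guN σ z) : ℤ) : ℂ) = _
    rw [Finset.sum_eq_single 1]
    · rw [ord_guN, inv_one, smulP_one, hz, map_one, Units.val_one, inv_one, one_mul]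
      push_cast
      rfl
    · intro σ _ hσ
      rw [ord_guN, hz2 _ (fun h4 => hσ (inv_eq_one.1 (hst _ h4)))]
      simp
    · intro h4
      exact absurd (Finset.mem_univ _) h4
  rw [h3] at h1
  rcases mul_eq_zero.1 h1 with h4 | h4
  · exact h4
  · exact absurd (Nat.cast_eq_zero.1 h4) hm

end

/-- Chunk GN6b (M). The functionals: ψ (some v) x = sum over σ of (ω σ)⁻¹ log (u v (σ x)) (u of places_bij), ψ none x = sum over σ of (ω σ)⁻¹ ord Q (guN σ x). Additive; ψ i (guN g x) = ω g ψ i x (substitution σ -> σ g⁻¹).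
Independence. Units u of 𝓞 L (as elements of Lˣ) lie in SU L w and ψ none vanishes on them. Let c satisfy the relation. On units: sum over v, σ of c (some v) (ω σ)⁻¹ log (((u v).comap σ) x) = 0, that is the sum over all infinite places w' of b w' log w' x, b ((u v).comap σ) = c (some v) (ω σ)⁻¹ (places_bij: reindex). The places of L are complex (above complex places). dir_rel: b is constant. σ = 1 and σ = g with ω g ≠ 1 (ω ≠ 1): c (some v) (1 - (ω g)⁻¹) = 0, c (some v) = 0.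
Then c none * ψ none z = 0 for the z of exists_zQ (GN7) for Q: z in SU L w (Q is above w); ord Q (guN σ z) = ord (smulP σ⁻¹ Q) z = h if σ = 1 and 0 otherwise (hst), ψ none z = h ≠ 0. -/
theorem exists_psi {N L : Type} [Field N] [NumberField N] [Field L] [NumberField L] [Algebra N L]
    [IsGalois N L] (hc : ∀ v : InfinitePlace N, v.IsComplex) (ω : Gal(L/N) →* ℂˣ) (hω : ω ≠ 1)
    (w : Pl N) (Q : Pl L) (hQ : Q.under (𝓞 N) = w) (hst : ∀ σ : Gal(L/N), smulP σ Q = Q → σ = 1) :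
    ∃ ψ : Option (InfinitePlace N) → Lˣ → ℂ,
      (∀ i x y, ψ i (x * y) = ψ i x + ψ i y) ∧
      (∀ i (g : Gal(L/N)) x, ψ i (guN g x) = (ω g : ℂ) * ψ i x) ∧
      ∀ c : Option (InfinitePlace N) → ℂ, (∀ x ∈ SU L w, ∑ i, c i * ψ i x = 0) → c = 0 := by
  obtain ⟨u, hu⟩ := places_bij (L := L) hc
  refine ⟨gn6b_psi ω u Q, gn6b_psi_add ω u Q, gn6b_psi_equiv ω u Q, fun c h => ?_⟩
  have hv := gn6b_some hc ω hω u hu w Q c h
  funext i
  cases i with
  | none => exact gn6b_none ω u w Q hQ hst c h hv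
  | some v => exact hv v

end H13Y
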