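import Mathlib
import Pool.Agent.Lib.H28G.GB2
import Pool.Agent.Lib.H99B.B3

open NumberField IsDedekindDomain

namespace H13Y

open H55B H55R H28G H99B

/-- Chunk GN6c (S). F ⊆ N is not real, so N is totally complex: the number of infinite places is [N : F] (InfinitePlace.card_add_two_mul_card_eq_rank, nrRealPlaces = 0; Module.finrank_mul_finrank ℚ F N, finrank ℚ F = 2). -/
theorem places_card (N : Type) [Field N] [NumberField N] [Algebra F N] :
    (∀ v : InfinitePlace N, v.IsComplex) ∧ Fintype.card (InfinitePlace N) = Module.finrank F N := ⟨b3_cpx N, b3_card N⟩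

end H13Y
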