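import Mathlib
import Pool.Agent.Lib.H13Y.GN0
import Pool.Agent.Lib.H13Y.GN7a

open NumberField IsDedekindDomain

namespace H13Y

open H55B H55R H28G H99B

theorem gn7c_above {N L : Type} [Field N] [NumberField N] [Field L] [NumberField L] [Algebra N L] (w : Pl N) :
    {W : Pl L | W.under (𝓞 N) = w}.Finite := by
  have hm := w.isMaximal
  have h1 : (w.asIdeal.primesOver (𝓞 L)).Finite := IsDedekindDomain.primesOver_finite w.asIdeal (𝓞 L)
  refine Set.Finite.of_finite_image (f := fun W : Pl L => W.asIdeal) (h1.subset ?_) ?_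
  · rintro _ ⟨W, hW, rfl⟩
    exact ⟨W.isPrime, ⟨(congrArg HeightOneSpectrum.asIdeal hW).symm⟩⟩
  · intro W _ W' _ h
    exact HeightOneSpectrum.ext h

theorem gn7c_ord {L : Type} [Field L] [NumberField L] (T : Finset (Pl L)) (z : Pl L → Lˣ) (k : Pl L → ℤ) (v : Pl L) :
    ord v (∏ Q ∈ T, z Q ^ (k Q)) = ∑ Q ∈ T, k Q * ord v (z Q) := by
  classical
  induction T using Finset.induction_on with
  | empty => simp [ord_one]
  | insert a s ha ih => rw [Finset.prod_insert ha, Finset.sum_insert ha, ord_mul, ord_zpow, ih]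

/-- Chunk GN7c (S/M). The primes of L above w are finitely many (Q₁, ..., Q_n). h = the product of the h of exists_zQ for the Q_i (or a common h), z_i with (z_i) = Q_i^h. x in SU: x^h times the product of z_i^(- ord Q_i x) has all orders 0: a unit (unit_of_ord). B = the subgroup generated by the image of the units (finitely generated: Mathlib, Monoid.FG of (𝓞 L)ˣ; Subgroup.FG.map or Subgroup.fg_range) and the z_i. -/
theorem SU_fg {N L : Type} [Field N] [NumberField N] [Field L] [NumberField L] [Algebra N L] (w : Pl N) :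
    ∃ (h : ℕ) (B : Subgroup Lˣ), h ≠ 0 ∧ B.FG ∧ B ≤ SU L w ∧ ∀ x ∈ SU L w, x ^ h ∈ B := by
  classical
  have hfin : {W : Pl L | W.under (𝓞 N) = w}.Finite := gn7c_above w
  set T : Finset (Pl L) := hfin.toFinset with hT
  have hmT : ∀ W : Pl L, W ∈ T ↔ W.under (𝓞 N) = w := fun W => by simp [hT]
  choose hh z hz0 hz1 hz2 using fun Q : Pl L => exists_zQ Q
  let U : Subgroup Lˣ := (Units.map (algebraMap (𝓞 L) L : 𝓞 L →* L)).range
  have hUfg : U.FG := by
    rw [← Group.fg_iff_subgroup_fg]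
    have h1 : Group.FG (𝓞 L)ˣ := Group.fg_iff_monoid_fg.2 inferInstance
    exact Group.fg_of_surjective (f := (Units.map (algebraMap (𝓞 L) L : 𝓞 L →* L)).rangeRestrict)
      (MonoidHom.rangeRestrict_surjective _)
  let C : Subgroup Lˣ := Subgroup.closure (T.image z : Set Lˣ)
  have hCfg : C.FG := ⟨T.image z, rfl⟩
  refine ⟨∏ Q ∈ T, hh Q, U ⊔ C, Finset.prod_ne_zero_iff.2 fun Q _ => hz0 Q, hUfg.sup hCfg, ?_, ?_⟩
  · apply sup_le
    · rintro _ ⟨u, rfl⟩ v _
      exact HA7_ord_unit u v
    · rw [Subgroup.closure_le]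
      intro y hy
      rw [Finset.mem_coe, Finset.mem_image] at hy
      obtain ⟨Q, hQ, rfl⟩ := hy
      intro v hv
      apply hz2 Q v
      rintro rfl
      exact hv ((hmT v).1 hQ)
  · intro x hx
    let k : Pl L → ℤ := fun Q => ord Q x * ∏ P ∈ T.erase Q, (hh P : ℤ)
    have hu : ∀ v : Pl L, ord v (x ^ (∏ Q ∈ T, hh Q) * (∏ Q ∈ T, z Q ^ (k Q))⁻¹) = 0 := by
      intro v
      have e1 := gn7c_ord T z k v
      have e2 : ord v (x ^ (∏ Q ∈ T, hh Q)) = ((∏ Q ∈ T, hh Q : ℕ) : ℤ) * ord v x := by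
        rw [← zpow_natCast, ord_zpow]
      rw [ord_mul, ord_inv, e1, e2]
      by_cases hv : v ∈ T
      · rw [Finset.sum_eq_single_of_mem v hv]
        · rw [hz1 v, ← Finset.mul_prod_erase T hh hv]
          simp only [k]
          push_cast
          ring
        · intro Q _ hQv
          rw [hz2 Q v (Ne.symm hQv), mul_zero]
      · have h1 : ord v x = 0 := hx v (fun h => hv ((hmT v).2 h))
        rw [h1, mul_zero, zero_add, neg_eq_zero]
        apply Finset.sum_eq_zero
        intro Q hQ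
        rw [hz2 Q v (fun h => hv (h ▸ hQ)), mul_zero]
    obtain ⟨u, hu'⟩ := HA7_unit _ hu
    have hx2 : x ^ (∏ Q ∈ T, hh Q) = Units.map (algebraMap (𝓞 L) L : 𝓞 L →* L) u * ∏ Q ∈ T, z Q ^ (k Q) := by
      rw [hu', inv_mul_cancel_right]
    rw [hx2]
    apply Subgroup.mul_mem
    · exact Subgroup.mem_sup_left ⟨u, rfl⟩
    · apply Subgroup.mem_sup_right
      apply Subgroup.prod_mem
      intro Q hQ
      apply Subgroup.zpow_mem
      apply Subgroup.subset_closure
      rw [Finset.mem_coe]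
      exact Finset.mem_image_of_mem z hQ

end H13Y
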