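import Mathlib
import Pool.Agent.Lib.H28G.GB2
import Pool.Agent.Lib.H99B.Defs

open NumberField IsDedekindDomain

namespace H13Y

open H55B H55R H28G H99B

/-- Chunk GN8a (S/M). The product of the different prime ideals v in T divides the ideal π 𝓞 N (Finset.prod_primes_dvd or coprimality), so the product of their norms divides the absolute norm of π 𝓞 N = |Norm_{N/ℚ} π| = |Norm_{F/ℚ} π|^[N : F] = (Nm π)^[N : F] (Ideal.absNorm_span_singleton, Algebra.norm_norm, Algebra.norm_algebraMap; Nm π = absNorm (span {π})), which is not 0. -/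
theorem prod_norm_le {N : Type} [Field N] [NumberField N] [Algebra F N] {π : O} (h0 : π ≠ 0)
    (T : Finset (Pl N)) (hT : ∀ v ∈ T, algebraMap O (𝓞 N) π ∈ v.asIdeal) :
    ∏ v ∈ T, Ideal.absNorm v.asIdeal ≤ Nm π ^ Module.finrank F N := by
  classical
  have hinj : Function.Injective (algebraMap O (𝓞 N)) := FaithfulSMul.algebraMap_injective O (𝓞 N)
  have hπ : algebraMap O (𝓞 N) π ≠ 0 := by
    intro h
    exact h0 (hinj (by rw [h, map_zero]))
  have hdvd : ∏ v ∈ T, v.asIdeal ∣ Ideal.span {algebraMap O (𝓞 N) π} := by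
    have h1 : ∏ v ∈ T, v.asIdeal = ∏ P ∈ T.image (fun v => v.asIdeal), P := by
      rw [Finset.prod_image]
      intro v _ w _ hvw
      exact HeightOneSpectrum.ext hvw
    rw [h1]
    apply Finset.prod_primes_dvd
    · intro P hP
      rw [Finset.mem_image] at hP
      obtain ⟨v, -, rfl⟩ := hP
      exact v.prime
    · intro P hP
      rw [Finset.mem_image] at hP
      obtain ⟨v, hv, rfl⟩ := hP
      rw [Ideal.dvd_span_singleton]
      exact hT v hv
  have hnorm : Ideal.absNorm (Ideal.span {algebraMap O (𝓞 N) π}) = Nm π ^ Module.finrank F N := by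
    rw [Ideal.absNorm_span_singleton]
    unfold H55B.Nm
    rw [Ideal.absNorm_span_singleton, ← Int.natAbs_pow]
    congr 1
    have h1 : ((Algebra.norm ℤ (algebraMap O (𝓞 N) π) : ℤ) : ℚ) = ((Algebra.norm ℤ π ^ Module.finrank F N : ℤ) : ℚ) := by
      rw [Algebra.coe_norm_int]
      push_cast
      rw [Algebra.coe_norm_int]
      have h2 : ((algebraMap O (𝓞 N) π : 𝓞 N) : N) = algebraMap F N (π : F) := rfl
      rw [h2, ← Algebra.norm_norm (S := F), Algebra.norm_algebraMap, map_pow]
    exact_mod_cast h1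
  have h1 : Ideal.absNorm (∏ v ∈ T, v.asIdeal) ∣ Ideal.absNorm (Ideal.span {algebraMap O (𝓞 N) π}) :=
    Ideal.absNorm_dvd_absNorm_of_le (Ideal.le_of_dvd hdvd)
  rw [map_prod, hnorm] at h1
  apply Nat.le_of_dvd _ h1
  rw [← hnorm]
  apply Nat.pos_of_ne_zero
  rw [Ne, Ideal.absNorm_eq_zero_iff, Ideal.span_singleton_eq_bot]
  exact hπ

end H13Y
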