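import Mathlib
import Pool.Agent.Lib.H13Y.GN2
import Pool.Agent.Lib.H13Y.GN8a

open NumberField IsDedekindDomain

namespace H13Y

open H55B H55R H28G H99B

theorem gn8b_norm {N L : Type} [Field N] [NumberField N] [Field L] [NumberField L] [Algebra N L] (W : Pl L)
    (hs : ∀ b : Kap W, ∃ y : 𝓞 N, kmk W (algebraMap (𝓞 N) (𝓞 L) y) = b) :
    Nat.card (Kap W) = Ideal.absNorm (W.under (𝓞 N)).asIdeal := by
  set f : 𝓞 N →+* Kap W := (kmk W).comp (algebraMap (𝓞 N) (𝓞 L)) with hf
  have hsur : Function.Surjective f := hs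
  have hker : RingHom.ker f = (W.under (𝓞 N)).asIdeal := by
    ext y
    rw [RingHom.mem_ker, hf, RingHom.comp_apply, kmk_zero]
    rfl
  rw [Ideal.absNorm_apply, Submodule.cardQuot_apply, ← hker]
  exact Nat.card_congr (RingHom.quotientKerEquivOfSurjective hsur).symm.toEquiv

theorem gn8b_fin {L : Type} [Field L] [NumberField L] [Algebra F L] {π : O} (h0 : π ≠ 0) :
    Finite {W : Pl L // algebraMap O (𝓞 L) π ∈ W.asIdeal} := by
  have h1 : algebraMap O (𝓞 L) π ≠ 0 := by
    intro h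
    apply h0
    exact (FaithfulSMul.algebraMap_injective O (𝓞 L)) (by rw [h, map_zero])
  have h2 : Ideal.span {algebraMap O (𝓞 L) π} ≠ 0 := by
    simpa [Ideal.span_singleton_eq_bot] using h1
  have h3 := Ideal.finite_factors h2
  refine Set.Finite.to_subtype (h3.subset ?_)
  intro W hW
  show W.asIdeal ∣ _
  rw [Ideal.dvd_span_singleton]
  exact hW

/-- Chunk GN8b (M). The levels at all primes above π. T = the finite type of the W with algebraMap O (𝓞 L) π ∈ W.asIdeal. Λ = (W : T) → Kap W, a k-vector space through the j W (letI := (j W).toAlgebra; Pi), f x = fun W => c W x with c W of exists_lev (CharP (Kap W) l: l = 0 in Kap W through j W, charP of the field k; Finite (Kap W): instance).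
Dimension: card Λ = product of card (Kap W); 𝓞 N → Kap W is surjective (LocN.surj), so card (Kap W) = absNorm of W.under (𝓞 N) (Submodule.cardQuot / Ideal.absNorm_apply), the W.under (𝓞 N) are different (hone) and contain π: prod_norm_le gives card Λ ≤ (Nm π)^[N : F] = (card k)^[N : F]; card Λ = (card k)^(finrank Λ) (Module.card_eq_pow_finrank), 1 < card k. -/
theorem exists_Lam {l : ℕ} [Fact l.Prime] {π : O} (h0 : π ≠ 0) {N L : Type} [Field N] [NumberField N]
    [Field L] [NumberField L] [Algebra F N] [Algebra N L] [Algebra F L] [IsScalarTower F N L] {k : Type}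
    [Field k] [Fintype k] [CharP k l] (hcard : Fintype.card k = Nm π) (χ : Gal(L/N) →* kˣ)
    (hone : ∀ W W' : Pl L, algebraMap O (𝓞 L) π ∈ W.asIdeal → W.under (𝓞 N) = W'.under (𝓞 N) → W = W')
    (hloc : ∀ W : Pl L, algebraMap O (𝓞 L) π ∈ W.asIdeal →
      ∃ (j : k →+* Kap W) (t : Lˣ), LocN j χ W t (kmk W)) :
    ∃ (Λ : Type) (_ : AddCommGroup Λ) (_ : Module k Λ) (_ : Module.Finite k Λ) (f : Lˣ → Λ),
      Module.finrank k Λ ≤ Module.finrank F N ∧
      (∀ x y : Lˣ, (∀ W : Pl L, algebraMap O (𝓞 L) π ∈ W.asIdeal → (l : ℤ) ∣ ord W x) →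
        (∀ W : Pl L, algebraMap O (𝓞 L) π ∈ W.asIdeal → (l : ℤ) ∣ ord W y) → f (x * y) = f x + f y) ∧
      (∀ (σ : Gal(L/N)) (x : Lˣ), (∀ W : Pl L, algebraMap O (𝓞 L) π ∈ W.asIdeal → (l : ℤ) ∣ ord W x) →
        f (guN σ x) = (χ σ : k) • f x) ∧
      ∀ x : Lˣ, (∀ W : Pl L, algebraMap O (𝓞 L) π ∈ W.asIdeal → (l : ℤ) ∣ ord W x) → f x = 0 →
        ∀ W : Pl L, algebraMap O (𝓞 L) π ∈ W.asIdeal → Lev l W x := by
  classical
  let S := {W : Pl L // algebraMap O (𝓞 L) π ∈ W.asIdeal}
  haveI : Finite S := gn8b_fin h0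
  haveI : Fintype S := Fintype.ofFinite S
  choose j t hl using fun W : S => hloc W.1 W.2
  have hch : ∀ W : S, CharP (Kap W.1) l := fun W => charP_of_injective_ringHom (j W).injective l
  choose c hc1 hc2 hc3 using fun W : S => haveI := hch W; exists_lev (hl W)
  let Λ := (W : S) → Kap W.1
  letI m : ∀ W : S, Module k (Kap W.1) := fun W => Module.compHom _ (j W)
  have hsm : ∀ (W : S) (a : k) (x : Kap W.1), a • x = j W a * x := fun W a x => rfl
  haveI : Finite Λ := Pi.finite
  haveI hfin : Module.Finite k Λ := Module.Finite.of_finite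
  refine ⟨Λ, inferInstance, inferInstance, hfin, fun x W => c W x, ?_, ?_, ?_, ?_⟩
  · have h1 : Nat.card Λ = ∏ W : S, Nat.card (Kap W.1) := Nat.card_pi
    have h2 : Nat.card Λ = Nat.card k ^ Module.finrank k Λ := Module.natCard_eq_pow_finrank
    have hinj : Set.InjOn (fun W : S => W.1.under (𝓞 N)) (Finset.univ : Finset S) := by
      intro W _ W' _ h
      exact Subtype.ext (hone W.1 W'.1 W.2 h)
    have h3 : ∏ W : S, Nat.card (Kap W.1) = ∏ v ∈ Finset.univ.image (fun W : S => W.1.under (𝓞 N)), Ideal.absNorm v.asIdeal := by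
      rw [Finset.prod_image hinj]
      exact Finset.prod_congr rfl fun W _ => gn8b_norm W.1 (hl W).surj
    have h4 := prod_norm_le (N := N) h0 (Finset.univ.image (fun W : S => W.1.under (𝓞 N))) (by
      intro v hv
      obtain ⟨W, -, rfl⟩ := Finset.mem_image.1 hv
      show algebraMap (𝓞 N) (𝓞 L) (algebraMap O (𝓞 N) π) ∈ W.1.asIdeal
      have : algebraMap (𝓞 N) (𝓞 L) (algebraMap O (𝓞 N) π) = algebraMap O (𝓞 L) π := by
        rw [← IsScalarTower.algebraMap_apply]
      rw [this]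
      exact W.2)
    rw [← h3, ← h1, h2, ← hcard, Nat.card_eq_fintype_card] at h4
    exact (Nat.pow_le_pow_iff_right Fintype.one_lt_card).1 h4
  · intro x y hx hy
    funext W
    exact hc1 W x y (hx W.1 W.2) (hy W.1 W.2)
  · intro σ x hx
    funext W
    exact hc2 W σ x (hx W.1 W.2)
  · intro x hx h W hW
    exact hc3 ⟨W, hW⟩ x (hx W hW) (congrFun h ⟨W, hW⟩)

end H13Y
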