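import Mathlib
import Pool.Agent.Lib.H13Y.GN1
import Pool.Agent.Lib.H13Y.GN11a
import Pool.Agent.Lib.H13Y.GN3
import Pool.Agent.Lib.H13Y.GN4
import Pool.Agent.Lib.H13Y.GN6b
import Pool.Agent.Lib.H13Y.GN6c
import Pool.Agent.Lib.H13Y.GN7c
import Pool.Agent.Lib.H13Y.GN8b
import Pool.Agent.Lib.H13Y.GN9b
import Pool.Agent.Lib.H99B.A1

open NumberField IsDedekindDomain WeierstrassCurve

namespace H13Y

open H55B H55R H28G H99B

/-- The elements of SU killed by a homomorphism. -/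
def gn11b_K {N L : Type} [Field N] [NumberField N] [Field L] [NumberField L] [Algebra N L] (w : Pl N)
    {Λ : Type} [AddCommGroup Λ] (f : Lˣ → Λ)
    (f1 : ∀ x ∈ SU L w, ∀ y ∈ SU L w, f (x * y) = f x + f y) : Subgroup Lˣ where
  carrier := {y | y ∈ SU L w ∧ f y = 0}
  mul_mem' := fun {x y} hx hy => ⟨mul_mem hx.1 hy.1, by rw [f1 x hx.1 y hy.1, hx.2, hy.2, add_zero]⟩
  one_mem' := ⟨one_mem _, by
    have h := f1 1 (one_mem _) 1 (one_mem _)
    rw [mul_one] at h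
    exact left_eq_add.mp h⟩
  inv_mem' := fun {x} hx => ⟨inv_mem hx.1, by
    have h1 : f 1 = 0 := by
      have h := f1 1 (one_mem _) 1 (one_mem _)
      rw [mul_one] at h
      exact left_eq_add.mp h
    have h := f1 x hx.1 x⁻¹ (inv_mem hx.1)
    rw [mul_inv_cancel, h1, hx.2, zero_add] at h
    exact h.symm⟩

theorem gn11b_K_mem {N L : Type} [Field N] [NumberField N] [Field L] [NumberField L] [Algebra N L] {w : Pl N}
    {Λ : Type} [AddCommGroup Λ] {f : Lˣ → Λ}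
    {f1 : ∀ x ∈ SU L w, ∀ y ∈ SU L w, f (x * y) = f x + f y} {y : Lˣ} :
    y ∈ gn11b_K w f f1 ↔ y ∈ SU L w ∧ f y = 0 := Iff.rfl

theorem gn11b_units {l : ℕ} [Fact l.Prime] (h5 : 5 ≤ l) {k : Type} [Field k] [Fintype k] [CharP k l] :
    5 ≤ Fintype.card k ∧ ∃ u : kˣ, u ≠ 1 := by
  classical
  obtain ⟨n, -, hn⟩ := FiniteField.card k l
  have h1 : 5 ≤ Fintype.card k := by
    rw [hn]
    exact h5.trans (Nat.le_self_pow n.pos.ne' l)
  refine ⟨h1, ?_⟩
  have h2 : 1 < Fintype.card kˣ := by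
    rw [Fintype.card_units]
    omega
  have h3 : Nontrivial kˣ := Fintype.one_lt_card_iff_nontrivial.1 h2
  exact exists_ne 1

/-- Chunk GN11b (M). Assembly. ρ (exists_rho), V, ω (exists_teich), ω ≠ 1 because ω is injective and Gal(L/N) ≅ kˣ is not trivial (card k = Nm π > 2: H28G.arith); a prime Q of L above w (under_exists); exists_psi, places_card; exists_locN, TotRam.one, exists_Lam; for x in SU L w and W above π: W.under (𝓞 N) ≠ w (hwπ) so ord W x = 0.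
gn_alg with A = SU L w, ι = Option (InfinitePlace N) (card = [N : F] + 1): x with f x = 0 and M x not an l-th power in SU L w, so (SU_pow) not an l-th power in Lˣ. m a = pw guN (cf χ ρ a) x: etaN_hom, pwN_mem (ord v (m a) = 0 for v not above w); Lev: f (m a) = sum over δ of cf χ ρ a δ • f (guN δ x) = (a multiple of) f x = 0 (f additive, also for integral powers; or: the elements y of SU L w with f y = 0 form a subgroup stable under guN). The last clause: a = 1. -/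
theorem glob_N {l : ℕ} [Fact l.Prime] (h5 : 5 ≤ l) {π : O} (hp : Prime π) (hπ : Prim π)
    (hd : π ∣ (l : O)) {N L : Type} [Field N] [NumberField N] [Field L] [NumberField L] [DecidableEq L]
    [Algebra F N] [Algebra N L] [Algebra F L] [IsScalarTower F N L] (hL : TFld N L π)
    (hun : ∀ v : Pl N, algebraMap O (𝓞 N) π ∈ v.asIdeal → v.valuation N (ak N π) = WithZero.exp (-1 : ℤ))
    {k : Type} [Field k] [Fintype k] [DecidableEq k] [CharP k l] (q : O →+* k)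
    (hq : Function.Surjective q) (hk : ∀ x, q x = 0 ↔ π ∣ x) (χ : Gal(L/N) →* kˣ)
    (hχ : ∀ (σ : Gal(L/N)) (c : O), q c = χ σ → ∀ R ∈ Tor π L, sp σ R = act c R) (w : Pl N)
    (hwπ : algebraMap O (𝓞 N) π ∉ w.asIdeal)
    (hst : ∀ Q : Pl L, Q.under (𝓞 N) = w → ∀ σ : Gal(L/N), smulP σ Q = Q → σ = 1) :
    ∃ m : k → Lˣ, EqHomN l χ m ∧
      (∀ (a : k) (v : Pl L), v.under (𝓞 N) ≠ w → (l : ℤ) ∣ ord v (m a)) ∧
      (∀ (a : k) (W : Pl L), algebraMap O (𝓞 L) π ∈ W.asIdeal → Lev l W (m a)) ∧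
      ∃ a : k, ∀ z : Lˣ, m a ≠ z ^ l := by
  have hgal : IsGalois N L := hL.gal
  have hl : l.Prime := Fact.out
  obtain ⟨hcard, hχb⟩ := chi_bijN hp hπ hL hun q hq hk χ hχ
  obtain ⟨ρ, hρ⟩ := exists_rho l k
  obtain ⟨V, ω, hV, hωi, hω⟩ := exists_teich l χ hχb.1
  obtain ⟨hk5, u, hu⟩ := gn11b_units h5 (k := k)
  have h2 : 2 < Nm π := by
    rw [← hcard]
    omega
  have hω1 : ω ≠ 1 := by
    intro h
    obtain ⟨g, hg⟩ := hχb.2 u
    apply hu
    have h3 : g = 1 := hωi (by rw [h]; rfl)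
    rw [← hg, h3, map_one]
  obtain ⟨Q, hQ⟩ := under_exists (L := L) w
  obtain ⟨hc, hcardN⟩ := places_card N
  obtain ⟨ψ, p1, p2, p3⟩ := exists_psi hc ω hω1 w Q hQ (hst Q hQ)
  have htow : ∀ c : O, algebraMap O (𝓞 L) c = algebraMap (𝓞 N) (𝓞 L) (algebraMap O (𝓞 N) c) :=
    fun c => RingOfIntegers.ext (IsScalarTower.algebraMap_apply F N L (c : F))
  have hmem : ∀ W : Pl L, algebraMap O (𝓞 L) π ∈ W.asIdeal →
      algebraMap O (𝓞 N) π ∈ (W.under (𝓞 N)).asIdeal := by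
    intro W hW
    rw [htow] at hW
    exact hW
  have hone : ∀ W W' : Pl L, algebraMap O (𝓞 L) π ∈ W.asIdeal → W.under (𝓞 N) = W'.under (𝓞 N) →
      W = W' := by
    intro W W' hW hWW
    exact (tot_ram hp hπ hL (W.under (𝓞 N)) (hun _ (hmem W hW))).one W W' rfl hWW.symm
  have hloc : ∀ W : Pl L, algebraMap O (𝓞 L) π ∈ W.asIdeal →
      ∃ (j : k →+* Kap W) (t : Lˣ), LocN j χ W t (kmk W) := fun W hW =>
    exists_locN (l := l) hp hπ hL h2 hun q hq hk χ hχ W hW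
  obtain ⟨Λ, i1, i2, i3, f, hfin, f1, f2, f3⟩ := exists_Lam hp.ne_zero hcard χ hone hloc
  have hdv : ∀ x ∈ SU L w, ∀ W : Pl L, algebraMap O (𝓞 L) π ∈ W.asIdeal → (l : ℤ) ∣ ord W x := by
    intro x hx W hW
    have h3 : W.under (𝓞 N) ≠ w := by
      intro h
      apply hwπ
      rw [← h]
      exact hmem W hW
    rw [hx W h3]
    exact dvd_zero _
  have f1' : ∀ x ∈ SU L w, ∀ y ∈ SU L w, f (x * y) = f x + f y := fun x hx y hy =>
    f1 x y (hdv x hx) (hdv y hy)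
  have f2' : ∀ g : Gal(L/N), ∀ x ∈ SU L w, f (guN g x) = (χ g : k) • f x := fun g x hx =>
    f2 g x (hdv x hx)
  obtain ⟨x, hx, hfx, hnx⟩ := gn_alg χ hχb ρ hρ (guN : Gal(L/N) →* Monoid.End Lˣ) (SU L w)
    (fun g x hx => SU_act g hx) f f1' f2' (ι := Option (InfinitePlace N)) (by
      rw [Fintype.card_option, hcardN]
      omega) V hV ω hω ψ (fun i x _ y _ => p1 i x y) (fun i g x _ => p2 i g x) p3 (SU_fg w)
  have hK : ∀ g : Gal(L/N), guN g x ∈ gn11b_K w f f1' := by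
    intro g
    refine ⟨SU_act g hx, ?_⟩
    rw [f2' g x hx, hfx, smul_zero]
  have hm0 : ∀ a : k, pw guN (cf χ ρ a) x ∈ gn11b_K w f f1' := by
    intro a
    unfold pw
    exact Subgroup.prod_mem _ fun g _ => Subgroup.zpow_mem _ (hK g) _
  refine ⟨fun a => pw guN (cf χ ρ a) x, etaN_hom χ ρ x, ?_, ?_, 1, ?_⟩
  · intro a v hv
    show (l : ℤ) ∣ ord v (pw guN (cf χ ρ a) x)
    rw [(hm0 a).1 v hv]
    exact dvd_zero _
  · intro a W hW
    exact f3 _ (hdv _ (hm0 a).1) (hm0 a).2 W hW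
  · intro z hz
    exact hnx z (SU_pow hl.ne_zero (hm0 1).1 hz) hz

end H13Y
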