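import Mathlib
import Pool.Agent.Lib.H13S.LD1
import Pool.Agent.Lib.H13Z.TR
import Pool.Agent.Lib.H55P.Fin

open NumberField IsDedekindDomain WeierstrassCurve

namespace H13Y

open H55P H28G H13S
open H13Z (SelNon)

section gen

variable {k : Type} [Field k] {Ω : Type} [Field Ω] [DecidableEq Ω] [Algebra k Ω]

/-- Chunk YG6 (S/M). d s = c s - (ac s T - T) is a cocycle on the group of N, zero on the group of N' (normal in it: g⁻¹ s g maps x in N' to itself because g x is in N'). For g in the group of N, s in the group of N': d (s g) = ac s (d g) and d (s g) = d (g (g⁻¹ s g)) = d g, so d g is fixed by the group of N' and killed by p: 0. -/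
theorem cob_down (W : WeierstrassCurve k) (p : ℕ) {N N' : IntermediateField k Ω} (hNN : N ≤ N')
    (hn : ∀ s ∈ N.fixingSubgroup, ∀ x ∈ N', s x ∈ N')
    (ht : ∀ R : Pt W Ω, p • R = 0 → (∀ s ∈ N'.fixingSubgroup, ac W s R = R) → R = 0)
    {c : (Ω ≃ₐ[k] Ω) → Pt W Ω}
    (hm : ∀ s ∈ N.fixingSubgroup, ∀ t ∈ N.fixingSubgroup, c (s * t) = c s + ac W s (c t))
    (hl : ∀ s ∈ N.fixingSubgroup, p • c s = 0) {T : Pt W Ω} (hT : p • T = 0)
    (h : ∀ s ∈ N'.fixingSubgroup, c s = ac W s T - T) :
    ∀ s ∈ N.fixingSubgroup, c s = ac W s T - T := by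
  have hle : ∀ s ∈ N'.fixingSubgroup, s ∈ N.fixingSubgroup := by
    intro s hs
    rw [IntermediateField.mem_fixingSubgroup_iff] at hs ⊢
    exact fun x hx => hs x (hNN hx)
  have hac : ∀ (s t : Ω ≃ₐ[k] Ω) (P : Pt W Ω), ac W (s * t) P = ac W s (ac W t P) := by
    intro s t P
    have h1 := (acR W).map_mul s t
    exact DFunLike.congr_fun h1 P
  intro s hs
  have hd : c s - (ac W s T - T) = 0 := by
    apply ht
    · rw [nsmul_sub, nsmul_sub, hl s hs, ← map_nsmul, hT, map_zero, sub_zero, sub_zero]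
    · intro t htN
      have ht' : s⁻¹ * t * s ∈ N'.fixingSubgroup := by
        rw [IntermediateField.mem_fixingSubgroup_iff] at htN ⊢
        intro x hx
        rw [AlgEquiv.mul_apply, AlgEquiv.mul_apply, htN _ (hn s hs x hx)]
        exact s.symm_apply_apply x
      have e1 : s * (s⁻¹ * t * s) = t * s := by group
      have h2 := hm s hs _ (hle _ ht')
      have h3 := hm t (hle t htN) s hs
      rw [e1] at h2
      rw [h2, h t htN, h _ ht', map_sub, ← hac, e1, hac] at h3
      rw [map_sub, map_sub]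
      have h4 : ac W t (c s) = c s + (ac W t (ac W s T) - ac W s T) - (ac W t T - T) := by
        rw [h3]
        abel
      rw [h4]
      abel
  rw [← sub_eq_zero]
  exact hd

/-- The class restricted to N' is again nonzero. -/
theorem non_up (W : WeierstrassCurve k) (p : ℕ) {N N' : IntermediateField k Ω} (hNN : N ≤ N')
    (hn : ∀ s ∈ N.fixingSubgroup, ∀ x ∈ N', s x ∈ N')
    (ht : ∀ R : Pt W Ω, p • R = 0 → (∀ s ∈ N'.fixingSubgroup, ac W s R = R) → R = 0)
    (h : SelNon W p N) : SelNon W p N' := by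
  have hle : ∀ s ∈ N'.fixingSubgroup, s ∈ N.fixingSubgroup := by
    intro s hs
    rw [IntermediateField.mem_fixingSubgroup_iff] at hs ⊢
    exact fun x hx => hs x (hNN hx)
  obtain ⟨c, hc, hp, hV, hno⟩ := h
  refine ⟨c, ⟨fun s hs t ht => hc.mul s (hle s hs) t (hle t ht), ?_⟩, fun s hs => hp s (hle s hs),
    fun V hVt => ?_, ?_⟩
  · obtain ⟨L, hL, hLc⟩ := hc.cont
    exact ⟨L, hL, fun s hs hsL => hLc s (hle s hs) hsL⟩
  · obtain ⟨P, hP⟩ := hV V hVt
    exact ⟨P, fun s hs hI => hP s (hle s hs) hI⟩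
  · rintro ⟨T, hT, hcT⟩
    exact hno ⟨T, hT, cob_down W p hNN hn ht hc.mul hp hT hcT⟩

end gen

open H55B (F O)

/-- Chunk YG7 (S). No p-torsion: the second part of H55P.sel_all (Fin.lean) does not need its ramification hypothesis: h0 from card_two and tors_of_prime, then tors_tower, W27O_base. -/
theorem no_tors {p : ℕ} (hp : p.Prime) (h5 : 5 ≤ p) {L₀ K : IntermediateField F FB} (hL : PExt p ⊥ L₀)
    (hKL : K ≤ L₀) (R : Pt W27 FB) (hR : p • R = 0) (h : ∀ s ∈ K.fixingSubgroup, ac W27 s R = R) :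
    R = 0 := by
  have hb : FiniteDimensional F (⊥ : IntermediateField F FB) := inferInstance
  have hbn : NumberField (⊥ : IntermediateField F FB) := H16C.FR_numberField _
  have h0 : ∀ T : Pt (W27O⁄F) FB, p • T = 0 →
      (∀ s ∈ (⊥ : IntermediateField F FB).fixingSubgroup, ac (W27O⁄F) s T = T) → T = 0 := by
    obtain ⟨v, h3, hpv, hc⟩ := card_two p hp h5 (⊥ : IntermediateField F FB) finrank_bot'
    exact fun T hT hf => tors_of_prime W27O p hp ⊥ v (disc_notMem v h3) hpv hc T hT hf
  have h2 := tors_tower (W27O⁄F) p hp ⊥ L₀ hL h0 K hKL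
  rw [W27O_base] at h2
  exact h2 R hR h

end H13Y
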