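import Mathlib
import Pool.Agent.Lib.H13S.VW
import Pool.Agent.Lib.H55P.S13
import Pool.Agent.Lib.H55R.HC6

open NumberField IsDedekindDomain

namespace H13Y

open H55P H13S

/-- Chunk YGT (M). N'/N Galois of prime degree l, w ramified in N': totally ramified, and every value of an element of N at a place above w is the l-th power of the value of an element of N'. N' over N: s13_alg, s13_galois (H55P/S13.lean), [N' : N] = l (ramificationIdxIn divides l by e f g = l; Ram gives a prime W of 𝓞 N' above w with index ≥ 2: all primes above w have the same index e ≥ 2 dividing l, so e = l).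
V above w: W' = the prime of N' below V (exists_below: V does not contain N), W' ∩ 𝓞 N = w (Abv). For a in N: W'(a) = w(a)^l (HeightOneSpectrum valuation in extensions: e = l; K5_ord or IsDedekindDomain.HeightOneSpectrum.valuation_comap). w(a) = exp(k): x = u^(-k), u a uniformizer of W': W'(x)^l = W'(a), Abv.le twice. -/
theorem ram_step {F : Type} [Field F] [NumberField F] {Ω : Type} [Field Ω] [DecidableEq Ω] [Algebra F Ω]
    {l : ℕ} (hl : l.Prime) {N N' : IntermediateField F Ω} [NumberField N] [NumberField N']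
    [FiniteDimensional F N'] (hNN : N ≤ N') (hn : ∀ s ∈ N.fixingSubgroup, ∀ x ∈ N', s x ∈ N')
    [IsAlgClosure F Ω] (hd : Module.finrank F N' = Module.finrank F N * l) {w : HeightOneSpectrum (𝓞 N)}
    (hr : Ram N N' w.asIdeal) {V : ValuationSubring Ω} (hV : Abv N V w) {a : Ω} (ha : a ∈ N) (h0 : a ≠ 0) :
    ∃ x ∈ N', V.valuation x ^ l = V.valuation a := by
  have hac : IsAlgClosed Ω := IsAlgClosure.isAlgClosed F
  have halg : Algebra.IsAlgebraic F Ω := IsAlgClosure.isAlgebraic
  have hch : CharZero Ω := charZero_of_injective_algebraMap (algebraMap F Ω).injective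
  let _ : Algebra N N' := s13_alg hNN
  have hgal : IsGalois N N' := s13_galois N N' hNN hn
  have hNf : FiniteDimensional F N := s13_fin hNN
  have hst : IsScalarTower F N N' := IsScalarTower.of_algebraMap_eq fun x => rfl
  have hfr : Module.finrank N N' = l := by
    have h1 := Module.finrank_mul_finrank F N N'
    rw [hd] at h1
    exact Nat.eq_of_mul_eq_mul_left Module.finrank_pos h1
  -- the ramification index is l
  have hes : H55R.es N N' w = l := by
    have h1 := (H55R.HC6_dvd (L := N') w).1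
    rw [hfr] at h1
    rcases (Nat.dvd_prime hl).1 h1 with h2 | h2
    · exfalso
      obtain ⟨W, hWp, hW⟩ := hr
      have hwm := w.isMaximal
      have hwp := w.isPrime
      have hle2 : Ideal.map (algebraMap (𝓞 N) (𝓞 N')) w.asIdeal ≤ W ^ 2 := by
        rw [Ideal.map_le_iff_le_comap]
        intro x hx
        exact hW x _ hx rfl
      have hle1 : Ideal.map (algebraMap (𝓞 N) (𝓞 N')) w.asIdeal ≤ W :=
        hle2.trans (Ideal.pow_le_self two_ne_zero)
      have hlo : W.LiesOver w.asIdeal := by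
        constructor
        have h3 : w.asIdeal ≤ W.under (𝓞 N) := Ideal.map_le_iff_le_comap.1 hle1
        have h4 : (W.under (𝓞 N)).IsPrime := inferInstance
        exact hwm.eq_of_le h4.ne_top h3
      have h5 : w.asIdeal.ramificationIdx' W ≠ 1 := (Ideal.ramificationIdx'_ne_one_iff hle1).2 hle2
      rw [Ideal.ramificationIdx'_eq_ramificationIdx w.asIdeal W w.ne_bot,
        ← Ideal.ramificationIdxIn_eq_ramificationIdx w.asIdeal W Gal(N'/N)] at h5
      exact h5 h2
    · exact h2
  -- the prime below V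
  obtain ⟨W', hW'⟩ : ∃ W' : HeightOneSpectrum (𝓞 N'), Abv N' V W' := by
    apply exists_below
    obtain ⟨π, hπ⟩ := H55R.HB1_pi w
    refine ⟨algebraMap N N' ((π⁻¹ : (N)ˣ) : N), ?_⟩
    have h1 := hV ((π⁻¹ : (N)ˣ) : N)
    have h2 : ¬ w.valuation N ((π⁻¹ : (N)ˣ) : N) ≤ 1 := by
      rw [H55R.BF1_val, H55R.ord_inv, hπ, neg_neg, not_le, ← WithZero.exp_zero,
        WithZero.exp_lt_exp]
      norm_num
    intro h3
    exact h2 (h1.1 h3)
  have hund : W'.under (𝓞 N) = w := by
    apply HeightOneSpectrum.ext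
    ext z
    show algebraMap (𝓞 N) (𝓞 N') z ∈ W'.asIdeal ↔ z ∈ w.asIdeal
    rw [← W'.valuation_lt_one_iff_mem (K := N'), ← w.valuation_lt_one_iff_mem (K := N)]
    have h1 := hW'.lt ((algebraMap (𝓞 N) (𝓞 N') z : 𝓞 N') : N')
    have h2 := hV.lt ((z : 𝓞 N) : N)
    exact h1.symm.trans h2
  -- the values
  have ha0 : (⟨a, ha⟩ : N) ≠ 0 := by
    intro h
    exact h0 (congrArg Subtype.val h)
  obtain ⟨u, hu⟩ := H55R.HB1_pi W'
  obtain ⟨k, hk⟩ : ∃ k : ℤ, k = H55R.ord w (Units.mk0 _ ha0) := ⟨_, rfl⟩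
  refine ⟨(((u ^ k : (N')ˣ) : N') : Ω), ((u ^ k : (N')ˣ) : N').2, ?_⟩
  have h1 := H55R.ord_map (L := N') W' w hund (Units.mk0 _ ha0)
  rw [hes, ← hk] at h1
  have h2 : W'.valuation N' (((u ^ k : (N')ˣ) : N') ^ l) =
      W'.valuation N' (algebraMap N N' (⟨a, ha⟩ : N)) := by
    have e1 : algebraMap N N' (⟨a, ha⟩ : N) =
        ((Units.map (algebraMap N N' : N →* N') (Units.mk0 _ ha0) : (N')ˣ) : N') := rfl
    rw [e1, H55R.BF1_val, h1, map_pow, H55R.BF1_val, H55R.ord_zpow, hu, mul_one,
      ← WithZero.exp_nsmul]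
    congr 1
    rw [nsmul_eq_mul]
    ring
  have h3 := (hW'.le _ _).2 h2.le
  have h4 := (hW'.le _ _).2 h2.ge
  have h5 := le_antisymm h3 h4
  rw [← map_pow]
  exact h5

end H13Y
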