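import Mathlib
import Pool.Agent.Lib.H13Z.TR

open NumberField IsDedekindDomain WeierstrassCurve

namespace H13Y

open H55P
open H13Z (SelNon)

/-- Chunk YD3 (S/M), pure algebra. G acts on M, D a subgroup (as a set of pairs: DD = the big group, D' the small one, normal of index at most 2 in it), C a cocycle on DD killed by the odd number p, C = coboundary of R on D'. Then C is a coboundary on DD. If all elements of DD are in D' take R. Otherwise σ in DD, not in D'. C' s = C s - (a s R - R) is a cocycle, zero on D'. m = C' σ.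
For s in D': C' (s σ) = a s m, C' (s σ) = C' (σ (σ⁻¹ s σ)) = m: a s m = m. C' (σ σ) = 0 (σ σ in D'): m + a σ m = 0. So 2 C' s = a s (-m) - (-m) for s in D' and for s = s' σ (every s in DD not in D' is s' σ with s' in D'). p = 2 k + 1: C s = p C s - k (2 C s) = - k (a s Y - Y), Y = 2 R - m. Point: -(k) Y. -/
theorem cob_two {G M : Type} [Group G] [AddCommGroup M] (a : G → M →+ M) (ha1 : ∀ m, a 1 m = m)
    (ha : ∀ s t m, a (s * t) m = a s (a t m)) (DD D' : Subgroup G) (hle : D' ≤ DD)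
    (hn : ∀ s ∈ DD, ∀ t ∈ D', s⁻¹ * t * s ∈ D') (h2 : ∀ s ∈ DD, s ∉ D' → ∀ t ∈ DD, t ∉ D' → s * t⁻¹ ∈ D')
    (h2' : ∀ s ∈ DD, s ∉ D' → s * s ∈ D')
    (C : G → M) (hC : ∀ s ∈ DD, ∀ t ∈ DD, C (s * t) = C s + a s (C t)) {p : ℕ} (hp : p % 2 = 1)
    (hpC : ∀ s ∈ DD, p • C s = 0) (h : ∃ R, ∀ s ∈ D', C s = a s R - R) :
    ∃ P, ∀ s ∈ DD, C s = a s P - P := by
  obtain ⟨R, hR⟩ := h
  by_cases hall : ∀ s ∈ DD, s ∈ D'
  · exact ⟨R, fun s hs => hR s (hall s hs)⟩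
  push Not at hall
  obtain ⟨σ, hσ, hσ'⟩ := hall
  obtain ⟨C', hC'⟩ : ∃ C' : G → M, ∀ s, C' s = C s - (a s R - R) := ⟨_, fun _ => rfl⟩
  have hmul : ∀ s ∈ DD, ∀ t ∈ DD, C' (s * t) = C' s + a s (C' t) := by
    intro s hs t ht
    rw [hC', hC', hC', hC s hs t ht, ha, map_sub, map_sub]
    abel
  have hz : ∀ s ∈ D', C' s = 0 := by
    intro s hs
    rw [hC', hR s hs, sub_self]
  obtain ⟨m, hm⟩ : ∃ m, m = C' σ := ⟨_, rfl⟩
  have hfix : ∀ s ∈ D', a s m = m := by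
    intro s hs
    have h1 := hmul s (hle hs) σ hσ
    have h3 := hmul σ hσ (σ⁻¹ * s * σ) (hle (hn σ hσ s hs))
    have e : σ * (σ⁻¹ * s * σ) = s * σ := by group
    rw [e, h1, hz s hs, hz _ (hn σ hσ s hs), map_zero, zero_add, add_zero, ← hm] at h3
    exact h3
  have hneg : a σ m = -m := by
    have h1 := hmul σ hσ σ hσ
    rw [hz _ (h2' σ hσ hσ'), ← hm] at h1
    exact (neg_eq_of_add_eq_zero_right h1.symm).symm
  have htwo : ∀ s ∈ DD, C' s + C' s = a s (-m) - (-m) := by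
    intro s hs
    by_cases hs' : s ∈ D'
    · rw [hz s hs', map_neg, hfix s hs', add_zero, sub_self]
    · have h1 : s * σ⁻¹ ∈ D' := h2 s hs hs' σ hσ hσ'
      have e : s = (s * σ⁻¹) * σ := by group
      have h3 : C' s = m := by
        rw [e, hmul _ (hle h1) σ hσ, hz _ h1, ← hm, hfix _ h1, zero_add]
      have h4 : a s m = -m := by
        rw [e, ha, hneg, map_neg, hfix _ h1]
      rw [h3, map_neg, h4, neg_neg, sub_neg_eq_add]
  obtain ⟨k, hk⟩ : ∃ k : ℕ, p = 2 * k + 1 := ⟨p / 2, by omega⟩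
  refine ⟨-(k • (R + R - m)), fun s hs => ?_⟩
  have h5 : C s + C s = a s (R + R - m) - (R + R - m) := by
    have h6 := htwo s hs
    rw [hC', map_neg] at h6
    rw [map_sub, map_add]
    have h7 : C s + C s = (C s - (a s R - R) + (C s - (a s R - R))) + (a s R - R) + (a s R - R) := by abel
    rw [h7, h6]
    abel
  have h6 := hpC s hs
  rw [hk, add_smul, one_smul, mul_comm, mul_smul, two_smul, h5] at h6
  rw [map_neg, map_nsmul]
  have h7 : C s = -(k • (a s (R + R - m) - (R + R - m))) := (neg_eq_of_add_eq_zero_right h6).symm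
  rw [h7, smul_sub]
  abel

/-- the action of a product -/
theorem YD2_mul {k : Type} [Field k] {Ω : Type} [Field Ω] [DecidableEq Ω] [Algebra k Ω]
    (W : WeierstrassCurve k) (s t : Ω ≃ₐ[k] Ω) (P : Pt W Ω) : ac W (s * t) P = ac W s (ac W t P) := by
  cases P <;> rfl

theorem YD2_one {k : Type} [Field k] {Ω : Type} [Field Ω] [DecidableEq Ω] [Algebra k Ω]
    (W : WeierstrassCurve k) (P : Pt W Ω) : ac W (1 : Ω ≃ₐ[k] Ω) P = P := by
  cases P <;> rfl

/-- Chunk YD2 (M). Corestriction in index 2. H = K₁.fixingSubgroup, τ in K.fixingSubgroup not in H; K.fixingSubgroup is the union of H and τ H (h2). C s = d s + τ d(τ⁻¹ s τ) for s in H, C s = τ d(τ⁻¹ s) + d(s τ) for s not in H. The cocycle condition: four cases, direct. Continuity: L from d.cont, the normal closure L' of L ⊔ K₁ over k (finite): s in L'.fixingSubgroup is in H, τ⁻¹ s τ is in L'.fixingSubgroup: both terms are 0.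
Local conditions: V, V' = V.comap τ (x in V' iff τ x in V; V' ≠ ⊤): P, P' for d at V and V'. For s in H, Dec V s: τ⁻¹ s τ in H, Dec V' (τ⁻¹ s τ): C s = (s P - P) + τ (τ⁻¹ s τ P' - P') = s R - R with R = P + τ P'. cob_two for DD = elements of K.fixingSubgroup in Dec V, D' = H in it. -/
theorem cor_two {k : Type} [Field k] {Ω : Type} [Field Ω] [DecidableEq Ω] [Algebra k Ω] [IsAlgClosure k Ω]
    [CharZero k] (W : WeierstrassCurve k) {p : ℕ} (hp : p % 2 = 1) {K K₁ : IntermediateField k Ω}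
    [FiniteDimensional k K₁] (hK : K ≤ K₁) (hn : ∀ s ∈ K.fixingSubgroup, ∀ x ∈ K₁, s x ∈ K₁)
    {τ : Ω ≃ₐ[k] Ω} (hτ : τ ∈ K.fixingSubgroup) (hτ1 : τ ∉ K₁.fixingSubgroup)
    (h2 : ∀ s ∈ K.fixingSubgroup, s ∉ K₁.fixingSubgroup → s * τ ∈ K₁.fixingSubgroup ∧
      τ⁻¹ * s ∈ K₁.fixingSubgroup)
    {d : (Ω ≃ₐ[k] Ω) → Pt W Ω} (hd : Coc W K₁ d) (hpd : ∀ s ∈ K₁.fixingSubgroup, p • d s = 0)
    (hV : ∀ V : ValuationSubring Ω, V ≠ ⊤ → ∃ P : Pt W Ω, ∀ s ∈ K₁.fixingSubgroup, Dec V s →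
      d s = ac W s P - P) :
    ∃ C : (Ω ≃ₐ[k] Ω) → Pt W Ω, Coc W K C ∧ (∀ s ∈ K.fixingSubgroup, p • C s = 0) ∧
      (∀ V : ValuationSubring Ω, V ≠ ⊤ → ∃ P : Pt W Ω, ∀ s ∈ K.fixingSubgroup, Dec V s →
        C s = ac W s P - P) ∧
      ∀ s ∈ K₁.fixingSubgroup, C s = d s + ac W τ (d (τ⁻¹ * s * τ)) := by
  classical
  have hle : K₁.fixingSubgroup ≤ K.fixingSubgroup := IntermediateField.fixingSubgroup_antitone hK
  have hnor : ∀ s ∈ K.fixingSubgroup, ∀ t ∈ K₁.fixingSubgroup, s⁻¹ * t * s ∈ K₁.fixingSubgroup := by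
    intro s hs t ht
    rw [IntermediateField.mem_fixingSubgroup_iff] at ht ⊢
    intro x hx
    have e : (s⁻¹ * t * s) x = s⁻¹ (t (s x)) := rfl
    rw [e, ht _ (hn s hs x hx)]
    exact s.symm_apply_apply x
  have hτi : ∀ t ∈ K₁.fixingSubgroup, τ⁻¹ * t * τ ∈ K₁.fixingSubgroup := hnor τ hτ
  obtain ⟨C, hC⟩ : ∃ C : (Ω ≃ₐ[k] Ω) → Pt W Ω, ∀ s, C s = if s ∈ K₁.fixingSubgroup then
      d s + ac W τ (d (τ⁻¹ * s * τ)) else ac W τ (d (τ⁻¹ * s)) + d (s * τ) := ⟨_, fun _ => rfl⟩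
  have hCy : ∀ s ∈ K₁.fixingSubgroup, C s = d s + ac W τ (d (τ⁻¹ * s * τ)) := by
    intro s hs
    rw [hC, if_pos hs]
  have hCn : ∀ s, s ∉ K₁.fixingSubgroup → C s = ac W τ (d (τ⁻¹ * s)) + d (s * τ) := by
    intro s hs
    rw [hC, if_neg hs]
  have hmul : ∀ s ∈ K.fixingSubgroup, ∀ t ∈ K.fixingSubgroup, C (s * t) = C s + ac W s (C t) := by
    intro s hs t ht
    by_cases hs1 : s ∈ K₁.fixingSubgroup
    · by_cases ht1 : t ∈ K₁.fixingSubgroup
      · rw [hCy _ (mul_mem hs1 ht1), hCy _ hs1, hCy _ ht1, hd.mul s hs1 t ht1]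
        have e : τ⁻¹ * (s * t) * τ = (τ⁻¹ * s * τ) * (τ⁻¹ * t * τ) := by group
        rw [e, hd.mul _ (hτi s hs1) _ (hτi t ht1), map_add, map_add, ← YD2_mul, ← YD2_mul]
        have e2 : τ * (τ⁻¹ * s * τ) = s * τ := by group
        rw [e2]
        abel
      · obtain ⟨h3, h4⟩ := h2 t ht ht1
        have hst : s * t ∉ K₁.fixingSubgroup := fun h => ht1 ((Subgroup.mul_mem_cancel_left _ hs1).1 h)
        rw [hCn _ hst, hCy _ hs1, hCn _ ht1]
        have e1 : τ⁻¹ * (s * t) = (τ⁻¹ * s * τ) * (τ⁻¹ * t) := by group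
        have e2 : s * t * τ = s * (t * τ) := by group
        rw [e1, e2, hd.mul _ (hτi s hs1) _ h4, hd.mul _ hs1 _ h3, map_add, map_add, ← YD2_mul, ← YD2_mul]
        have e3 : τ * (τ⁻¹ * s * τ) = s * τ := by group
        rw [e3]
        abel
    · obtain ⟨h3, h4⟩ := h2 s hs hs1
      by_cases ht1 : t ∈ K₁.fixingSubgroup
      · have hst : s * t ∉ K₁.fixingSubgroup := fun h => hs1 ((Subgroup.mul_mem_cancel_right _ ht1).1 h)
        rw [hCn _ hst, hCn _ hs1, hCy _ ht1]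
        have e1 : τ⁻¹ * (s * t) = (τ⁻¹ * s) * t := by group
        have e2 : s * t * τ = (s * τ) * (τ⁻¹ * t * τ) := by group
        rw [e1, e2, hd.mul _ h4 _ ht1, hd.mul _ h3 _ (hτi t ht1), map_add, map_add, ← YD2_mul, ← YD2_mul]
        have e3 : τ * (τ⁻¹ * s) = s := by group
        rw [e3]
        abel
      · obtain ⟨h5, h6⟩ := h2 t ht ht1
        have hst : s * t ∈ K₁.fixingSubgroup := by
          have e : s * t = (s * τ) * (τ⁻¹ * t) := by group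
          rw [e]
          exact mul_mem h3 h6
        rw [hCy _ hst, hCn _ hs1, hCn _ ht1]
        have e1 : s * t = (s * τ) * (τ⁻¹ * t) := by group
        have e2 : τ⁻¹ * (s * t) * τ = (τ⁻¹ * s) * (t * τ) := by group
        rw [e2, e1, hd.mul _ h3 _ h6, hd.mul _ h4 _ h5, map_add, map_add, ← YD2_mul, ← YD2_mul]
        have e3 : τ * (τ⁻¹ * s) = s := by group
        rw [e3]
        abel
  have hpC : ∀ s ∈ K.fixingSubgroup, p • C s = 0 := by
    intro s hs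
    by_cases hs1 : s ∈ K₁.fixingSubgroup
    · rw [hCy _ hs1, smul_add, ← map_nsmul, hpd s hs1, hpd _ (hτi s hs1), map_zero, add_zero]
    · obtain ⟨h3, h4⟩ := h2 s hs hs1
      rw [hCn _ hs1, smul_add, ← map_nsmul, hpd _ h3, hpd _ h4, map_zero, add_zero]
  refine ⟨C, ⟨hmul, ?_⟩, hpC, ?_, hCy⟩
  · obtain ⟨L, hL, hLd⟩ := hd.cont
    let em := IntermediateField.intermediateFieldMap τ L
    have hLm : FiniteDimensional k (L.map τ.toAlgHom) := Module.Finite.equiv em.toLinearEquiv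
    refine ⟨(L ⊔ K₁) ⊔ L.map τ.toAlgHom, IntermediateField.finiteDimensional_sup _ _, fun s hs hsL => ?_⟩
    rw [IntermediateField.fixingSubgroup_sup, IntermediateField.fixingSubgroup_sup] at hsL
    obtain ⟨⟨hs1, hs2⟩, hs3⟩ := hsL
    have h7 : τ⁻¹ * s * τ ∈ L.fixingSubgroup := by
      rw [IntermediateField.mem_fixingSubgroup_iff]
      intro x hx
      have e : (τ⁻¹ * s * τ) x = τ⁻¹ (s (τ x)) := rfl
      have h8 : s (τ x) = τ x := (IntermediateField.mem_fixingSubgroup_iff _ s).1 hs3 (τ x) ⟨x, hx, rfl⟩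
      rw [e, h8]
      exact τ.symm_apply_apply x
    rw [hCy s hs2, hLd s hs2 hs1, hLd _ (hτi s hs2) h7, map_zero, add_zero]
  · intro V hVt
    obtain ⟨P, hP⟩ := hV V hVt
    have hm : ∀ x, x ∈ V.comap (τ : Ω →+* Ω) ↔ τ x ∈ V := fun x => ValuationSubring.mem_comap
    have hV' : V.comap (τ : Ω →+* Ω) ≠ ⊤ := by
      intro h
      apply hVt
      refine eq_top_iff.2 fun x _ => ?_
      have h1 : τ.symm x ∈ V.comap (τ : Ω →+* Ω) := by
        rw [h]
        exact ValuationSubring.mem_top _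
      rwa [hm, τ.apply_symm_apply] at h1
    obtain ⟨P', hP'⟩ := hV _ hV'
    let DD : Subgroup (Ω ≃ₐ[k] Ω) :=
      { carrier := {s | s ∈ K.fixingSubgroup ∧ Dec V s}
        mul_mem' := by
          rintro s t ⟨hs, hs'⟩ ⟨ht, ht'⟩
          exact ⟨mul_mem hs ht, fun x => (hs' (t x)).trans (ht' x)⟩
        one_mem' := ⟨one_mem _, fun x => Iff.rfl⟩
        inv_mem' := by
          rintro s ⟨hs, hs'⟩
          refine ⟨inv_mem hs, fun x => ?_⟩
          have h1 := hs' (s⁻¹ x)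
          have e : s (s⁻¹ x) = x := s.apply_symm_apply x
          rw [e] at h1
          exact h1.symm }
    have hDD : ∀ s, s ∈ DD ↔ s ∈ K.fixingSubgroup ∧ Dec V s := fun _ => Iff.rfl
    have hnD : ∀ s ∈ DD, s ∉ DD ⊓ K₁.fixingSubgroup → s ∉ K₁.fixingSubgroup :=
      fun s hs h h' => h (Subgroup.mem_inf.2 ⟨hs, h'⟩)
    have hcob := cob_two (fun s : Ω ≃ₐ[k] Ω => ac W s) (YD2_one W) (fun s t m => YD2_mul W s t m) DD
      (DD ⊓ K₁.fixingSubgroup) inf_le_left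
      (fun s hs t ht => Subgroup.mem_inf.2 ⟨mul_mem (mul_mem (inv_mem hs) ht.1) hs,
        hnor s hs.1 t ht.2⟩)
      (fun s hs hs' t ht ht' => Subgroup.mem_inf.2 ⟨mul_mem hs (inv_mem ht), by
        have e : s * t⁻¹ = (s * τ) * (t * τ)⁻¹ := by group
        rw [e]
        exact mul_mem (h2 s hs.1 (hnD s hs hs')).1 (inv_mem (h2 t ht.1 (hnD t ht ht')).1)⟩)
      (fun s hs hs' => Subgroup.mem_inf.2 ⟨mul_mem hs hs, by
        have e : s * s = (s * τ) * (τ⁻¹ * s) := by group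
        rw [e]
        exact mul_mem (h2 s hs.1 (hnD s hs hs')).1 (h2 s hs.1 (hnD s hs hs')).2⟩)
      C (fun s hs t ht => hmul s hs.1 t ht.1) hp (fun s hs => hpC s hs.1)
      ⟨P + ac W τ P', fun s hs => by
        have hs1 : s ∈ K₁.fixingSubgroup := hs.2
        have hdec : Dec V s := hs.1.2
        have h8 : Dec (V.comap (τ : Ω →+* Ω)) (τ⁻¹ * s * τ) := by
          intro x
          rw [hm, hm]
          have e : τ ((τ⁻¹ * s * τ) x) = s (τ x) := τ.apply_symm_apply _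
          rw [e]
          exact hdec (τ x)
        rw [hCy s hs1, hP s hs1 hdec, hP' _ (hτi s hs1) h8, map_sub, map_add, ← YD2_mul, ← YD2_mul]
        have e3 : τ * (τ⁻¹ * s * τ) = s * τ := by group
        rw [e3]
        abel⟩
    obtain ⟨R, hR⟩ := hcob
    exact ⟨R, fun s hs hs' => hR s ⟨hs, hs'⟩⟩

/-- Chunk YD4 (S/M). Descent of a nonzero Selmer class along the quadratic extension K₁ = K(ω), with the help of the endomorphism S = multiplication by the square root of -3. If every s in K.fixingSubgroup fixes ω then the groups of K and K₁ are equal: clear. Otherwise τ with τ ω ≠ ω. cor_two for d = c and for d = S ∘ c (S commutes with K₁.fixingSubgroup: h1; local conditions with S P): C₁, C₂.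
If C₁ or C₂ is not a coboundary of a point killed by p on K.fixingSubgroup: done. Otherwise for s in K₁.fixingSubgroup: c s + τ c(τ⁻¹ s τ) = s T₁ - T₁, S c s - S (τ c(τ⁻¹ s τ)) = s T₂ - T₂ (h2). So 2 S c s = s (S T₁ + T₂) - (S T₁ + T₂), and applying S: -6 c s = s Y - Y, Y = S (S T₁ + T₂), p Y = 0. p is prime to 6: u with -6 u = 1 modulo p: c s = s (u Y) - u Y: contradiction. -/
theorem non_desc {k : Type} [Field k] {Ω : Type} [Field Ω] [DecidableEq Ω] [Algebra k Ω] [IsAlgClosure k Ω]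
    [CharZero k] (W : WeierstrassCurve k) {p : ℕ} (hp : p.Prime) (h5 : 5 ≤ p)
    {K K₁ : IntermediateField k Ω} [FiniteDimensional k K₁] (hK : K ≤ K₁)
    (hn : ∀ s ∈ K.fixingSubgroup, ∀ x ∈ K₁, s x ∈ K₁) (S : Pt W Ω →+ Pt W Ω)
    (hS : ∀ P, S (S P) = -(3 • P)) (ω ω' : Ω)
    (hω : ∀ s ∈ K.fixingSubgroup, s ∈ K₁.fixingSubgroup ↔ s ω = ω)
    (hω2 : ∀ s : Ω ≃ₐ[k] Ω, s ω = ω ∨ s ω = ω') (hω3 : ∀ s : Ω ≃ₐ[k] Ω, s ω = ω' → s ω' = ω)
    (h1 : ∀ s : Ω ≃ₐ[k] Ω, s ω = ω → ∀ P, ac W s (S P) = S (ac W s P))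
    (h2 : ∀ s : Ω ≃ₐ[k] Ω, s ω ≠ ω → ∀ P, ac W s (S P) = -S (ac W s P)) (h : SelNon W p K₁) :
    SelNon W p K := by
  have hle : K₁.fixingSubgroup ≤ K.fixingSubgroup := IntermediateField.fixingSubgroup_antitone hK
  obtain ⟨c, hc, hpc, hV, hT⟩ := h
  by_cases hall : ∀ s ∈ K.fixingSubgroup, s ω = ω
  · have hiff : ∀ s, s ∈ K.fixingSubgroup ↔ s ∈ K₁.fixingSubgroup :=
      fun s => ⟨fun hs => (hω s hs).2 (hall s hs), fun hs => hle hs⟩
    refine ⟨c, ⟨fun s hs t ht => hc.mul s ((hiff s).1 hs) t ((hiff t).1 ht), ?_⟩,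
      fun s hs => hpc s ((hiff s).1 hs), ?_, ?_⟩
    · obtain ⟨L, hL, h3⟩ := hc.cont
      exact ⟨L, hL, fun s hs => h3 s ((hiff s).1 hs)⟩
    · intro V hVt
      obtain ⟨P, hP⟩ := hV V hVt
      exact ⟨P, fun s hs => hP s ((hiff s).1 hs)⟩
    · rintro ⟨T, hT1, hT2⟩
      exact hT ⟨T, hT1, fun s hs => hT2 s ((hiff s).2 hs)⟩
  push Not at hall
  obtain ⟨τ, hτ, hτω⟩ := hall
  have hτ1 : τ ∉ K₁.fixingSubgroup := fun h => hτω ((hω τ hτ).1 h)
  have hτ' : τ ω = ω' := (hω2 τ).resolve_left hτω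
  have h22 : ∀ s ∈ K.fixingSubgroup, s ∉ K₁.fixingSubgroup → s * τ ∈ K₁.fixingSubgroup ∧
      τ⁻¹ * s ∈ K₁.fixingSubgroup := by
    intro s hs hs1
    have hsω : s ω = ω' := (hω2 s).resolve_left fun h => hs1 ((hω s hs).2 h)
    constructor
    · refine (hω _ (mul_mem hs hτ)).2 ?_
      show s (τ ω) = ω
      rw [hτ']
      exact hω3 s hsω
    · refine (hω _ (mul_mem (inv_mem hτ) hs)).2 ?_
      show τ⁻¹ (s ω) = ω
      rw [hsω, ← hτ']
      exact τ.symm_apply_apply ω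
  have hfixω : ∀ s ∈ K₁.fixingSubgroup, s ω = ω := fun s hs => (hω s (hle hs)).1 hs
  have hp2 : p % 2 = 1 := by
    rcases hp.eq_two_or_odd with h3 | h3
    · omega
    · exact h3
  by_contra hcon
  have key : ∀ C : (Ω ≃ₐ[k] Ω) → Pt W Ω, Coc W K C → (∀ s ∈ K.fixingSubgroup, p • C s = 0) →
      (∀ V : ValuationSubring Ω, V ≠ ⊤ → ∃ P : Pt W Ω, ∀ s ∈ K.fixingSubgroup, Dec V s →
        C s = ac W s P - P) → ∃ T : Pt W Ω, p • T = 0 ∧ ∀ s ∈ K.fixingSubgroup, C s = ac W s T - T := by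
    intro C h3 h4 h5
    by_contra h6
    exact hcon ⟨C, h3, h4, h5, h6⟩
  obtain ⟨C₁, a1, a2, a3, a4⟩ := cor_two W hp2 hK hn hτ hτ1 h22 hc hpc hV
  have hSc : Coc W K₁ fun s => S (c s) := by
    refine ⟨fun s hs t ht => ?_, ?_⟩
    · rw [hc.mul s hs t ht, map_add, h1 s (hfixω s hs)]
    · obtain ⟨L, hL, h3⟩ := hc.cont
      exact ⟨L, hL, fun s hs hs' => by rw [h3 s hs hs', map_zero]⟩
  obtain ⟨C₂, b1, b2, b3, b4⟩ := cor_two W hp2 hK hn hτ hτ1 h22 hSc
    (fun s hs => by rw [← map_nsmul, hpc s hs, map_zero]) (fun V hVt => by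
      obtain ⟨P, hP⟩ := hV V hVt
      exact ⟨S P, fun s hs hs' => by rw [hP s hs hs', map_sub, h1 s (hfixω s hs)]⟩)
  obtain ⟨T₁, hT₁, hT₁'⟩ := key C₁ a1 a2 a3
  obtain ⟨T₂, hT₂, hT₂'⟩ := key C₂ b1 b2 b3
  obtain ⟨Y, hY⟩ : ∃ Y, Y = S (S T₁ + T₂) := ⟨_, rfl⟩
  have hpY : p • Y = 0 := by
    rw [hY, ← map_nsmul, smul_add, ← map_nsmul, hT₁, hT₂, map_zero, add_zero, map_zero]
  have hmain : ∀ s ∈ K₁.fixingSubgroup, -(6 • c s) = ac W s Y - Y := by
    intro s hs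
    have e1 := a4 s hs
    have e2 := b4 s hs
    rw [hT₁' s (hle hs)] at e1
    rw [hT₂' s (hle hs), h2 τ hτω] at e2
    have e3 := congrArg S e1
    rw [map_sub, map_add, ← h1 s (hfixω s hs)] at e3
    have e4 : S (c s) + S (c s) = ac W s (S T₁ + T₂) - (S T₁ + T₂) := by
      rw [map_add]
      have e5 : ac W s (S T₁) + ac W s T₂ - (S T₁ + T₂) = (ac W s (S T₁) - S T₁) + (ac W s T₂ - T₂) := by
        abel
      rw [e5, e3, e2]
      abel
    have e6 := congrArg S e4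
    rw [map_add, hS, map_sub, ← h1 s (hfixω s hs), ← hY] at e6
    rw [← e6]
    abel
  have hcop : IsCoprime ((p : ℕ) : ℤ) (6 : ℤ) := by
    have h3 : Nat.Coprime p 6 := by
      rw [Nat.Prime.coprime_iff_not_dvd hp]
      intro h4
      have h5' := Nat.le_of_dvd (by norm_num) h4
      have h6 : p = 5 ∨ p = 6 := by omega
      rcases h6 with rfl | rfl
      · omega
      · norm_num at hp
    exact_mod_cast (Nat.isCoprime_iff_coprime.2 h3)
  obtain ⟨v, u, huv⟩ := hcop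
  refine hT ⟨(-u) • Y, ?_, fun s hs => ?_⟩
  · rw [smul_comm, hpY, smul_zero]
  · have h3 : c s = (v * (p : ℤ) + u * 6) • c s := by rw [huv, one_smul]
    have h4 : (v * (p : ℤ)) • c s = 0 := by
      rw [mul_smul, natCast_zsmul, hpc s hs, smul_zero]
    have h5 : (u * 6) • c s = (-u) • (-(6 • c s)) := by
      rw [mul_smul, neg_smul, smul_neg, neg_neg]
      congr 1
    rw [h3, add_smul, h4, zero_add, h5, hmain s hs, smul_sub, map_zsmul]

end H13Y
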