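import Mathlib
import Pool.Agent.Lib.H13Z.TR

open NumberField IsDedekindDomain WeierstrassCurve

namespace H13Y

open H55P
open H13Z (SelNon)

/-- Chunk YD1 (S/M). PORT of H55P.sel_base (Z11.lean) in the other direction: φ from base_iso, c' s = φ⁻¹ (c t) if s = t.restrictScalars k with t in K.fixingSubgroup (Z11_lift; t is determined by s), 0 otherwise. Continuity: L over F finite from c.cont, L.restrictScalars k is finite over k (FiniteDimensional.trans). Local conditions: Dec V (t.restrictScalars k) iff Dec V t (same function). The class is not the class of T: otherwise c t = ac t (φ T) - φ T. -/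
theorem non_base {k F Ω : Type} [Field k] [Field F] [Field Ω] [DecidableEq Ω] [Algebra k F] [Algebra k Ω]
    [Algebra F Ω] [IsScalarTower k F Ω] [FiniteDimensional k F] (W : WeierstrassCurve k) (p : ℕ)
    (K : IntermediateField F Ω) [FiniteDimensional F K] (hS : SelNon (W⁄F) p K) :
    SelNon W p (K.restrictScalars k) := by
  classical
  obtain ⟨c, hc, hp, hV, hT⟩ := hS
  obtain ⟨φ, hφ⟩ := base_iso (F := F) (Ω := Ω) W
  obtain ⟨c', hc'⟩ : ∃ c' : (Ω ≃ₐ[k] Ω) → Pt W Ω, ∀ t : Ω ≃ₐ[F] Ω, t ∈ K.fixingSubgroup →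
      c' (t.restrictScalars k) = φ.symm (c t) := by
    refine ⟨fun s => if h : ∃ t : Ω ≃ₐ[F] Ω, t.restrictScalars k = s ∧ t ∈ K.fixingSubgroup then
      φ.symm (c h.choose) else 0, fun t ht => ?_⟩
    have h : ∃ t' : Ω ≃ₐ[F] Ω, t'.restrictScalars k = t.restrictScalars k ∧ t' ∈ K.fixingSubgroup :=
      ⟨t, rfl, ht⟩
    have h2 : h.choose = t := AlgEquiv.restrictScalars_injective k h.choose_spec.1
    show (if h : ∃ t' : Ω ≃ₐ[F] Ω, t'.restrictScalars k = t.restrictScalars k ∧ t' ∈ K.fixingSubgroup then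
      φ.symm (c h.choose) else 0) = _
    rw [dif_pos h, h2]
  have hac : ∀ (t : Ω ≃ₐ[F] Ω) (Q : Pt (W⁄F) Ω), ac W (t.restrictScalars k) (φ.symm Q) =
      φ.symm (ac (W⁄F) t Q) := by
    intro t Q
    apply φ.injective
    rw [hφ, AddEquiv.apply_symm_apply, AddEquiv.apply_symm_apply]
  refine ⟨c', ⟨?_, ?_⟩, ?_, ?_, ?_⟩
  · intro s hs s' hs'
    obtain ⟨t, rfl, ht⟩ := Z11_lift K s hs
    obtain ⟨t', rfl, ht'⟩ := Z11_lift K s' hs'
    have h2 : (t.restrictScalars k) * (t'.restrictScalars k) = (t * t').restrictScalars k := rfl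
    rw [h2, hc' _ (mul_mem ht ht'), hc' _ ht, hc' _ ht', hc.mul t ht t' ht', map_add, hac]
  · obtain ⟨L, hL, hLc⟩ := hc.cont
    refine ⟨L.restrictScalars k, ?_, ?_⟩
    · have : FiniteDimensional k L := FiniteDimensional.trans k F L
      exact this
    · intro s hs hsL
      obtain ⟨t, rfl, ht⟩ := Z11_lift K s hs
      have htL : t ∈ L.fixingSubgroup := by
        rw [IntermediateField.mem_fixingSubgroup_iff] at hsL ⊢
        exact hsL
      rw [hc' _ ht, hLc _ ht htL, map_zero]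
  · intro s hs
    obtain ⟨t, rfl, ht⟩ := Z11_lift K s hs
    rw [hc' _ ht, ← map_nsmul, hp _ ht, map_zero]
  · intro V hVt
    obtain ⟨P, hP⟩ := hV V hVt
    refine ⟨φ.symm P, fun s hs hD => ?_⟩
    obtain ⟨t, rfl, ht⟩ := Z11_lift K s hs
    have hDt : Dec V t := fun x => hD x
    rw [hc' _ ht, hP t ht hDt, map_sub, hac]
  · rintro ⟨T, hpT, hcT⟩
    refine hT ⟨φ T, ?_, fun t ht => ?_⟩
    · rw [← map_nsmul, hpT, map_zero]
    · have h1 := hcT _ (Z11_mem (k := k) K t ht)
      rw [hc' _ ht] at h1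
      have h2 := congrArg φ h1
      rw [AddEquiv.apply_symm_apply, map_sub, hφ] at h2
      exact h2

end H13Y
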