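import Mathlib
import Pool.Agent.Lib.H13Y.D1
import Pool.Agent.Lib.H13Y.D2
import Pool.Agent.Lib.H55P.Fin
import Pool.Agent.Lib.H28G.Act

open NumberField IsDedekindDomain WeierstrassCurve

namespace H13Y

open H55P H28G
open H55B (F O om E27)
open H13Z (SelNon)

theorem yd5_theta : ∃ θ : Pt E27 FB ≃+ P27 FB, ∀ (s : FB ≃ₐ[ℚ] FB) (P : Pt E27 FB), P ≠ 0 →
    θ (ac E27 s P) ≠ 0 ∧ xc (θ (ac E27 s P)) = s (xc (θ P)) ∧ yc (θ (ac E27 s P)) = s (yc (θ P)) := by
  have h : (E27⁄FB) = (W27⁄FB) := by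
    ext <;> simp [E27, W27]
  refine ⟨z11_cast h, ?_⟩
  rintro s (_ | ⟨x, y, hn⟩) hP
  · exact absurd rfl hP
  · obtain ⟨h', e1⟩ : ∃ h' : (E27⁄FB).toAffine.Nonsingular (s x) (s y),
        ac E27 s (Affine.Point.some x y hn) = Affine.Point.some (s x) (s y) h' := ⟨_, rfl⟩
    rw [e1, z11_cast_some, z11_cast_some]
    exact ⟨Affine.Point.some_ne_zero _, rfl, rfl⟩

/-- Chunk YD5 (S/M). Multiplication by the square root of -3 on the points of E27 over FB. The curves E27⁄FB and W27⁄FB are equal (Z11_curve, E27_base): z11_cast, S P = P + 2 ω P with ω P = (ω x, y) (omP, omP_rel: ω^2 P + ω P + P = 0): S (S P) = P + 4 ω P + 4 ω^2 P = -3 P. For s with s ω = ω: s (ω P) = ω (s P) by coordinates; for s with s ω ≠ ω: s ω = ω^2 (a root of x^2 + x + 1), s (ω P) = ω^2 (s P) = -(s P) - ω (s P). -/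
theorem exists_s3 : ∃ S : Pt E27 FB →+ Pt E27 FB, (∀ P, S (S P) = -(3 • P)) ∧
    (∀ s : FB ≃ₐ[ℚ] FB, s (algebraMap F FB (om : F)) = algebraMap F FB (om : F) →
      ∀ P, ac E27 s (S P) = S (ac E27 s P)) ∧
    ∀ s : FB ≃ₐ[ℚ] FB, s (algebraMap F FB (om : F)) ≠ algebraMap F FB (om : F) →
      ∀ P, ac E27 s (S P) = -S (ac E27 s P) := by
  obtain ⟨θ, hθ⟩ := yd5_theta
  obtain ⟨S, hS⟩ : ∃ S : Pt E27 FB →+ Pt E27 FB, ∀ P, θ (S P) = θ P + 2 • omP (θ P) := by
    refine ⟨{ toFun := fun P => θ.symm (θ P + 2 • omP (θ P))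
              map_zero' := by simp
              map_add' := fun P Q => by
                rw [← map_add θ.symm, map_add θ, map_add omP, nsmul_add]
                congr 1
                abel }, fun P => ?_⟩
    show θ (θ.symm (θ P + 2 • omP (θ P))) = _
    rw [θ.apply_symm_apply]
  have hom2 : ∀ Q : P27 FB, omP (omP Q) = -omP Q - Q := by
    intro Q
    rw [eq_sub_iff_add_eq, eq_neg_iff_add_eq_zero, ← omP_rel Q]
    abel
  have hne : ∀ (s : FB ≃ₐ[ℚ] FB) (P : Pt E27 FB), P ≠ 0 → omP (θ P) ≠ 0 ∧ θ.symm (omP (θ P)) ≠ 0 := by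
    intro s P hP
    have h1 : θ P ≠ 0 := fun h => hP (θ.injective (by rw [h, map_zero]))
    have h2 : omP (θ P) ≠ 0 := omF_ne h1
    exact ⟨h2, fun h => h2 (θ.symm.injective (by rw [h, map_zero]))⟩
  have hdef : ∀ Q : P27 FB, ok FB = algebraMap F FB (om : F) := fun _ => rfl
  have hcore : ∀ (s : FB ≃ₐ[ℚ] FB) (P : Pt E27 FB), θ (ac E27 s (S P)) =
      θ (ac E27 s P) + 2 • θ (ac E27 s (θ.symm (omP (θ P)))) := by
    intro s P
    have h1 : S P = P + 2 • θ.symm (omP (θ P)) := by
      apply θ.injective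
      rw [hS, map_add, map_nsmul, θ.apply_symm_apply]
    rw [h1, map_add, map_nsmul, map_add, map_nsmul]
  refine ⟨S, fun P => ?_, fun s hs P => ?_, fun s hs P => ?_⟩
  · apply θ.injective
    rw [hS, hS, map_neg, map_nsmul, map_add, map_nsmul, hom2]
    abel
  · apply θ.injective
    rw [hcore, hS]
    congr 2
    by_cases hP : P = 0
    · rw [hP]
      simp
    · obtain ⟨h1, h2⟩ := hne s P hP
      obtain ⟨a1, a2, a3⟩ := hθ s _ h2
      obtain ⟨b1, b2, b3⟩ := hθ s _ hP
      rw [θ.apply_symm_apply] at a2 a3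
      refine pt_ext a1 (omF_ne b1) ?_ ?_
      · rw [a2, xc_omP, xc_omP, b2, map_mul]
        congr 1
      · rw [a3, yc_omP, yc_omP, b3]
  · apply θ.injective
    have hok : s (ok FB) = ok FB ^ 2 := by
      have h1 := ok_rel (k := FB)
      have h2 : s (ok FB) ^ 2 + s (ok FB) + 1 = 0 := by
        have := congrArg s h1
        rwa [map_add, map_add, map_pow, map_one, map_zero] at this
      have h3 : (s (ok FB) - ok FB) * (s (ok FB) - ok FB ^ 2) = 0 := by
        linear_combination h2 - (s (ok FB) - ok FB + 1) * h1 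
      rcases mul_eq_zero.1 h3 with h | h
      · exact absurd (sub_eq_zero.1 h) hs
      · exact sub_eq_zero.1 h
    have hkey : θ (ac E27 s (θ.symm (omP (θ P)))) = omP (omP (θ (ac E27 s P))) := by
      by_cases hP : P = 0
      · rw [hP]
        simp
      · obtain ⟨h1, h2⟩ := hne s P hP
        obtain ⟨a1, a2, a3⟩ := hθ s _ h2
        obtain ⟨b1, b2, b3⟩ := hθ s _ hP
        rw [θ.apply_symm_apply] at a2 a3
        refine pt_ext a1 (omF_ne (omF_ne b1)) ?_ ?_
        · rw [a2, xc_omP, xc_omP, xc_omP, b2, map_mul, hok]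
          ring
        · rw [a3, yc_omP, yc_omP, yc_omP, b3]
    rw [hcore, hkey, map_neg, hS, hom2]
    abel

/-- Chunk YD6 (S/M). From KF down to K. non_base for k = ℚ, F, W = E27 (E27_base) and K' = KF K ι; then non_desc with K = ι.fieldRange, K₁ = (KF K ι).restrictScalars ℚ, kf_le, kf_norm (Fin.lean, Z14.lean or CL: they give s t s⁻¹ in K₁.fixingSubgroup; the form s x in K₁ by Galois theory or directly: KF = adjoin F (range ι), s ω in {ω, ω^2}, s fixes range ι), exists_s3,
ω = the image of om, ω' = ω^2 = -1 - ω. hω: s fixes K and ω iff s fixes K₁ (adjoin F (range ι): F is generated by ω over ℚ). -/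
theorem non_KF {p : ℕ} (hp : p.Prime) (h5 : 5 ≤ p) (K : Type) [Field K] [NumberField K] (ι : K →ₐ[ℚ] FB)
    [FiniteDimensional F (KF K ι)] (h : SelNon W27 p (KF K ι)) : SelNon (E27 : WeierstrassCurve ℚ) p ι.fieldRange := by
  have hQF := tower_QF
  have hQA := alg_QFB
  have hQC : IsAlgClosure ℚ FB := ⟨inferInstance, hQA⟩
  have hKQ : FiniteDimensional ℚ ((KF K ι).restrictScalars ℚ) := by
    have : FiniteDimensional ℚ (KF K ι) := Module.Finite.trans F (KF K ι)
    exact this
  have h1 : SelNon (E27 : WeierstrassCurve ℚ) p ((KF K ι).restrictScalars ℚ) :=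
    non_base (F := F) E27 p (KF K ι) (by rw [E27_base]; exact h)
  obtain ⟨S, hS, hS1, hS2⟩ := exists_s3
  have hz := H55D.X3_z_root FB
  have hfixK : ∀ s : FB ≃ₐ[ℚ] FB, s ∈ ι.fieldRange.fixingSubgroup → ∀ x : K, s (ι x) = ι x := fun s hs x =>
    (IntermediateField.mem_fixingSubgroup_iff _ s).1 hs (ι x) ⟨x, rfl⟩
  have hω2 : ∀ s : FB ≃ₐ[ℚ] FB, s (H55D.X3_z FB) = H55D.X3_z FB ∨
      s (H55D.X3_z FB) = -H55D.X3_z FB - 1 := by
    intro s
    have h1 : s (H55D.X3_z FB) ^ 2 + s (H55D.X3_z FB) + 1 = 0 := by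
      have h := congrArg s hz
      simpa only [map_add, map_pow, map_one, map_zero] using h
    have h2 : (s (H55D.X3_z FB) - H55D.X3_z FB) * (s (H55D.X3_z FB) + H55D.X3_z FB + 1) = 0 := by
      linear_combination h1 - hz
    rcases mul_eq_zero.1 h2 with h | h
    · left; exact sub_eq_zero.1 h
    · right; linear_combination h
  refine non_desc (E27 : WeierstrassCurve ℚ) hp h5 (kf_le K ι) ?_ S hS (H55D.X3_z FB) (-H55D.X3_z FB - 1)
    ?_ hω2 ?_ hS1 hS2 h1
  · intro s hs x hx
    exact pz14_stable K ι s (hfixK s hs) x hx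
  · intro s hs
    constructor
    · intro hs'
      exact (IntermediateField.mem_fixingSubgroup_iff _ s).1 hs' _ (pz14_z_mem K ι)
    · intro hs'
      rw [IntermediateField.mem_fixingSubgroup_iff]
      intro y hy
      have hF : ∀ x : F, s (algebraMap F FB x) = algebraMap F FB x := by
        intro x
        refine IntermediateField.adjoin_induction ℚ (p := fun x _ => s x = x) ?_ ?_ ?_ ?_ ?_
          (H55D.X3_range ℚ FB _ (IntermediateField.mem_adjoin_simple_self ℚ (H55D.X3_z FB)) x)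
        · rintro _ rfl
          exact hs'
        · intro q
          exact s.commutes q
        · intro x y _ _ h1 h2
          rw [map_add, h1, h2]
        · intro x _ h1
          rw [map_inv₀, h1]
        · intro x y _ _ h1 h2
          rw [map_mul, h1, h2]
      refine IntermediateField.adjoin_induction F (p := fun x _ => s x = x) ?_ ?_ ?_ ?_ ?_ hy
      · rintro _ ⟨x, rfl⟩
        exact hfixK s hs x
      · exact hF
      · intro x y _ _ h1 h2
        rw [map_add, h1, h2]
      · intro x _ h1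
        rw [map_inv₀, h1]
      · intro x y _ _ h1 h2
        rw [map_mul, h1, h2]
  · intro s hs
    rw [map_sub, map_neg, map_one, hs]
    ring

end H13Y
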