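import Mathlib
import Pool.Agent.Lib.H13Z.LDefs
import Pool.Agent.Lib.H13Z.LG
import Pool.Agent.Lib.H55P.SD

/-!
# H13Y: the algebraic half of the exact criterion over an arbitrary base field N

N is a finite extension of F contained in a Galois extension of l-power degree in which l is unramified. The definitions
of H13Z/LDefs.lean with the decomposition group over N. See PROOF.md.
-/

open NumberField IsDedekindDomain

namespace H13Y

open H55P H28G H55B H13S
open H13Z (Dat Cc IsTB)

variable {Ω : Type} [Field Ω] [DecidableEq Ω] [Algebra F Ω]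

/-- What is needed of the base field N: the inertia groups above 3 l fix N, and the residue degrees above l are powers of l. -/
structure Nb (l : ℕ) (N : IntermediateField F Ω) : Prop where
  fin : FiniteDimensional F N
  inert : ∀ V : ValuationSubring Ω, V.valuation (l : Ω) < 1 ∨ V.valuation (3 : Ω) < 1 →
    ∀ s : Ω ≃ₐ[F] Ω, Inert V s → s ∈ N.fixingSubgroup
  res : ∀ (V : ValuationSubring Ω) (β : O), Prime β → vo V β < 1 → V.valuation (l : Ω) < 1 →
    ∃ q j : ℕ, q = Nm β ^ (l ^ j) ∧ (∀ x ∈ N, x ∈ V → V.valuation (x ^ q - x) < 1) ∧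
      (∃ φ ∈ N.fixingSubgroup, Dec V φ ∧ ∀ x ∈ V, V.valuation (φ x - x ^ q) < 1) ∧
      ∃ r : Fin q → Ω, (∀ i, r i ∈ N ∧ V.valuation (r i) ≤ 1) ∧
        (∀ i i', i ≠ i' → V.valuation (r i - r i') = 1) ∧
        ∀ x ∈ N, x ∈ V → ∃ i, V.valuation (x - r i) < 1

/-- s lies in the decomposition group of V over N. -/
def DecN (N : IntermediateField F Ω) (V : ValuationSubring Ω) (s : Ω ≃ₐ[F] Ω) : Prop :=
  s ∈ N.fixingSubgroup ∧ Dec V s

/-- s lies in the decomposition group of V over N and fixes the points killed by pi. -/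
def DT (π : O) (N : IntermediateField F Ω) (V : ValuationSubring Ω) (s : Ω ≃ₐ[F] Ω) : Prop :=
  DecN N V s ∧ ∀ T ∈ Tor π Ω, ac W27 s T = T

/-- x is fixed by these automorphisms. -/
def Hx (π : O) (N : IntermediateField F Ω) (V : ValuationSubring Ω) (x : Ω) : Prop :=
  ∀ s, DT π N V s → s x = x

/-- c is a cocycle on the decomposition group of V over N with values in the points killed by the conjugate of pi. -/
structure Dc (π : O) (N : IntermediateField F Ω) (V : ValuationSubring Ω)
    (c : (Ω ≃ₐ[F] Ω) → P27 Ω) : Prop where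
  mul : ∀ s, DecN N V s → ∀ t, DecN N V t → c (s * t) = c s + ac W27 s (c t)
  val : ∀ s, DecN N V s → c s ∈ Tor (cj π) Ω

/-- The y T are Kummer generators for c over the henselization. -/
structure KS (π : O) (N : IntermediateField F Ω) (V : ValuationSubring Ω) (e : P27 Ω → P27 Ω → Ω)
    (c : (Ω ≃ₐ[F] Ω) → P27 Ω) (y : P27 Ω → Ω) : Prop where
  ne : ∀ T ∈ Tor π Ω, y T ≠ 0
  act : ∀ T ∈ Tor π Ω, ∀ s, DT π N V s → s (y T) = e (c s) T * y T

/-- An additive and equivariant system of elements of the henselization modulo l-th powers. -/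
structure Sys (π : O) (l : ℕ) (N : IntermediateField F Ω) (V : ValuationSubring Ω) (m : P27 Ω → Ω) :
    Prop where
  ne : ∀ T ∈ Tor π Ω, m T ≠ 0
  fx : ∀ T ∈ Tor π Ω, Hx π N V (m T)
  add : ∀ T ∈ Tor π Ω, ∀ T' ∈ Tor π Ω, ∃ z, Hx π N V z ∧ z ≠ 0 ∧ m (T + T') = m T * m T' * z ^ l
  act : ∀ s, DecN N V s → ∀ T ∈ Tor π Ω, ∃ z, Hx π N V z ∧ z ≠ 0 ∧ m (ac W27 s T) = s (m T) * z ^ l

/-- The level: m is an l-th power times an element which differs from 1 by at most r. -/
def Lv (π : O) (l : ℕ) (N : IntermediateField F Ω) (V : ValuationSubring Ω) (r : V.ValueGroup) (m : Ω) :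
    Prop :=
  ∃ z, Hx π N V z ∧ z ≠ 0 ∧ V.valuation (m / z ^ l - 1) ≤ r

/-- The coefficient a of m at the level i, an element of N integral at V: m = z^l (1 + a t^i + smaller terms). -/
def Co (π : O) (l : ℕ) (N : IntermediateField F Ω) (V : ValuationSubring Ω) (t : Ω) (i : ℕ) (m a : Ω) :
    Prop :=
  (a ∈ N ∧ V.valuation a ≤ 1) ∧
    ∃ z, Hx π N V z ∧ z ≠ 0 ∧ V.valuation (m / z ^ l - 1 - a * t ^ i) ≤ V.valuation t ^ (i + 1)

/-- The ramified case: V lies above pi, t is the parameter of a point killed by pi, q = Nm pi, e0 (l - 1) = q - 1. -/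
structure RV (π : O) (l : ℕ) (N : IntermediateField F Ω) (V : ValuationSubring Ω) (t : Ω) (e0 : ℕ) :
    Prop where
  base : H13Z.RV π l V t e0
  nb : Nb l N

end H13Y
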