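import Mathlib
import Pool.Agent.Lib.H13Y.Defs
import Pool.Agent.Lib.H13S.VW
import Pool.Agent.Lib.H55R.Defs

open NumberField IsDedekindDomain

namespace H13Y

open H55P H28G H55B H13S H55R
open H13Z (Dat Cc IsTB)

variable {Ω : Type} [Field Ω] [DecidableEq Ω] [Algebra F Ω] [IsAlgClosure F Ω]

/-- The output of the global part: an additive and equivariant system of elements of L = N(E[pi]) whose orders are divisible by l outside w, of level at least 2 above pi, not all of them l-th powers. -/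
structure GN (π : O) (l : ℕ) (N L : IntermediateField F Ω) [NumberField N] [NumberField L]
    (w : HeightOneSpectrum (𝓞 N)) (m : P27 Ω → (L)ˣ) : Prop where
  add : ∀ T ∈ Tor π Ω, ∀ T' ∈ Tor π Ω, ∃ z : (L)ˣ, m (T + T') = m T * m T' * z ^ l
  act : ∀ σ ∈ N.fixingSubgroup, ∀ T ∈ Tor π Ω, ∃ z : (L)ˣ,
    ((m (ac W27 σ T) : L) : Ω) = σ ((m T : L) : Ω) * ((z : L) : Ω) ^ l
  out : ∀ T ∈ Tor π Ω, ∀ (V : ValuationSubring Ω) (W : HeightOneSpectrum (𝓞 L)), Abv L V W →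
    ¬ Abv N V w → (l : ℤ) ∣ ord W (m T)
  lev : ∀ T ∈ Tor π Ω, ∀ W : HeightOneSpectrum (𝓞 L),
    W.valuation L (algebraMap F L (π : F)) < 1 → ∃ z : (L)ˣ,
      W.valuation L (((m T * (z ^ l)⁻¹ : (L)ˣ) : L) - 1) ≤ WithZero.exp (-2 : ℤ)
  nz : ∃ T ∈ Tor π Ω, ∀ z : (L)ˣ, m T ≠ z ^ l

/-- The global class over N. -/
structure Gl (π : O) (l : ℕ) (e : P27 Ω → P27 Ω → Ω) (N L : IntermediateField F Ω) [NumberField N]
    (w : HeightOneSpectrum (𝓞 N)) (c : (Ω ≃ₐ[F] Ω) → P27 Ω) (y : P27 Ω → Ω) : Prop where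
  D : Dat π l
  nb : Nb l N
  w3 : (3 : 𝓞 N) ∉ w.asIdeal
  wl : (l : 𝓞 N) ∉ w.asIdeal
  tb : IsTB π N L
  cc : Cc π N c
  kum : ∀ T ∈ Tor π Ω, Kum L e c T (y T)
  out : ∀ V : ValuationSubring Ω, ¬ Abv N V w → ∀ T ∈ Tor π Ω, ∃ x ∈ L, x ≠ 0 ∧
    V.valuation (y T) = V.valuation x
  lev : ∀ V : ValuationSubring Ω, vo V π < 1 → ∀ T ∈ Tor π Ω, ∀ T₀ ∈ Tor π Ω, T₀ ≠ 0 →
    ∃ z ∈ L, z ≠ 0 ∧ V.valuation (y T ^ l / z ^ l - 1) ≤ V.valuation (tt T₀) ^ 2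
  nz : ∃ T ∈ Tor π Ω, ∀ z ∈ L, z ^ l ≠ y T ^ l

end H13Y
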