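import Mathlib
import Pool.Agent.Lib.H13Y.Defs
import Pool.Agent.Lib.H13Z.LCB

open NumberField IsDedekindDomain

namespace H13Y

open H55P H28G H55B H13S
open H13Z (Dat Cc IsTB)

variable {Ω : Type} [Field Ω] [DecidableEq Ω] [Algebra F Ω]

variable {π : O} {l : ℕ} {N : IntermediateField F Ω} {V : ValuationSubring Ω}

theorem Hx.add {x y : Ω} (hx : Hx π N V x) (hy : Hx π N V y) : Hx π N V (x + y) := by
  intro s hs
  rw [map_add, hx s hs, hy s hs]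

theorem Hx.sub {x y : Ω} (hx : Hx π N V x) (hy : Hx π N V y) : Hx π N V (x - y) := by
  intro s hs
  rw [map_sub, hx s hs, hy s hs]

theorem Hx.mul {x y : Ω} (hx : Hx π N V x) (hy : Hx π N V y) : Hx π N V (x * y) := by
  intro s hs
  rw [map_mul, hx s hs, hy s hs]

theorem Hx.div {x y : Ω} (hx : Hx π N V x) (hy : Hx π N V y) : Hx π N V (x / y) := by
  intro s hs
  rw [map_div₀, hx s hs, hy s hs]

theorem Hx.inv {x : Ω} (hx : Hx π N V x) : Hx π N V x⁻¹ := by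
  intro s hs
  rw [map_inv₀, hx s hs]

theorem Hx.pow {x : Ω} (hx : Hx π N V x) (n : ℕ) : Hx π N V (x ^ n) := by
  intro s hs
  rw [map_pow, hx s hs]

theorem Hx.zpow {x : Ω} (hx : Hx π N V x) (n : ℤ) : Hx π N V (x ^ n) := by
  intro s hs
  rw [map_zpow₀, hx s hs]

theorem Hx.alg (a : F) : Hx π N V (algebraMap F Ω a) := by
  intro s _
  exact s.commutes a

theorem Hx.nat (n : ℕ) : Hx π N V (n : Ω) := by
  intro s _
  exact map_natCast s n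

theorem Hx.one : Hx π N V (1 : Ω) := by
  intro s _
  exact map_one s

theorem Hx.of_mem {x : Ω} (hx : x ∈ N) : Hx π N V x := fun s hs =>
  (IntermediateField.mem_fixingSubgroup_iff N s).1 hs.1.1 x hx

theorem Hx.tt {T : P27 Ω} (hT : T ∈ Tor π Ω) : Hx π N V (H28G.tt T) := by
  intro s hs
  have h1 : H28G.tt (ac W27 s T) = s (H28G.tt T) := tt_mp s.toAlgHom T
  rw [← h1, hs.2 T hT]

theorem DecN.mul {s t : Ω ≃ₐ[F] Ω} (hs : DecN N V s) (ht : DecN N V t) : DecN N V (s * t) :=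
  ⟨mul_mem hs.1 ht.1, H13Z.Dec.mul' hs.2 ht.2⟩

theorem DecN.inv {s : Ω ≃ₐ[F] Ω} (hs : DecN N V s) : DecN N V s⁻¹ :=
  ⟨inv_mem hs.1, H13Z.Dec.inv' hs.2⟩

/-- Inertia elements above 3 l are in the decomposition group over N. -/
theorem Nb.dec (hN : Nb l N) (h : V.valuation (l : Ω) < 1 ∨ V.valuation (3 : Ω) < 1)
    {s : Ω ≃ₐ[F] Ω} (hs : Inert V s) : DecN N V s :=
  ⟨hN.inert V h s hs, H13Z.Inert.dec hs⟩

theorem DT.conj {σ : Ω ≃ₐ[F] Ω} (hσ : DecN N V σ) {s : Ω ≃ₐ[F] Ω} (hs : DT π N V s) :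
    DT π N V (σ⁻¹ * s * σ) := by
  refine ⟨(hσ.inv.mul hs.1).mul hσ, fun T hT => ?_⟩
  rw [ac_mul, ac_mul, hs.2 _ (ac_mem σ hT), ← ac_mul, inv_mul_cancel, ac_one]

theorem Hx.dec {x : Ω} (hx : Hx π N V x) {σ : Ω ≃ₐ[F] Ω} (hσ : DecN N V σ) : Hx π N V (σ x) := by
  intro s hs
  have h2 := hx _ (DT.conj hσ hs)
  have h3 : s (σ x) = σ ((σ⁻¹ * s * σ) x) := by
    have h4 : (σ⁻¹ * s * σ) x = σ⁻¹ (s (σ x)) := rfl
    rw [h4]
    exact (σ.apply_symm_apply _).symm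
  rw [h3, h2]

/-- The cocycle condition over N gives the one on the inertia group. -/
theorem Dc.sub_cob {c : (Ω ≃ₐ[F] Ω) → P27 Ω} (hc : Dc π N V c) {X : P27 Ω} (hX : X ∈ Tor (cj π) Ω) :
    Dc π N V fun s => c s - (ac W27 s X - X) := by
  refine ⟨fun s hs t ht => ?_, fun s hs => sub_mem (hc.val s hs) (sub_mem (ac_mem s hX) hX)⟩
  show c (s * t) - (ac W27 (s * t) X - X) = c s - (ac W27 s X - X) + ac W27 s (c t - (ac W27 t X - X))
  rw [hc.mul s hs t ht, ac_mul, map_sub, map_sub]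
  abel

theorem Dc.sub {c c' : (Ω ≃ₐ[F] Ω) → P27 Ω} (hc : Dc π N V c) (hc' : Dc π N V c') :
    Dc π N V fun s => c s - c' s := by
  refine ⟨fun s hs t ht => ?_, fun s hs => sub_mem (hc.val s hs) (hc'.val s hs)⟩
  show c (s * t) - c' (s * t) = c s - c' s + ac W27 s (c t - c' t)
  rw [hc.mul s hs t ht, hc'.mul s hs t ht, map_sub]
  abel

theorem Dc.one {c : (Ω ≃ₐ[F] Ω) → P27 Ω} (hc : Dc π N V c) : c 1 = 0 := by
  have h1 : DecN N V (1 : Ω ≃ₐ[F] Ω) := ⟨one_mem _, fun x => Iff.rfl⟩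
  have h2 := hc.mul 1 h1 1 h1
  rw [mul_one, ac_one] at h2
  exact left_eq_add.mp h2

/-- A cocycle vanishing on an inertia element: c (s n) = c s etc. -/
theorem Dc.conj_eq {c : (Ω ≃ₐ[F] Ω) → P27 Ω} (hc : Dc π N V c) {σ s : Ω ≃ₐ[F] Ω} (hσ : DecN N V σ)
    (hs : DecN N V s) (h1 : c σ = 0) (h2 : c (s⁻¹ * σ * s) = 0) : ac W27 σ (c s) = c s := by
  have h3 := hc.mul σ hσ s hs
  have h4 := hc.mul s hs (s⁻¹ * σ * s) ((hs.inv.mul hσ).mul hs)
  have e : s * (s⁻¹ * σ * s) = σ * s := by group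
  rw [e, h2, map_zero, add_zero] at h4
  rw [h1, zero_add, h4] at h3
  exact h3.symm

/-- If a cocycle vanishes on the inertia group and some inertia element has no fixed point then it vanishes. -/
theorem cob_dec_ram {c : (Ω ≃ₐ[F] Ω) → P27 Ω} (hc : Dc π N V c)
    (hI : ∀ s : Ω ≃ₐ[F] Ω, Inert V s → DecN N V s) (h : ∀ s, Inert V s → c s = 0)
    (hσ : ∃ s : Ω ≃ₐ[F] Ω, Inert V s ∧ ∀ T ∈ Tor (cj π) Ω, ac W27 s T = T → T = 0) :
    ∀ s, DecN N V s → c s = 0 := by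
  obtain ⟨σ, hσ1, hσ2⟩ := hσ
  intro s hs
  exact hσ2 _ (hc.val s hs) (hc.conj_eq (hI σ hσ1) hs (h σ hσ1) (h _ (H13Z.Inert.conj hσ1 hs.2)))

end H13Y
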