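import Mathlib
import Pool.Agent.Lib.H13Y.YG
import Pool.Agent.Lib.H13Z.LR3

open NumberField IsDedekindDomain

namespace H13Y

open H55P H28G H55B H13S H55R
open H13Z (Dat Cc IsTB lr2_base lr2_fix)

variable {Ω : Type} [Field Ω] [DecidableEq Ω] [Algebra F Ω] [IsAlgClosure F Ω]

variable {π : O} {l : ℕ} {N : IntermediateField F Ω} {V : ValuationSubring Ω} {t : Ω} {e0 : ℕ}

theorem RV.lt (R : RV π l N V t e0) : V.valuation (l : Ω) < 1 := by
  rw [R.base.val_l.1]
  exact R.base.above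

theorem RV.dec (R : RV π l N V t e0) {s : Ω ≃ₐ[F] Ω} (hs : Inert V s) : DecN N V s :=
  R.nb.dec (Or.inl R.lt) hs

/-- An element fixed by the inertia elements which fix the points killed by pi has the value of a power of t. -/
theorem values_inert (R : H13Z.RV π l V t e0) {x : Ω} (h0 : x ≠ 0)
    (hx : ∀ s : Ω ≃ₐ[F] Ω, Inert V s → (∀ T ∈ Tor π Ω, ac W27 s T = T) → s x = x) :
    ∃ n : ℤ, V.valuation x = V.valuation t ^ n := by
  obtain ⟨hnf, w, t', hw, ht, hwt, -⟩ := lr2_base R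
  obtain ⟨a, ha0, ha⟩ := value_fixed (TF F Ω π) V x h0 fun s hs hi => hx s hi (lr2_fix s hs)
  have ht0 : t' ≠ 0 := by
    rintro rfl
    rw [map_zero] at hwt
    exact WithZero.exp_ne_zero hwt.symm
  have hwa : w.valuation (TF F Ω π) a ≠ 0 := (map_ne_zero _).2 ha0
  obtain ⟨m, hm⟩ : ∃ m : ℤ, w.valuation (TF F Ω π) a = WithZero.exp m :=
    ⟨WithZero.log (w.valuation (TF F Ω π) a), (WithZero.exp_log hwa).symm⟩
  have h1 : w.valuation (TF F Ω π) a = w.valuation (TF F Ω π) (t' ^ (-m)) := by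
    rw [hm, map_zpow₀, hwt, ← WithZero.exp_zsmul]
    congr 1
    simp
  have h2 : V.valuation (a : Ω) = V.valuation ((t' ^ (-m) : TF F Ω π) : Ω) :=
    le_antisymm ((hw.le _ _).2 h1.le) ((hw.le _ _).2 h1.ge)
  refine ⟨-m, ?_⟩
  rw [ha, h2]
  have e : ((t' ^ (-m) : TF F Ω π) : Ω) = (t' : Ω) ^ (-m) := rfl
  rw [e, map_zpow₀, ht]

theorem RV.values (R : RV π l N V t e0) {x : Ω} (hx : Hx π N V x) (h0 : x ≠ 0) :
    ∃ n : ℤ, V.valuation x = V.valuation t ^ n :=
  values_inert R.base h0 fun s hs hT => hx s ⟨R.dec hs, hT⟩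

theorem RV.step (R : RV π l N V t e0) {x : Ω} (hx : Hx π N V x) {i : ℕ}
    (h : V.valuation x < V.valuation t ^ i) : V.valuation x ≤ V.valuation t ^ (i + 1) := by
  by_cases h0 : x = 0
  · rw [h0, map_zero]
    exact zero_le
  obtain ⟨n, hn⟩ := R.values hx h0
  obtain ⟨-, -, ht1, ht0, -, -⟩ := R.base.val_l
  have htp : 0 < V.valuation t := zero_lt_iff.2 ht0
  rw [hn] at h ⊢
  have h2 : (i : ℤ) < n := by
    by_contra hc
    rw [not_lt] at hc
    have h3 : V.valuation t ^ (i : ℤ) ≤ V.valuation t ^ n :=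
      zpow_le_zpow_right_of_le_one₀ htp ht1.le hc
    rw [zpow_natCast] at h3
    exact absurd h (not_lt.2 h3)
  have h3 : V.valuation t ^ n ≤ V.valuation t ^ ((i + 1 : ℕ) : ℤ) :=
    zpow_le_zpow_right_of_le_one₀ htp ht1.le (by push_cast; omega)
  rw [zpow_natCast] at h3
  exact h3

omit [IsAlgClosure F Ω] in
theorem yr_act {a b : O} {T : P27 Ω} (hT : T ∈ Tor π Ω)
    (h : Ideal.Quotient.mk (Ideal.span {π}) a = Ideal.Quotient.mk (Ideal.span {π}) b) :
    H28G.act a T = H28G.act b T := by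
  rw [Ideal.Quotient.eq, Ideal.mem_span_singleton] at h
  obtain ⟨c, hc⟩ := h
  have h1 : H28G.act (a - b) T = 0 := by
    rw [hc, mul_comm, act_mul, mem_Tor.1 hT, map_zero]
  rw [act_sub] at h1
  exact sub_eq_zero.1 h1

omit [IsAlgClosure F Ω] in
theorem yr_mem {a : O} {T : P27 Ω} (hT : T ∈ Tor π Ω) : H28G.act a T ∈ Tor π Ω := by
  rw [mem_Tor, ← act_mul, mul_comm, act_mul, mem_Tor.1 hT, map_zero]

/-- Chunk YR (M). Residues come from N. For each class ζ in (O/π)^* choose a representative a in O (not divisible by π) and an inertia element s_ζ acting as act a on Tor π (H13Z.RV.exists_inert R.base); it is in DecN (R.dec). b = (1/(Nm π - 1)) * sum over ζ of s_ζ x: V (s_ζ x - x) < 1, V (Nm π - 1) = 1 (Nm π - 1 is an integer prime to l, V l < 1), so V (b - x) < 1.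
b is fixed by every s in DecN N V: s acts as act c on Tor π (exists_chi/gi_gen; π does not divide c), s s_ζ and s_(cζ) act in the same way, so s_(cζ)⁻¹ s s_ζ is in DT and fixes x: s s_ζ x = s_(cζ) x; the sum is permuted. residue_fixed for K = N (NumberField from R.nb.fin; V ≠ ⊤ because V l < 1): a in 𝓞 N with V (b - a) < 1. -/
theorem RV.residue (R : RV π l N V t e0) {x : Ω} (hx : Hx π N V x) (h1 : V.valuation x ≤ 1) :
    ∃ a ∈ N, V.valuation a ≤ 1 ∧ V.valuation (x - a) < 1 := by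
  classical
  have hp := R.base.D.pr
  have h3 := R.base.D.prim
  obtain ⟨χ, hχ, -⟩ := exists_chi (Ω := Ω) π hp h3
  have hpp : (Ideal.span {π}).IsPrime := (Ideal.span_singleton_prime hp.ne_zero).2 hp
  have hbot : Ideal.span {π} ≠ ⊥ := by
    rw [Ne, Ideal.span_singleton_eq_bot]
    exact hp.ne_zero
  have hm : (Ideal.span {π}).IsMaximal := hpp.isMaximal hbot
  have hfin : Finite (O ⧸ Ideal.span {π}) := Ideal.finiteQuotientOfFreeOfNeBot _ hbot
  have hcard : Nat.card (O ⧸ Ideal.span {π})ˣ = Nm π - 1 := by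
    let _ := Ideal.Quotient.field (Ideal.span {π})
    exact Nat.card_units (O ⧸ Ideal.span {π})
  let _ : Fintype (O ⧸ Ideal.span {π})ˣ := Fintype.ofFinite _
  have hnt : Nontrivial (O ⧸ Ideal.span {π}) := Ideal.Quotient.nontrivial_iff.2 hpp.ne_top
  have hA : ∀ u : (O ⧸ Ideal.span {π})ˣ, ∃ a : O,
      Ideal.Quotient.mk (Ideal.span {π}) a = (u : O ⧸ Ideal.span {π}) := fun u =>
    Ideal.Quotient.mk_surjective _
  choose A hA using hA
  have hnd : ∀ u, ¬ π ∣ A u := by
    intro u h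
    have h1 : (u : O ⧸ Ideal.span {π}) = 0 := by
      rw [← hA u, Ideal.Quotient.eq_zero_iff_mem, Ideal.mem_span_singleton]
      exact h
    exact u.ne_zero h1
  have hS : ∀ u, ∃ s : Ω ≃ₐ[F] Ω, Inert V s ∧ ∀ T ∈ Tor π Ω, ac W27 s T = H28G.act (A u) T :=
    fun u => R.base.exists_inert (hnd u)
  choose S hSI hST using hS
  -- the sum is fixed
  have key : ∀ s, DecN N V s → ∀ u, s (S u x) = S (χ s * u) x := by
    intro s hs u
    have hD : DT π N V ((S (χ s * u))⁻¹ * (s * S u)) := by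
      refine ⟨(R.dec (hSI _)).inv.mul (hs.mul (R.dec (hSI u))), fun T hT => ?_⟩
      obtain ⟨c, hc⟩ := Ideal.Quotient.mk_surjective ((χ s : (O ⧸ Ideal.span {π})ˣ) : O ⧸ Ideal.span {π})
      have h1 : ac W27 (s * S u) T = ac W27 (S (χ s * u)) T := by
        rw [ac_mul, hST u T hT, hχ s c hc _ (yr_mem hT), hST _ T hT, ← act_mul]
        refine yr_act hT ?_
        rw [map_mul, hc, hA, hA, Units.val_mul]
      rw [ac_mul, h1, ← ac_mul, inv_mul_cancel, ac_one]
    have h2 := hx _ hD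
    have h3 : ((S (χ s * u))⁻¹ * (s * S u)) x = (S (χ s * u)).symm (s (S u x)) := rfl
    rw [h3] at h2
    rw [← h2, (S (χ s * u)).apply_symm_apply]
    rw [h2]
  obtain ⟨hl1, -, ht1, ht0, -, hN⟩ := R.base.val_l
  have hVl := R.lt
  have hn : V.valuation ((Fintype.card (O ⧸ Ideal.span {π})ˣ : ℕ) : Ω) = 1 := by
    have h1 : V.valuation ((Nm π : ℕ) : Ω) < 1 := by
      rcases hN with h | h
      · rw [h.1]
        exact hVl
      · rw [h.1, Nat.cast_pow, map_pow]
        exact pow_lt_one₀ zero_le hVl two_ne_zero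
    have h2 : 1 ≤ Nm π := by
      rcases hN with h | h
      · rw [h.1]
        exact R.base.D.hl.one_le
      · rw [h.1]
        exact Nat.one_le_pow _ _ R.base.D.hl.pos
    rw [← Nat.card_eq_fintype_card, hcard, Nat.cast_sub h2, Nat.cast_one]
    rw [Valuation.map_sub_swap, Valuation.map_one_sub_of_lt _ h1]
  have hn0 : ((Fintype.card (O ⧸ Ideal.span {π})ˣ : ℕ) : Ω) ≠ 0 := by
    intro h
    rw [h, map_zero] at hn
    exact zero_ne_one hn
  have hb : ∀ b : Ω, b = ((Fintype.card (O ⧸ Ideal.span {π})ˣ : ℕ) : Ω)⁻¹ * ∑ u, S u x →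
      V.valuation (b - x) < 1 := by
    intro b hb
    have h1' : b - x = ((Fintype.card (O ⧸ Ideal.span {π})ˣ : ℕ) : Ω)⁻¹ * ∑ u, (S u x - x) := by
      rw [Finset.sum_sub_distrib, Finset.sum_const, Finset.card_univ, nsmul_eq_mul, mul_sub,
        inv_mul_cancel_left₀ hn0, hb]
    rw [h1', map_mul, map_inv₀, hn, inv_one, one_mul]
    exact V.valuation.map_sum_lt one_ne_zero fun u _ => hSI u x ((V.valuation_le_one_iff _).1 h1)
  obtain ⟨b, hbd⟩ : ∃ b : Ω, b = ((Fintype.card (O ⧸ Ideal.span {π})ˣ : ℕ) : Ω)⁻¹ * ∑ u, S u x :=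
    ⟨_, rfl⟩
  have hbx := hb b hbd
  have hb1 : V.valuation b ≤ 1 := by
    have e : b = (b - x) + x := by ring
    rw [e]
    exact (V.valuation.map_add _ _).trans (max_le hbx.le h1)
  have hbf : ∀ s ∈ N.fixingSubgroup, Dec V s → s b = b := by
    intro s hs hd
    rw [hbd, map_mul, map_inv₀, map_natCast, map_sum]
    congr 1
    rw [Finset.sum_congr rfl fun u _ => key s ⟨hs, hd⟩ u]
    exact Fintype.sum_equiv (Equiv.mulLeft (χ s)) _ _ fun u => rfl
  have hV : V ≠ ⊤ := by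
    intro h
    have htp : 0 < V.valuation t := zero_lt_iff.2 ht0
    have h2 : t⁻¹ ∈ V := by rw [h]; trivial
    rw [← V.valuation_le_one_iff, map_inv₀, inv_le_one₀ htp] at h2
    exact absurd h2 (not_le.2 ht1)
  have hfd := R.nb.fin
  have hnf : NumberField N := NumberField.of_module_finite F _
  obtain ⟨a, ha⟩ := residue_fixed N V hV b ((V.valuation_le_one_iff _).1 hb1) hbf
  refine ⟨((a : N) : Ω), (a : N).2, ?_, ?_⟩
  · have e : ((a : N) : Ω) = b - (b - ((a : N) : Ω)) := by ring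
    rw [e]
    exact (V.valuation.map_sub _ _).trans (max_le hb1 ha.le)
  · have e : x - ((a : N) : Ω) = (b - ((a : N) : Ω)) - (b - x) := by ring
    rw [e]
    exact lt_of_le_of_lt (V.valuation.map_sub _ _) (max_lt ha hbx)

/-- The values of differences of elements of N: 1 or at most V t (special case of step). -/
theorem RV.val_N (R : RV π l N V t e0) {a : Ω} (ha : a ∈ N) (h : V.valuation a < 1) :
    V.valuation a ≤ V.valuation t := by
  have := R.step (Hx.of_mem (π := π) (V := V) ha) (i := 0) (by rwa [pow_zero])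
  simpa using this

end H13Y
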