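import Mathlib
import Pool.Agent.Lib.H13Y.YZ1
import Pool.Agent.Lib.H13Z.CZ5

open NumberField IsDedekindDomain

namespace H13Y

open H55P H28G H55B H13S
open H13Z (Dat Cc IsTB y_system ext_cocycle)

variable {Ω : Type} [Field Ω] [DecidableEq Ω] [Algebra F Ω] [IsAlgClosure F Ω]

/-- Chunk YZ2 (M), PORT of H13Z/CZ5.lean cocycle_of_m to the base field N. ext_cocycle (CZ4) for the group G = N.fixingSubgroup and its subgroup N₁ = (pointwise stabilizer of Tor π, stab_index).subgroupOf G: normal, index = relIndex dividing Nm π - 1 (Subgroup.relIndex_dvd_index_of_normal), prime to l, not 0; s in N₁ iff s in L.fixingSubgroup (hL.fix).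
c s = 0 for s not in G. Continuity: M' = the normal closure of L ⊔ M ⊔ adjoin (coordinates of Tor (cj π)), U = M'.fixingSubgroup.subgroupOf G (contained in N₁ because N ≤ L ≤ M'). Kummer generators as in CZ5. -/
theorem cocycle_of_m {π : O} {l : ℕ} (D : Dat π l) {e : P27 Ω → P27 Ω → Ω} (he : Pairing π l e)
    {N L : IntermediateField F Ω} (hL : IsTB π N L) (m : P27 Ω → (L)ˣ)
    (hadd : ∀ T ∈ Tor π Ω, ∀ T' ∈ Tor π Ω, ∃ z : (L)ˣ, m (T + T') = m T * m T' * z ^ l)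
    (hact : ∀ σ ∈ N.fixingSubgroup, ∀ T ∈ Tor π Ω, ∃ z : (L)ˣ,
      ((m (ac W27 σ T) : L) : Ω) = σ ((m T : L) : Ω) * ((z : L) : Ω) ^ l) :
    ∃ c : (Ω ≃ₐ[F] Ω) → P27 Ω, Cc π N c ∧ ∀ T ∈ Tor π Ω, ∃ y : Ω, Kum L e c T y ∧
      ∃ z : (L)ˣ, y ^ l = ((m T * z ^ l : (L)ˣ) : L) := by
  classical
  obtain ⟨y, hy, hy2⟩ := y_system D L m hadd
  obtain ⟨c₀, h1, h2, ⟨N₀, hN₀, h3⟩, h4⟩ := c0_exists D he hL m hact y hy hy2
  obtain ⟨N₁, hN₁, hn₁, hd₁, h0₁⟩ := stab_index (Ω := Ω) π D.pr D.prim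
  have hlN : l ∣ Nm π := CO2_Nm D.hl D.pr D.dvd
  have hN0 : Nm π ≠ 0 := fun h => D.pr.ne_zero (Nm_eq_zero.1 h)
  have hlB : ∀ P ∈ Tor (cj π) Ω, l • P = 0 := by
    intro P hP
    obtain ⟨u, hu⟩ := D.dvd
    have h5 : (l : O) = cj u * cj π := by
      have h6 := congrArg cj hu
      rw [map_natCast, map_mul] at h6
      rw [h6, mul_comm]
    have h7 : act (cj π) P = 0 := hP
    rw [← act_nat, h5, act_mul, h7, map_zero]
  -- the group and its subgroup
  have hd₂ : (N₁.subgroupOf N.fixingSubgroup).index ∣ N₁.index :=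
    Subgroup.relIndex_dvd_index_of_normal N₁ N.fixingSubgroup
  have hd₃ : (N₁.subgroupOf N.fixingSubgroup).index ∣ Nm π - 1 := hd₂.trans hd₁
  have h0₂ : (N₁.subgroupOf N.fixingSubgroup).index ≠ 0 := fun h => h0₁ (by
    rw [h] at hd₂
    exact Nat.eq_zero_of_zero_dvd hd₂)
  have hcop : l.Coprime (N₁.subgroupOf N.fixingSubgroup).index := CO2_cop D.hl hlN hN0 hd₃
  have hNL : ∀ s : N.fixingSubgroup, s ∈ N₁.subgroupOf N.fixingSubgroup ↔
      (s : Ω ≃ₐ[F] Ω) ∈ L.fixingSubgroup := fun s => by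
    rw [Subgroup.mem_subgroupOf, hN₁, hL.fix]
    exact ⟨fun h => ⟨s.2, h⟩, fun h => h.2⟩
  obtain ⟨c', hcB, hcm, ⟨X, hX, hcX⟩, hcU⟩ := ext_cocycle (G := N.fixingSubgroup)
    (fun s => ac W27 (s : Ω ≃ₐ[F] Ω))
    (fun P => ac_one P) (fun s t P => ac_mul (s : Ω ≃ₐ[F] Ω) t P) (Tor (cj π) Ω) (fun g P hP => ac_mem g hP)
    l hlB (N₁.subgroupOf N.fixingSubgroup) h0₂ hcop (fun s => c₀ (s : Ω ≃ₐ[F] Ω))
    (fun s hs => (h1 s ((hNL s).1 hs)).1)
    (fun s hs t ht => h2 s ((hNL s).1 hs) t ((hNL t).1 ht))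
    (fun g => by
      obtain ⟨X, hX, h5⟩ := h4 g g.2
      exact ⟨X, hX, fun s hs => h5 s ((hNL s).1 hs)⟩)
  obtain ⟨c, hc⟩ : ∃ c : (Ω ≃ₐ[F] Ω) → P27 Ω, ∀ s (hs : s ∈ N.fixingSubgroup), c s = c' ⟨s, hs⟩ :=
    ⟨fun s => if h : s ∈ N.fixingSubgroup then c' ⟨s, h⟩ else 0, fun s hs => dif_pos hs⟩
  -- the field of the coordinates of the points killed by the conjugate
  obtain ⟨-, T₀, hT₀, hgen, -⟩ := gi_gen (Ω := Ω) (cj π) (CO2_cj_prime D.pr) (CO2_cj_prim D.prim)
  have hint : ∀ x : Ω, IsIntegral F x := fun x => (Algebra.IsAlgebraic.isAlgebraic x).isIntegral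
  let A : Set Ω := {xc T₀, yc T₀}
  have hAf : A.Finite := Set.toFinite A
  have hAf' : Finite A := hAf
  have hLf : FiniteDimensional F (IntermediateField.adjoin F A) :=
    IntermediateField.finiteDimensional_adjoin fun x _ => hint x
  have hfix : ∀ t ∈ (IntermediateField.adjoin F A).fixingSubgroup, ∀ P ∈ Tor (cj π) Ω,
      ac W27 t P = P := by
    intro t ht
    have hfx : ∀ x ∈ A, t x = x := fun x hx =>
      ht ⟨x, IntermediateField.subset_adjoin F A hx⟩
    have e1 : ac W27 t T₀ = T₀ := by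
      by_cases hT0 : T₀ = 0
      · rw [hT0, map_zero]
      · refine pt_ext (mp_ne t.toAlgHom hT0) hT0 ?_ ?_
        · rw [ac_eq, xc_mp]
          exact hfx _ (by simp [A])
        · rw [ac_eq, yc_mp]
          exact hfx _ (by simp [A])
    intro P hP
    obtain ⟨a, rfl⟩ := hgen P hP
    rw [ac_act, e1]
  have hLfin : FiniteDimensional F L := hL.fin
  let M : IntermediateField F Ω := L ⊔ N₀ ⊔ IntermediateField.adjoin F A
  have hMf : FiniteDimensional F M := inferInstance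
  let M' : IntermediateField F Ω := IntermediateField.normalClosure F M Ω
  have hNn : Normal F M' := normalClosure.normal F M Ω
  have hNf : FiniteDimensional F M' := normalClosure.is_finiteDimensional F M Ω
  have hMN : M ≤ M' := IntermediateField.le_normalClosure M
  have hLN : L ≤ M' := (le_sup_left.trans le_sup_left).trans hMN
  have hN₀N : N₀ ≤ M' := (le_sup_right.trans le_sup_left).trans hMN
  have hAN : IntermediateField.adjoin F A ≤ M' := le_sup_right.trans hMN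
  have hUn' : M'.fixingSubgroup.Normal := inferInstance
  have hUn : (M'.fixingSubgroup.subgroupOf N.fixingSubgroup).Normal := hUn'.subgroupOf _
  have hmono : ∀ {E : IntermediateField F Ω}, E ≤ M' → ∀ s ∈ M'.fixingSubgroup, s ∈ E.fixingSubgroup :=
    fun h s hs => IntermediateField.fixingSubgroup_antitone h hs
  refine ⟨c, ⟨fun s hs t ht => ?_, ⟨M', hNf, fun s hs hs' => ?_⟩, fun s hs => ?_⟩, fun T hT => ?_⟩
  · rw [hc _ (mul_mem hs ht), hc s hs, hc t ht]
    exact hcm ⟨s, hs⟩ ⟨t, ht⟩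
  · rw [hc s hs]
    refine hcU (M'.fixingSubgroup.subgroupOf N.fixingSubgroup) hUn
      (fun t ht => (hNL t).2 (hmono hLN t (Subgroup.mem_subgroupOf.1 ht)))
      (fun t ht => h3 t (hmono hLN t (Subgroup.mem_subgroupOf.1 ht))
        (hmono hN₀N t (Subgroup.mem_subgroupOf.1 ht)))
      (fun t ht P hP => hfix t (hmono hAN t (Subgroup.mem_subgroupOf.1 ht)) P hP) ⟨s, hs⟩
      (Subgroup.mem_subgroupOf.2 hs')
  · rw [hc s hs]
    exact hcB ⟨s, hs⟩
  · obtain ⟨hy0, z, hz⟩ := hy T hT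
    have hr := he.root X hX T hT
    have he0 : e X T ≠ 0 := by
      intro h
      rw [h, zero_pow D.hl.ne_zero] at hr
      exact zero_ne_one hr
    refine ⟨e X T * y T, ⟨mul_ne_zero he0 hy0, fun s hs => ?_⟩, z, ?_⟩
    · have hsN : s ∈ N.fixingSubgroup := hL.mono hs
      have hs1 : (⟨s, hsN⟩ : N.fixingSubgroup) ∈ N₁.subgroupOf N.fixingSubgroup := (hNL ⟨s, hsN⟩).2 hs
      have hsT : ac W27 s T = T := ((hL.fix s).1 hs).2 T hT
      obtain ⟨hc0B, hc0⟩ := h1 s hs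
      have h6 : c s + X = c₀ s + ac W27 s X := by
        rw [hc s hsN, hcX _ hs1]
        abel
      have hcs : c s ∈ Tor (cj π) Ω := by
        rw [hc s hsN]
        exact hcB _
      have h7 := he.add_left (c s) hcs X hX T hT
      have h8 := he.add_left (c₀ s) hc0B (ac W27 s X) (ac_mem s hX) T hT
      rw [h6, h8] at h7
      rw [map_mul, he.act s X hX T hT, hsT, hc0 T hT]
      linear_combination y T * h7
    · rw [mul_pow, hr, one_mul, hz]

end H13Y
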