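import Mathlib
import Pool.Agent.Lib.H13Y.GDef
import Pool.Agent.Lib.H13Y.YZ2
import Pool.Agent.Lib.H13Y.YR
import Pool.Agent.Lib.H55P.S13
import Pool.Agent.Lib.H55R.BF1
import Pool.Agent.Lib.H55R.HB1
import Pool.Agent.Lib.H13S.KU2

open NumberField IsDedekindDomain

namespace H13Y

open H55P H28G H55B H13S H55R
open H13Z (Dat Cc IsTB)

variable {Ω : Type} [Field Ω] [DecidableEq Ω] [Algebra F Ω] [IsAlgClosure F Ω]

/-- The parameter of a nonzero point killed by pi is a uniformizer of L at the places above pi. -/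
theorem yg1_unif {π : O} {l : ℕ} (D : Dat π l) {N L : IntermediateField F Ω} [NumberField L]
    (hN : Nb l N) (hL : IsTB π N L) {V : ValuationSubring Ω} (hV : vo V π < 1) {T₀ : P27 Ω}
    (hT₀ : T₀ ∈ Tor π Ω) (hT₀0 : T₀ ≠ 0) : ∃ (tL : L) (W : HeightOneSpectrum (𝓞 L)),
      (tL : Ω) = tt T₀ ∧ Abv L V W ∧ W.valuation L tL = WithZero.exp (-1 : ℤ) := by
  obtain ⟨e0, R⟩ : ∃ e0 : ℕ, RV π l N V (tt T₀) e0 := by
    have hl5 := D.five
    rcases dichotomy π l D.hl D.five D.pr D.prim D.dvd with ⟨hin, hq⟩ | ⟨hnd, hq, _⟩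
    · exact ⟨l + 1, ⟨D, hV, ⟨T₀, hT₀, hT₀0, rfl⟩, by
        rw [hq]
        obtain ⟨k, rfl⟩ : ∃ k, l = k + 1 := ⟨l - 1, by omega⟩
        rw [Nat.add_sub_cancel]
        have : (k + 1) ^ 2 = (k + 1 + 1) * k + 1 := by ring
        omega⟩, hN⟩
    · exact ⟨1, ⟨D, hV, ⟨T₀, hT₀, hT₀0, rfl⟩, by rw [hq, one_mul]⟩, hN⟩
  obtain ⟨-, -, ht1, ht0, -, -⟩ := R.base.val_l
  have htne : tt T₀ ≠ 0 := (Valuation.ne_zero_iff _).1 ht0
  have htL : tt T₀ ∈ L := by
    apply ku2_mem
    intro s hs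
    rw [← ld3_tt, ((hL.fix s).1 hs).2 _ hT₀]
  obtain ⟨tL, htL'⟩ : ∃ tL : L, (tL : Ω) = tt T₀ := ⟨⟨tt T₀, htL⟩, rfl⟩
  obtain ⟨w, hw⟩ := exists_below L V ⟨tL⁻¹, by
    rw [← V.valuation_le_one_iff]
    push_cast
    rw [htL', map_inv₀, not_le]
    exact (one_lt_inv₀ (zero_lt_iff.2 ht0)).2 ht1⟩
  refine ⟨tL, w, htL', hw, ?_⟩
  have htL0 : tL ≠ 0 := by
    rintro rfl
    exact htne (by rw [← htL']; simp)
  have hwt0 : w.valuation L tL ≠ 0 := (Valuation.ne_zero_iff _).2 htL0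
  obtain ⟨j, hj⟩ : ∃ j : ℤ, w.valuation L tL = WithZero.exp j :=
    ⟨WithZero.log (w.valuation L tL), (WithZero.exp_log hwt0).symm⟩
  have hj1 : j < 0 := by
    have h1 : w.valuation L tL < 1 := by
      rw [← hw.lt, htL']
      exact ht1
    rw [hj, ← WithZero.exp_zero, WithZero.exp_lt_exp] at h1
    exact h1
  obtain ⟨u, hu⟩ := w.valuation_exists_uniformizer L
  have hu' : w.valuation L u = WithZero.exp (-1 : ℤ) := hu
  have hu0 : u ≠ 0 := by
    rintro rfl
    rw [map_zero] at hu'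
    exact WithZero.exp_ne_zero hu'.symm
  have hHx : Hx π N V (u : Ω) := by
    intro s hs
    have h1 : s ∈ L.fixingSubgroup := (hL.fix s).2 ⟨hs.1.1, hs.2⟩
    exact (IntermediateField.mem_fixingSubgroup_iff L _).1 h1 u u.2
  obtain ⟨n, hn⟩ := R.values hHx (by exact_mod_cast hu0)
  have hzc : ((tL ^ n : L) : Ω) = tt T₀ ^ n := by
    rw [← htL']
    exact map_zpow₀ (algebraMap L Ω) tL n
  have h2 : w.valuation L u = w.valuation L (tL ^ n) := by
    have h3 : V.valuation (u : Ω) = V.valuation ((tL ^ n : L) : Ω) := by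
      rw [hzc, map_zpow₀]
      exact hn
    exact le_antisymm ((hw.le _ _).1 h3.le) ((hw.le _ _).1 h3.ge)
  rw [hu', map_zpow₀, hj, ← WithZero.exp_zsmul, WithZero.exp_inj, smul_eq_mul] at h2
  have hjm : j = -1 := by
    have h4 : j ∣ -1 := ⟨n, by rw [h2]; ring⟩
    have h5 : IsUnit j := Int.isUnit_iff.2 (by
      have h6 : j ∣ 1 := (dvd_neg).1 h4
      have h7 := Int.isUnit_iff.1 (isUnit_of_dvd_one h6)
      exact h7)
    rcases Int.isUnit_iff.1 h5 with h6 | h6 <;> omega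
  rw [hj, hjm]

/-- Chunk YG1 (M). From GN to the class. cocycle_of_m: c, y T (choose; 1 outside Tor π) with y^l = m T * z^l. If V contains L then all elements of Ω are in V (H55P.s13_top or integral closure), V = ⊤, all values of nonzero elements are 1: out clear, vo V π < 1 impossible.
Otherwise W = the prime of L below V (H13S.exists_below, Abv). out: G.out with V, W: l | ord W (m T), so W (m T) = W x^l with x in L (a power of a uniformizer, valuation_exists_uniformizer; ord: H55R/Defs), V (y T)^l = V (x z)^l, so V (y T) = V (x z).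
lev: t = tt T₀ is in L (fixed by L.fixingSubgroup: ku2_mem as in H13Z/LV.lean), RV π l N V t e0 (e0 = (Nm π - 1)/(l - 1): see H13Z/FZ4 or dichotomy), elements of L are in Hx π N V (DT elements are in L.fixingSubgroup: hL.fix), RV.values: values of elements of L are powers of V t, so W t = exp(-1) (as in level_pt of H13Z/LV.lean: hjm); G.lev for W (W π < 1 by Abv.lt): W ≤ exp(-2) = W t^2, Abv.le.
nz: G.nz gives T; if z in L, z^l = y T^l = m T z'^l then m T = (z/z')^l. -/
theorem exists_gl {π : O} {l : ℕ} (D : Dat π l) {e : P27 Ω → P27 Ω → Ω} (he : Pairing π l e)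
    {N L : IntermediateField F Ω} [NumberField N] [NumberField L] (hN : Nb l N) (hL : IsTB π N L)
    {w : HeightOneSpectrum (𝓞 N)} (h3 : (3 : 𝓞 N) ∉ w.asIdeal) (hl : (l : 𝓞 N) ∉ w.asIdeal)
    {m : P27 Ω → (L)ˣ} (G : GN π l N L w m) :
    ∃ (c : (Ω ≃ₐ[F] Ω) → P27 Ω) (y : P27 Ω → Ω), Gl π l e N L w c y := by
  classical
  have hac : IsAlgClosed Ω := IsAlgClosure.isAlgClosed F
  have halg : Algebra.IsAlgebraic F Ω := IsAlgClosure.isAlgebraic
  have hch : CharZero Ω := charZero_of_injective_algebraMap (algebraMap F Ω).injective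
  have hl0 : l ≠ 0 := D.hl.ne_zero
  obtain ⟨c, hc, hy⟩ := cocycle_of_m D he hL m G.add G.act
  have hy' : ∀ T, ∃ y : Ω, T ∈ Tor π Ω → (Kum L e c T y ∧
      ∃ z : (L)ˣ, y ^ l = ((m T * z ^ l : (L)ˣ) : L)) := by
    intro T
    by_cases hT : T ∈ Tor π Ω
    · obtain ⟨y, h1, h2⟩ := hy T hT
      exact ⟨y, fun _ => ⟨h1, h2⟩⟩
    · exact ⟨1, fun h => absurd h hT⟩
  choose y hy using hy'
  have hcoe : ∀ a b : (L)ˣ, (((a * b ^ l : (L)ˣ) : L) : Ω) = ((a : L) : Ω) * ((b : L) : Ω) ^ l := by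
    intro a b
    push_cast
    rfl
  refine ⟨c, y, { D := D, nb := hN, w3 := h3, wl := hl, tb := hL, cc := hc,
                  kum := fun T hT => (hy T hT).1, out := ?_, lev := ?_, nz := ?_ }⟩
  · intro V hV T hT
    obtain ⟨hk, z, hz⟩ := hy T hT
    have hy0 : y T ≠ 0 := hk.1
    by_cases hLV : ∃ x : L, (x : Ω) ∉ V
    · obtain ⟨W, hW⟩ := exists_below L V hLV
      obtain ⟨k, hk⟩ := G.out T hT V W hW hV
      obtain ⟨u, hu⟩ := HB1_pi W
      refine ⟨(((u ^ k * z : (L)ˣ) : L) : Ω), ((u ^ k * z : (L)ˣ) : L).2, ?_, ?_⟩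
      · intro h
        exact (u ^ k * z).ne_zero (by exact_mod_cast h)
      · have h1 : W.valuation L (((u ^ k : (L)ˣ) : L) ^ l) = W.valuation L ((m T : (L)ˣ) : L) := by
          rw [H55R.BF1_val, hk, map_pow, H55R.BF1_val, H55R.ord_zpow, hu, mul_one,
            ← WithZero.exp_nsmul]
          congr 1
          rw [nsmul_eq_mul]
          ring
        have h2 := le_antisymm ((hW.le _ _).2 h1.le) ((hW.le _ _).2 h1.ge)
        have h3 : V.valuation (y T) ^ l = V.valuation (((u ^ k * z : (L)ˣ) : L) : Ω) ^ l := by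
          rw [← map_pow, ← map_pow, hz, hcoe, map_mul, ← h2, ← map_mul]
          congr 1
          push_cast
          rw [mul_pow]
        exact (pow_left_inj₀ zero_le zero_le hl0).1 h3
    · push Not at hLV
      have htop : ∀ x : Ω, x ∈ V := s13_top L V (by
        intro x hx
        have hx0 : ((x : L) : Ω) ≠ 0 := by
          intro h
          apply hx
          have h1 : (x : L) = 0 := by exact_mod_cast h
          exact RingOfIntegers.coe_injective (h1.trans (map_zero _).symm)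
        have h1 := (V.valuation_le_one_iff _).2 (hLV (x : L))
        have h2 := (V.valuation_le_one_iff _).2 (hLV ((x : L)⁻¹))
        have e : (((x : L)⁻¹ : L) : Ω) = ((x : L) : Ω)⁻¹ := rfl
        rw [e, map_inv₀, inv_le_one₀ (zero_lt_iff.2 ((map_ne_zero _).2 hx0))] at h2
        exact le_antisymm h1 h2)
      refine ⟨1, one_mem L, one_ne_zero, ?_⟩
      rw [map_one]
      have h1 := (V.valuation_le_one_iff _).2 (htop (y T))
      have h2 := (V.valuation_le_one_iff _).2 (htop ((y T)⁻¹))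
      rw [map_inv₀, inv_le_one₀ (zero_lt_iff.2 ((map_ne_zero _).2 hy0))] at h2
      exact le_antisymm h1 h2
  · intro V hV T hT T₀ hT₀ hT₀0
    obtain ⟨hk, z, hz⟩ := hy T hT
    obtain ⟨tL, W, htL, hW, hWt⟩ := yg1_unif D hN hL hV hT₀ hT₀0
    have hWπ : W.valuation L (algebraMap F L (π : F)) < 1 := by
      rw [← hW.lt]
      exact hV
    obtain ⟨z', hz'⟩ := G.lev T hT W hWπ
    refine ⟨(((z' * z : (L)ˣ) : L) : Ω), ((z' * z : (L)ˣ) : L).2, ?_, ?_⟩
    · intro h
      exact (z' * z).ne_zero (by exact_mod_cast h)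
    · have hz0 : ((z : L) : Ω) ≠ 0 := by
        intro h
        exact z.ne_zero (by exact_mod_cast h)
      have hz'0 : ((z' : L) : Ω) ≠ 0 := by
        intro h
        exact z'.ne_zero (by exact_mod_cast h)
      have e1 : y T ^ l / (((z' * z : (L)ˣ) : L) : Ω) ^ l - 1 =
          ((((m T * (z' ^ l)⁻¹ : (L)ˣ) : L) - 1 : L) : Ω) := by
        rw [hz, hcoe]
        push_cast
        field_simp
        ring
      have e2 : V.valuation (tt T₀) ^ 2 = V.valuation ((tL ^ 2 : L) : Ω) := by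
        push_cast
        rw [htL, map_pow]
      rw [e1, e2, hW.le, map_pow, hWt, ← WithZero.exp_nsmul]
      refine hz'.trans ?_
      rw [WithZero.exp_le_exp]
      norm_num
  · obtain ⟨T, hT, hT1⟩ := G.nz
    refine ⟨T, hT, fun x hx hxy => ?_⟩
    obtain ⟨hk, z, hz⟩ := hy T hT
    have hx0 : x ≠ 0 := by
      rintro rfl
      rw [zero_pow hl0] at hxy
      exact pow_ne_zero l hk.1 hxy.symm
    obtain ⟨xL, hxL⟩ : ∃ xL : L, (xL : Ω) = x := ⟨⟨x, hx⟩, rfl⟩
    have hxL0 : xL ≠ 0 := by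
      rintro rfl
      exact hx0 (by rw [← hxL]; simp)
    apply hT1 (Units.mk0 xL hxL0 * z⁻¹)
    have h1 : ((xL ^ l : L) : Ω) = (((m T * z ^ l : (L)ˣ) : L) : Ω) := by
      rw [← hz, ← hxy, ← hxL]
      push_cast
      rfl
    have h2 : xL ^ l = ((m T * z ^ l : (L)ˣ) : L) := Subtype.val_injective h1
    have h3 : Units.mk0 xL hxL0 ^ l = m T * z ^ l := by
      ext
      push_cast
      rw [Units.val_mk0]
      have h4 := congrArg (fun t : L => (t : Ω)) h2
      push_cast at h4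
      exact h4
    rw [mul_pow, inv_pow, h3, mul_inv_cancel_right]

end H13Y
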