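import Mathlib
import Pool.Agent.Lib.H13Y.GDef
import Pool.Agent.Lib.H13Z.LCB
import Pool.Agent.Lib.H13Z.LE
import Pool.Agent.Lib.H13Z.LF3
import Pool.Agent.Lib.H13S.IN4
import Pool.Agent.Lib.H13S.DC

open NumberField IsDedekindDomain

namespace H13Y

open H55P H28G H55B H13S
open H13Z (Dat Cc IsTB)

variable {Ω : Type} [Field Ω] [DecidableEq Ω] [Algebra F Ω] [IsAlgClosure F Ω]

variable {π : O} {l : ℕ} {e : P27 Ω → P27 Ω → Ω} {N L : IntermediateField F Ω} [NumberField N]
  {w : HeightOneSpectrum (𝓞 N)} {c : (Ω ≃ₐ[F] Ω) → P27 Ω} {y : P27 Ω → Ω} {V : ValuationSubring Ω}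

omit [IsAlgClosure F Ω] in
/-- Chunk YG2 (S/M). As H13Z/FZ2.lean Gl.zero. -/
theorem Gl.zero (G : Gl π l e N L w c y) (he : Pairing π l e) {s : Ω ≃ₐ[F] Ω}
    (hs : s ∈ L.fixingSubgroup) (h : ∀ T ∈ Tor π Ω, s (y T) = y T) : c s = 0 := by
  refine he.nondeg _ (G.cc.val s (G.tb.mono hs)) fun T hT => ?_
  obtain ⟨h0, h1⟩ := G.kum T hT
  have h2 := h1 s hs
  rw [h T hT] at h2
  exact mul_right_cancel₀ h0 (by rw [one_mul]; exact h2.symm)

omit [IsAlgClosure F Ω] in
/-- The l-th power of y T is fixed by the automorphisms over L. -/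
theorem yg2_pow (G : Gl π l e N L w c y) (he : Pairing π l e) {s : Ω ≃ₐ[F] Ω}
    (hs : s ∈ L.fixingSubgroup) {T : P27 Ω} (hT : T ∈ Tor π Ω) : s (y T ^ l) = y T ^ l := by
  rw [map_pow, (G.kum T hT).2 s hs, mul_pow, he.root _ (G.cc.val s (G.tb.mono hs)) T hT, one_mul]

omit [IsAlgClosure F Ω] in
/-- Outside l and w: x in L from Gl.out is fixed by s, y T^l is fixed (kum, he.root), unr_val (as H13Z/FZ2.lean Gl.inert). -/
theorem Gl.inert (G : Gl π l e N L w c y) (he : Pairing π l e) (hl : V.valuation (l : Ω) = 1)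
    (hw : ¬ Abv N V w) {s : Ω ≃ₐ[F] Ω} (hs : Inert V s) (hT : s ∈ L.fixingSubgroup) : c s = 0 := by
  have hchar : CharZero Ω := charZero_of_injective_algebraMap (algebraMap F Ω).injective
  refine G.zero he hT fun T hT' => ?_
  obtain ⟨x, hxL, hx0, hx⟩ := G.out V hw T hT'
  exact H13Z.unr_val V G.D.hl hl (G.kum T hT').1 hx hs
    ((IntermediateField.mem_fixingSubgroup_iff L s).1 hT x hxL) (yg2_pow G he hT hT')

omit [DecidableEq Ω] [IsAlgClosure F Ω] in
theorem yg2_unit (hV : Abv N V w) (a : 𝓞 N) (ha : a ∉ w.asIdeal) : V.valuation (((a : N) : Ω)) = 1 := by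
  apply le_antisymm
  · exact (V.valuation_le_one_iff _).2 ((hV (a : N)).2 (w.valuation_le_one a))
  · by_contra hcon
    push Not at hcon
    exact ha ((w.valuation_lt_one_iff_mem a).1 ((Abv.lt hV _).1 hcon))

omit [IsAlgClosure F Ω] in
/-- The values above w: V 3 = 1 and V l = 1 (3, l not in w: Abv). -/
theorem Gl.val_w (G : Gl π l e N L w c y) (hV : Abv N V w) :
    V.valuation (3 : Ω) = 1 ∧ V.valuation (l : Ω) = 1 := by
  constructor
  · have h1 := yg2_unit hV (3 : 𝓞 N) G.w3
    have h2 : (((3 : 𝓞 N) : N) : Ω) = 3 := by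
      have e1 : ((3 : 𝓞 N) : N) = 3 := map_ofNat (algebraMap (𝓞 N) N) 3
      rw [e1]
      exact map_ofNat (algebraMap N Ω) 3
    rwa [h2] at h1
  · have h1 := yg2_unit hV (l : 𝓞 N) G.wl
    have h2 : (((l : 𝓞 N) : N) : Ω) = l := by
      have e1 : ((l : 𝓞 N) : N) = l := map_natCast (algebraMap (𝓞 N) N) l
      rw [e1]
      exact map_natCast (algebraMap N Ω) l
    rwa [h2] at h1

/-- Above w over N': inertia elements over N fix Tor π (inert_tors: V 3 = 1, vo V π = 1 because π divides l), so they are in L.fixingSubgroup (tb.fix). y T^l is fixed by the inertia elements over N: value_fixed for K = N: V (y T)^l = V a, a in N, a ≠ 0, = V x^l with x in N' (hx), so V (y T) = V x; x is fixed by s (s in N'.fixingSubgroup). unr_val, Gl.zero. -/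
theorem Gl.kill (G : Gl π l e N L w c y) (he : Pairing π l e) (hV : Abv N V w)
    {N' : IntermediateField F Ω} (hNN : N ≤ N')
    (hx : ∀ a ∈ N, a ≠ 0 → ∃ x ∈ N', V.valuation x ^ l = V.valuation a) {s : Ω ≃ₐ[F] Ω}
    (hs : s ∈ N'.fixingSubgroup) (hi : Inert V s) : c s = 0 := by
  have hchar : CharZero Ω := charZero_of_injective_algebraMap (algebraMap F Ω).injective
  obtain ⟨h3, hl⟩ := G.val_w hV
  have hπ : vo V π = 1 := by
    obtain ⟨u, hu⟩ := G.D.dvd
    have h1 : vo V (l : O) = 1 := by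
      have e : algebraMap F Ω (((l : O)) : F) = (l : Ω) := by
        have e1 : (((l : O)) : F) = (l : F) := by simp
        rw [e1, map_natCast]
      show V.valuation (algebraMap F Ω (((l : O)) : F)) = 1
      rw [e, hl]
    have h2 : vo V (l : O) = vo V π * vo V u := by
      show V.valuation (algebraMap F Ω (((l : O)) : F)) =
        V.valuation (algebraMap F Ω ((π : F))) * V.valuation (algebraMap F Ω ((u : F)))
      rw [hu, ← map_mul, ← map_mul]
      rfl
    rw [h1] at h2
    apply le_antisymm (gif_le V π)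
    by_contra hcon
    push Not at hcon
    have h4 : vo V π * vo V u < 1 := mul_lt_one_of_nonneg_of_lt_one_left zero_le hcon (gif_le V u)
    rw [← h2] at h4
    exact lt_irrefl _ h4
  have hfix : ∀ t : Ω ≃ₐ[F] Ω, t ∈ N.fixingSubgroup → Inert V t → t ∈ L.fixingSubgroup :=
    fun t ht hti => (G.tb.fix t).2 ⟨ht, fun T hT => H13Z.inert_tors h3 hπ hti hT⟩
  have hsN : s ∈ N.fixingSubgroup := by
    rw [IntermediateField.mem_fixingSubgroup_iff] at hs ⊢
    exact fun x hx => hs x (hNN hx)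
  have hsL := hfix s hsN hi
  refine G.zero he hsL fun T hT => ?_
  have hy0 : y T ≠ 0 := (G.kum T hT).1
  obtain ⟨a, ha0, ha⟩ := value_fixed N V (y T ^ l) (pow_ne_zero l hy0)
    (fun t ht hti => yg2_pow G he (hfix t ht hti) hT)
  obtain ⟨x, hxN, hxa⟩ := hx (a : Ω) a.2 (fun h => ha0 (Subtype.ext h))
  rw [← hxa, map_pow] at ha
  have hxy : V.valuation (y T) = V.valuation x :=
    (pow_left_inj₀ zero_le zero_le G.D.hl.ne_zero).1 ha
  exact H13Z.unr_val V G.D.hl hl hy0 hxy hi ((IntermediateField.mem_fixingSubgroup_iff N' s).1 hs x hxN)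
    (yg2_pow G he hsL hT)

omit [IsAlgClosure F Ω] [NumberField N] in
/-- the coboundary may be taken with values in the points killed by cj π -/
theorem YG3_red (D : Dat π l) (C : Cc π N c) {T : P27 Ω} (hT : l • T = 0)
    (hc : ∀ s ∈ N.fixingSubgroup, c s = ac W27 s T - T) :
    ∃ X ∈ Tor (cj π) Ω, ∀ s ∈ N.fixingSubgroup, c s = ac W27 s X - X := by
  have hlT : act (l : O) T = 0 := by rw [act_nat, hT]
  rcases dichotomy π l D.hl D.five D.pr D.prim D.dvd with ⟨h1, h2⟩ | ⟨h1, h2, -⟩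
  · refine ⟨T, ?_, hc⟩
    rw [h1]
    obtain ⟨u, hu⟩ := D.dvd
    have hu1 : Nm u = 1 := by
      have h4 : Nm (l : O) = l ^ 2 := dc_Nm_nat l
      rw [hu, Nm_mul, h2] at h4
      exact (mul_eq_left₀ (pow_ne_zero 2 D.hl.ne_zero)).1 h4
    obtain ⟨v, hv⟩ := (Nm_eq_one.1 hu1).exists_left_inv
    rw [mem_Tor]
    have h5 : π = v * (l : O) := by
      rw [hu]
      linear_combination (-π) * hv
    rw [h5, act_mul, hlT, map_zero]
  · have hcop : IsCoprime π (cj π) := (D.pr.irreducible.coprime_iff_not_dvd).2 h1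
    obtain ⟨u, v, huv⟩ := hcop
    have hll : π * cj π = (l : O) := by rw [mul_cj, h2]
    have hX : act (u * π) T ∈ Tor (cj π) Ω := by
      rw [mem_Tor, ← act_mul]
      have h6 : cj π * (u * π) = u * (l : O) := by rw [← hll]; ring
      rw [h6, act_mul, hlT, map_zero]
    refine ⟨act (u * π) T, hX, fun s hs => ?_⟩
    have h3 : act (u * π) (c s) = c s := by
      have h4 : act (v * cj π) (c s) = 0 := by
        rw [act_mul, mem_Tor.1 (C.val s hs), map_zero]
      have h5 : act (u * π + v * cj π) (c s) = c s := by rw [huv, act_one]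
      rw [act_add, h4, add_zero] at h5
      exact h5
    rw [ac_act, ← map_sub, ← hc s hs, h3]

/-- Chunk YG3 (S/M). c is not a coboundary over N. Suppose c s = ac s T - T on N.fixingSubgroup, l • T = 0. If cj π = π (dichotomy) then l is a unit times π: T in Tor π = Tor (cj π), X = T. Otherwise π, cj π are coprime, l = unit * π cj π, T = T₁ + X with T₁ in Tor π, X in Tor (cj π) (act of a π + b cj π = 1); c s = (ac s T₁ - T₁) + (ac s X - X) with c s in Tor (cj π), ac s T₁ - T₁ in Tor π, the intersection is 0: ac s T₁ = T₁. So in all cases c s = ac s X - X on N.fixingSubgroup, X in Tor (cj π).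
T' from G.nz; s in L.fixingSubgroup: s (y T') = e (ac s X - X) T' * y T' = (e (ac s X) T'/e X T') y T' = (s (e X T')/e X T') y T' (he.act, ac s T' = T'), so z = y T'/e X T' is fixed by L.fixingSubgroup: z in L (ku2_mem), z^l = y T'^l (he.root). Contradiction. -/
theorem Gl.not_cob (G : Gl π l e N L w c y) (he : Pairing π l e) :
    ¬ ∃ T : P27 Ω, l • T = 0 ∧ ∀ s ∈ N.fixingSubgroup, c s = ac W27 s T - T := by
  rintro ⟨T, hT, hc⟩
  obtain ⟨X, hX, hcX⟩ := YG3_red G.D G.cc hT hc
  obtain ⟨T', hT', hnz⟩ := G.nz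
  have hl0 : l ≠ 0 := G.D.hl.ne_zero
  have h1 : e X T' ^ l = 1 := he.root X hX T' hT'
  have hne : e X T' ≠ 0 := by
    intro h
    rw [h, zero_pow hl0] at h1
    exact zero_ne_one h1
  have hz : y T' / e X T' ∈ L := by
    apply ku2_mem
    intro s hs
    have h2 := (G.kum T' hT').2 s hs
    have hsX : ac W27 s X ∈ Tor (cj π) Ω := ac_mem s hX
    have hsT : ac W27 s T' = T' := ((G.tb.fix s).1 hs).2 T' hT'
    have h3 : s (e X T') = e (ac W27 s X) T' := by rw [he.act s X hX T' hT', hsT]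
    have h4 : e (ac W27 s X) T' = e (c s) T' * e X T' := by
      rw [← he.add_left _ (G.cc.val s (G.tb.mono hs)) _ hX T' hT', hcX s (G.tb.mono hs), sub_add_cancel]
    have h5 : e (c s) T' ≠ 0 := by
      intro h6
      rw [h6, zero_mul] at h2
      exact (G.kum T' hT').1 ((map_eq_zero_iff s s.injective).1 h2)
    rw [map_div₀, h2, h3, h4, mul_div_mul_left _ _ h5]
  refine hnz _ hz ?_
  rw [div_pow, h1, div_one]

end H13Y
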