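import Mathlib
import Pool.Agent.Lib.H13Y.YR
import Pool.Agent.Lib.H13Z.LU

open NumberField IsDedekindDomain

namespace H13Y

open H55P H28G H55B H13S
open H13Z (Dat Cc IsTB)

variable {Ω : Type} [Field Ω] [DecidableEq Ω] [Algebra F Ω] [IsAlgClosure F Ω]

variable {π : O} {l : ℕ} {N : IntermediateField F Ω} {V : ValuationSubring Ω} {t : Ω} {e0 : ℕ}

/-- Chunk YU (M), PORT of H13Z/LU.lean to the base field N (RV.values, RV.step, RV.residue of YR.lean; R.base.val_l). -/
theorem RV.pow_unit (R : RV π l N V t e0) {z : Ω} (hz : Hx π N V z) {i : ℕ} (hi : 1 ≤ i) (h2 : i < l * e0)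
    (h3 : ¬ l ∣ i) (h : V.valuation (z ^ l - 1) ≤ V.valuation t ^ i) :
    V.valuation (z ^ l - 1) ≤ V.valuation t ^ (i + 1) := by
  obtain ⟨hl1, hq, ht1, ht0, he, -⟩ := R.base.val_l
  have hlp := R.base.D.hl
  have hl2 : 2 ≤ l := hlp.two_le
  set r := V.valuation t with hr
  have hr0 : 0 < r := zero_lt_iff.2 ht0
  have hle : ∀ {a b : ℕ}, a ≤ b → r ^ b ≤ r ^ a := fun {a b} hab => pow_le_pow_right_of_le_one' ht1.le hab
  have hlt : ∀ {a b : ℕ}, a < b → r ^ b < r ^ a := fun {a b} hab => pow_lt_pow_right_of_lt_one₀ hr0 ht1 hab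
  have hw1 : V.valuation (z ^ l - 1) < 1 := lt_of_le_of_lt h (pow_lt_one₀ zero_le ht1 (by omega))
  have hvl : V.valuation (l : Ω) < 1 := by
    rw [hl1]
    exact R.base.above
  have hz1 : V.valuation z = 1 := by
    have h4 : V.valuation (z ^ l) = 1 := by
      have h5 : z ^ l = (z ^ l - 1) + 1 := by ring
      rw [h5]
      rw [Valuation.map_add_eq_of_lt_right]
      · exact map_one V.valuation
      · rw [map_one]
        exact hw1
    rw [map_pow] at h4
    exact (pow_eq_one_iff.1 h4).resolve_right (by omega)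
  obtain ⟨d, hd⟩ : ∃ d, d = z - 1 := ⟨_, rfl⟩
  have hzd : z = d + 1 := by rw [hd]; ring
  have hd1 : V.valuation d ≤ 1 := by
    rw [hd]
    exact V.valuation.map_sub_le hz1.le (map_one _).le
  obtain ⟨b, hb, hexp⟩ := H13Z.lu_add_pow (l := l) V hlp hd1 (y := 1) (map_one _).le
  rw [← hzd, one_pow] at hexp
  have hexp' : z ^ l - 1 = d ^ l + l * d * b := by rw [hexp]; ring
  have hrest : V.valuation (l * d * b) ≤ V.valuation (l : Ω) * V.valuation d := by
    rw [map_mul, map_mul]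
    exact mul_le_of_le_one_right' hb
  have hdlt : V.valuation d < 1 := by
    have h5 : d ^ l = (z ^ l - 1) - l * d * b := by rw [hexp']; ring
    have h6 : V.valuation (d ^ l) < 1 := by
      rw [h5]
      refine lt_of_le_of_lt (Valuation.map_sub _ _ _) (max_lt hw1 (lt_of_le_of_lt hrest ?_))
      exact lt_of_le_of_lt (mul_le_of_le_one_right' hd1) hvl
    rw [map_pow] at h6
    by_contra hcon
    exact absurd h6 (not_lt.2 (one_le_pow_of_one_le' (not_lt.1 hcon) l))
  by_cases hd0 : d = 0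
  · have : z ^ l - 1 = 0 := by
      rw [hexp', hd0, zero_pow (by omega)]
      ring
    rw [this, map_zero]
    exact zero_le
  have hHd : Hx π N V d := by
    rw [hd]
    exact hz.sub Hx.one
  obtain ⟨n, hn⟩ := R.values hHd hd0
  rw [← hr] at hn
  have hn0 : 0 < n := by
    by_contra hcon
    have h5 : n ≤ 0 := not_lt.1 hcon
    obtain ⟨k, hk⟩ := Int.exists_eq_neg_ofNat h5
    rw [hn, hk, zpow_neg, zpow_natCast] at hdlt
    have h6 : r ^ k ≤ 1 := pow_le_one₀ zero_le ht1.le
    have h7 : 1 ≤ (r ^ k)⁻¹ := by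
      rw [one_le_inv₀ (pow_pos hr0 k)]
      exact h6
    exact absurd hdlt (not_lt.2 h7)
  obtain ⟨j, hj⟩ : ∃ j : ℕ, n = j := ⟨n.toNat, (Int.toNat_of_nonneg hn0.le).symm⟩
  rw [hj, zpow_natCast] at hn
  have hj0 : 1 ≤ j := by omega
  have hrest' : V.valuation (l * d * b) ≤ r ^ (e0 * (l - 1) + j) := by
    rw [pow_add, he, ← hn]
    exact hrest
  have hdl : V.valuation (d ^ l) = r ^ (l * j) := by
    rw [map_pow, hn, ← pow_mul, mul_comm]
  by_cases hje : j < e0
  · have h5 : l * j < e0 * (l - 1) + j := by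
      obtain ⟨k, rfl⟩ : ∃ k, l = k + 1 := ⟨l - 1, by omega⟩
      rw [Nat.add_sub_cancel]
      have h6 : k * j < k * e0 := Nat.mul_lt_mul_of_pos_left hje (by omega)
      have e1 : (k + 1) * j = k * j + j := by ring
      rw [e1, mul_comm e0 k]
      omega
    have h6 : V.valuation (z ^ l - 1) = r ^ (l * j) := by
      rw [hexp', Valuation.map_add_eq_of_lt_left]
      · exact hdl
      · rw [hdl]
        exact lt_of_le_of_lt hrest' (hlt h5)
    rw [h6] at h ⊢
    apply hle
    have h7 : i ≤ l * j := by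
      by_contra hcon
      exact absurd h (not_le.2 (hlt (not_le.1 hcon)))
    rcases Nat.eq_or_lt_of_le h7 with h8 | h8
    · exact absurd ⟨j, h8⟩ h3
    · exact h8
  · have h5 : l * e0 ≤ l * j := Nat.mul_le_mul_left l (not_lt.1 hje)
    have h6 : l * e0 ≤ e0 * (l - 1) + j := by
      obtain ⟨k, rfl⟩ : ∃ k, l = k + 1 := ⟨l - 1, by omega⟩
      rw [Nat.add_sub_cancel]
      have e1 : (k + 1) * e0 = e0 * k + e0 := by ring
      rw [e1]
      omega
    rw [hexp']
    refine Valuation.map_add_le _ ?_ ?_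
    · rw [hdl]
      exact hle (by omega)
    · exact hrest'.trans (hle (by omega))

/-- The l-th root of the residue a in N: the residue field of N is finite (R.nb.res with β = π: a^q - a has value < 1, q = (Nm π)^(l^j) is a power of l, so b = a^(q/l)). -/
theorem RV.raise_mul (R : RV π l N V t e0) {m : Ω} (hm : Hx π N V m) (h0 : m ≠ 0) {j : ℕ} (hj : 1 ≤ j)
    (h2 : j < e0) (h : Lv π l N V (V.valuation t ^ (l * j)) m) : Lv π l N V (V.valuation t ^ (l * j + 1)) m := by
  obtain ⟨hl1, hq, ht1, ht0, he, hcase⟩ := R.base.val_l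
  have hlp := R.base.D.hl
  have hl2 : 2 ≤ l := hlp.two_le
  obtain ⟨hN, -⟩ : Nm π = l ^ 2 ∧ True := by
    rcases hcase with h3 | h3
    · omega
    · exact ⟨h3.1, trivial⟩
  have hHt : Hx π N V t := by
    obtain ⟨T, hT, -, e⟩ := R.base.pt
    rw [e]
    exact Hx.tt hT
  have ht : t ≠ 0 := fun e => ht0 (by rw [e, map_zero])
  obtain ⟨z, hz, hz0, hv⟩ := h
  obtain ⟨w, hw⟩ : ∃ w, w = m / z ^ l - 1 := ⟨_, rfl⟩
  rw [← hw] at hv
  have hHw : Hx π N V w := by
    rw [hw]
    exact (hm.div (hz.pow l)).sub Hx.one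
  have htp : t ^ (l * j) ≠ 0 := pow_ne_zero _ ht
  have hHx : Hx π N V (w / t ^ (l * j)) := hHw.div (hHt.pow _)
  have hx1 : V.valuation (w / t ^ (l * j)) ≤ 1 := by
    rw [map_div₀, map_pow]
    exact div_le_one_of_le₀ hv zero_le
  have hvl : V.valuation (l : Ω) < 1 := by
    rw [hl1]
    exact R.base.above
  obtain ⟨α, hαN, hα1, ha⟩ := R.residue hHx hx1
  obtain ⟨q, k, hqk, hres, -, -⟩ := R.nb.res V π R.base.D.pr R.base.above hvl
  rw [hN, ← pow_mul] at hqk
  have hk1 : 1 ≤ 2 * l ^ k := by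
    have := pow_pos hlp.pos k
    omega
  obtain ⟨β, hβ⟩ : ∃ β, β = α ^ (l ^ (2 * l ^ k - 1)) := ⟨_, rfl⟩
  have hβl : β ^ l = α ^ q := by
    rw [hβ, ← pow_mul, ← pow_succ, Nat.sub_add_cancel hk1, hqk]
  have hab : V.valuation (α - β ^ l) < 1 := by
    rw [hβl, Valuation.map_sub_swap]
    exact hres α hαN ((V.valuation_le_one_iff α).1 hα1)
  have hβ1 : V.valuation β ≤ 1 := by
    rw [hβ, map_pow]
    exact pow_le_one' hα1 _
  have hHβ : Hx π N V β := by
    rw [hβ]
    exact (Hx.of_mem hαN).pow _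
  have htj : V.valuation (t ^ j) < 1 := by
    rw [map_pow]
    exact pow_lt_one₀ zero_le ht1 (by omega)
  have hd : V.valuation (β * t ^ j) < 1 := by
    rw [map_mul]
    exact lt_of_le_of_lt (mul_le_of_le_one_left' hβ1) htj
  obtain ⟨c, hc, hexp⟩ := H13Z.lu_add_pow (l := l) V hlp hd.le (y := 1) (map_one _).le
  rw [one_pow] at hexp
  obtain ⟨u, hu⟩ : ∃ u, u = β * t ^ j + 1 := ⟨_, rfl⟩
  rw [← hu] at hexp
  have hu1 : V.valuation u = 1 := by
    rw [hu, Valuation.map_add_eq_of_lt_right]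
    · exact map_one V.valuation
    · rw [map_one]
      exact hd
  have hu0 : u ≠ 0 := fun e => by
    rw [e, map_zero] at hu1
    exact zero_ne_one hu1
  have hHu : Hx π N V u := by
    rw [hu]
    exact (hHβ.mul (hHt.pow j)).add Hx.one
  have hr0 : 0 < V.valuation t := zero_lt_iff.2 ht0
  have hrp : 0 < V.valuation t ^ (l * j) := pow_pos hr0 _
  -- the error terms
  have e1 : V.valuation (w - α * t ^ (l * j)) < V.valuation t ^ (l * j) := by
    have e2 : w - α * t ^ (l * j) = (w / t ^ (l * j) - α) * t ^ (l * j) := by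
      rw [sub_mul, div_mul_cancel₀ _ htp]
    rw [e2, map_mul, map_pow]
    calc V.valuation (w / t ^ (l * j) - α) * V.valuation t ^ (l * j) < 1 * V.valuation t ^ (l * j) :=
          mul_lt_mul_of_pos_right ha hrp
      _ = _ := one_mul _
  have e2 : V.valuation ((α - β ^ l) * t ^ (l * j)) < V.valuation t ^ (l * j) := by
    rw [map_mul, map_pow]
    calc V.valuation (α - β ^ l) * V.valuation t ^ (l * j) < 1 * V.valuation t ^ (l * j) :=
          mul_lt_mul_of_pos_right hab hrp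
      _ = _ := one_mul _
  have e3 : V.valuation (l * (β * t ^ j) * 1 * c) < V.valuation t ^ (l * j) := by
    have h5 : l * j < e0 * (l - 1) + j := by
      obtain ⟨k, rfl⟩ : ∃ k, l = k + 1 := ⟨l - 1, by omega⟩
      rw [Nat.add_sub_cancel]
      have h6 : k * j < k * e0 := Nat.mul_lt_mul_of_pos_left h2 (by omega)
      have e1 : (k + 1) * j = k * j + j := by ring
      rw [e1, mul_comm e0 k]
      omega
    refine lt_of_le_of_lt ?_ (pow_lt_pow_right_of_lt_one₀ hr0 ht1 h5)
    rw [pow_add, he, mul_one, map_mul, map_mul, map_mul, map_pow]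
    exact (mul_le_of_le_one_right' hc).trans (mul_le_mul_right (mul_le_of_le_one_left' hβ1) _)
  have e4 : w - (u ^ l - 1) = (w - α * t ^ (l * j)) + (α - β ^ l) * t ^ (l * j) - l * (β * t ^ j) * 1 * c := by
    rw [hexp, mul_pow, ← pow_mul, mul_comm j l]
    ring
  have e5 : V.valuation (w - (u ^ l - 1)) < V.valuation t ^ (l * j) := by
    rw [e4]
    refine lt_of_le_of_lt (Valuation.map_sub _ _ _) (max_lt (lt_of_le_of_lt (Valuation.map_add _ _ _) (max_lt e1 e2)) e3)
  refine ⟨z * u, hz.mul hHu, mul_ne_zero hz0 hu0, ?_⟩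
  have e6 : m / (z * u) ^ l - 1 = (w - (u ^ l - 1)) / u ^ l := by
    rw [hw, mul_pow]
    have := pow_ne_zero l hz0
    have := pow_ne_zero l hu0
    field_simp
    ring
  refine R.step ((hm.div ((hz.mul hHu).pow l)).sub Hx.one) ?_
  rw [e6, map_div₀, map_pow, hu1, one_pow, div_one]
  exact e5

end H13Y
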