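import Mathlib
import Pool.Agent.Lib.H13Y.YU
import Pool.Agent.Lib.H13Z.LC1

open NumberField IsDedekindDomain

namespace H13Y

open H55P H28G H55B H13S
open H13Z (Dat Cc IsTB)

variable {Ω : Type} [Field Ω] [DecidableEq Ω] [Algebra F Ω] [IsAlgClosure F Ω]

variable {π : O} {l : ℕ} {N : IntermediateField F Ω} {V : ValuationSubring Ω} {t : Ω} {e0 : ℕ}

omit [IsAlgClosure F Ω] in
theorem yc1_hx (R : RV π l N V t e0) : Hx π N V t := by
  obtain ⟨T, hT, -, rfl⟩ := R.base.pt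
  exact Hx.tt hT

omit [DecidableEq Ω] [Algebra F Ω] [IsAlgClosure F Ω] in
/-- The value of the main term. -/
theorem yc1_term {V : ValuationSubring Ω} (t : Ω) {a : Ω} (ha : V.valuation a ≤ 1) (i : ℕ) :
    V.valuation (a * t ^ i) ≤ V.valuation t ^ i := by
  rw [map_mul, map_pow]
  exact mul_le_of_le_one_left' ha

/-- m/z^l is at most 1 away from 1 by the value of t^i. -/
theorem yc1_one {V : ValuationSubring Ω} {t : Ω} (ht : V.valuation t < 1) {A : Ω} {a : Ω}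
    (ha : V.valuation a ≤ 1) {i : ℕ}
    (h : V.valuation (A - 1 - a * t ^ i) ≤ V.valuation t ^ (i + 1)) :
    V.valuation (A - 1) ≤ V.valuation t ^ i := by
  have e : A - 1 = (A - 1 - a * t ^ i) + a * t ^ i := by ring
  rw [e]
  exact Valuation.map_add_le _ (h.trans (H13Z.lc1_pow_le ht (Nat.le_succ i))) (yc1_term t ha i)

theorem yc1_small (R : RV π l N V t e0) {d : Ω} (hN : d ∈ N) (hd : V.valuation d < 1) (i : ℕ) :
    V.valuation (d * t ^ i) ≤ V.valuation t ^ (i + 1) := by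
  obtain ⟨-, -, ht1, ht0, -, -⟩ := R.base.val_l
  refine R.step ((Hx.of_mem hN).mul ((yc1_hx R).pow i)) ?_
  rw [map_mul, map_pow]
  exact mul_lt_of_lt_one_left (pow_pos (zero_lt_iff.2 ht0) i) hd

/-- Chunk YC1 (M), PORT of H13Z/LC1.lean to the base field N: coefficients a in N with V a ≤ 1 in place of elements of O (π | a becomes V a < 1). -/
theorem RV.co_exists (R : RV π l N V t e0) {m : Ω} (hm : Hx π N V m) {i : ℕ}
    (h : Lv π l N V (V.valuation t ^ i) m) : ∃ a : Ω, Co π l N V t i m a := by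
  obtain ⟨-, -, ht1, ht0, -, -⟩ := R.base.val_l
  obtain ⟨z, hz, z0, h1⟩ := h
  have htx := yc1_hx R
  have t0 : t ^ i ≠ 0 := by
    intro h2
    apply pow_ne_zero i ht0
    rw [← map_pow, h2, map_zero]
  have hx : Hx π N V ((m / z ^ l - 1) / t ^ i) := ((hm.div (hz.pow l)).sub Hx.one).div (htx.pow i)
  have hx1 : V.valuation ((m / z ^ l - 1) / t ^ i) ≤ 1 := by
    rw [map_div₀, map_pow]
    exact div_le_one_of_le₀ h1 zero_le
  obtain ⟨a, haN, ha1, ha⟩ := R.residue hx hx1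
  refine ⟨a, ⟨haN, ha1⟩, z, hz, z0, ?_⟩
  refine R.step (((hm.div (hz.pow l)).sub Hx.one).sub ((Hx.of_mem haN).mul (htx.pow i))) ?_
  have e : m / z ^ l - 1 - a * t ^ i = ((m / z ^ l - 1) / t ^ i - a) * t ^ i := by
    rw [sub_mul, div_mul_cancel₀ _ t0]
  rw [e, map_mul, map_pow]
  exact mul_lt_of_lt_one_left (pow_pos (zero_lt_iff.2 ht0) i) ha

theorem RV.co_unique (R : RV π l N V t e0) {m : Ω} (h0 : m ≠ 0) {i : ℕ} (hi : 1 ≤ i) (h2 : i < l * e0)
    (h3 : ¬ l ∣ i) {a a' : Ω} (h : Co π l N V t i m a) (h' : Co π l N V t i m a') :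
    V.valuation (a - a') < 1 := by
  obtain ⟨-, -, ht1, ht0, -, -⟩ := R.base.val_l
  obtain ⟨⟨-, ha⟩, z, hz, z0, h4⟩ := h
  obtain ⟨⟨-, ha'⟩, z', hz', z0', h4'⟩ := h'
  set A := m / z ^ l with hA
  set A' := m / z' ^ l with hA'
  have h5 := yc1_one ht1 ha h4
  have h5' := yc1_one ht1 ha' h4'
  have h6' := H13Z.lc1_unit ht1 hi h5'
  have n' := H13Z.lc1_ne h6'
  have e1 : (z' / z) ^ l - 1 = (A - A') / A' := by
    have e2 : (z' / z) ^ l = A / A' := by
      rw [hA, hA', div_pow]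
      have := pow_ne_zero l z0
      have := pow_ne_zero l z0'
      field_simp
    rw [e2, sub_div, div_self n']
  have e3 : V.valuation ((z' / z) ^ l - 1) = V.valuation (A - A') := by
    rw [e1, map_div₀, h6', div_one]
  have h7 : V.valuation (A - A') ≤ V.valuation t ^ i := by
    have e : A - A' = (A - 1) - (A' - 1) := by ring
    rw [e]
    exact Valuation.map_sub_le _ h5 h5'
  have h8 := R.pow_unit (hz'.div hz) hi h2 h3 (e3.le.trans h7)
  rw [e3] at h8
  have h9 : V.valuation ((a - a') * t ^ i) ≤ V.valuation t ^ (i + 1) := by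
    have e : (a - a') * t ^ i = (A - A') -
        ((A - 1 - a * t ^ i) - (A' - 1 - a' * t ^ i)) := by
      ring
    rw [e]
    exact Valuation.map_sub_le _ h8 (Valuation.map_sub_le _ h4 h4')
  rw [map_mul, map_pow, pow_succ', mul_le_mul_iff_left₀ (pow_pos (zero_lt_iff.2 ht0) i)] at h9
  exact h9.trans_lt ht1

theorem RV.co_mul (R : RV π l N V t e0) {m m' z : Ω} {i : ℕ} (hi : 1 ≤ i) {a a' : Ω}
    (h : Co π l N V t i m a) (h' : Co π l N V t i m' a') (hz : Hx π N V z) (h0 : z ≠ 0) :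
    Co π l N V t i (m * m' * z ^ l) (a + a') := by
  obtain ⟨-, -, ht1, ht0, -, -⟩ := R.base.val_l
  obtain ⟨⟨haN, ha⟩, z1, hz1, z10, h4⟩ := h
  obtain ⟨⟨haN', ha'⟩, z2, hz2, z20, h4'⟩ := h'
  refine ⟨⟨N.add_mem haN haN', Valuation.map_add_le _ ha ha'⟩, z1 * z2 * z, (hz1.mul hz2).mul hz,
    mul_ne_zero (mul_ne_zero z10 z20) h0, ?_⟩
  set A := m / z1 ^ l with hA
  set A' := m' / z2 ^ l with hA'
  have e1 : m * m' * z ^ l / (z1 * z2 * z) ^ l = A * A' := by
    rw [hA, hA', mul_pow, mul_pow]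
    have := pow_ne_zero l z10
    have := pow_ne_zero l z20
    have := pow_ne_zero l h0
    field_simp
  have h5 := yc1_one ht1 ha h4
  have h5' := yc1_one ht1 ha' h4'
  have e2 : A * A' - 1 - (a + a') * t ^ i = (A - 1) * (A' - 1) +
      ((A - 1 - a * t ^ i) + (A' - 1 - a' * t ^ i)) := by
    ring
  rw [e1, e2]
  refine Valuation.map_add_le _ ?_ (Valuation.map_add_le _ h4 h4')
  rw [map_mul]
  calc V.valuation (A - 1) * V.valuation (A' - 1) ≤ V.valuation t ^ i * V.valuation t ^ i :=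
        mul_le_mul' h5 h5'
    _ = V.valuation t ^ (i + i) := by rw [pow_add]
    _ ≤ V.valuation t ^ (i + 1) := H13Z.lc1_pow_le ht1 (by omega)

/-- b in O; the new coefficient is a b^i in N. -/
theorem RV.co_act (R : RV π l N V t e0) {m z : Ω} {i : ℕ} {a : Ω} {b : O} (h : Co π l N V t i m a)
    {s : Ω ≃ₐ[F] Ω} (hs : DecN N V s) (hb : ∀ T ∈ Tor π Ω, ac W27 s T = H28G.act b T)
    (hz : Hx π N V z) (h0 : z ≠ 0) :
    Co π l N V t i (s m * z ^ l) (a * algebraMap F Ω (b : F) ^ i) := by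
  have : Algebra.IsAlgebraic F Ω := IsAlgClosure.isAlgebraic
  obtain ⟨-, -, ht1, ht0, -, -⟩ := R.base.val_l
  obtain ⟨⟨haN, ha⟩, z1, hz1, z10, h4⟩ := h
  have z10' : s z1 ≠ 0 := by
    intro h5
    exact z10 (s.injective (h5.trans (map_zero s).symm))
  have hbV : V.valuation (algebraMap F Ω (b : F)) ≤ 1 := lv_le V b
  refine ⟨⟨N.mul_mem haN (pow_mem (N.algebraMap_mem _) i), ?_⟩, s z1 * z, (hz1.dec hs).mul hz,
    mul_ne_zero z10' h0, ?_⟩
  · rw [map_mul, map_pow]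
    exact mul_le_one' ha (pow_le_one' hbV i)
  set A := m / z1 ^ l with hA
  have e1 : s m * z ^ l / (s z1 * z) ^ l = s A := by
    rw [hA, map_div₀, map_pow, mul_pow]
    have := pow_ne_zero l z10'
    have := pow_ne_zero l h0
    field_simp
  have hsa : s a = a := (IntermediateField.mem_fixingSubgroup_iff N s).1 hs.1 a haN
  have h5 : V.valuation (s A - 1 - a * (s t) ^ i) ≤ V.valuation t ^ (i + 1) := by
    have e2 : s A - 1 - a * (s t) ^ i = s (A - 1 - a * t ^ i) := by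
      rw [map_sub, map_sub, map_mul, map_pow, map_one, hsa]
    rw [e2, H13Z.Dec.val hs.2]
    exact h4
  have h6 : V.valuation ((s t) ^ i - (algebraMap F Ω (b : F) * t) ^ i) ≤ V.valuation t ^ (i + 1) := by
    refine H13Z.lc1_pow_sub (H13Z.Dec.val hs.2 t).le ?_ (R.base.act_t hb) i
    rw [map_mul]
    exact mul_le_of_le_one_left' hbV
  have e3 : s A - 1 - a * algebraMap F Ω (b : F) ^ i * t ^ i =
      (s A - 1 - a * (s t) ^ i) +
        a * ((s t) ^ i - (algebraMap F Ω (b : F) * t) ^ i) := by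
    ring
  rw [e1, e3]
  refine Valuation.map_add_le _ h5 ?_
  rw [map_mul]
  exact (mul_le_of_le_one_left' ha).trans h6

theorem RV.co_inv (R : RV π l N V t e0) {m : Ω} (h0 : m ≠ 0) {i : ℕ} (hi : 1 ≤ i) {a : Ω}
    (h : Co π l N V t i m a) : Co π l N V t i m⁻¹ (-a) := by
  obtain ⟨-, -, ht1, ht0, -, -⟩ := R.base.val_l
  obtain ⟨⟨haN, ha⟩, z1, hz1, z10, h4⟩ := h
  refine ⟨⟨N.neg_mem haN, by rw [Valuation.map_neg]; exact ha⟩, z1⁻¹, hz1.inv, inv_ne_zero z10, ?_⟩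
  set A := m / z1 ^ l with hA
  have e1 : m⁻¹ / z1⁻¹ ^ l = A⁻¹ := by
    rw [hA, inv_pow, inv_div, div_inv_eq_mul, div_eq_mul_inv, mul_comm]
  have h5 := yc1_one ht1 ha h4
  have h6 := H13Z.lc1_unit ht1 hi h5
  have n := H13Z.lc1_ne h6
  have e2 : A⁻¹ - 1 - -a * t ^ i =
      (a * t ^ i * (A - 1) - (A - 1 - a * t ^ i)) / A := by
    field_simp
    ring
  rw [e1, e2, map_div₀, h6, div_one]
  refine Valuation.map_sub_le _ ?_ h4
  rw [map_mul]
  calc V.valuation (a * t ^ i) * V.valuation (A - 1) ≤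
        V.valuation t ^ i * V.valuation t ^ i := mul_le_mul' (yc1_term t ha i) h5
    _ = V.valuation t ^ (i + i) := by rw [pow_add]
    _ ≤ V.valuation t ^ (i + 1) := H13Z.lc1_pow_le ht1 (by omega)

theorem RV.co_cong (R : RV π l N V t e0) {m : Ω} {i : ℕ} {a a' : Ω} (h : Co π l N V t i m a)
    (ha' : a' ∈ N) (hd : V.valuation (a - a') < 1) : Co π l N V t i m a' := by
  obtain ⟨⟨haN, ha⟩, z1, hz1, z10, h4⟩ := h
  have ha1 : V.valuation a' ≤ 1 := by
    have e : a' = a - (a - a') := by ring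
    rw [e]
    exact Valuation.map_sub_le _ ha hd.le
  refine ⟨⟨ha', ha1⟩, z1, hz1, z10, ?_⟩
  have e : m / z1 ^ l - 1 - a' * t ^ i =
      (m / z1 ^ l - 1 - a * t ^ i) + (a - a') * t ^ i := by
    ring
  rw [e]
  exact Valuation.map_add_le _ h4 (yc1_small R (N.sub_mem haN ha') hd i)

theorem RV.co_zero (R : RV π l N V t e0) {m : Ω} {i : ℕ} {a : Ω} (h : Co π l N V t i m a)
    (hd : V.valuation a < 1) : Lv π l N V (V.valuation t ^ (i + 1)) m := by
  obtain ⟨⟨haN, ha⟩, z1, hz1, z10, h4⟩ := h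
  refine ⟨z1, hz1, z10, ?_⟩
  have e : m / z1 ^ l - 1 = (m / z1 ^ l - 1 - a * t ^ i) + a * t ^ i := by ring
  rw [e]
  exact Valuation.map_add_le _ h4 (yc1_small R haN hd i)

end H13Y
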