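import Mathlib
import Pool.Agent.Lib.H13Y.YC1
import Pool.Agent.Lib.H13Z.LC3
import Pool.Agent.Lib.H13Z.LF1

open NumberField IsDedekindDomain

namespace H13Y

open H55P H28G H55B H13S
open H13Z (Dat Cc IsTB)

variable {Ω : Type} [Field Ω] [DecidableEq Ω] [Algebra F Ω] [IsAlgClosure F Ω]

variable {π : O} {l : ℕ} {N : IntermediateField F Ω} {V : ValuationSubring Ω} {t : Ω} {e0 : ℕ}

/-- Chunk YC2 (M), PORT of H13Z/LC2.lean, LC3.lean, LC5.lean to the base field N. The inertia elements of H13Z.RV.exists_inert R.base are in DecN (R.dec). -/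
theorem RV.lin (R : RV π l N V t e0) {m : P27 Ω → Ω} (hm : Sys π l N V m) {T₀ : P27 Ω}
    (hT : T₀ ∈ Tor π Ω) {i : ℕ} (hi : 1 ≤ i) {a : Ω} (h : Co π l N V t i (m T₀) a) (x : O) :
    Co π l N V t i (m (H28G.act x T₀)) (a * algebraMap F Ω (x : F) ^ i) := by
  by_cases hx : π ∣ x
  · have e0 : H28G.act x T₀ = 0 := by
      obtain ⟨k, rfl⟩ := hx
      rw [mul_comm, act_mul, mem_Tor.1 hT, map_zero]
    rw [e0]
    have hT0 : (0 : P27 Ω) ∈ Tor π Ω := AddSubgroup.zero_mem _
    have hm0 := hm.ne 0 hT0
    obtain ⟨z, hz, z0, h1⟩ := hm.add 0 hT0 0 hT0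
    rw [add_zero] at h1
    have h2 : m 0 * z ^ l = 1 := by
      have h3 : m 0 * (m 0 * z ^ l) = m 0 * 1 := by
        rw [mul_one, ← mul_assoc]
        exact h1.symm
      exact mul_left_cancel₀ hm0 h3
    have h3 : Co π l N V t i (m 0) 0 := by
      refine ⟨⟨N.zero_mem, by rw [map_zero]; exact zero_le⟩, z⁻¹, hz.inv, inv_ne_zero z0, ?_⟩
      have e1 : m 0 / z⁻¹ ^ l = 1 := by
        rw [inv_pow, div_inv_eq_mul, h2]
      rw [e1, zero_mul, sub_self, sub_self, map_zero]
      exact zero_le
    have hxV : V.valuation (algebraMap F Ω (x : F)) < 1 := (R.base.vo_lt x).2 hx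
    refine R.co_cong h3 (N.mul_mem h.1.1 (pow_mem (N.algebraMap_mem _) i)) ?_
    rw [zero_sub, Valuation.map_neg, map_mul, map_pow]
    exact (mul_le_of_le_one_left' h.1.2).trans_lt (pow_lt_one₀ zero_le hxV (by omega))
  · obtain ⟨s, hs, hsT⟩ := R.base.exists_inert hx
    obtain ⟨z, hz, z0, h1⟩ := hm.act s (R.dec hs) T₀ hT
    rw [← hsT T₀ hT, h1]
    exact R.co_act h (R.dec hs) hsT hz z0

theorem RV.pow_add (R : RV π l N V t e0) {m : P27 Ω → Ω} (hm : Sys π l N V m) {T₀ : P27 Ω}
    (hT : T₀ ∈ Tor π Ω) {i : ℕ} (hi : 1 ≤ i) (h2 : i < l * e0) (h3 : ¬ l ∣ i) {a : Ω}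
    (h : Co π l N V t i (m T₀) a) (ha : V.valuation a = 1) (x y : O) :
    π ∣ (x + y) ^ i - x ^ i - y ^ i := by
  have hx := R.lin hm hT hi h x
  have hy := R.lin hm hT hi h y
  have hxy := R.lin hm hT hi h (x + y)
  obtain ⟨z, hz, z0, h1⟩ := hm.add _ (H13Z.lc2_mem hT x) _ (H13Z.lc2_mem hT y)
  have h4 := R.co_mul hi hx hy hz z0
  rw [← h1, ← act_add] at h4
  have h5 := R.co_unique (hm.ne _ (H13Z.lc2_mem hT (x + y))) hi h2 h3 hxy h4
  have e : a * algebraMap F Ω ((x + y : O) : F) ^ i -
      (a * algebraMap F Ω (x : F) ^ i + a * algebraMap F Ω (y : F) ^ i) =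
      a * algebraMap F Ω (((x + y) ^ i - x ^ i - y ^ i : O) : F) := by
    rw [H13Z.lc1_sub, H13Z.lc1_sub, H13Z.lc1_pow, H13Z.lc1_pow, H13Z.lc1_pow]
    ring
  rw [e, map_mul, ha, one_mul] at h5
  exact (R.base.vo_lt _).1 h5

theorem yc2_lt {a : Ω} (ha : V.valuation a < 1) (x : O) (i : ℕ) :
    V.valuation (a * algebraMap F Ω (x : F) ^ i) < 1 := by
  have h1 : V.valuation (algebraMap F Ω (x : F)) ≤ 1 := lv_le V x
  rw [map_mul, map_pow]
  exact (mul_le_of_le_one_right' (pow_le_one' h1 i)).trans_lt ha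

theorem RV.levels (R : RV π l N V t e0) {m : P27 Ω → Ω} (hm : Sys π l N V m) {n : ℕ}
    (hn : Nm π = l ∧ n = l ∨ Nm π = l ^ 2 ∧ n = l ^ 2 + l - 1)
    (h : ∀ T ∈ Tor π Ω, Lv π l N V (V.valuation t ^ 2) (m T)) :
    ∀ T ∈ Tor π Ω, Lv π l N V (V.valuation t ^ n) (m T) := by
  have h5 := R.base.D.five
  have hcase := R.base.val_l.2.2.2.2.2
  have hn2 : 2 ≤ n := by
    rcases hn with ⟨-, h1⟩ | ⟨-, h1⟩
    · omega
    · have : l ≤ l ^ 2 := Nat.le_self_pow (by norm_num) l
      omega
  have key : ∀ i, 2 ≤ i → i ≤ n → ∀ T ∈ Tor π Ω, Lv π l N V (V.valuation t ^ i) (m T) := by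
    intro i hi2
    induction i, hi2 using Nat.le_induction with
    | base => exact fun _ => h
    | succ i hi ih =>
      intro hin T hT
      have ih' := ih (by omega)
      have hi1 : 1 ≤ i := by omega
      have hie : i < l * e0 := by
        rcases hn with ⟨h1, h2⟩ | ⟨h1, h2⟩
        · rcases hcase with ⟨-, h4⟩ | ⟨h3, -, -⟩
          · rw [h4]
            omega
          · exfalso
            rw [h1] at h3
            have : l * 1 < l * l := Nat.mul_lt_mul_of_pos_left (by omega) (by omega)
            rw [sq] at h3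
            omega
        · rcases hcase with ⟨h3, -⟩ | ⟨-, h4, -⟩
          · exfalso
            rw [h1] at h3
            have : l * 1 < l * l := Nat.mul_lt_mul_of_pos_left (by omega) (by omega)
            rw [sq] at h3
            omega
          · rw [h4, mul_add, mul_one, ← sq]
            omega
      by_cases hli : l ∣ i
      · obtain ⟨j, rfl⟩ := hli
        have hj : 1 ≤ j := by
          rcases Nat.eq_zero_or_pos j with h6 | h6
          · rw [h6] at hi
            omega
          · exact h6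
        exact R.raise_mul (hm.fx T hT) (hm.ne T hT) hj (lt_of_mul_lt_mul_left hie (Nat.zero_le l))
          (ih' T hT)
      · obtain ⟨-, T₀, hT₀, hgen, -⟩ := gi_gen (Ω := Ω) π R.base.D.pr R.base.D.prim
        obtain ⟨a, ha⟩ := R.co_exists (hm.fx T₀ hT₀) (ih' T₀ hT₀)
        by_cases hpa : V.valuation a < 1
        · obtain ⟨x, rfl⟩ := hgen T hT
          exact R.co_zero (R.lin hm hT₀ hi1 ha x) (yc2_lt hpa x i)
        · exfalso
          have h7 := H13Z.pow_add_class R.base.D hi1
            (R.pow_add hm hT₀ hi1 hie hli ha (le_antisymm ha.1.2 (not_lt.1 hpa)))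
          rcases hn with ⟨h1, h2⟩ | ⟨h1, h2⟩
          · rcases h7 with h8 | ⟨h8, -⟩
            · rw [h1] at h8
              have h9 := Int.le_of_dvd (by omega) h8
              omega
            · rw [h1] at h8
              have : l * 1 < l * l := Nat.mul_lt_mul_of_pos_left (by omega) (by omega)
              rw [sq] at h8
              omega
          · have hll : l * 5 ≤ l * l := Nat.mul_le_mul_left l h5
            rw [sq] at h1 h2
            rw [h1] at h7
            rcases h7 with h8 | ⟨-, h8⟩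
            · obtain ⟨k, hk⟩ := h8
              have hk1 : k = 1 := by
                have e1 : 0 < (i : ℤ) - 1 := by omega
                have e2 : (i : ℤ) - 1 < 2 * (((l * l : ℕ) : ℤ) - 1) := by omega
                have e3 : 0 < ((l * l : ℕ) : ℤ) - 1 := by omega
                have e4 : 0 < k := by
                  by_contra h9
                  have : (((l * l : ℕ) : ℤ) - 1) * k ≤ 0 :=
                    mul_nonpos_of_nonneg_of_nonpos e3.le (not_lt.1 h9)
                  omega
                have e5 : k < 2 := by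
                  by_contra h9
                  have : (((l * l : ℕ) : ℤ) - 1) * 2 ≤ (((l * l : ℕ) : ℤ) - 1) * k :=
                    mul_le_mul_of_nonneg_left (not_lt.1 h9) e3.le
                  omega
                omega
              rw [hk1, mul_one] at hk
              apply hli
              have : i = l * l := by omega
              rw [this]
              exact dvd_mul_right l l
            · obtain ⟨k, hk⟩ := h8
              have hk1 : k = 0 := by
                have e1 : -(((l * l : ℕ) : ℤ) - 1) < (i : ℤ) - l := by omega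
                have e2 : (i : ℤ) - l < ((l * l : ℕ) : ℤ) - 1 := by omega
                have e3 : 0 < ((l * l : ℕ) : ℤ) - 1 := by omega
                have e4 : -1 < k := by
                  by_contra h9
                  have : (((l * l : ℕ) : ℤ) - 1) * k ≤ (((l * l : ℕ) : ℤ) - 1) * (-1) :=
                    mul_le_mul_of_nonneg_left (not_lt.1 h9) e3.le
                  omega
                have e5 : k < 1 := by
                  by_contra h9
                  have : (((l * l : ℕ) : ℤ) - 1) * 1 ≤ (((l * l : ℕ) : ℤ) - 1) * k :=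
                    mul_le_mul_of_nonneg_left (not_lt.1 h9) e3.le
                  omega
                omega
              rw [hk1, mul_zero] at hk
              apply hli
              have : i = l := by omega
              rw [this]
  exact key n hn2 le_rfl

/-- If the coefficient at T₀ ≠ 0 (a generator) has value < 1 the level is raised for all T (lin, gi_gen / PA1_gen, co_zero). -/
theorem RV.up (R : RV π l N V t e0) {m : P27 Ω → Ω} (hm : Sys π l N V m) {T₀ : P27 Ω}
    (hT : T₀ ∈ Tor π Ω) (h0 : T₀ ≠ 0) {i : ℕ} (hi : 1 ≤ i) {a : Ω} (h : Co π l N V t i (m T₀) a)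
    (ha : V.valuation a < 1) : ∀ T ∈ Tor π Ω, Lv π l N V (V.valuation t ^ (i + 1)) (m T) := by
  intro T hT'
  obtain ⟨x, rfl⟩ := (PA1_gen π R.base.D.pr R.base.D.prim T₀ hT h0).1 T hT'
  exact R.co_zero (R.lin hm hT hi h x) (yc2_lt ha x i)

theorem RV.top (R : RV π l N V t e0) {m y : Ω} (hm : Hx π N V m) (hy : y ^ l = m)
    (h : Lv π l N V (V.valuation t ^ (l * e0)) m) {s : Ω ≃ₐ[F] Ω} (hs : Inert V s)
    (hT : ∀ T ∈ Tor π Ω, ac W27 s T = T) : s y = y := by
  have hchar : CharZero Ω := charZero_of_injective_algebraMap (algebraMap F Ω).injective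
  obtain ⟨z, hz, hz0, hv⟩ := h
  obtain ⟨v1, v2, v3, v4, v5, v6⟩ := R.base.val_l
  have hDT : DT π N V s := ⟨R.dec hs, hT⟩
  have hsm : s m = m := hm s hDT
  have hsz : s z = z := hz s hDT
  have hst : s t = t := yc1_hx R s hDT
  have h1 := H13Z.fix_eq V R.base.D.hl (by have := R.base.D.five; omega)
    (by rw [v1]; exact R.base.above)
    (τ := t ^ e0) (u := m / z ^ l) (y := y / z) (by rw [map_pow, ← pow_mul]; exact v5)
    (by rw [div_pow, hy]) (by rw [map_pow, ← pow_mul, mul_comm e0]; exact hv) hs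
    (by rw [map_pow, hst]) (by rw [map_div₀, map_pow, hsm, hsz])
  rw [map_div₀, hsz] at h1
  exact (div_left_inj' hz0).1 h1

/-- The quotient of two systems is a system (as in H13Z.RV.compare, LC4.lean, without act b). -/
theorem Sys.div {m m₁ : P27 Ω → Ω} (hm : Sys π l N V m) (hm₁ : Sys π l N V m₁) :
    Sys π l N V fun T => m T / m₁ T := by
  refine ⟨fun T hT => div_ne_zero (hm.ne T hT) (hm₁.ne T hT),
    fun T hT => (hm.fx T hT).div (hm₁.fx T hT), fun T hT T' hT' => ?_, fun s hs T hT => ?_⟩
  · obtain ⟨z, hz, z0, h1⟩ := hm.add T hT T' hT'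
    obtain ⟨z', hz', z0', h1'⟩ := hm₁.add T hT T' hT'
    refine ⟨z / z', hz.div hz', div_ne_zero z0 z0', ?_⟩
    show m (T + T') / m₁ (T + T') = m T / m₁ T * (m T' / m₁ T') * (z / z') ^ l
    rw [h1, h1', div_pow]
    have := hm₁.ne T hT
    have := hm₁.ne T' hT'
    have := pow_ne_zero l z0'
    field_simp
  · obtain ⟨z, hz, z0, h1⟩ := hm.act s hs T hT
    obtain ⟨z', hz', z0', h1'⟩ := hm₁.act s hs T hT
    refine ⟨z / z', hz.div hz', div_ne_zero z0 z0', ?_⟩
    show m (ac W27 s T) / m₁ (ac W27 s T) = s (m T / m₁ T) * (z / z') ^ l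
    have h2 : s (m₁ T) ≠ 0 := by
      rw [Ne, map_eq_zero_iff s s.injective]
      exact hm₁.ne T hT
    rw [h1, h1', div_pow, map_div₀]
    have := pow_ne_zero l z0'
    field_simp

end H13Y
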