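import Mathlib
import Pool.Agent.Lib.H13Y.YG

open NumberField IsDedekindDomain

namespace H13Y

open H55P H28G H55B H13S
open H13Z (Dat Cc IsTB)

variable {Ω : Type} [Field Ω] [DecidableEq Ω] [Algebra F Ω]

variable {π : O} {l : ℕ} {N : IntermediateField F Ω} {V : ValuationSubring Ω} {e : P27 Ω → P27 Ω → Ω} {c : (Ω ≃ₐ[F] Ω) → P27 Ω}
  {y : P27 Ω → Ω}

theorem lk_ne (D : Dat π l) (he : Pairing π l e) {X T : P27 Ω} (hX : X ∈ Tor (cj π) Ω)
    (hT : T ∈ Tor π Ω) : e X T ≠ 0 := by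
  intro h
  have h1 := he.root X hX T hT
  rw [h, zero_pow (by have := D.five; omega)] at h1
  exact zero_ne_one h1

theorem lk_sub (D : Dat π l) (he : Pairing π l e) {X Y T : P27 Ω} (hX : X ∈ Tor (cj π) Ω)
    (hY : Y ∈ Tor (cj π) Ω) (hT : T ∈ Tor π Ω) : e (X - Y) T = e X T / e Y T := by
  have h1 := he.add_left (X - Y) (sub_mem hX hY) Y hY T hT
  rw [sub_add_cancel] at h1
  rw [h1, mul_div_assoc, div_self (lk_ne D he hY hT), mul_one]

theorem lk_act (D : Dat π l) (he : Pairing π l e) (hc : Dc π N V c) (hy : KS π N V e c y)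
    {σ : Ω ≃ₐ[F] Ω} (hσ : DecN N V σ) {T : P27 Ω} (hT : T ∈ Tor π Ω) {s : Ω ≃ₐ[F] Ω} (hs : DT π N V s) :
    s (σ (y T) / e (c σ) (ac W27 σ T)) = e (c s) (ac W27 σ T) * (σ (y T) / e (c σ) (ac W27 σ T)) := by
  have hT' := ac_mem σ hT
  have hg := lk_ne D he (hc.val σ hσ) hT'
  have hs' := DT.conj hσ hs
  have e1 : σ * (σ⁻¹ * s * σ) = s * σ := by group
  have e2 : ac W27 σ (c (σ⁻¹ * s * σ)) = c s + ac W27 s (c σ) - c σ := by
    have h1 := hc.mul σ hσ (σ⁻¹ * s * σ) hs'.1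
    rw [e1, hc.mul s hs.1 σ hσ] at h1
    rw [h1, add_sub_cancel_left]
  have e3 : s (σ (y T)) = e (c s + ac W27 s (c σ) - c σ) (ac W27 σ T) * σ (y T) := by
    have h1 : s (σ (y T)) = σ ((σ⁻¹ * s * σ) (y T)) := by
      show (s * σ) (y T) = (σ * (σ⁻¹ * s * σ)) (y T)
      rw [e1]
    rw [h1, hy.act T hT _ hs', map_mul, he.act σ _ (hc.val _ hs'.1) _ hT, e2]
  have hXs := ac_mem s (hc.val σ hσ)
  have e4 : s (e (c σ) (ac W27 σ T)) = e (ac W27 s (c σ)) (ac W27 σ T) := by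
    rw [he.act s _ (hc.val σ hσ) _ hT', hs.2 _ hT']
  have hg2 := lk_ne D he hXs hT'
  rw [map_div₀, e3, e4, lk_sub D he (add_mem (hc.val s hs.1) hXs) (hc.val σ hσ) hT',
    he.add_left _ (hc.val s hs.1) _ hXs _ hT']
  field_simp

theorem sys_of (D : Dat π l) (he : Pairing π l e) (hc : Dc π N V c) (hy : KS π N V e c y) :
    Sys π l N V fun T => y T ^ l := by
  refine ⟨fun T hT => pow_ne_zero l (hy.ne T hT), fun T hT s hs => ?_, fun T hT T' hT' => ?_,
    fun σ hσ T hT => ?_⟩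
  · rw [map_pow, hy.act T hT s hs, mul_pow, he.root _ (hc.val s hs.1) _ hT, one_mul]
  · have h1 := hy.ne T hT
    have h2 := hy.ne T' hT'
    have h3 := hy.ne (T + T') (add_mem hT hT')
    refine ⟨y (T + T') / (y T * y T'), fun s hs => ?_, div_ne_zero h3 (mul_ne_zero h1 h2), ?_⟩
    · have h4 := lk_ne D he (hc.val s hs.1) hT
      have h5 := lk_ne D he (hc.val s hs.1) hT'
      rw [map_div₀, map_mul, hy.act _ (add_mem hT hT') s hs, hy.act T hT s hs, hy.act T' hT' s hs,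
        he.add_right _ (hc.val s hs.1) _ hT _ hT']
      field_simp
    · rw [div_pow, mul_pow]
      field_simp
  · have hT' := ac_mem σ hT
    have hg := lk_ne D he (hc.val σ hσ) hT'
    have h1 : σ (y T) ≠ 0 := by
      rw [Ne, map_eq_zero_iff σ σ.injective]
      exact hy.ne T hT
    have h2 := hy.ne _ hT'
    have h3 : σ (y T) / e (c σ) (ac W27 σ T) ≠ 0 := div_ne_zero h1 hg
    refine ⟨y (ac W27 σ T) / (σ (y T) / e (c σ) (ac W27 σ T)), fun s hs => ?_, div_ne_zero h2 h3, ?_⟩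
    · have h4 := lk_ne D he (hc.val s hs.1) hT'
      rw [map_div₀, lk_act D he hc hy hσ hT hs, hy.act _ hT' s hs, mul_div_mul_left _ _ h4]
    · show y (ac W27 σ T) ^ l = σ (y T ^ l) * _
      rw [div_pow, div_pow, he.root _ (hc.val σ hσ) _ hT', div_one, map_pow]
      field_simp

theorem ks_sub (D : Dat π l) (he : Pairing π l e) (hc : Dc π N V c) (hy : KS π N V e c y)
    {c₁ : (Ω ≃ₐ[F] Ω) → P27 Ω} {y₁ : P27 Ω → Ω} (hc₁ : Dc π N V c₁) (hy₁ : KS π N V e c₁ y₁) :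
    KS π N V e (fun s => c s - c₁ s) (fun T => y T / y₁ T) := by
  refine ⟨fun T hT => div_ne_zero (hy.ne T hT) (hy₁.ne T hT), fun T hT s hs => ?_⟩
  have h2 := lk_ne D he (hc₁.val s hs.1) hT
  have h3 := hy₁.ne T hT
  show s (y T / y₁ T) = e (c s - c₁ s) T * (y T / y₁ T)
  rw [map_div₀, hy.act T hT s hs, hy₁.act T hT s hs, lk_sub D he (hc.val s hs.1) (hc₁.val s hs.1) hT]
  field_simp

theorem c_zero (D : Dat π l) (he : Pairing π l e) (hc : Dc π N V c) (hy : KS π N V e c y) {s : Ω ≃ₐ[F] Ω}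
    (hs : DT π N V s) (h : ∀ T ∈ Tor π Ω, s (y T) = y T) : c s = 0 := by
  apply he.nondeg _ (hc.val s hs.1)
  intro T hT
  have h1 := hy.act T hT s hs
  rw [h T hT] at h1
  have h2 := hy.ne T hT
  field_simp at h1
  exact h1.symm

end H13Y
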