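import Mathlib
import Pool.Agent.Lib.H13Y.YG
import Pool.Agent.Lib.H13Y.YK

open NumberField IsDedekindDomain

namespace H13Y

open H55P H28G H55B H13S
open H13Z (Dat Cc IsTB JV lcb_mul lcb_inv lcb_one lcb_l)

variable {Ω : Type} [Field Ω] [DecidableEq Ω] [Algebra F Ω] [IsAlgClosure F Ω]

variable {π : O} {l : ℕ} {N : IntermediateField F Ω} {V : ValuationSubring Ω} {c : (Ω ≃ₐ[F] Ω) → P27 Ω}

/-- A cocycle on the decomposition group which vanishes on the inertia elements fixing Tor pi and Tor (cj pi) is a coboundary on inertia. -/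
theorem cob_inert (D : Dat π l) (hc : Dc π N V c)
    (hID : ∀ s : Ω ≃ₐ[F] Ω, Inert V s → DecN N V s) (h : ∀ s, JV π V s → c s = 0) :
    ∃ X ∈ Tor (cj π) Ω, ∀ s, Inert V s → c s = ac W27 s X - X := by
  obtain ⟨N₁, hN₁, hn₁, hd₁, h0₁⟩ := stab_index (Ω := Ω) π D.pr D.prim
  obtain ⟨N₂, hN₂, hn₂, hd₂, h0₂⟩ := stab_index (Ω := Ω) (cj π) (CO2_cj_prime D.pr) (CO2_cj_prim D.prim)
  have hlN : l ∣ Nm π := CO2_Nm D.hl D.pr D.dvd
  have hN0 : Nm π ≠ 0 := fun h => D.pr.ne_zero (Nm_eq_zero.1 h)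
  rw [CO2_Nm_cj] at hd₂
  have hidx : (N₁ ⊓ N₂).index = N₁.relIndex N₂ * N₂.index := by
    rw [← Subgroup.relIndex_mul_index (inf_le_right : N₁ ⊓ N₂ ≤ N₂), Subgroup.inf_relIndex_right]
  have hrel : N₁.relIndex N₂ ∣ N₁.index := Subgroup.relIndex_dvd_index_of_normal N₁ N₂
  have hcop : l.Coprime (N₁ ⊓ N₂).index := by
    rw [hidx]
    exact Nat.Coprime.mul_right (CO2_cop D.hl hlN hN0 (hrel.trans hd₁)) (CO2_cop D.hl hlN hN0 hd₂)
  have hne : (N₁ ⊓ N₂).index ≠ 0 := by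
    rw [hidx]
    refine mul_ne_zero (fun h => h0₁ ?_) h0₂
    rw [h] at hrel
    exact Nat.eq_zero_of_zero_dvd hrel
  let I : Subgroup (Ω ≃ₐ[F] Ω) :=
    { carrier := {s | Inert V s}
      mul_mem' := fun hs ht => lcb_mul hs ht
      one_mem' := lcb_one
      inv_mem' := fun hs => lcb_inv hs }
  have hI : ∀ s : I, Inert V s.1 := fun s => s.2
  have hdvd : (N₁ ⊓ N₂).relIndex I ∣ (N₁ ⊓ N₂).index := Subgroup.relIndex_dvd_index_of_normal _ _
  have hcop' : l.Coprime ((N₁ ⊓ N₂).subgroupOf I).index := Nat.Coprime.coprime_dvd_right hdvd hcop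
  have hne' : ((N₁ ⊓ N₂).subgroupOf I).index ≠ 0 := by
    intro h1
    have h2 : (N₁ ⊓ N₂).relIndex I = 0 := h1
    rw [h2] at hdvd
    exact hne (Nat.eq_zero_of_zero_dvd hdvd)
  have hvan : ∀ n ∈ (N₁ ⊓ N₂).subgroupOf I, c n.1 = 0 := by
    intro s hs
    rw [Subgroup.mem_subgroupOf] at hs
    obtain ⟨hs₁, hs₂⟩ := Subgroup.mem_inf.1 hs
    rw [hN₁] at hs₁
    rw [hN₂] at hs₂
    exact h s.1 ⟨hI s, hs₁, hs₂⟩
  obtain ⟨X, hX, hX2⟩ := cob_of_vanish (G := I) (fun s => (ac W27 s.1 : P27 Ω →+ P27 Ω))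
    (fun s t P => ac_mul s.1 t.1 P) (fun s => c s.1)
    (fun s t => hc.mul s.1 (hID _ (hI s)) t.1 (hID _ (hI t)))
    ((N₁ ⊓ N₂).subgroupOf I) hne' hvan l hcop' (fun s => lcb_l D (hc.val s.1 (hID _ (hI s)))) (Tor (cj π) Ω)
    (fun s => hc.val s.1 (hID _ (hI s)))
  exact ⟨X, hX, fun s hs => hX2 ⟨s, hs⟩⟩

/-- Extension of the vanishing from inertia to the decomposition group with a Frobenius element. -/
theorem cob_frob (D : Dat π l) (hc : Dc π N V c)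
    (hID : ∀ s : Ω ≃ₐ[F] Ω, Inert V s → DecN N V s) (h : ∀ s, Inert V s → c s = 0) {φ : Ω ≃ₐ[F] Ω}
    (hφ : DecN N V φ) {n : ℕ} (hn : ∀ x ∈ V, V.valuation (φ x - x ^ n) < 1)
    (h0 : ∀ T ∈ Tor (cj π) Ω, ac W27 φ T = T → T = 0) :
    ∃ X ∈ Tor (cj π) Ω, ∀ s, DecN N V s → c s = ac W27 s X - X := by
  have hpr := CO2_cj_prime D.pr
  have hprim := CO2_cj_prim D.prim
  have hcard := (gi_gen (Ω := Ω) (cj π) hpr hprim).1
  have hN0 : Nm (cj π) ≠ 0 := fun h => hpr.ne_zero (Nm_eq_zero.1 h)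
  have hfin : Finite (Tor (cj π) Ω) := Nat.finite_of_card_ne_zero (by rw [hcard]; exact hN0)
  let f : Tor (cj π) Ω → Tor (cj π) Ω := fun T => ⟨ac W27 φ T.1 - T.1, sub_mem (ac_mem φ T.2) T.2⟩
  have hinj : Function.Injective f := by
    intro T T' hTT
    have h1 : ac W27 φ T.1 - T.1 = ac W27 φ T'.1 - T'.1 := congrArg Subtype.val hTT
    have h2 : ac W27 φ (T.1 - T'.1) = T.1 - T'.1 := by
      rw [map_sub, sub_eq_sub_iff_sub_eq_sub.1 h1]
    exact Subtype.ext (sub_eq_zero.1 (h0 _ (sub_mem T.2 T'.2) h2))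
  obtain ⟨⟨X, hX⟩, hfX⟩ := Finite.surjective_of_injective hinj ⟨c φ, hc.val φ hφ⟩
  have hφX : ac W27 φ X - X = c φ := congrArg Subtype.val hfX
  obtain ⟨χ, hχ, -⟩ := exists_chi (Ω := Ω) (cj π) hpr hprim
  have hact : ∀ s : Ω ≃ₐ[F] Ω, ∃ a : O, ∀ T ∈ Tor (cj π) Ω, ac W27 s T = H28G.act a T := by
    intro s
    obtain ⟨a, ha⟩ := Ideal.Quotient.mk_surjective (χ s : O ⧸ Ideal.span {cj π})
    exact ⟨a, hχ s a ha⟩
  refine ⟨X, hX, fun s hs => ?_⟩
  have hi : Inert V ((s * φ)⁻¹ * (φ * s)) := by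
    intro x hx
    have hd : Dec V (s * φ)⁻¹ := (hs.mul hφ).inv.2
    have e1 : ((s * φ)⁻¹ * (φ * s)) x - x = (s * φ)⁻¹ (φ (s x) - s (φ x)) := by
      rw [map_sub]
      have e2 : (s * φ)⁻¹ (s (φ x)) = x := AlgEquiv.symm_apply_apply (s * φ) x
      rw [e2]
      rfl
    rw [e1, H13Z.Dec.lt_one hd]
    have hsx : s x ∈ V := (hs.2 x).2 hx
    have e3 : φ (s x) - s (φ x) = (φ (s x) - s x ^ n) - s (φ x - x ^ n) := by
      rw [map_sub, map_pow]
      ring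
    rw [e3]
    exact V.valuation.map_sub_lt (hn _ hsx) ((H13Z.Dec.lt_one hs.2 _).2 (hn x hx))
  have h1 : c (φ * s) = c (s * φ) := by
    have e : φ * s = (s * φ) * ((s * φ)⁻¹ * (φ * s)) := by group
    rw [e, hc.mul _ (hs.mul hφ) _ (hID _ hi), h _ hi, map_zero, add_zero]
  rw [hc.mul φ hφ s hs, hc.mul s hs φ hφ, ← hφX] at h1
  obtain ⟨a, ha⟩ := hact s
  obtain ⟨b, hb⟩ := hact φ
  have hcomm : ac W27 s (ac W27 φ X) = ac W27 φ (ac W27 s X) := by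
    rw [ha _ (ac_mem φ hX), hb _ hX, ha _ hX, ac_act, hb _ hX]
  have h2 : ac W27 φ (c s - (ac W27 s X - X)) = c s - (ac W27 s X - X) := by
    rw [map_sub, map_sub]
    rw [map_sub, hcomm] at h1
    have h3 : ac W27 φ (c s) = c s + (ac W27 φ (ac W27 s X) - ac W27 s X) - (ac W27 φ X - X) := by
      rw [← h1]
      abel
    rw [h3]
    abel
  exact sub_eq_zero.1 (h0 _ (sub_mem (hc.val s hs) (sub_mem (ac_mem s hX) hX)) h2)

/-- From cocycles and Kummer generators over a field B to the local notions. -/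
theorem dc_of_cc {B : IntermediateField F Ω} (hc : Cc π B c) (hB : ∀ s, DecN N V s → s ∈ B.fixingSubgroup) :
    Dc π N V c :=
  ⟨fun s hs t ht => hc.mul s (hB s hs) t (hB t ht), fun s hs => hc.val s (hB s hs)⟩

theorem ks_of_kum {B L : IntermediateField F Ω} (hL : IsTB π B L)
    (hB : ∀ s, DecN N V s → s ∈ B.fixingSubgroup) {e : P27 Ω → P27 Ω → Ω} {y : P27 Ω → Ω}
    (hy : ∀ T ∈ Tor π Ω, Kum L e c T (y T)) : KS π N V e c y :=
  ⟨fun T hT => (hy T hT).1, fun T hT s hs => (hy T hT).2 s ((hL.fix s).2 ⟨hB s hs.1, hs.2⟩)⟩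

/-- The two local reductions: on inertia to zero, then ramified torsion. If c vanishes on the inertia elements fixing Tor pi and Tor (cj pi), and some inertia element has no fixed point, then c is the coboundary of a point of Tor (cj pi). -/
theorem cob_ram (D : Dat π l) (hc : Dc π N V c) (hID : ∀ s : Ω ≃ₐ[F] Ω, Inert V s → DecN N V s)
    (h : ∀ s, JV π V s → c s = 0)
    (hσ : ∃ s : Ω ≃ₐ[F] Ω, Inert V s ∧ ∀ T ∈ Tor (cj π) Ω, ac W27 s T = T → T = 0) :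
    ∃ X ∈ Tor (cj π) Ω, ∀ s, DecN N V s → c s = ac W27 s X - X := by
  obtain ⟨X, hX, h1⟩ := cob_inert D hc hID h
  refine ⟨X, hX, fun s hs => ?_⟩
  have h2 := cob_dec_ram (hc.sub_cob hX) hID (fun s hs => by
    show c s - (ac W27 s X - X) = 0
    rw [h1 s hs, sub_self]) hσ s hs
  exact sub_eq_zero.1 h2

end H13Y
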