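import Mathlib
import Pool.Agent.Lib.H13Y.YR
import Pool.Agent.Lib.H13Y.YCB
import Pool.Agent.Lib.H13Z.LV

open NumberField IsDedekindDomain

namespace H13Y

open H55P H28G H55B H13S
open H13Z (Dat Cc IsTB level_gen lv_mu)

variable {Ω : Type} [Field Ω] [DecidableEq Ω] [Algebra F Ω] [IsAlgClosure F Ω]

variable {π : O} {l : ℕ} {N : IntermediateField F Ω} {V : ValuationSubring Ω} {t : Ω} {e0 : ℕ}
  {e : P27 Ω → P27 Ω → Ω}

theorem ylv_hx {B L : IntermediateField F Ω} (hL : IsTB π B L)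
    (hB : ∀ s, DecN N V s → s ∈ B.fixingSubgroup) (x : L) : Hx π N V (x : Ω) := by
  intro s hs
  have h1 : s ∈ L.fixingSubgroup := (hL.fix s).2 ⟨hB s hs.1, hs.2⟩
  exact (IntermediateField.mem_fixingSubgroup_iff L _).1 h1 x x.2

/-- Chunk YLV (S/M), PORT of H13Z/LV.lean level_pt (uses H13Z.level_gen as it is; RV.values of YR.lean in place of H13Z.RV.values; elements of L are in Hx π N V by hB). If P = 0 the cocycle is 0, e 0 T = 1, y is fixed by L.fixingSubgroup, so y in L (ku2_mem), z = y. -/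
theorem level_ptu (R : RV π l N V t e0) (hin : cj π = π) (hq : Nm π = l ^ 2) (he : Pairing π l e)
    {B L : IntermediateField F Ω} [NumberField L] (hL : IsTB π B L)
    (hB : ∀ s, DecN N V s → s ∈ B.fixingSubgroup) {P : P27 Ω}
    (hP : P = 0 ∨ Kr V P ∧ V.valuation (H28G.tt P) ^ Nm π = vo V π)
    (C : Cc π B fun s => ac W27 s P - P) (T : P27 Ω) (hT : T ∈ Tor π Ω) (y : Ω)
    (hyk : Kum L e (fun s => ac W27 s P - P) T y) : Lv π l N V (V.valuation t ^ 2) (y ^ l) := by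
  have hl0 : l ≠ 0 := R.base.D.hl.ne_zero
  rcases hP with hP0 | ⟨hP, hPv⟩
  · have hyL : y ∈ L := by
      apply ku2_mem
      intro s hs
      rw [hyk.2 s hs]
      show e (ac W27 s P - P) T * y = y
      rw [hP0, map_zero, sub_zero, ld3_e0 hl0 he hT, one_mul]
    refine ⟨y, ylv_hx hL hB ⟨y, hyL⟩, hyk.1, ?_⟩
    rw [div_self (pow_ne_zero l hyk.1), sub_self, map_zero]
    exact zero_le
  obtain ⟨-, -, ht1, ht0, -, -⟩ := R.base.val_l
  have htne : t ≠ 0 := (Valuation.ne_zero_iff _).1 ht0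
  have htL : t ∈ L := by
    obtain ⟨T₀, hT₀, -, rfl⟩ := R.base.pt
    apply ku2_mem
    intro s hs
    rw [← ld3_tt, ((hL.fix s).1 hs).2 _ hT₀]
  obtain ⟨tL, htL'⟩ : ∃ tL : L, (tL : Ω) = t := ⟨⟨t, htL⟩, rfl⟩
  obtain ⟨w, hw⟩ := exists_below L V ⟨tL⁻¹, by
    rw [← V.valuation_le_one_iff]
    push_cast
    rw [htL', map_inv₀, not_le]
    exact (one_lt_inv₀ (zero_lt_iff.2 ht0)).2 ht1⟩
  obtain ⟨m, hm, hm0⟩ := H13Z.kumB_pow C he hL hT hyk
  obtain ⟨z, hz0, hz⟩ := level_gen R.base.D hin hq he hL V R.base.above w hw hP hPv C T hT m hm0 y hyk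
    hm.symm
  have htL0 : tL ≠ 0 := by
    rintro rfl
    exact htne (by rw [← htL']; simp)
  have hwt0 : w.valuation L tL ≠ 0 := (Valuation.ne_zero_iff _).2 htL0
  obtain ⟨j, hj⟩ : ∃ j : ℤ, w.valuation L tL = WithZero.exp j :=
    ⟨WithZero.log (w.valuation L tL), (WithZero.exp_log hwt0).symm⟩
  have hj1 : j < 0 := by
    have h1 : w.valuation L tL < 1 := by
      rw [← hw.lt, htL']
      exact ht1
    rw [hj, ← WithZero.exp_zero, WithZero.exp_lt_exp] at h1
    exact h1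
  obtain ⟨u, hu⟩ := w.valuation_exists_uniformizer L
  have hu' : w.valuation L u = WithZero.exp (-1 : ℤ) := hu
  have hu0 : u ≠ 0 := by
    rintro rfl
    rw [map_zero] at hu'
    exact WithZero.exp_ne_zero hu'.symm
  obtain ⟨n, hn⟩ := R.values (ylv_hx hL hB u) (by exact_mod_cast hu0)
  have hzc : ((tL ^ n : L) : Ω) = t ^ n := by
    rw [← htL']
    exact map_zpow₀ (algebraMap L Ω) tL n
  have h2 : w.valuation L u = w.valuation L (tL ^ n) := by
    have h3 : V.valuation (u : Ω) = V.valuation ((tL ^ n : L) : Ω) := by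
      rw [hzc, map_zpow₀]
      exact hn
    exact le_antisymm ((hw.le _ _).1 h3.le) ((hw.le _ _).1 h3.ge)
  rw [hu', map_zpow₀, hj, ← WithZero.exp_zsmul, WithZero.exp_inj, smul_eq_mul] at h2
  have hjm : j = -1 := by
    have h4 : j ∣ -1 := ⟨n, by rw [h2]; ring⟩
    have h5 : IsUnit j := Int.isUnit_iff.2 (by
      have h6 : j ∣ 1 := (dvd_neg).1 h4
      have h7 := Int.isUnit_iff.1 (isUnit_of_dvd_one h6)
      exact h7)
    rcases Int.isUnit_iff.1 h5 with h6 | h6 <;> omega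
  refine ⟨z, ylv_hx hL hB z, by exact_mod_cast hz0, ?_⟩
  have h6 : w.valuation L (m / z ^ l - 1) ≤ w.valuation L (tL ^ 2) := by
    rw [map_pow, hj, hjm, ← WithZero.exp_nsmul]
    refine hz.trans ?_
    rw [WithZero.exp_le_exp]
    norm_num
  have h7 := (hw.le _ _).2 h6
  push_cast at h7
  rw [hm, htL', map_pow] at h7
  exact h7

end H13Y
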