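import Mathlib
import Pool.Agent.Lib.H13Y.YCB
import Pool.Agent.Lib.H13Z.LP
import Pool.Agent.Lib.H13Z.LI
import Pool.Agent.Lib.H13Z.LL1

open NumberField IsDedekindDomain

namespace H13Y

open H55P H28G H55B H13S
open H13Z (Dat Cc IsTB)

variable {Ω : Type} [Field Ω] [DecidableEq Ω] [Algebra F Ω] [IsAlgClosure F Ω]

variable {π : O} {l : ℕ} {N : IntermediateField F Ω} {V : ValuationSubring Ω} {e : P27 Ω → P27 Ω → Ω}

omit [DecidableEq Ω] in
/-- the roots of X^2 - X + x^3 -/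
theorem YP_root {x : Ω} (hV : V.valuation x < 1) :
    ∃ w w' : Ω, w + w' = 1 ∧ w * w' = x ^ 3 ∧ V.valuation w < 1 ∧ V.valuation w' = 1 := by
  have hac : IsAlgClosed Ω := IsAlgClosure.isAlgClosed F
  have hch : CharZero Ω := charZero_of_injective_algebraMap (algebraMap F Ω).injective
  obtain ⟨r, hr⟩ := IsAlgClosed.exists_pow_nat_eq (1 - 4 * x ^ 3) (two_pos : 0 < 2)
  have h2 : (2 : Ω) ≠ 0 := two_ne_zero
  have hmain : ∀ a b : Ω, a + b = 1 → a * b = x ^ 3 → V.valuation a ≤ 1 := by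
    intro a b hab hab2
    by_contra h
    rw [not_le] at h
    have h3 : a ^ 2 = a - x ^ 3 := by
      have h4 : b = 1 - a := by linear_combination hab
      rw [h4] at hab2
      linear_combination -hab2
    have h4 : V.valuation a ^ 2 ≤ V.valuation a := by
      rw [← map_pow, h3]
      refine (Valuation.map_sub _ _ _).trans (max_le le_rfl ?_)
      rw [map_pow]
      exact (pow_le_one₀ zero_le hV.le).trans h.le
    have h5 : V.valuation a * 1 < V.valuation a * V.valuation a :=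
      mul_lt_mul_of_pos_left h (zero_lt_one.trans h)
    rw [mul_one, ← sq] at h5
    exact absurd h4 (not_le.2 h5)
  have h1 : ((1 + r) / 2) + ((1 - r) / 2) = 1 := by
    field_simp
    ring
  have h3 : ((1 + r) / 2) * ((1 - r) / 2) = x ^ 3 := by
    field_simp
    linear_combination -hr
  have ha := hmain _ _ h1 h3
  have hb := hmain ((1 - r) / 2) ((1 + r) / 2) (by rw [add_comm]; exact h1) (by rw [mul_comm]; exact h3)
  have hl3 : V.valuation (x ^ 3) < 1 := by
    rw [map_pow]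
    exact pow_lt_one₀ zero_le hV (by norm_num)
  have hsum : 1 ≤ max (V.valuation ((1 + r) / 2)) (V.valuation ((1 - r) / 2)) := by
    have h6 := V.valuation.map_add ((1 + r) / 2) ((1 - r) / 2)
    rwa [h1, map_one] at h6
  rcases lt_or_eq_of_le ha with h4 | h4
  · refine ⟨(1 + r) / 2, (1 - r) / 2, h1, h3, h4, ?_⟩
    refine le_antisymm hb ?_
    rcases le_max_iff.1 hsum with h5 | h5
    · exact absurd h5 (not_le.2 h4)
    · exact h5
  · refine ⟨(1 - r) / 2, (1 + r) / 2, by rw [add_comm]; exact h1, by rw [mul_comm]; exact h3, ?_, h4⟩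
    rw [← h3, map_mul, h4, one_mul] at hl3
    exact hl3


/-- Chunk YP1 (S/M), PORT of H13Z/LP.lean local_pt. w + w' = 1, w w' = (l u)^3 (value < 1), V w < 1 = V w' (as lp_root). Q = pt (l u/w) (-1/w): y^2 + y = (1 - w)/w^2 = w'/w^2 = (l u)^3/w^3 = x^3; tt Q = l u. B = N ⊔ adjoin F {w}: s in DecN fixes w (the root of X^2 - X + (l u)^3 of value < 1; s u = u because u in N). -/
theorem local_ptu [FiniteDimensional F N] (hl : l.Prime) (hV : V.valuation (l : Ω) < 1) {u : Ω}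
    (hu : u ∈ N) (hu1 : V.valuation u = 1) :
    ∃ (Q : P27 Ω) (B : IntermediateField F Ω), FiniteDimensional F B ∧
      (∀ s : Ω ≃ₐ[F] Ω, DecN N V s → s ∈ B.fixingSubgroup) ∧
      (∀ s ∈ B.fixingSubgroup, ac W27 s Q = Q) ∧ Kr V Q ∧ H28G.tt Q = l * u := by
  have hal : Algebra.IsAlgebraic F Ω := IsAlgClosure.isAlgebraic
  have hch : CharZero Ω := charZero_of_injective_algebraMap (algebraMap F Ω).injective
  obtain ⟨x, hx⟩ : ∃ x : Ω, x = (l : Ω) * u := ⟨_, rfl⟩
  have hVx' : V.valuation x = V.valuation (l : Ω) := by rw [hx, map_mul, hu1, mul_one]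
  have hVx : V.valuation x < 1 := by rw [hVx']; exact hV
  obtain ⟨w, w', h1, h2, h3, h4⟩ := YP_root (V := V) hVx
  have hl0 : (l : Ω) ≠ 0 := Nat.cast_ne_zero.2 hl.ne_zero
  have hu0 : u ≠ 0 := by
    rintro rfl
    rw [map_zero] at hu1
    exact zero_ne_one hu1
  have hx0 : x ≠ 0 := by rw [hx]; exact mul_ne_zero hl0 hu0
  have hw0 : w ≠ 0 := by
    rintro rfl
    rw [zero_mul] at h2
    exact pow_ne_zero 3 hx0 h2.symm
  have hw' : w' = 1 - w := by linear_combination h1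
  have heq : (-1 / w) ^ 2 + (-1 / w) = (x / w) ^ 3 := by
    rw [hw'] at h2
    field_simp
    linear_combination h2
  have hlV : 0 < V.valuation x := zero_lt_iff.2 ((Valuation.ne_zero_iff _).2 hx0)
  have hVw : V.valuation w = V.valuation x ^ 3 := by
    rw [← map_pow, ← h2, map_mul, h4, mul_one]
  have hsw : ∀ s : Ω ≃ₐ[F] Ω, Dec V s → s x = x → s w = w := by
    intro s hs hsx
    have h5 : s w ^ 2 - s w + x ^ 3 = 0 := by
      have h6 : w ^ 2 - w + x ^ 3 = 0 := by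
        rw [← h2, hw']
        ring
      have h7 := congrArg s h6
      rwa [map_add, map_sub, map_pow, map_pow, hsx, map_zero] at h7
    have h6 : (s w - w) * (s w - w') = 0 := by
      linear_combination h5 + h2 - s w * h1
    rcases mul_eq_zero.1 h6 with h7 | h7
    · exact sub_eq_zero.1 h7
    · exfalso
      have h8 := (H13Z.Dec.lt_one hs w).2 h3
      rw [sub_eq_zero.1 h7, h4] at h8
      exact lt_irrefl _ h8
  have hxN : x ∈ N := by
    rw [hx]
    exact mul_mem (natCast_mem N l) hu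
  have hfd : FiniteDimensional F (IntermediateField.adjoin F {w}) :=
    IntermediateField.adjoin.finiteDimensional (hal.isAlgebraic w).isIntegral
  refine ⟨pt (x / w) (-1 / w) heq, N ⊔ IntermediateField.adjoin F {w},
    IntermediateField.finiteDimensional_sup N _, ?_, ?_, ?_, ?_⟩
  · intro s hs
    rw [IntermediateField.fixingSubgroup_sup]
    refine Subgroup.mem_inf.2 ⟨hs.1, H13Z.lp_adjoin s _ ?_⟩
    intro z hz
    rw [Set.mem_singleton_iff] at hz
    rw [hz]
    exact hsw s hs.2 ((IntermediateField.mem_fixingSubgroup_iff N s).1 hs.1 x hxN)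
  · intro s hs
    rw [IntermediateField.fixingSubgroup_sup] at hs
    obtain ⟨hs1, hs2⟩ := Subgroup.mem_inf.1 hs
    rw [IntermediateField.mem_fixingSubgroup_iff] at hs1 hs2
    have h5 : s w = w := hs2 w (IntermediateField.mem_adjoin_simple_self F w)
    refine H13Z.lp_fix s ?_ ?_
    · rw [xc_pt, map_div₀, hs1 x hxN, h5]
    · rw [yc_pt, map_div₀, map_neg, map_one, h5]
  · right
    rw [xc_pt, map_div₀, hVw]
    rw [lt_div_iff₀ (pow_pos hlV 3), one_mul]
    exact pow_lt_self_of_lt_one₀ hlV hVx (by norm_num)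
  · rw [← hx]
    unfold H28G.tt
    rw [xc_pt, yc_pt]
    field_simp

/-- Chunk YP2 (S). H13Z.div_pt gives P₁ with act β P₁ = act β P; P = P₁ + R, R in Tor β; R = 0 or kr_tor_ram, kr_add, val_ratio. -/
theorem div_any {β : O} (hβ : Prime β) (h3 : Prim β) (hN : 4 ≤ Nm β) (hV : vo V β < 1) {P : P27 Ω}
    (hQ : Kr V (H28G.act β P)) (hv : V.valuation (H28G.tt (H28G.act β P)) = vo V β) :
    Kr V P ∧ V.valuation (H28G.tt P) ^ Nm β = vo V β := by
  obtain ⟨P₁, h1, h2, h4⟩ := H13Z.div_pt hβ h3 hN hV hQ hv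
  have hR : P - P₁ ∈ Tor β Ω := by
    rw [mem_Tor, map_sub, h1, sub_self]
  by_cases h0 : P - P₁ = 0
  · rw [sub_eq_zero.1 h0]
    exact ⟨h2, h4⟩
  · have e : P = P₁ + (P - P₁) := by abel
    rw [e]
    refine ⟨kr_add V h2 (kr_tor_ram β hβ h3 V hV hR h0).1, ?_⟩
    rw [(val_ratio hβ h3 (by omega) V hV P₁ h2 h4 (P - P₁) hR h0).1]
    exact h4

/-- Chunk YP3 (S/M). Kr V (-Q') and V (tt (-Q') + tt Q') ≤ V (tt Q')^2 (kr_act, kr_tt_act with a = -1, act_neg/act (-1) = neg), kr_add, kr_tt_add with c = V l: V (tt Q), V (tt Q') ≤ V l. So tt (Q - Q') = l (u - u') modulo elements of value < V l (V l^2 < V l). -/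
theorem tt_diff {Q Q' : P27 Ω} (hQ : Kr V Q) (hQ' : Kr V Q') (hl0 : V.valuation (l : Ω) ≠ 0)
    (hl : V.valuation (l : Ω) < 1) {u u' : Ω} (hu : V.valuation u ≤ 1) (hu' : V.valuation u' ≤ 1)
    (h : V.valuation (H28G.tt Q - l * u) < V.valuation (l : Ω))
    (h' : V.valuation (H28G.tt Q' - l * u') < V.valuation (l : Ω)) (hd : V.valuation (u - u') = 1) :
    Kr V (Q - Q') ∧ V.valuation (H28G.tt (Q - Q')) = V.valuation (l : Ω) := by
  have hlp : 0 < V.valuation (l : Ω) := zero_lt_iff.2 hl0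
  have hsq : V.valuation (l : Ω) ^ 2 < V.valuation (l : Ω) :=
    pow_lt_self_of_lt_one₀ hlp hl (by norm_num)
  have hle : ∀ (R : P27 Ω) (v : Ω), V.valuation v ≤ 1 →
      V.valuation (H28G.tt R - l * v) < V.valuation (l : Ω) →
      V.valuation (H28G.tt R) ≤ V.valuation (l : Ω) := by
    intro R v hv h1
    have e : H28G.tt R = (H28G.tt R - l * v) + l * v := by ring
    rw [e]
    refine (V.valuation.map_add _ _).trans (max_le h1.le ?_)
    rw [map_mul]
    exact mul_le_of_le_one_right' hv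
  have hn : H28G.act (-1 : O) Q' = -Q' := by rw [act_neg, act_one]
  have hK' : Kr V (-Q') := by
    rw [← hn]
    exact kr_act V _ hQ'
  have hm := kr_tt_act V (-1 : O) hQ'
  have h1m : algebraMap F Ω (((-1 : O) : O) : F) = -1 := by
    have e : (((-1 : O) : O) : F) = -1 := rfl
    rw [e, map_neg, map_one]
  rw [hn, h1m] at hm
  have hQl := hle Q u hu h
  have hQ'l := hle Q' u' hu' h'
  have hm2 : V.valuation (H28G.tt (-Q') - -1 * H28G.tt Q') ≤ V.valuation (l : Ω) ^ 2 :=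
    hm.trans (pow_le_pow_left' hQ'l 2)
  have hnQ' : V.valuation (H28G.tt (-Q')) ≤ V.valuation (l : Ω) := by
    have e : H28G.tt (-Q') = (H28G.tt (-Q') - -1 * H28G.tt Q') - H28G.tt Q' := by ring
    rw [e]
    exact (V.valuation.map_sub _ _).trans (max_le (hm2.trans hsq.le) hQ'l)
  have ha := kr_tt_add V hQ hK' (V.valuation (l : Ω)) hQl hnQ'
  rw [← sub_eq_add_neg] at ha
  refine ⟨by rw [sub_eq_add_neg]; exact kr_add V hQ hK', ?_⟩
  have e : H28G.tt (Q - Q') = ((((H28G.tt (Q - Q') - H28G.tt Q - H28G.tt (-Q')) +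
      (H28G.tt (-Q') - -1 * H28G.tt Q')) + (H28G.tt Q - l * u)) - (H28G.tt Q' - l * u')) +
      l * (u - u') := by ring
  have hv : V.valuation ((l : Ω) * (u - u')) = V.valuation (l : Ω) := by
    rw [map_mul, hd, mul_one]
  rw [e, ← hv]
  refine V.valuation.map_add_eq_of_lt_right ?_
  rw [hv]
  exact V.valuation.map_sub_lt (V.valuation.map_add_lt (V.valuation.map_add_lt (ha.trans_lt hsq)
    (hm2.trans_lt hsq)) h) h'

/-- Chunk YP4 (S). tt_diff for Q = act (cj π) P, Q' = act (cj π) P'; act (cj π) (P - P') = Q - Q'; div_any with β = cj π (H13Z.LL1_prime_cj, LL1_prim_cj, LL1_nm), H13Z.pt_nontriv for P - P'. -/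
theorem pt_diff (D : Dat π l) (hV : vo V (cj π) < 1) (hl : V.valuation (l : Ω) = vo V (cj π))
    {P P' : P27 Ω} {u u' : Ω} (hu : V.valuation u ≤ 1) (hu' : V.valuation u' ≤ 1)
    (hQ : Kr V (H28G.act (cj π) P)) (hQ' : Kr V (H28G.act (cj π) P'))
    (h : V.valuation (H28G.tt (H28G.act (cj π) P) - l * u) < V.valuation (l : Ω))
    (h' : V.valuation (H28G.tt (H28G.act (cj π) P') - l * u') < V.valuation (l : Ω))
    (hd : V.valuation (u - u') = 1) :
    ¬ ∃ X ∈ Tor (cj π) Ω, ∀ s : Ω ≃ₐ[F] Ω, Inert V s →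
      (ac W27 s P - P) - (ac W27 s P' - P') = ac W27 s X - X := by
  have hpr := H13Z.LL1_prime_cj D.pr
  have hprim := H13Z.LL1_prim_cj D.prim
  have hN := (H13Z.LL1_nm D).2
  have hl0 : V.valuation (l : Ω) ≠ 0 := by
    rw [hl]
    exact qv_pos V hpr.ne_zero
  have hl1 : V.valuation (l : Ω) < 1 := by
    rw [hl]
    exact hV
  obtain ⟨h1, h2⟩ := tt_diff hQ hQ' hl0 hl1 hu hu' h h' hd
  rw [← map_sub] at h1 h2
  rw [hl] at h2
  obtain ⟨h3, h4⟩ := div_any hpr hprim hN hV h1 h2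
  rintro ⟨X, hX, hX2⟩
  refine H13Z.pt_nontriv hpr hprim hN hV h3 h4 ⟨X, hX, fun s hs => ?_⟩
  rw [← hX2 s hs, map_sub]
  abel

/-- Chunk YP5 (S/M), PORT of H13Z/LL1.lean exists_pt. If V u = 1: local_ptu, div_pt with β = cj π (V (tt Q) = V l), cc_pt, exists_TB, exists_kumB, dc_of_cc, ks_of_kum (YCB.lean). If V u < 1: P = 0 (tt 0 = 0: gia_tt0; Kr V 0), B = N, the same. -/
theorem exists_ptu (D : Dat π l) (he : Pairing π l e) (hNb : Nb l N) (hV : vo V (cj π) < 1)
    (hl : V.valuation (l : Ω) = vo V (cj π)) {u : Ω} (hu : u ∈ N) (hu1 : V.valuation u ≤ 1) :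
    ∃ (P : P27 Ω) (B L : IntermediateField F Ω) (y₁ : P27 Ω → Ω),
      Kr V (H28G.act (cj π) P) ∧
      V.valuation (H28G.tt (H28G.act (cj π) P) - l * u) < V.valuation (l : Ω) ∧
      (P = 0 ∨ Kr V P ∧ V.valuation (H28G.tt P) ^ Nm (cj π) = vo V (cj π)) ∧
      (∀ s, DecN N V s → s ∈ B.fixingSubgroup) ∧
      Cc π B (fun s => ac W27 s P - P) ∧ IsTB π B L ∧
      (∀ T ∈ Tor π Ω, Kum L e (fun s => ac W27 s P - P) T (y₁ T)) ∧
      Dc π N V (fun s => ac W27 s P - P) ∧ KS π N V e (fun s => ac W27 s P - P) y₁ := by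
  classical
  have hfdN := hNb.fin
  have hVl : V.valuation (l : Ω) < 1 := by rw [hl]; exact hV
  have hpr := H13Z.LL1_prime_cj D.pr
  have hl0 : V.valuation (l : Ω) ≠ 0 := by
    rw [hl]
    exact qv_pos V hpr.ne_zero
  have key : ∀ (P : P27 Ω) (B : IntermediateField F Ω), FiniteDimensional F B →
      (∀ s, DecN N V s → s ∈ B.fixingSubgroup) →
      (∀ s ∈ B.fixingSubgroup, ac W27 s (H28G.act (cj π) P) = H28G.act (cj π) P) →
      ∃ (L : IntermediateField F Ω) (y₁ : P27 Ω → Ω), (∀ s, DecN N V s → s ∈ B.fixingSubgroup) ∧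
      Cc π B (fun s => ac W27 s P - P) ∧ IsTB π B L ∧
      (∀ T ∈ Tor π Ω, Kum L e (fun s => ac W27 s P - P) T (y₁ T)) ∧
      Dc π N V (fun s => ac W27 s P - P) ∧ KS π N V e (fun s => ac W27 s P - P) y₁ := by
    intro P B hfd hB hP
    have C : Cc π B fun s => ac W27 s P - P := H13Z.cc_pt hP
    obtain ⟨L, hL⟩ := H13Z.exists_TB π D.pr D.prim B
    let y₁ : P27 Ω → Ω := fun T => if hT : T ∈ Tor π Ω then (H13Z.exists_kumB D C he hL hT).choose else 1
    have hy₁ : ∀ T ∈ Tor π Ω, Kum L e (fun s => ac W27 s P - P) T (y₁ T) := by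
      intro T hT
      have h1 : y₁ T = (H13Z.exists_kumB D C he hL hT).choose := dif_pos hT
      rw [h1]
      exact (H13Z.exists_kumB D C he hL hT).choose_spec
    exact ⟨L, y₁, hB, C, hL, hy₁, dc_of_cc C hB, ks_of_kum hL hB hy₁⟩
  rcases lt_or_eq_of_le hu1 with hu2 | hu2
  · obtain ⟨L, y₁, h⟩ := key 0 N hfdN (fun s hs => hs.1) (fun s _ => by rw [map_zero, map_zero])
    refine ⟨0, N, L, y₁, ?_, ?_, Or.inl rfl, h⟩
    · rw [map_zero]
      exact kr_zero V
    · rw [map_zero, gia_tt0, zero_sub, Valuation.map_neg, map_mul]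
      exact mul_lt_of_lt_one_right (zero_lt_iff.2 hl0) hu2
  · obtain ⟨Q, B, hfd, hB, hQ, hQK, hQt⟩ := local_ptu (V := V) (N := N) D.hl hVl hu hu2
    have hQv : V.valuation (H28G.tt Q) = vo V (cj π) := by
      rw [hQt, map_mul, hu2, mul_one, hl]
    obtain ⟨P, hPQ, hPK, hPt⟩ := H13Z.div_pt hpr (H13Z.LL1_prim_cj D.prim) (H13Z.LL1_nm D).2 hV hQK hQv
    obtain ⟨L, y₁, h⟩ := key P B hfd hB (fun s hs => by rw [hPQ]; exact hQ s hs)
    refine ⟨P, B, L, y₁, ?_, ?_, Or.inr ⟨hPK, hPt⟩, h⟩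
    · rw [hPQ]
      exact hQK
    · rw [hPQ, hQt, sub_self, map_zero]
      exact zero_lt_iff.2 hl0

end H13Y
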