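import Mathlib
import Pool.Agent.Lib.H13Y.YC2
import Pool.Agent.Lib.H13Y.YP
import Pool.Agent.Lib.H13Y.YLV
import Pool.Agent.Lib.H13Y.YPG

open NumberField IsDedekindDomain

namespace H13Y

open H55P H28G H55B H13S
open H13Z (Dat Cc IsTB JV)

variable {Ω : Type} [Field Ω] [DecidableEq Ω] [Algebra F Ω] [IsAlgClosure F Ω]

variable {π : O} {l : ℕ} {N : IntermediateField F Ω} {V : ValuationSubring Ω} {t : Ω} {e0 : ℕ}
  {e : P27 Ω → P27 Ω → Ω}

/-- Chunk YL1a (S/M). If all (y T)^l have the level l e0 then c is zero on JV: RV.top, c_zero (JV elements are in DT: R.dec). -/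
theorem top_zero (R : RV π l N V t e0) (he : Pairing π l e) {c : (Ω ≃ₐ[F] Ω) → P27 Ω} (hc : Dc π N V c)
    {y : P27 Ω → Ω} (hy : KS π N V e c y)
    (h : ∀ T ∈ Tor π Ω, Lv π l N V (V.valuation t ^ (l * e0)) (y T ^ l)) :
    ∀ s, JV π V s → c s = 0 := by
  intro s hs
  refine c_zero R.base.D he hc hy ⟨R.dec hs.1, hs.2.1⟩ fun T hT => ?_
  exact R.top ((sys_of R.base.D he hc hy).fx T hT) rfl (h T hT) hs.1 hs.2.1

/-- Chunk YL1b (S/M). Two classes with the same coefficient at T₀ at the level l^2 + l - 1 = l e0 - 1 differ by a class vanishing on JV. hc.sub, ks_sub (YK.lean), sys_of, the system (y T/y₁ T)^l = (y T)^l/(y₁ T)^l (Sys.div or sys_of); its coefficient at T₀ is a - a₁ (co_inv, co_mul with z = 1); RV.up: level l^2 + l (not 0 for T₀: T₀ ≠ 0), top_zero. -/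
theorem same_coef (R : RV π l N V t e0) (hin : cj π = π) (hq : Nm π = l ^ 2) (he : Pairing π l e)
    {c c₁ : (Ω ≃ₐ[F] Ω) → P27 Ω} (hc : Dc π N V c) (hc₁ : Dc π N V c₁) {y y₁ : P27 Ω → Ω}
    (hy : KS π N V e c y) (hy₁ : KS π N V e c₁ y₁) {T₀ : P27 Ω} (hT : T₀ ∈ Tor π Ω) (h0 : T₀ ≠ 0)
    {a a₁ : Ω} (ha : Co π l N V t (l ^ 2 + l - 1) (y T₀ ^ l) a)
    (ha₁ : Co π l N V t (l ^ 2 + l - 1) (y₁ T₀ ^ l) a₁) (hd : V.valuation (a - a₁) < 1) :
    ∀ s, JV π V s → c s - c₁ s = 0 := by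
  have D := R.base.D
  have hl5 := D.five
  have he0 : l * e0 = l ^ 2 + l := by
    rcases R.base.val_l.2.2.2.2.2 with h | h
    · exfalso
      have h1 := h.1
      rw [hq] at h1
      nlinarith
    · rw [h.2.1]
      ring
  have hi1 : 1 ≤ l ^ 2 + l - 1 := by
    have : 1 ≤ l ^ 2 := Nat.one_le_pow _ _ (by omega)
    omega
  have hi2 : l ^ 2 + l - 1 + 1 = l ^ 2 + l := by omega
  have hks := ks_sub D he hc hy hc₁ hy₁
  have hm := sys_of D he (hc.sub hc₁) hks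
  have hm₁ := sys_of D he hc₁ hy₁
  have h1 := R.co_mul hi1 ha (R.co_inv (hm₁.ne T₀ hT) hi1 ha₁) Hx.one one_ne_zero
  have e1 : y T₀ ^ l * (y₁ T₀ ^ l)⁻¹ * 1 ^ l = (y T₀ / y₁ T₀) ^ l := by
    rw [div_pow, one_pow, mul_one, div_eq_mul_inv]
  rw [e1, ← sub_eq_add_neg] at h1
  have h2 := R.up hm hT h0 hi1 h1 hd
  rw [hi2, ← he0] at h2
  exact top_zero R he (hc.sub hc₁) hks h2

/-- Chunk YL1c (M). The local condition in the inert case over N. cj π = π, V l = V π (R.base.val_l). q, r from R.nb.res V π. T₀ ≠ 0 from gi_gen. For each i: exists_ptu with u = r i (choose: P i, y i); levels: level_ptu and RV.levels, so co_exists gives a i = the coefficient at T₀ of (y i T₀)^l at the level l^2 + l - 1. For i ≠ i' not V (a i - a i') < 1: otherwise same_coef: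
the difference of the classes vanishes on JV, cob_inert (Dc.sub, R.dec) gives X, against pt_diff. c has the coefficient a (sys_of, RV.levels, co_exists). pigeon with S = N: i with V (a - a i) < 1. same_coef: c - c_i vanishes on JV; cob_ram (YCB.lean) with moved_ram: c s - (s P_i - P_i) = s X - X. The point P_i + X. -/
theorem loc_inert (R : RV π l N V t e0) (hin : cj π = π) (hq : Nm π = l ^ 2) (he : Pairing π l e)
    {c : (Ω ≃ₐ[F] Ω) → P27 Ω} (hc : Dc π N V c) {y : P27 Ω → Ω} (hy : KS π N V e c y)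
    (h2 : ∀ T ∈ Tor π Ω, Lv π l N V (V.valuation t ^ 2) (y T ^ l)) :
    ∃ P : P27 Ω, ∀ s, DecN N V s → c s = ac W27 s P - P := by
  have D := R.base.D
  have hV : vo V (cj π) < 1 := by
    rw [hin]
    exact R.base.above
  have hvl : V.valuation (l : Ω) = vo V (cj π) := by
    rw [hin]
    exact R.base.val_l.1
  obtain ⟨q, j, -, -, -, r, hr1, hr2, hr3⟩ := R.nb.res V π D.pr R.base.above R.lt
  obtain ⟨-, T₀, hT₀, -, hz⟩ := gi_gen (Ω := Ω) π D.pr D.prim
  have hT₀0 : T₀ ≠ 0 := by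
    intro h
    have h1 := (hz 1).1 (by rw [act_one, h])
    exact D.pr.not_isUnit (isUnit_of_dvd_one h1)
  have hpts : ∀ i, ∃ (P : P27 Ω) (y₁ : P27 Ω → Ω) (a : Ω),
      Kr V (H28G.act (cj π) P) ∧
      V.valuation (H28G.tt (H28G.act (cj π) P) - l * r i) < V.valuation (l : Ω) ∧
      Dc π N V (fun s => ac W27 s P - P) ∧ KS π N V e (fun s => ac W27 s P - P) y₁ ∧
      Co π l N V t (l ^ 2 + l - 1) (y₁ T₀ ^ l) a := by
    intro i
    obtain ⟨P, B, L, y₁, h1, h3, h4, hB, C, hL, hkum, hc₁, hy₁⟩ :=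
      exists_ptu D he R.nb hV hvl (hr1 i).1 (hr1 i).2
    have hfd := hL.fin
    have hnf : NumberField L := NumberField.of_module_finite F L
    rw [hin] at h4
    have hm₁ := sys_of D he hc₁ hy₁
    have hlev := R.levels hm₁ (Or.inr ⟨hq, rfl⟩) (fun T hT =>
      level_ptu R hin hq he hL hB h4 C T hT (y₁ T) (hkum T hT))
    obtain ⟨a, ha⟩ := R.co_exists (hm₁.fx T₀ hT₀) (hlev T₀ hT₀)
    exact ⟨P, y₁, a, h1, h3, hc₁, hy₁, ha⟩
  choose P y₁ a hK hTt hcD hcK hco using hpts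
  have hinj : ∀ i i', i ≠ i' → ¬ V.valuation (a i - a i') < 1 := by
    intro i i' hii hlt
    have h5 := same_coef R hin hq he (hcD i) (hcD i') (hcK i) (hcK i') hT₀ hT₀0 (hco i) (hco i') hlt
    obtain ⟨X, hX, h6⟩ := cob_inert D ((hcD i).sub (hcD i')) (fun s hs => R.dec hs) h5
    exact pt_diff D hV hvl (hr1 i).2 (hr1 i').2 (hK i) (hK i') (hTt i) (hTt i') (hr2 i i' hii)
      ⟨X, hX, h6⟩
  have hm := sys_of D he hc hy
  have hlev := R.levels hm (Or.inr ⟨hq, rfl⟩) h2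
  obtain ⟨a₀, ha₀⟩ := R.co_exists (hm.fx T₀ hT₀) (hlev T₀ hT₀)
  obtain ⟨i, hi⟩ := pigeon V (N : Set Ω) r a (fun x hx hxV => hr3 x hx hxV) (fun i => (hco i).1) hinj
    ha₀.1.1 ha₀.1.2
  have h5 := same_coef R hin hq he hc (hcD i) hy (hcK i) hT₀ hT₀0 ha₀ (hco i) hi
  obtain ⟨X, hX, h6⟩ := cob_ram D (hc.sub (hcD i)) (fun s hs => R.dec hs) h5
    (H13Z.moved_ram (H13Z.LL1_prime_cj D.pr) (H13Z.LL1_prim_cj D.prim) (H13Z.LL1_nm D).2 hV)
  refine ⟨P i + X, fun s hs => ?_⟩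
  have h7 : c s - (ac W27 s (P i) - P i) = ac W27 s X - X := h6 s hs
  rw [map_add, sub_eq_iff_eq_add.1 h7]
  abel

end H13Y
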