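import Mathlib
import Pool.Agent.Lib.H13Y.YL1
import Pool.Agent.Lib.H13Z.LL2

open NumberField IsDedekindDomain

namespace H13Y

open H55P H28G H55B H13S
open H13Z (Dat Cc IsTB JV)

variable {Ω : Type} [Field Ω] [DecidableEq Ω] [Algebra F Ω] [IsAlgClosure F Ω]

variable {π : O} {l : ℕ} {N : IntermediateField F Ω} {V : ValuationSubring Ω} {t : Ω} {e0 : ℕ}
  {e : P27 Ω → P27 Ω → Ω} {c : (Ω ≃ₐ[F] Ω) → P27 Ω} {y : P27 Ω → Ω}

theorem yl2_pow {β : O} {l : ℕ} (hβ : Prime β) (hN : Nm β = l) (a : O) (j : ℕ) : β ∣ a ^ (l ^ j) - a := by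
  induction j with
  | zero => simp
  | succ j ih =>
    have h1 := H13Z.lu_frob hβ (a ^ (l ^ j))
    rw [hN] at h1
    have e : a ^ (l ^ (j + 1)) - a = ((a ^ (l ^ j)) ^ l - a ^ (l ^ j)) + (a ^ (l ^ j) - a) := by
      rw [← pow_mul, ← pow_succ]
      ring
    rw [e]
    exact dvd_add h1 ih

/-- Chunk YL2a (S/M), PORT of H13Z/LL2.lean loc_split. levels with n = l = l e0, top_zero (YL1.lean): c = 0 on JV; cob_inert: X; inert_tors: = 0 on inertia. φ from R.nb.res V π: exponent Nm π^(l^j); frob_tors with γ = π, a = cj π, f = l^j: ac φ T = act (π^(l^j)) T on Tor (cj π). No fixed points: O/(cj π) has l elements, x^(l^j) = x in it (induction, FiniteField.pow_card),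
so cj π divides π^(l^j) - π, and cj π does not divide π - 1 (conjugate of the last part of dichotomy). cob_frob. -/
theorem loc_split (R : RV π l N V t e0) (hq : Nm π = l) (he : Pairing π l e) (hc : Dc π N V c)
    (hy : KS π N V e c y) (h2 : ∀ T ∈ Tor π Ω, Lv π l N V (V.valuation t ^ 2) (y T ^ l)) :
    ∃ X ∈ Tor (cj π) Ω, ∀ s, DecN N V s → c s = ac W27 s X - X := by
  have D := R.base.D
  have hl5 := D.five
  have hm := sys_of D he hc hy
  have hlev := R.levels hm (Or.inl ⟨hq, rfl⟩) h2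
  have he0 : e0 = 1 := by
    have h1 := R.base.e0
    rw [hq] at h1
    have h3 : 0 < l - 1 := by omega
    exact Nat.eq_of_mul_eq_mul_right h3 (by rw [h1, one_mul])
  have hnd : ¬ π ∣ cj π ∧ ¬ π ∣ cj π - 1 := by
    rcases dichotomy π l D.hl D.five D.pr D.prim D.dvd with h | h
    · exfalso
      have h1 := h.2
      rw [hq] at h1
      nlinarith
    · exact ⟨h.1, h.2.2⟩
  have hcz : ∀ s, JV π V s → c s = 0 := by
    refine top_zero R he hc hy fun T hT => ?_
    rw [he0, mul_one]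
    exact hlev T hT
  have hpc := H13Z.LL2_prime_cj D.pr
  have h3c := dc_prim_cj D.prim
  obtain ⟨X, hX, hcX⟩ := cob_inert D hc (fun s hs => R.dec hs) hcz
  have hcj1 : vo V (cj π) = 1 := lv_unit (H13Z.LL2_cop D.pr hnd.1) R.base.above
  have hV3 := H13Z.LL2_three V D.prim R.base.above
  have hci : ∀ s, Inert V s → c s = 0 := by
    intro s hs
    rw [hcX s hs, H13Z.inert_tors hV3 hcj1 hs hX, sub_self]
  obtain ⟨q, j, hqj, -, ⟨φ, hφN, hφ1, hφ2⟩, -⟩ := R.nb.res V π D.pr R.base.above R.lt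
  refine cob_frob D hc (fun s hs => R.dec hs) hci (φ := φ) ⟨hφN, hφ1⟩ (n := q) hφ2 fun T hT hfix => ?_
  have h4 := H13Z.frob_tors hV3 D.pr D.prim R.base.above hcj1 (f := l ^ j)
    (fun x hx => by rw [← hqj]; exact hφ2 x hx) hT
  rw [hfix] at h4
  have hNc : Nm (cj π) = l := by rw [dc_Nm_cj, hq]
  have h5 : ¬ cj π ∣ π ^ (l ^ j) - 1 := by
    intro h
    apply hnd.2
    have h7 : cj π ∣ π - 1 := by
      have e : π - 1 = (π ^ (l ^ j) - 1) - (π ^ (l ^ j) - π) := by ring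
      rw [e]
      exact dvd_sub h (yl2_pow hpc hNc π j)
    have h6 := map_dvd cj h7
    rwa [cj_cj, map_sub, map_one] at h6
  obtain ⟨a, b, hab⟩ := H13Z.LL2_cop hpc h5
  rw [mem_Tor] at hT
  have h7 : H28G.act (π ^ (l ^ j) - 1) T = 0 := by
    rw [act_sub, ← h4, act_one, sub_self]
  have h8 : H28G.act (a * cj π + b * (π ^ (l ^ j) - 1)) T = 0 := by
    rw [act_add, act_mul, act_mul, hT, h7, map_zero, map_zero, add_zero]
  rw [hab, act_one] at h8
  exact h8

/-- Chunk YL2b (S), PORT of H13Z/LL2.lean loc_three: cob_ram with moved_three for cj π; inertia elements are in DecN: hNb.dec. -/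
theorem loc_three (D : Dat π l) (hNb : Nb l N) (h3 : V.valuation (3 : Ω) < 1) (hc : Dc π N V c)
    (h : ∀ s, JV π V s → c s = 0) : ∃ X ∈ Tor (cj π) Ω, ∀ s, DecN N V s → c s = ac W27 s X - X := by
  have h2 : ¬ cj π ∣ 2 := by
    intro h4
    obtain ⟨y, hy⟩ := h4
    have h5 : Nm (cj π) * Nm y = 4 := by
      have h6 := dc_Nm_nat 2
      rw [← Nm_mul, ← hy]
      exact_mod_cast h6
    have h7 : l ∣ Nm π := CO2_Nm D.hl D.pr D.dvd
    have h8 : l ∣ 4 := by
      rw [← h5, dc_Nm_cj]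
      exact h7.mul_right _
    have h9 := Nat.le_of_dvd (by norm_num) h8
    have := D.five
    omega
  exact cob_ram D hc (fun s hs => hNb.dec (Or.inr h3) hs) h
    (H13Z.moved_three (H13Z.LL2_prime_cj D.pr) (dc_prim_cj D.prim) h2 h3)

end H13Y
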