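import Mathlib
import Pool.Agent.Lib.H13Y.YCB
import Pool.Agent.Lib.H13Z.LQ1
import Pool.Agent.Lib.H13Z.LQ3

open NumberField IsDedekindDomain

namespace H13Y

open H55P H28G H55B H13S
open H13Z (Dat Cc IsTB JV)

variable {Ω : Type} [Field Ω] [DecidableEq Ω] [Algebra F Ω] [IsAlgClosure F Ω]

/-- The unramified case over N: V lies above cj π, π does not divide cj π. φ a Frobenius element over N, q the number of elements of the residue field of N, a power of l; φ acts on Tor π as n. -/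
structure UV (π : O) (l : ℕ) (N : IntermediateField F Ω) (V : ValuationSubring Ω) (φ : Ω ≃ₐ[F] Ω)
    (q n : ℕ) : Prop where
  D : Dat π l
  nd : ¬ π ∣ cj π
  above : vo V (cj π) < 1
  nb : Nb l N
  dec : DecN N V φ
  ql : ∃ q' : ℕ, q = l * q' ∧ 0 < q'
  frob : ∀ x ∈ V, V.valuation (φ x - x ^ q) < 1
  act : ∀ T ∈ Tor π Ω, ac W27 φ T = n • T
  n1 : ¬ l ∣ n
  n2 : ¬ (l : ℤ) ∣ (n : ℤ) - 1
  rep : ∃ r : Fin q → Ω, (∀ i, r i ∈ N ∧ V.valuation (r i) ≤ 1) ∧
    ∀ i i', i ≠ i' → V.valuation (r i - r i') = 1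

/-- Chunk YQ1 (S/M), PORT of H13Z/LQ1.lean exists_UV. hNb.res V (cj π): q = Nm (cj π)^(l^j) = l^(l^j), φ, r. frob_tors with γ = cj π, a = π, f = l^j: ac φ T = act ((cj π)^(l^j)) T on Tor π. O/π has l elements: x^(l^j) = x in it, so (cj π)^(l^j) is congruent to cj π and to a natural number n modulo π. n1, n2 as in exists_UV. -/
theorem exists_UV {π : O} {l : ℕ} {N : IntermediateField F Ω} {V : ValuationSubring Ω} (D : Dat π l)
    (hNb : Nb l N) (hs : ¬ π ∣ cj π) (hV : vo V (cj π) < 1) :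
    ∃ (φ : Ω ≃ₐ[F] Ω) (q n : ℕ), UV π l N V φ q n := by
  have hc := H13Z.LQ1_prime_cj D.pr
  have hne := H13Z.LQ1_nd hs
  have hdi : Nm π = l ∧ ¬ π ∣ cj π - 1 := by
    rcases dichotomy π l D.hl D.five D.pr D.prim D.dvd with h | h
    · exact absurd (by rw [h.1]) hs
    · exact h.2
  have hp1 : vo V π = 1 := lv_unit (H13Z.LQ1_cop hc hne) hV
  have h3 : V.valuation (3 : Ω) = 1 := H13Z.LQ1_three V (dc_prim_cj D.prim) hV
  have hVl : V.valuation (l : Ω) < 1 := by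
    have h2 : π * cj π = (l : O) := by rw [mul_cj, hdi.1]
    have h3 := lv_mul V π (cj π)
    rw [h2, hp1, one_mul] at h3
    have e : ((l : O) : F) = (l : F) := map_natCast (algebraMap O F) l
    have h4 : V.valuation (l : Ω) = vo V (cj π) := by
      rw [← h3]
      show V.valuation (l : Ω) = V.valuation (algebraMap F Ω ((l : O) : F))
      rw [e, map_natCast (algebraMap F Ω)]
    rw [h4]
    exact hV
  obtain ⟨q, j, hq, -, ⟨φ, hφN, hφD, hφ⟩, r, hr1, hr2, -⟩ := hNb.res V (cj π) hc hV hVl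
  have hNc : Nm (cj π) = l := by rw [dc_Nm_cj, hdi.1]
  have hlp : (Nm π).Prime := by
    rw [hdi.1]
    exact D.hl
  obtain ⟨z, hz⟩ := H13Z.LQ1_int hlp (cj π)
  have hl0 : (l : ℤ) ≠ 0 := by exact_mod_cast D.hl.ne_zero
  obtain ⟨n, hn⟩ : ∃ n : ℕ, (n : ℤ) = z % l := ⟨(z % l).toNat, Int.toNat_of_nonneg (Int.emod_nonneg z hl0)⟩
  have hzn : (z : O) = (n : O) + (l : O) * ((z / l : ℤ) : O) := by
    have h5 := Int.emod_add_mul_ediv z l
    rw [← hn] at h5
    have h6 := congrArg (Int.cast : ℤ → O) h5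
    push_cast at h6
    exact h6.symm
  have hcn : π ∣ cj π - (n : O) := by
    have e : cj π - (n : O) = (cj π - (z : O)) + (l : O) * ((z / l : ℤ) : O) := by
      rw [hzn]
      ring
    rw [e]
    exact dvd_add hz (D.dvd.mul_right _)
  have hpw : ∀ i : ℕ, π ∣ cj π ^ (l ^ i) - cj π := by
    intro i
    induction i with
    | zero => simp
    | succ i ih =>
      have h7 := H13Z.lu_frob D.pr (cj π ^ (l ^ i))
      rw [hdi.1, ← pow_mul, ← pow_succ] at h7
      have e : cj π ^ (l ^ (i + 1)) - cj π = (cj π ^ (l ^ (i + 1)) - cj π ^ (l ^ i)) +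
          (cj π ^ (l ^ i) - cj π) := by ring
      rw [e]
      exact dvd_add h7 ih
  refine ⟨φ, q, n, D, hs, hV, hNb, ⟨hφN, hφD⟩, ?_, hφ, ?_, ?_, ?_, r, hr1, hr2⟩
  · have h1 : 0 < l ^ j := pow_pos D.hl.pos j
    refine ⟨l ^ (l ^ j - 1), ?_, pow_pos D.hl.pos _⟩
    rw [hq, hNc, ← pow_succ', Nat.sub_add_cancel h1]
  · intro T hT
    rw [hq] at hφ
    rw [H13Z.frob_tors h3 hc (dc_prim_cj D.prim) hV hp1 hφ hT]
    obtain ⟨w, hw⟩ := dvd_add (hpw j) hcn
    have e : cj π ^ l ^ j = (n : O) + w * π := by linear_combination hw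
    rw [e, act_add, act_mul, mem_Tor.1 hT, map_zero, add_zero, act_nat]
  · intro h
    apply hs
    have h8 : π ∣ (n : O) := by
      obtain ⟨w, rfl⟩ := h
      rw [Nat.cast_mul]
      exact D.dvd.mul_right _
    have h9 := dvd_add hcn h8
    rwa [sub_add_cancel] at h9
  · rintro ⟨w, hw⟩
    apply hdi.2
    have h8 : π ∣ (n : O) - 1 := by
      have h9 := congrArg (Int.cast : ℤ → O) hw
      push_cast at h9
      rw [h9]
      exact D.dvd.mul_right _
    have h9 := dvd_add hcn h8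
    have e : cj π - (n : O) + ((n : O) - 1) = cj π - 1 := by ring
    rwa [e] at h9

variable {π : O} {l : ℕ} {N : IntermediateField F Ω} {V : ValuationSubring Ω} {φ : Ω ≃ₐ[F] Ω} {q n : ℕ}
  {e : P27 Ω → P27 Ω → Ω}

/-- Chunk YQ2 (S), PORT of H13Z.UV.val_l (same proof). -/
theorem UV.val_l (U : UV π l N V φ q n) : V.valuation (l : Ω) = vo V (cj π) ∧ vo V π = 1 ∧
    V.valuation (3 : Ω) = 1 ∧ V.valuation (l : Ω) ≠ 0 ∧ V.valuation (l : Ω) < 1 := by
  have hp1 : vo V π = 1 := lv_unit (H13Z.LQ1_cop (H13Z.LQ1_prime_cj U.D.pr) (H13Z.LQ1_nd U.nd)) U.above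
  have hdi : Nm π = l := by
    rcases dichotomy π l U.D.hl U.D.five U.D.pr U.D.prim U.D.dvd with h | h
    · exact absurd (by rw [h.1]) U.nd
    · exact h.2.1
  have h1 : V.valuation (l : Ω) = vo V (cj π) := by
    have h2 : π * cj π = (l : O) := by rw [mul_cj, hdi]
    have h3 := lv_mul V π (cj π)
    rw [h2, hp1, one_mul] at h3
    rw [← h3]
    have e : ((l : O) : F) = (l : F) := map_natCast (algebraMap O F) l
    show V.valuation (l : Ω) = V.valuation (algebraMap F Ω ((l : O) : F))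
    rw [e, map_natCast (algebraMap F Ω)]
  refine ⟨h1, hp1, H13Z.LQ1_three V (dc_prim_cj U.D.prim) U.above, ?_, ?_⟩
  · rw [h1]
    exact qv_pos V (H13Z.LQ1_prime_cj U.D.pr).ne_zero
  · rw [h1]
    exact U.above

/-- PORT of H13Z.UV.values: inertia elements are in DecN (U.nb.dec) and fix Tor π (inert_tors). -/
theorem UV.values (U : UV π l N V φ q n) {x : Ω} (hx : Hx π N V x) (h0 : x ≠ 0) :
    ∃ k : ℤ, V.valuation x = V.valuation (l : Ω) ^ k := by
  obtain ⟨h1, h2, h3, -, h5⟩ := U.val_l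
  have hNF : NumberField (⊥ : IntermediateField F Ω) := NumberField.of_module_finite F _
  have hfix : ∀ s ∈ (⊥ : IntermediateField F Ω).fixingSubgroup, Inert V s → s x = x := by
    intro s _ hs
    exact hx s ⟨U.nb.dec (Or.inl h5) hs, fun T hT => H13Z.inert_tors h3 h2 hs hT⟩
  obtain ⟨a, ha, hva⟩ := value_fixed (⊥ : IntermediateField F Ω) V _ h0 hfix
  obtain ⟨a', ha'⟩ := IntermediateField.mem_bot.1 a.2
  have ha'0 : a' ≠ 0 := by
    rintro rfl
    rw [map_zero] at ha'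
    exact ha (Subtype.ext ha'.symm)
  obtain ⟨k, hk⟩ := qv_intpow V (H13Z.LQ1_prime_cj U.D.pr) U.above a' ha'0
  rw [ha'] at hk
  exact ⟨k, by rw [hva, hk, h1]⟩

theorem UV.step (U : UV π l N V φ q n) {x : Ω} (hx : Hx π N V x) (h : V.valuation x < 1) :
    V.valuation x ≤ V.valuation (l : Ω) := by
  obtain ⟨-, -, -, h4, h5⟩ := U.val_l
  by_cases h0 : x = 0
  · rw [h0, map_zero]
    exact zero_le
  obtain ⟨k, hk⟩ := U.values hx h0
  have h6 : 0 < V.valuation (l : Ω) := zero_lt_iff.2 h4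
  rw [hk] at h ⊢
  have hk1 : 1 ≤ k := by
    by_contra hcon
    push Not at hcon
    have h7 : k ≤ 0 := by omega
    have h8 : 1 ≤ V.valuation (l : Ω) ^ k := by
      have h9 := zpow_le_zpow_right_of_le_one₀ h6 h5.le h7
      rwa [zpow_zero] at h9
    exact absurd h (not_lt.2 h8)
  have h9 := zpow_le_zpow_right_of_le_one₀ h6 h5.le hk1
  rwa [zpow_one] at h9

theorem yq1_nsmul {m : P27 Ω → Ω} (hm : Sys π l N V m) {T : P27 Ω}
    (hT : T ∈ Tor π Ω) (k : ℕ) : ∃ z : Ω, Hx π N V z ∧ z ≠ 0 ∧ m (k • T) = m T ^ k * z ^ l := by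
  induction k with
  | zero =>
    obtain ⟨z, hz, hz0, he⟩ := hm.add 0 (zero_mem _) 0 (zero_mem _)
    have h0 := hm.ne 0 (zero_mem _)
    refine ⟨z⁻¹, hz.inv, inv_ne_zero hz0, ?_⟩
    rw [add_zero] at he
    have h1 : m 0 * z ^ l = 1 := by
      apply mul_left_cancel₀ h0
      rw [mul_one, ← mul_assoc]
      exact he.symm
    rw [zero_smul, pow_zero, one_mul, inv_pow]
    exact eq_inv_of_mul_eq_one_left h1
  | succ k ih =>
    obtain ⟨z₁, hz₁, hz₁0, he₁⟩ := ih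
    have hk : k • T ∈ Tor π Ω := nsmul_mem hT k
    obtain ⟨z, hz, hz0, he⟩ := hm.add _ hk _ hT
    refine ⟨z₁ * z, hz₁.mul hz, mul_ne_zero hz₁0 hz0, ?_⟩
    rw [succ_nsmul, he, he₁]
    ring

/-- Chunk YQ3 (S/M), PORT of H13Z.UV.coef (LQ1.lean). The only change: φ is a Frobenius element with exponent q = l q': b = (φ⁻¹ u)^q', V (u - b^l) < 1; at the end V (φ x - x^q) < 1. -/
theorem UV.coef (U : UV π l N V φ q n) {m : P27 Ω → Ω} (hm : Sys π l N V m) {T : P27 Ω} (hT : T ∈ Tor π Ω) :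
    ∃ z x : Ω, Hx π N V z ∧ z ≠ 0 ∧ Hx π N V x ∧ V.valuation x ≤ 1 ∧ m T = z ^ l * (1 + l * x) ∧
      V.valuation (x ^ q - n * x) < 1 := by
  have halg : Algebra.IsAlgebraic F Ω := IsAlgClosure.isAlgebraic
  obtain ⟨-, -, -, h4, h5⟩ := U.val_l
  have hl := U.D.hl
  have hl5 := U.D.five
  have hL0 : (l : Ω) ≠ 0 := (Valuation.ne_zero_iff _).1 h4
  have hLp : 0 < V.valuation (l : Ω) := zero_lt_iff.2 h4
  have hM0 := hm.ne T hT
  have hMx := hm.fx T hT
  obtain ⟨M, hMd⟩ : ∃ M : Ω, M = m T := ⟨_, rfl⟩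
  rw [← hMd] at hM0 hMx ⊢
  -- the equation φ M = M^n z^l
  have hφM : ∃ z : Ω, Hx π N V z ∧ z ≠ 0 ∧ φ M = M ^ n * z ^ l := by
    obtain ⟨z₁, hz₁, hz₁0, he₁⟩ := yq1_nsmul hm hT n
    obtain ⟨z₂, hz₂, hz₂0, he₂⟩ := hm.act φ U.dec T hT
    rw [U.act T hT, he₁] at he₂
    refine ⟨z₁ / z₂, hz₁.div hz₂, div_ne_zero hz₁0 hz₂0, ?_⟩
    rw [hMd, div_pow]
    field_simp
    exact he₂.symm
  obtain ⟨z, hz, hz0, hφ⟩ := hφM
  obtain ⟨r, hr⟩ := U.values hMx hM0
  obtain ⟨s, hs⟩ := U.values hz hz0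
  have hrs : r = r * n + s * l := by
    have h6 := H13Z.Dec.val U.dec.2 M
    rw [hφ, map_mul, map_pow, map_pow, hr, hs, ← zpow_natCast, ← zpow_natCast, ← zpow_mul,
      ← zpow_mul, ← zpow_add₀ h4] at h6
    exact (zpow_right_injective₀ hLp h5.ne h6).symm
  have hdr : (l : ℤ) ∣ r := by
    have h7 : (l : ℤ) ∣ ((n : ℤ) - 1) * r := ⟨-s, by linear_combination -hrs⟩
    exact ((Nat.prime_iff_prime_int.1 hl).dvd_or_dvd h7).resolve_left U.n2
  obtain ⟨r', hr'⟩ := hdr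
  have hLx : Hx π N V ((l : Ω) ^ r') := (Hx.nat l).zpow r'
  have hLr0 : (l : Ω) ^ r' ≠ 0 := zpow_ne_zero _ hL0
  obtain ⟨u, hud⟩ : ∃ u : Ω, u = M / ((l : Ω) ^ r') ^ l := ⟨_, rfl⟩
  have hux : Hx π N V u := by
    rw [hud]
    exact hMx.div (hLx.pow l)
  have hu1 : V.valuation u = 1 := by
    rw [hud, map_div₀, map_pow, map_zpow₀, hr, hr', ← zpow_natCast, ← zpow_mul, mul_comm r' (l : ℤ)]
    exact div_self (zpow_ne_zero _ h4)
  obtain ⟨q', hqq, hq'⟩ := U.ql
  obtain ⟨b', hbd⟩ : ∃ b' : Ω, b' = φ⁻¹ u := ⟨_, rfl⟩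
  have hbx' : Hx π N V b' := by
    rw [hbd]
    exact hux.dec U.dec.inv
  have hφb : φ b' = u := by
    rw [hbd, ← AlgEquiv.mul_apply, mul_inv_cancel]
    rfl
  have hb1' : V.valuation b' = 1 := by
    rw [← H13Z.Dec.val U.dec.2 b', hφb, hu1]
  obtain ⟨b, hbq⟩ : ∃ b : Ω, b = b' ^ q' := ⟨_, rfl⟩
  have hbx : Hx π N V b := by
    rw [hbq]
    exact hbx'.pow q'
  have hb1 : V.valuation b = 1 := by
    rw [hbq, map_pow, hb1', one_pow]
  have hb0 : b ≠ 0 := by
    rintro rfl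
    rw [map_zero] at hb1
    exact zero_ne_one hb1
  have hub : V.valuation (u - b ^ l) < 1 := by
    have h8 := U.frob b' ((V.valuation_le_one_iff b').1 hb1'.le)
    rw [hφb, hqq, mul_comm l q', pow_mul, ← hbq] at h8
    exact h8
  obtain ⟨y, hyd⟩ : ∃ y : Ω, y = u / b ^ l - 1 := ⟨_, rfl⟩
  have hyx : Hx π N V y := by
    rw [hyd]
    exact (hux.div (hbx.pow l)).sub Hx.one
  have hy1 : V.valuation y < 1 := by
    have e : y = (u - b ^ l) / b ^ l := by
      rw [hyd]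
      field_simp
    rw [e, map_div₀, map_pow, hb1, one_pow, div_one]
    exact hub
  have hyl := U.step hyx hy1
  obtain ⟨x, hxd⟩ : ∃ x : Ω, x = y / l := ⟨_, rfl⟩
  have hxx : Hx π N V x := by
    rw [hxd]
    exact hyx.div (Hx.nat l)
  have hyx' : y = l * x := by
    rw [hxd]
    field_simp
  have hx1 : V.valuation x ≤ 1 := by
    rw [hxd, map_div₀]
    exact div_le_one_of_le₀ hyl zero_le
  have hub' : u = b ^ l * (1 + l * x) := by
    rw [← hyx', hyd]
    field_simp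
    ring
  have hMw : M = ((l : Ω) ^ r' * b) ^ l * (1 + l * x) := by
    have h9 : M = ((l : Ω) ^ r') ^ l * u := by
      rw [hud]
      field_simp
    rw [h9, hub', mul_pow]
    ring
  refine ⟨(l : Ω) ^ r' * b, x, hLx.mul hbx, mul_ne_zero hLr0 hb0, hxx, hx1, hMw, ?_⟩
  -- the congruence
  obtain ⟨w, hwd⟩ : ∃ w : Ω, w = (l : Ω) ^ r' * b := ⟨_, rfl⟩
  rw [← hwd] at hMw
  have hwx : Hx π N V w := by
    rw [hwd]
    exact hLx.mul hbx
  have hw0 : w ≠ 0 := by
    rw [hwd]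
    exact mul_ne_zero hLr0 hb0
  have hφw0 : φ w ≠ 0 := (map_ne_zero φ).2 hw0
  have hφl : φ (l : Ω) = l := map_natCast φ l
  have hφx1 : V.valuation (φ x) ≤ 1 := by
    rw [H13Z.Dec.val U.dec.2 x]
    exact hx1
  obtain ⟨z', hz'd⟩ : ∃ z' : Ω, z' = w ^ n * z / φ w := ⟨_, rfl⟩
  have hz'x : Hx π N V z' := by
    rw [hz'd]
    exact ((hwx.pow n).mul hz).div (hwx.dec U.dec)
  have hkey : 1 + l * φ x = (1 + l * x) ^ n * z' ^ l := by
    have h10 : φ M = (φ w) ^ l * (1 + l * φ x) := by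
      rw [hMw, map_mul, map_pow, map_add, map_mul, hφl, map_one]
    rw [hφ, hMw] at h10
    rw [hz'd, div_pow, mul_pow]
    have h11 : (φ w) ^ l ≠ 0 := pow_ne_zero _ hφw0
    field_simp
    have h12 : (w ^ l * (1 + l * x)) ^ n = (w ^ n) ^ l * (1 + l * x) ^ n := by
      rw [mul_pow, ← pow_mul, ← pow_mul, mul_comm l n]
    rw [mul_comm, ← h10, h12]
    ring
  have hlx1 : V.valuation ((l : Ω) * x) ≤ V.valuation (l : Ω) := by
    rw [map_mul]
    exact mul_le_of_le_one_right' hx1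
  have hlx2 : V.valuation ((l : Ω) * φ x) ≤ V.valuation (l : Ω) := by
    rw [map_mul]
    exact mul_le_of_le_one_right' hφx1
  have hu2 : V.valuation (1 + (l : Ω) * x) = 1 := by
    have h13 : V.valuation ((l : Ω) * x) < V.valuation (1 : Ω) := by
      rw [map_one]
      exact lt_of_le_of_lt hlx1 h5
    have h14 := V.valuation.map_add_eq_of_lt_left h13
    rwa [map_one] at h14
  have hest := H13Z.LQ1_est (V := V) (y := (l : Ω) * x) (hlx1.trans h5.le) n
  have hest' : V.valuation ((1 + (l : Ω) * x) ^ n - 1 - n * (l * x)) ≤ V.valuation (l : Ω) ^ 2 :=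
    hest.trans (pow_le_pow_left₀ zero_le hlx1 2)
  have hnl : V.valuation ((n : Ω) * (l * x)) ≤ V.valuation (l : Ω) := by
    rw [map_mul]
    exact (mul_le_of_le_one_left' ((V.valuation_le_one_iff _).2 (natCast_mem V n))).trans hlx1
  have hl2 : V.valuation (l : Ω) ^ 2 ≤ V.valuation (l : Ω) := by
    rw [sq]
    exact mul_le_of_le_one_right' h5.le
  have hz1 : V.valuation (z' ^ l - 1) ≤ V.valuation (l : Ω) := by
    have e : (1 + l * x) ^ n * (z' ^ l - 1) =
        l * φ x - (((1 + (l : Ω) * x) ^ n - 1 - n * (l * x)) + n * (l * x)) := by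
      linear_combination -hkey
    have h15 : V.valuation ((1 + l * x) ^ n * (z' ^ l - 1)) ≤ V.valuation (l : Ω) := by
      rw [e]
      refine Valuation.map_sub_le _ hlx2 (Valuation.map_add_le _ (hest'.trans hl2) hnl)
    rwa [map_mul, map_pow, hu2, one_pow, one_mul] at h15
  have hz'1 : V.valuation z' ≤ 1 := by
    have h16 : V.valuation (z' ^ l) ≤ 1 := by
      have e : z' ^ l = (z' ^ l - 1) + 1 := by ring
      rw [e]
      refine Valuation.map_add_le _ (hz1.trans h5.le) ?_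
      rw [map_one]
    rw [map_pow] at h16
    exact (pow_le_one_iff_of_nonneg zero_le hl.ne_zero).1 h16
  have hz2 := H13Z.LQ1_root hl hl5 h5 hz'1 (lt_of_le_of_lt hz1 h5)
  have hz3 := U.step (hz'x.sub Hx.one) hz2
  have hz4 := H13Z.LQ1_up hz3 h5
  have hfin : V.valuation ((l : Ω) * (φ x - n * x)) ≤ V.valuation (l : Ω) ^ 2 := by
    have e : (l : Ω) * (φ x - n * x) = ((1 + (l : Ω) * x) ^ n - 1 - n * (l * x)) +
        (1 + l * x) ^ n * (z' ^ l - 1) := by
      linear_combination hkey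
    rw [e]
    refine Valuation.map_add_le _ hest' ?_
    rw [map_mul, map_pow, hu2, one_pow, one_mul]
    exact hz4
  rw [map_mul, sq] at hfin
  have hfin2 : V.valuation (φ x - n * x) ≤ V.valuation (l : Ω) := le_of_mul_le_mul_left hfin hLp
  have hfr := U.frob x ((V.valuation_le_one_iff x).1 hx1)
  have e : x ^ q - n * x = (φ x - n * x) - (φ x - x ^ q) := by ring
  rw [e]
  exact Valuation.map_sub_lt _ (lt_of_le_of_lt hfin2 h5) hfr

/-- Chunk YQ4 (S), PORT of H13Z.UV.fix and H13Z.UV.zero (LQ3.lean; zero needs only D and nd). -/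
theorem UV.fix (U : UV π l N V φ q n) (he : Pairing π l e) {y z v : Ω} (hz : Hx π N V z) (h0 : z ≠ 0)
    (hv : Hx π N V v) (h : y ^ l = z ^ l * v) (h1 : V.valuation (v - 1) ≤ V.valuation (l : Ω) ^ 2)
    {s : Ω ≃ₐ[F] Ω} (hs : JV π V s) : s y = y := by
  have hΩ : IsAlgClosed Ω := IsAlgClosure.isAlgClosed F
  have hc0 : CharZero Ω := char0
  obtain ⟨_, _, _, _, hl1⟩ := U.val_l
  have hD : DecN N V s := U.nb.dec (Or.inl hl1) hs.1
  have hDT : DT π N V s := ⟨hD, hs.2.1⟩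
  have h2 : (y / z) ^ l = v := by
    rw [div_pow, h, mul_div_cancel_left₀ _ (pow_ne_zero l h0)]
  have h3 := H13Z.fix_strict V U.D.hl (by
    have := U.D.five
    omega) hl1 h2 h1 hD.2 (fun ζ hζ => H13Z.JV.mu U.D he hs ζ hζ) (hv s hDT)
  rw [map_div₀ s, hz s hDT] at h3
  exact (div_left_inj' h0).1 h3

theorem yq4_zero (D : Dat π l) (he : Pairing π l e) {X : P27 Ω} (hX : X ∈ Tor (cj π) Ω) :
    e X 0 = 1 := by
  have h1 := he.add_right X hX 0 (zero_mem _) 0 (zero_mem _)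
  rw [add_zero] at h1
  have h2 := lk_ne D he hX (zero_mem (Tor π Ω))
  exact (left_eq_mul₀ h2).1 h1

theorem yq4_nsmul (D : Dat π l) (he : Pairing π l e) {X T : P27 Ω} (hX : X ∈ Tor (cj π) Ω)
    (hT : T ∈ Tor π Ω) (j : ℕ) : e (j • X) T = e X T ^ j := by
  induction j with
  | zero =>
    rw [zero_nsmul, pow_zero]
    have h1 := he.add_left 0 (zero_mem _) 0 (zero_mem _) T hT
    rw [add_zero] at h1
    have h2 := lk_ne D he (zero_mem (Tor (cj π) Ω)) hT
    exact (left_eq_mul₀ h2).1 h1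
  | succ j ih =>
    rw [succ_nsmul, he.add_left _ (nsmul_mem hX j) X hX T hT, ih, pow_succ]

theorem UV.zero (U : UV π l N V φ q n) (he : Pairing π l e) {T₀ : P27 Ω} (hT : T₀ ∈ Tor π Ω) (h0 : T₀ ≠ 0)
    {X : P27 Ω} (hX : X ∈ Tor (cj π) Ω) (h : e X T₀ = 1) : X = 0 := by
  refine he.nondeg X hX fun T hTT => ?_
  have hcard : Nat.card (Tor π Ω) = l := by
    obtain ⟨h1, _⟩ := gi_gen (Ω := Ω) π U.D.pr U.D.prim
    rw [h1]
    rcases dichotomy π l U.D.hl U.D.five U.D.pr U.D.prim U.D.dvd with h2 | h2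
    · exact absurd (by rw [h2.1]) U.nd
    · exact h2.2.1
  have hf : Fact (Nat.card (Tor π Ω)).Prime := ⟨by rw [hcard]; exact U.D.hl⟩
  let H : AddSubgroup (Tor π Ω) :=
    { carrier := {S | e X S = 1}
      zero_mem' := yq4_zero U.D he hX
      add_mem' := by
        intro S S' hS hS'
        show e X ((S + S' : Tor π Ω) : P27 Ω) = 1
        have h1 : ((S + S' : Tor π Ω) : P27 Ω) = (S : P27 Ω) + S' := rfl
        rw [h1, he.add_right X hX S S.2 S' S'.2]
        have h2 : e X S = 1 := hS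
        have h3 : e X S' = 1 := hS'
        rw [h2, h3, one_mul]
      neg_mem' := by
        intro S hS
        show e X ((-S : Tor π Ω) : P27 Ω) = 1
        have h1 := he.add_right X hX S S.2 ((-S : Tor π Ω) : P27 Ω) (-S : Tor π Ω).2
        have h2 : e X S = 1 := hS
        have h3 : (S : P27 Ω) + ((-S : Tor π Ω) : P27 Ω) = 0 := by
          have : ((-S : Tor π Ω) : P27 Ω) = -(S : P27 Ω) := rfl
          rw [this, add_neg_cancel]
        rw [h3, yq4_zero U.D he hX, h2, one_mul] at h1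
        exact h1.symm }
  rcases AddSubgroup.eq_bot_or_eq_top_of_prime_card H with h1 | h1
  · exfalso
    have h2 : (⟨T₀, hT⟩ : Tor π Ω) ∈ H := h
    rw [h1, AddSubgroup.mem_bot] at h2
    exact h0 (congrArg Subtype.val h2)
  · have h2 : (⟨T, hTT⟩ : Tor π Ω) ∈ H := by
      rw [h1]
      trivial
    exact h2

end H13Y
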