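import Mathlib
import Pool.Agent.Lib.H13Y.YQ1
import Pool.Agent.Lib.H13Y.YP
import Pool.Agent.Lib.H13Y.YPG

open NumberField IsDedekindDomain

namespace H13Y

open H55P H28G H55B H13S
open H13Z (Dat Cc IsTB JV)

variable {Ω : Type} [Field Ω] [DecidableEq Ω] [Algebra F Ω] [IsAlgClosure F Ω]

variable {π : O} {l : ℕ} {N : IntermediateField F Ω} {V : ValuationSubring Ω} {φ : Ω ≃ₐ[F] Ω} {q n : ℕ}
  {e : P27 Ω → P27 Ω → Ω}

/-- Chunk YQ5 (S/M). Two classes with congruent coefficients x, x₁ at T₀ ≠ 0: y T₀^l = z^l (1 + l x), y₁ T₀^l = z₁^l (1 + l x₁). (y T₀/y₁ T₀)^l = (z/z₁)^l v, v = (1 + l x)/(1 + l x₁), v - 1 = l (x - x₁)/(1 + l x₁), V ≤ V l^2 (UV.step). UV.fix: y T₀/y₁ T₀ is fixed by s in JV (in DT), KS.act: e (c s) T₀/e (c₁ s) T₀ = 1, lk_sub, UV.zero. -/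
theorem UV.same (U : UV π l N V φ q n) (he : Pairing π l e) {c c₁ : (Ω ≃ₐ[F] Ω) → P27 Ω}
    (hc : Dc π N V c) (hc₁ : Dc π N V c₁) {y y₁ : P27 Ω → Ω} (hy : KS π N V e c y)
    (hy₁ : KS π N V e c₁ y₁) {T₀ : P27 Ω} (hT : T₀ ∈ Tor π Ω) (h0 : T₀ ≠ 0) {z x z₁ x₁ : Ω}
    (hz : Hx π N V z) (hz0 : z ≠ 0) (hx : Hx π N V x) (hx1 : V.valuation x ≤ 1)
    (h : y T₀ ^ l = z ^ l * (1 + l * x)) (hz₁ : Hx π N V z₁) (hz10 : z₁ ≠ 0) (hx₁ : Hx π N V x₁)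
    (hx11 : V.valuation x₁ ≤ 1) (h₁ : y₁ T₀ ^ l = z₁ ^ l * (1 + l * x₁))
    (hd : V.valuation (x - x₁) < 1) : ∀ s, JV π V s → c s - c₁ s = 0 := by
  intro s hs
  have D := U.D
  obtain ⟨_, _, _, _, hl1⟩ := U.val_l
  have hDN : DecN N V s := U.nb.dec (Or.inl hl1) hs.1
  have hDT : DT π N V s := ⟨hDN, hs.2.1⟩
  have hyn : y T₀ ≠ 0 := hy.ne T₀ hT
  have hyn₁ : y₁ T₀ ≠ 0 := hy₁.ne T₀ hT
  have hxx := U.step (hx.sub hx₁) hd
  have hlx₁ : V.valuation ((l : Ω) * x₁) < 1 := by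
    rw [map_mul]
    exact lt_of_le_of_lt (mul_le_of_le_one_right' hx11) hl1
  have hu₁ : V.valuation (1 + (l : Ω) * x₁) = 1 := Valuation.map_one_add_of_lt _ hlx₁
  have hun₁ : 1 + (l : Ω) * x₁ ≠ 0 := by
    intro h0
    rw [h0, map_zero] at hu₁
    exact zero_ne_one hu₁
  obtain ⟨v, hv⟩ : ∃ v, v = (1 + (l : Ω) * x) / (1 + (l : Ω) * x₁) := ⟨_, rfl⟩
  have hvH : Hx π N V v := by
    rw [hv]
    exact (Hx.one.add ((Hx.nat l).mul hx)).div (Hx.one.add ((Hx.nat l).mul hx₁))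
  have hv1 : V.valuation (v - 1) ≤ V.valuation (l : Ω) ^ 2 := by
    have e1 : v - 1 = (l : Ω) * (x - x₁) / (1 + (l : Ω) * x₁) := by
      rw [hv, div_sub_one hun₁]
      congr 1
      ring
    rw [e1, map_div₀, hu₁, div_one, map_mul, sq]
    exact mul_le_mul_right hxx _
  have hq : (y T₀ / y₁ T₀) ^ l = (z / z₁) ^ l * v := by
    rw [div_pow, h, h₁, hv, div_pow]
    field_simp
  have h3 := U.fix he (hz.div hz₁) (div_ne_zero hz0 hz10) hvH hq hv1 hs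
  rw [map_div₀ s, hy.act T₀ hT s hDT, hy₁.act T₀ hT s hDT] at h3
  have h5 := lk_ne D he (hc₁.val s hDN) hT
  have h4 : e (c s) T₀ / e (c₁ s) T₀ = 1 := by
    field_simp at h3 ⊢
    exact h3
  apply U.zero he hT h0 (sub_mem (hc.val s hDN) (hc₁.val s hDN))
  rw [lk_sub D he (hc.val s hDN) (hc₁.val s hDN) hT]
  exact h4

/-- Chunk YQ6 (M). The local condition above cj π over N in the split case. T₀ ≠ 0 in Tor π (gi_gen). r from U.rep. For each i: exists_ptu with u = r i (hl: UV.val_l): P i, y i, class c_i; UV.coef for sys_of: z i, x i, V (x i^q - n x i) < 1. For i ≠ i' not V (x i - x i') < 1: otherwise UV.same: the difference vanishes on JV; cob_inert (inertia elements are in DecN: U.nb.dec) against pt_diff.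
c has (z, x) (UV.coef, sys_of). pigeon2 (2 ≤ q): i with V (x - x i) < 1. UV.same, cob_ram with moved_ram for cj π: c s - (s P_i - P_i) = s X - X. The point P_i + X. -/
theorem loc_conj (U : UV π l N V φ q n) (he : Pairing π l e) {c : (Ω ≃ₐ[F] Ω) → P27 Ω} (hc : Dc π N V c)
    {y : P27 Ω → Ω} (hy : KS π N V e c y) : ∃ P : P27 Ω, ∀ s, DecN N V s → c s = ac W27 s P - P := by
  have D := U.D
  obtain ⟨hl0, _, _, hl00, hl1⟩ := U.val_l
  have hβ : Prime (cj π) := CO2_cj_prime D.pr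
  have hβ3 : Prim (cj π) := CO2_cj_prim D.prim
  have hN : 4 ≤ Nm (cj π) := by
    rw [CO2_Nm_cj]
    rcases dichotomy π l D.hl D.five D.pr D.prim D.dvd with h2 | h2
    · exact absurd (by rw [h2.1]) U.nd
    · rw [h2.2.1]
      have := D.five
      omega
  have hID : ∀ s : Ω ≃ₐ[F] Ω, Inert V s → DecN N V s := fun s hs => U.nb.dec (Or.inl hl1) hs
  obtain ⟨_, T₀, hT₀, _, hz0⟩ := gi_gen (Ω := Ω) π D.pr D.prim
  have hT00 : T₀ ≠ 0 := by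
    intro h
    have h1 := (hz0 1).1 (by rw [act_one, h])
    exact D.pr.not_isUnit (isUnit_of_dvd_one h1)
  obtain ⟨r, hr1, hr2⟩ := U.rep
  have key : ∀ i : Fin q, ∃ (P : P27 Ω) (y₁ : P27 Ω → Ω) (z x : Ω),
      Kr V (H28G.act (cj π) P) ∧
      V.valuation (H28G.tt (H28G.act (cj π) P) - l * r i) < V.valuation (l : Ω) ∧
      Dc π N V (fun s => ac W27 s P - P) ∧ KS π N V e (fun s => ac W27 s P - P) y₁ ∧
      Hx π N V z ∧ z ≠ 0 ∧ Hx π N V x ∧ V.valuation x ≤ 1 ∧ y₁ T₀ ^ l = z ^ l * (1 + l * x) ∧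
      V.valuation (x ^ q - n * x) < 1 := by
    intro i
    obtain ⟨P, B, L, y₁, hP, hPv, -, -, -, -, -, hc₁, hy₁⟩ :=
      exists_ptu D he U.nb U.above hl0 (hr1 i).1 (hr1 i).2
    obtain ⟨z, x, hz, hzn, hx, hx1, hmz, hxe⟩ := U.coef (sys_of D he hc₁ hy₁) hT₀
    exact ⟨P, y₁, z, x, hP, hPv, hc₁, hy₁, hz, hzn, hx, hx1, hmz, hxe⟩
  choose P y₁ z x hP hPv hc₁ hy₁ hz hzn hx hx1 hm hxe using key
  have hinj : ∀ i i', i ≠ i' → ¬ V.valuation (x i - x i') < 1 := by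
    intro i i' hne hlt
    have h1 := U.same he (hc₁ i) (hc₁ i') (hy₁ i) (hy₁ i') hT₀ hT00 (hz i) (hzn i) (hx i) (hx1 i)
      (hm i) (hz i') (hzn i') (hx i') (hx1 i') (hm i') hlt
    obtain ⟨X, hX, hX1⟩ := cob_inert D ((hc₁ i).sub (hc₁ i')) hID h1
    exact pt_diff D U.above hl0 (hr1 i).2 (hr1 i').2 (hP i) (hP i') (hPv i) (hPv i') (hr2 i i' hne)
      ⟨X, hX, hX1⟩
  obtain ⟨z', x', hz', hzn', hx', hx1', hmz', hxe'⟩ := U.coef (sys_of D he hc hy) hT₀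
  have hq2 : 2 ≤ q := by
    obtain ⟨q', hq', hq0⟩ := U.ql
    have h5 := D.five
    rw [hq']
    nlinarith
  obtain ⟨i, hi⟩ := pigeon2 V hq2 x (fun i => ⟨hx1 i, hxe i⟩) hinj hx1' hxe'
  have h1 := U.same he hc (hc₁ i) hy (hy₁ i) hT₀ hT00 hz' hzn' hx' hx1' hmz' (hz i) (hzn i) (hx i)
    (hx1 i) (hm i) hi
  obtain ⟨X, hX, hX1⟩ := cob_ram D (hc.sub (hc₁ i)) hID h1 (H13Z.moved_ram hβ hβ3 hN U.above)
  refine ⟨P i + X, fun s hs => ?_⟩
  have h2 : c s - (ac W27 s (P i) - P i) = ac W27 s X - X := hX1 s hs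
  rw [map_add, sub_eq_iff_eq_add.1 h2]
  abel

end H13Y
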