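import Mathlib
import Pool.Agent.Lib.H13Y.G2
import Pool.Agent.Lib.H13Y.YL2
import Pool.Agent.Lib.H13Y.YQ2
import Pool.Agent.Lib.H13Z.LFG
import Pool.Agent.Lib.H13Z.FZ4

open NumberField IsDedekindDomain

namespace H13Y

open H55P H28G H55B H13S
open H13Z (Dat Cc IsTB)

variable {Ω : Type} [Field Ω] [DecidableEq Ω] [Algebra F Ω] [IsAlgClosure F Ω]

variable {π : O} {l : ℕ} {e : P27 Ω → P27 Ω → Ω} {N L : IntermediateField F Ω} [NumberField N]
  {w : HeightOneSpectrum (𝓞 N)} {c : (Ω ≃ₐ[F] Ω) → P27 Ω} {y : P27 Ω → Ω} {V : ValuationSubring Ω}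

/-- Chunk YG4 (S/M), as H13Z/FZ4.lean Gl.above (FZ4a) over N: RV π l N V (tt T₀) e0 (base: H13Z.RV, nb: G.nb), Dc and KS from dc_of_cc, ks_of_kum with B = N (DecN.1), Lv from G.lev (elements of L are in Hx π N V: tb.fix); loc_inert or loc_split. If vo V (cj π) < 1 and π does not divide cj π: exists_UV, loc_conj. -/
theorem Gl.above (G : Gl π l e N L w c y) (he : Pairing π l e) (hV : V.valuation (l : Ω) < 1) :
    ∃ P : P27 Ω, ∀ s, DecN N V s → c s = ac W27 s P - P := by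
  have hdc : Dc π N V c := dc_of_cc G.cc fun s hs => hs.1
  have hks : KS π N V e c y := ks_of_kum G.tb (fun s hs => hs.1) G.kum
  have hlV : vo V (l : O) < 1 := by rw [H13Z.fz4_nat]; exact hV
  by_cases hπ : vo V π < 1
  · obtain ⟨-, T₀, hT₀, -, hT₀a⟩ := gi_gen (Ω := Ω) π G.D.pr G.D.prim
    have hT₀0 : T₀ ≠ 0 := by
      rintro rfl
      have h1 := (hT₀a 1).1 (map_zero _)
      exact G.D.pr.not_isUnit (isUnit_of_dvd_one h1)
    have hlev : ∀ T ∈ Tor π Ω, Lv π l N V (V.valuation (tt T₀) ^ 2) (y T ^ l) := by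
      intro T hT
      obtain ⟨z, hz, hz0, hz1⟩ := G.lev V hπ T hT T₀ hT₀ hT₀0
      refine ⟨z, fun s hs => ?_, hz0, hz1⟩
      have h1 : s ∈ L.fixingSubgroup := (G.tb.fix s).2 ⟨hs.1.1, hs.2⟩
      exact (IntermediateField.mem_fixingSubgroup_iff L s).1 h1 z hz
    have hl5 := G.D.five
    rcases dichotomy π l G.D.hl G.D.five G.D.pr G.D.prim G.D.dvd with ⟨hin, hq⟩ | ⟨hnd, hq, _⟩
    · have R : RV π l N V (tt T₀) (l + 1) := ⟨⟨G.D, hπ, ⟨T₀, hT₀, hT₀0, rfl⟩, by
        rw [hq]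
        obtain ⟨k, rfl⟩ : ∃ k, l = k + 1 := ⟨l - 1, by omega⟩
        rw [Nat.add_sub_cancel]
        have : (k + 1) ^ 2 = (k + 1 + 1) * k + 1 := by ring
        omega⟩, G.nb⟩
      exact loc_inert R hin hq he hdc hks hlev
    · have R : RV π l N V (tt T₀) 1 := ⟨⟨G.D, hπ, ⟨T₀, hT₀, hT₀0, rfl⟩, by rw [hq, one_mul]⟩, G.nb⟩
      obtain ⟨X, -, hX⟩ := loc_split R hq he hdc hks hlev
      exact ⟨X, hX⟩
  · have hπ1 : vo V π = 1 := le_antisymm (lv_le V π) (not_lt.1 hπ)
    have hcj : vo V (cj π) < 1 := by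
      have h1 : vo V (π * cj π) < 1 := by
        rw [mul_cj, H13Z.fz4_nat]
        obtain ⟨k, hk⟩ := CO2_Nm G.D.hl G.D.pr G.D.dvd
        rw [hk]
        have h2 : vo V ((l : O) * (k : O)) < 1 := by
          rw [lv_mul]
          exact lt_of_le_of_lt (mul_le_of_le_one_right' (lv_le V _)) hlV
        rw [← Nat.cast_mul, H13Z.fz4_nat] at h2
        exact h2
      rwa [lv_mul, hπ1, one_mul] at h1
    have hnd : ¬ π ∣ cj π := by
      intro hd
      rcases dichotomy π l G.D.hl G.D.five G.D.pr G.D.prim G.D.dvd with ⟨hin, _⟩ | ⟨h1, _⟩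
      · rw [hin] at hcj
        exact hπ hcj
      · exact h1 hd
    obtain ⟨φ, q, n, U⟩ := exists_UV G.D G.nb hnd hcj
    exact loc_conj U he hdc hks

/-- Chunk YG5 (S/M), as H13Z/FZ4.lean Gl.local (FZ4b) over N. V 3 < 1: Gl.inert on JV (V l = 1 since 3 and l are coprime; not Abv N V w by Gl.val_w; JV elements are in N.fixingSubgroup by G.nb.inert and fix Tor π: tb.fix), loc_three. V l < 1: Gl.above. Otherwise V 3 = V l = 1; δ = the primary generator of the prime of O below V (as in FZ4b), vo V (cj π) = 1.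
If Abv N V w: loc_good for K = N' with hI from Gl.kill. Otherwise loc_good for K = N with δ, hI from Gl.inert and inert_tors (inertia elements in N.fixingSubgroup fix Tor π, so are in L.fixingSubgroup). N'.fixingSubgroup is contained in N.fixingSubgroup. -/
theorem Gl.local (G : Gl π l e N L w c y) (he : Pairing π l e) {N' : IntermediateField F Ω}
    [NumberField N'] (hNN : N ≤ N')
    (hK : ∀ V : ValuationSubring Ω, Abv N V w → ∀ a ∈ N, a ≠ 0 → ∃ x ∈ N', V.valuation x ^ l = V.valuation a)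
    (hV : V ≠ ⊤) : ∃ P : P27 Ω, ∀ s ∈ N'.fixingSubgroup, Dec V s → c s = ac W27 s P - P := by
  have hfix : ∀ s ∈ N'.fixingSubgroup, s ∈ N.fixingSubgroup := by
    intro s hs
    rw [IntermediateField.mem_fixingSubgroup_iff] at hs ⊢
    exact fun x hx => hs x (hNN hx)
  have hdc : Dc π N V c := dc_of_cc G.cc fun s hs => hs.1
  by_cases h3V : V.valuation (3 : Ω) < 1
  · have hv3 : vo V (3 : O) < 1 := by rw [H13Z.fz4_three]; exact h3V
    have hl1 : V.valuation (l : Ω) = 1 := by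
      rw [← H13Z.fz4_nat]
      exact lv_unit (s0_coprime l G.D.hl G.D.five).symm hv3
    have hw : ¬ Abv N V w := by
      intro h
      have h1 := (G.val_w h).1
      rw [h1] at h3V
      exact lt_irrefl _ h3V
    obtain ⟨X, -, hX⟩ := loc_three G.D G.nb h3V hdc fun s hs =>
      G.inert he hl1 hw hs.1 ((G.tb.fix s).2 ⟨G.nb.inert V (Or.inr h3V) s hs.1, hs.2.1⟩)
    exact ⟨X, fun s hs hsD => hX s ⟨hfix s hs, hsD⟩⟩
  · have h3V1 : V.valuation (3 : Ω) = 1 := by
      rw [← H13Z.fz4_three] at h3V ⊢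
      exact le_antisymm (lv_le V 3) (not_lt.1 h3V)
    by_cases hlV : V.valuation (l : Ω) < 1
    · obtain ⟨P, hP⟩ := G.above he hlV
      exact ⟨P, fun s hs hsD => hP s ⟨hfix s hs, hsD⟩⟩
    · have hlV1 : V.valuation (l : Ω) = 1 := by
        rw [← H13Z.fz4_nat] at hlV ⊢
        exact le_antisymm (lv_le V _) (not_lt.1 hlV)
      have hlv : vo V (l : O) = 1 := by rw [H13Z.fz4_nat]; exact hlV1
      have hcj : vo V (cj π) = 1 := H13Z.fz4_dvd V (s0_dvd G.D.dvd) hlv
      have hπ1 : vo V π = 1 := H13Z.fz4_dvd V G.D.dvd hlv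
      have hm : ∀ s ∈ N'.fixingSubgroup, ∀ t ∈ N'.fixingSubgroup, c (s * t) = c s + ac W27 s (c t) :=
        fun s hs t ht => G.cc.mul s (hfix s hs) t (hfix t ht)
      have hcont : ∃ M : IntermediateField F Ω, FiniteDimensional F M ∧
          ∀ s ∈ N'.fixingSubgroup, s ∈ M.fixingSubgroup → c s = 0 := by
        obtain ⟨M, hM, h1⟩ := G.cc.cont
        exact ⟨M, hM, fun s hs => h1 s (hfix s hs)⟩
      have hval : ∀ s ∈ N'.fixingSubgroup, c s ∈ Tor (cj π) Ω := fun s hs => G.cc.val s (hfix s hs)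
      obtain ⟨δ, hδ, hδp, hδV⟩ := H13Z.fz4_below hV h3V1
      refine H13Z.loc_good hδ hδp hδV h3V1 hcj hm hcont hval fun s hs hi => ?_
      by_cases hw : Abv N V w
      · exact G.kill he hw hNN (hK V hw) hs hi
      · exact G.inert he hlV1 hw hi ((G.tb.fix s).2
          ⟨hfix s hs, fun T hT => H13Z.inert_tors h3V1 hπ1 hi hT⟩)

end H13Y
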