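import Mathlib
import Pool.Agent.Lib.H13Z.GA6
import Pool.Agent.Lib.H13Y.GN0

open NumberField IsDedekindDomain WeierstrassCurve

namespace H13Y

open H55B H55R H28G H99B

theorem gn10_f {γ : O} {N : Type} [Field N] [NumberField N] {f : ℕ} (w : Pl N)
    (hf : Ideal.absNorm w.asIdeal = Nm γ ^ f) : f ≠ 0 := by
  rintro rfl
  rw [pow_zero, Ideal.absNorm_eq_one_iff] at hf
  exact w.isPrime.ne_top hf

theorem gn10_pi {π γ : O} {N : Type} [Field N] [NumberField N] [Algebra F N]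
    {f : ℕ} (h1 : π ∣ γ ^ f - 1) (w : Pl N) (hw : algebraMap O (𝓞 N) γ ∈ w.asIdeal)
    (hf : f ≠ 0) : algebraMap O (𝓞 N) π ∉ w.asIdeal := by
  intro h
  obtain ⟨c, hc⟩ := h1
  have h2 : algebraMap O (𝓞 N) (γ ^ f - 1) ∈ w.asIdeal := by
    rw [hc, map_mul]
    exact w.asIdeal.mul_mem_right _ h
  have h3 : algebraMap O (𝓞 N) (γ ^ f) ∈ w.asIdeal := by
    rw [map_pow]
    exact Ideal.pow_mem_of_mem _ hw f (Nat.pos_of_ne_zero hf)
  have h4 : (1 : 𝓞 N) ∈ w.asIdeal := by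
    have e : (1 : 𝓞 N) = algebraMap O (𝓞 N) (γ ^ f) - algebraMap O (𝓞 N) (γ ^ f - 1) := by
      rw [map_sub, map_one]
      ring
    rw [e]
    exact sub_mem h3 h2
  exact w.isPrime.ne_top ((Ideal.eq_top_iff_one _).2 h4)

theorem gn10_pow {L : Type} [Field L] {Γ : Type} [LinearOrderedCommGroupWithZero Γ] (v : Valuation L Γ)
    {a b : L} (ha : v a ≤ 1) (hb : v b ≤ 1) (h : v (a - b) < 1) (n : ℕ) : v (a ^ n - b ^ n) < 1 := by
  induction n with
  | zero => simp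
  | succ n ih =>
    have e : a ^ (n + 1) - b ^ (n + 1) = a ^ n * (a - b) + (a ^ n - b ^ n) * b := by ring
    rw [e]
    refine Valuation.map_add_lt _ ?_ ?_
    · rw [map_mul, map_pow]
      exact (mul_le_of_le_one_left' (pow_le_one' ha n)).trans_lt h
    · rw [map_mul]
      exact (mul_le_of_le_one_right' hb).trans_lt ih

theorem gn10_kron {L : Type} [Field L] [NumberField L] [DecidableEq L] [Algebra F L] {π γ : O}
    (hγ : Prime γ) (hγ3 : Prim γ) (Q : Pl L) (hQ : algebraMap O (𝓞 L) γ ∈ Q.asIdeal)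
    (hπQ : algebraMap O (𝓞 L) π ∉ Q.asIdeal) {R : P27 L} (hR : R ∈ Tor π L) (h0 : R ≠ 0) :
    Q.valuation L (xc (act γ R) - xc R ^ Nm γ) < 1 ∧ Q.valuation L (yc (act γ R) - yc R ^ Nm γ) < 1 := by
  obtain ⟨B, _, _, _, _, _, _, hB⟩ := exists_TFld L γ hγ.ne_zero
  obtain ⟨W, hW⟩ := under_exists (L := B) Q
  obtain ⟨j⟩ := exists_emb (N := B)
  let i : L →ₐ[F] B := IsScalarTower.toAlgHom F L B
  have hi : ∀ x : L, i x = algebraMap L B x := fun x => rfl
  have hak : ∀ c : O, ak B c = algebraMap L B (ak L c) := fun c =>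
    IsScalarTower.algebraMap_apply F L B (c : F)
  have hT0 : mp i R ≠ 0 := mp_ne i h0
  have hx : Q.valuation L (xc R) ≤ 1 := tor_int Q hπQ hR h0
  have hint : W.valuation B (xc (mp i R)) ≤ 1 := by
    rw [xc_mp, hi]
    exact lift_le Q W hW _ hx
  have hvγ1 : Q.valuation L (ak L γ) < 1 := by
    rw [ak_int]
    exact (HeightOneSpectrum.valuation_lt_one_iff_mem (K := L) Q _).2 hQ
  have hv' : W.valuation B (ak B γ) < 1 := by
    rw [hak]
    exact lift_lt Q W hW _ hvγ1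
  obtain ⟨k1, k2, k3, k4⟩ := kron (W.valuation B) j hγ hγ3 hB.full hv' hT0 hint
  rw [← mp_act, xc_mp, xc_mp, hi, hi, ← map_pow, ← map_sub] at k3
  rw [← mp_act, yc_mp, yc_mp, hi, hi, ← map_pow, ← map_sub] at k4
  exact ⟨H13Z.ga6_down Q W hW _ k3, H13Z.ga6_down Q W hW _ k4⟩

theorem gn10_iter {L : Type} [Field L] [NumberField L] [DecidableEq L] [Algebra F L] {π γ : O}
    (hp : Prime π) (hγ : Prime γ) (hγ3 : Prim γ) (hπγ : ¬ π ∣ γ) (Q : Pl L)
    (hQ : algebraMap O (𝓞 L) γ ∈ Q.asIdeal)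
    (hπQ : algebraMap O (𝓞 L) π ∉ Q.asIdeal) {R : P27 L} (hR : R ∈ Tor π L) (h0 : R ≠ 0) (i : ℕ) :
    act (γ ^ i) R ∈ Tor π L ∧ act (γ ^ i) R ≠ 0 ∧
    Q.valuation L (xc (act (γ ^ i) R) - xc R ^ (Nm γ ^ i)) < 1 ∧
    Q.valuation L (yc (act (γ ^ i) R) - yc R ^ (Nm γ ^ i)) < 1 := by
  have hx : Q.valuation L (xc R) ≤ 1 := tor_int Q hπQ hR h0
  have hy : Q.valuation L (yc R) ≤ 1 := int_y (Q.valuation L) hx
  induction i with
  | zero =>
    rw [pow_zero, act_one, pow_zero, pow_one, pow_one, sub_self, sub_self, map_zero]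
    exact ⟨hR, h0, zero_lt_one, zero_lt_one⟩
  | succ i ih =>
    obtain ⟨i1, i2, i3, i4⟩ := ih
    have hx' : Q.valuation L (xc (act (γ ^ i) R)) ≤ 1 := tor_int Q hπQ i1 i2
    have hy' : Q.valuation L (yc (act (γ ^ i) R)) ≤ 1 := int_y (Q.valuation L) hx'
    obtain ⟨k3, k4⟩ := gn10_kron hγ hγ3 Q hQ hπQ i1 i2
    have e : act (γ ^ (i + 1)) R = act γ (act (γ ^ i) R) := by
      rw [pow_succ', act_mul]
    rw [e]
    refine ⟨?_, ?_, ?_, ?_⟩
    · rw [mem_Tor] at i1 ⊢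
      rw [← act_mul, mul_comm, act_mul, i1, map_zero]
    · intro h
      exact hπγ ((act_eq_zero hp i1 i2 γ).1 h)
    · have e2 : xc (act γ (act (γ ^ i) R)) - xc R ^ (Nm γ ^ (i + 1)) =
          (xc (act γ (act (γ ^ i) R)) - xc (act (γ ^ i) R) ^ Nm γ) +
            (xc (act (γ ^ i) R) ^ Nm γ - (xc R ^ (Nm γ ^ i)) ^ Nm γ) := by
        rw [← pow_mul, ← pow_succ]
        ring
      rw [e2]
      refine Valuation.map_add_lt _ k3 (gn10_pow _ hx' ?_ i3 _)
      rw [map_pow]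
      exact pow_le_one' hx _
    · have e2 : yc (act γ (act (γ ^ i) R)) - yc R ^ (Nm γ ^ (i + 1)) =
          (yc (act γ (act (γ ^ i) R)) - yc (act (γ ^ i) R) ^ Nm γ) +
            (yc (act (γ ^ i) R) ^ Nm γ - (yc R ^ (Nm γ ^ i)) ^ Nm γ) := by
        rw [← pow_mul, ← pow_succ]
        ring
      rw [e2]
      refine Valuation.map_add_lt _ k4 (gn10_pow _ hy' ?_ i4 _)
      rw [map_pow]
      exact pow_le_one' hy _

/-- Chunk GN10a (M), PORT of H13Z.stab_gamma (GA6.lean) to the base field N: w a prime of N above γ with Nm w = (Nm γ)^f, π | γ^f - 1. Frobenius g at Q over w: g x = x^(Nm γ)^f modulo Q; kron f times: act (γ^i) T is integral at the prime above Q, congruent to (x^(Nm γ)^i, y^(Nm γ)^i) (induction on i; act γ R is again in Tor π and ≠ 0; x = x' modulo implies x^n = x'^n), so g T = act (γ^f) T = T.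
(f ≠ 0 because absNorm w ≠ 1; γ ∈ w; 3 ∉ w as γ = 1 modulo 3; π ∉ w as π | γ^f - 1.) es N L w = 1: H28G.unram. -/
theorem stab_N {π γ : O} (hp : Prime π) {N L : Type} [Field N] [NumberField N] [Field L] [NumberField L]
    [DecidableEq L] [Algebra F N] [Algebra N L] [Algebra F L] [IsScalarTower F N L] (hL : TFld N L π)
    (hγ : Prime γ) (hγ3 : Prim γ) {f : ℕ} (h1 : π ∣ γ ^ f - 1) (w : Pl N)
    (hw : algebraMap O (𝓞 N) γ ∈ w.asIdeal) (hf : Ideal.absNorm w.asIdeal = Nm γ ^ f) (Q : Pl L)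
    (hQ : Q.under (𝓞 N) = w) (σ : Gal(L/N)) (hσ : smulP σ Q = Q) : σ = 1 := by
  have hgal : IsGalois N L := hL.gal
  have hf0 : f ≠ 0 := gn10_f w hf
  have hπw := gn10_pi h1 w hw hf0
  have h3w : (3 : 𝓞 N) ∉ w.asIdeal := by
    intro h
    obtain ⟨c, hc⟩ := hγ3
    have e : (1 : 𝓞 N) = algebraMap O (𝓞 N) γ - 3 * algebraMap O (𝓞 N) c := by
      have h2 := congrArg (algebraMap O (𝓞 N)) hc
      rw [map_sub, map_one, map_mul, map_ofNat] at h2
      rw [← h2]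
      ring
    apply w.isPrime.ne_top
    rw [Ideal.eq_top_iff_one, e]
    exact sub_mem hw (w.asIdeal.mul_mem_right _ h)
  have htow : ∀ c : O, algebraMap O (𝓞 L) c = algebraMap (𝓞 N) (𝓞 L) (algebraMap O (𝓞 N) c) :=
    fun c => RingOfIntegers.ext (IsScalarTower.algebraMap_apply F N L (c : F))
  have hund : ∀ x : 𝓞 N, x ∈ w.asIdeal ↔ algebraMap (𝓞 N) (𝓞 L) x ∈ Q.asIdeal := by
    intro x
    rw [← hQ]
    rfl
  have h3Q : (3 : 𝓞 L) ∉ Q.asIdeal := by
    intro h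
    apply h3w
    rw [hund, map_ofNat]
    exact h
  have hπQ : algebraMap O (𝓞 L) π ∉ Q.asIdeal := by
    intro h
    apply hπw
    rw [hund, ← htow]
    exact h
  have hγQ : algebraMap O (𝓞 L) γ ∈ Q.asIdeal := by
    rw [htow, ← hund]
    exact hw
  have hπγ : ¬ π ∣ γ := by
    intro h
    apply hp.not_isUnit
    apply isUnit_of_dvd_one
    have e : (1 : O) = γ ^ f - (γ ^ f - 1) := by ring
    rw [e]
    exact dvd_sub (h.trans (dvd_pow_self _ hf0)) h1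
  have hes : es N L w = 1 := unram (K := N) hL w h3w hπw
  obtain ⟨g, hg⟩ := K6_frob (K := N) Q
  have hg1 : g = 1 := by
    apply hL.gen
    intro R hR
    by_cases h0 : R = 0
    · rw [h0, map_zero]
    have hx : Q.valuation L (xc R) ≤ 1 := tor_int Q hπQ hR h0
    have hy : Q.valuation L (yc R) ≤ 1 := int_y (Q.valuation L) hx
    obtain ⟨-, -, k3, k4⟩ := gn10_iter hp hγ hγ3 hπγ Q hγQ hπQ hR h0 f
    have hact : act (γ ^ f) R = R := by
      have h2 : act (γ ^ f - 1) R = 0 := (act_eq_zero hp hR h0 _).2 h1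
      rw [act_sub, act_one, sub_eq_zero] at h2
      exact h2
    rw [hact] at k3 k4
    have f1 := K6_frob_val Q w hQ g hg (xc R) hx
    have f2 := K6_frob_val Q w hQ g hg (yc R) hy
    rw [hf] at f1 f2
    refine fix_of_cong Q h3Q hπQ ((sp_mem g π R).2 hR) hR (sp_ne g h0) h0 ?_ ?_
    · rw [xc_sp]
      have e : g (xc R) - xc R = (g (xc R) - xc R ^ (Nm γ ^ f)) - (xc R - xc R ^ (Nm γ ^ f)) := by ring
      rw [e]
      exact Valuation.map_sub_lt _ f1 k3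
    · rw [yc_sp]
      have e : g (yc R) - yc R = (g (yc R) - yc R ^ (Nm γ ^ f)) - (yc R - yc R ^ (Nm γ ^ f)) := by ring
      rw [e]
      exact Valuation.map_sub_lt _ f2 k4
  have hl : Q.asIdeal.LiesOver w.asIdeal := (BF2_mem w Q hQ).2
  have hcomm := BF1_comm (K := N) (L := L)
  obtain ⟨n, hn⟩ := X7_pow w hes Q g hg σ (congrArg HeightOneSpectrum.asIdeal hσ)
  rw [hn, hg1, one_pow]

/-- Chunk GN10b (S). π ∉ w. -/
theorem pi_not_mem {π γ : O} (hp : Prime π) {N : Type} [Field N] [NumberField N] [Algebra F N]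
    {f : ℕ} (h1 : π ∣ γ ^ f - 1) (w : Pl N) (hw : algebraMap O (𝓞 N) γ ∈ w.asIdeal)
    (hf : Ideal.absNorm w.asIdeal = Nm γ ^ f) : algebraMap O (𝓞 N) π ∉ w.asIdeal := by
  exact gn10_pi h1 w hw (gn10_f w hf)

end H13Y
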