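import Mathlib
import Pool.Agent.Lib.H13Z.KB2
import Pool.Agent.Lib.H13Y.GN0

open NumberField IsDedekindDomain WeierstrassCurve

namespace H13Y

open H55P H28G H55B H13S H55R H99B
open H13Z (Dat Cc IsTB)

variable {Ω : Type} [Field Ω] [DecidableEq Ω] [Algebra F Ω] [IsAlgClosure F Ω]

/-- The structure of an extension of N on L. -/
@[reducible] noncomputable def algNL {N L : IntermediateField F Ω} (h : N ≤ L) : Algebra N L :=
  (IntermediateField.inclusion h).toRingHom.toAlgebra

/-- The restriction of s (over N) to L. -/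
theorem exists_restr {π : O} {N L : IntermediateField F Ω} (hL : IsTB π N L) :
    letI := algNL hL.le
    ∀ s ∈ N.fixingSubgroup, ∃ g : Gal(L/N), ∀ x : L, ((g x : L) : Ω) = s (x : Ω) := by
  letI := algNL hL.le
  intro s hs
  have hs' : s⁻¹ ∈ N.fixingSubgroup := Subgroup.inv_mem _ hs
  have hmap : ∀ y : N, ((algebraMap N L y : L) : Ω) = (y : Ω) := fun _ => rfl
  refine ⟨AlgEquiv.ofBijective
    { toFun := fun x => ⟨s (x : Ω), H13Z.tb_stable hL s hs x⟩
      map_one' := Subtype.ext (map_one s)
      map_mul' := fun x y => Subtype.ext (map_mul s _ _)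
      map_zero' := Subtype.ext (map_zero s)
      map_add' := fun x y => Subtype.ext (map_add s _ _)
      commutes' := fun y => Subtype.ext ((IntermediateField.mem_fixingSubgroup_iff N _).1 hs _ y.2) }
    ⟨fun x y hxy => ?_, fun y => ?_⟩, fun x => rfl⟩
  · have h1 : s (x : Ω) = s (y : Ω) := congrArg Subtype.val hxy
    exact Subtype.ext (s.injective h1)
  · refine ⟨⟨s⁻¹ (y : Ω), H13Z.tb_stable hL s⁻¹ hs' y⟩, Subtype.ext ?_⟩
    show s (s⁻¹ (y : Ω)) = y
    exact s.apply_symm_apply _

/-- points over Ω killed by π come from L -/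
theorem gn12a_lift {π : O} {N L : IntermediateField F Ω} (hL : IsTB π N L) {R : P27 Ω}
    (hR : R ∈ Tor π Ω) : ∃ S ∈ Tor π L, mp L.val S = R := by
  by_cases h0 : R = 0
  · exact ⟨0, AddSubgroup.zero_mem _, by rw [map_zero, h0]⟩
  have hfix : ∀ s ∈ L.fixingSubgroup, s (xc R) = xc R ∧ s (yc R) = yc R := by
    intro s hs
    have h1 := ((hL.fix s).1 hs).2 R hR
    rw [ac_eq] at h1
    refine ⟨?_, ?_⟩
    · conv_rhs => rw [← h1, xc_mp]
      rfl
    · conv_rhs => rw [← h1, yc_mp]
      rfl
  have hx : xc R ∈ L := ku2_mem L fun s hs => (hfix s hs).1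
  have hy : yc R ∈ L := ku2_mem L fun s hs => (hfix s hs).2
  have he : (⟨yc R, hy⟩ : L) ^ 2 + ⟨yc R, hy⟩ = (⟨xc R, hx⟩ : L) ^ 3 :=
    Subtype.ext (eqn R)
  have hm : mp L.val (pt ⟨xc R, hx⟩ ⟨yc R, hy⟩ he) = R :=
    pt_ext (mp_ne L.val (pt_ne _ _ _)) h0 (by rw [xc_mp, xc_pt]; rfl) (by rw [yc_mp, yc_pt]; rfl)
  exact ⟨_, (mp_mem_Tor L.val π _).1 (by rw [hm]; exact hR), hm⟩

/-- Chunk GN12a (M). L = N(E[π]) as an abstract extension. Full π L: every point of Tor π Ω comes from a point over L (its coordinates are fixed by L.fixingSubgroup, H13S.ku2_mem; full_Om and the card of Tor π Ω: compare lift_pt in H99B/Geom.lean, TF_TFld in H13S). Galois: L/N is finite, separable (characteristic 0) and normal: the restrictions of the s in N.fixingSubgroup have L as stable field (H13Z.tb_stable) and the fixed field of N.fixingSubgroup in Ω is N (Ω/F is Galois: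
every element of L fixed by all g in Gal(L/N) lies in N; IsGalois.of_fixedField_eq_bot / isGalois_iff_isSeparable..; exists_restr). gen: g fixing the points of Tor π L: extend g to s in N.fixingSubgroup (AlgEquiv lift: IsAlgClosure, or IntermediateField / AlgHom.restrictNormal); s fixes Tor π Ω, s in L.fixingSubgroup (hL.fix), g = 1. -/
theorem tfld_of_tb {π : O} (hp : Prime π) {N L : IntermediateField F Ω} (hL : IsTB π N L) :
    letI := algNL hL.le
    ∃ _ : IsScalarTower F N L, TFld N L π := by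
  letI := algNL hL.le
  have hT : IsScalarTower F N L := IsScalarTower.of_algebraMap_eq fun x => Subtype.ext rfl
  have halg : IsAlgClosed Ω := IsAlgClosure.isAlgClosed F
  have hint : Algebra.IsAlgebraic F Ω := IsAlgClosure.isAlgebraic
  have hfL : FiniteDimensional F L := hL.fin
  have hfin : FiniteDimensional N L := Module.Finite.of_restrictScalars_finite F N L
  refine ⟨hT, ?_, ?_, ?_⟩
  · apply IsGalois.of_fixedField_eq_bot
    rw [eq_bot_iff]
    intro x hx
    rw [IntermediateField.mem_fixedField_iff] at hx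
    have h1 : (x : Ω) ∈ N := by
      apply ku2_mem
      intro s hs
      obtain ⟨g, hg⟩ := exists_restr hL s hs
      rw [← hg x, hx g (Subgroup.mem_top g)]
    rw [IntermediateField.mem_bot]
    exact ⟨⟨x, h1⟩, Subtype.ext rfl⟩
  · unfold Full
    have hO := full_Om Ω π hp.ne_zero
    unfold Full at hO
    rw [← hO]
    let φ : Tor π L → Tor π Ω := fun S => ⟨mp L.val S.1, (mp_mem_Tor L.val π S.1).2 S.2⟩
    have hφ : Function.Bijective φ := by
      refine ⟨fun a c hac => Subtype.ext (mp_inj L.val (congrArg Subtype.val hac)), ?_⟩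
      intro R
      obtain ⟨S, hS, hS'⟩ := gn12a_lift hL R.2
      exact ⟨⟨S, hS⟩, Subtype.ext hS'⟩
    exact Nat.card_congr (Equiv.ofBijective φ hφ)
  · intro σ hσ
    have hn : Normal F Ω := IsAlgClosure.normal F Ω
    let σ' : L ≃ₐ[F] L := AlgEquiv.restrictScalars F σ
    let s : Ω ≃ₐ[F] Ω := AlgEquiv.liftNormal σ' Ω
    have hs : ∀ x : L, s (x : Ω) = ((σ x : L) : Ω) := fun x => AlgEquiv.liftNormal_commutes σ' Ω x
    have hsN : s ∈ N.fixingSubgroup := by
      rw [IntermediateField.mem_fixingSubgroup_iff]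
      intro y hy
      have h1 := hs (algebraMap N L ⟨y, hy⟩)
      rw [σ.commutes] at h1
      exact h1
    have hsL : s ∈ L.fixingSubgroup := by
      rw [hL.fix]
      refine ⟨hsN, fun T hT' => ?_⟩
      obtain ⟨S, hS, rfl⟩ := gn12a_lift hL hT'
      rw [ac_eq]
      by_cases h0 : S = 0
      · rw [h0, map_zero, map_zero]
      have h2 := hσ S hS
      refine pt_ext (mp_ne _ (mp_ne _ h0)) (mp_ne _ h0) ?_ ?_
      · rw [xc_mp, xc_mp]
        have h3 : σ (xc S) = xc S := by rw [← xc_sp, h2]
        exact (hs (xc S)).trans (congrArg Subtype.val h3)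
      · rw [yc_mp, yc_mp]
        have h3 : σ (yc S) = yc S := by rw [← yc_sp, h2]
        exact (hs (yc S)).trans (congrArg Subtype.val h3)
    ext x
    rw [← hs x]
    exact (IntermediateField.mem_fixingSubgroup_iff L _).1 hsL _ x.2

end H13Y
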