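import Mathlib
import Pool.Agent.Lib.H55P.GD
import Pool.Agent.Lib.H13Y.GN0

open NumberField IsDedekindDomain

namespace H13Y

open H55B H55R H28G H99B

/-- Chunk GN9a (S). π divides l in O and l 𝓞 N is squarefree: v divides π exactly once. (v.asIdeal^2 divides span {π} would give v.asIdeal^2 | span {l}, Squarefree gives v.asIdeal = ⊤; valuation: Multiplicity as in H28G.K7 or H55P.) -/
theorem unr_val {l : ℕ} (hl : l ≠ 0) {π : O} (hd : π ∣ (l : O)) {N : Type} [Field N] [NumberField N]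
    [Algebra F N] (hU : H55P.UnrP l N) (v : Pl N) (hv : algebraMap O (𝓞 N) π ∈ v.asIdeal) :
    v.valuation N (ak N π) = WithZero.exp (-1 : ℤ) := by
  have hl0 : (l : 𝓞 N) ≠ 0 := Nat.cast_ne_zero.2 hl
  have hx : algebraMap O (𝓞 N) π ∣ (l : 𝓞 N) := by
    have h := map_dvd (algebraMap O (𝓞 N)) hd
    rwa [map_natCast] at h
  have hx0 : algebraMap O (𝓞 N) π ≠ 0 := fun h => hl0 (by rwa [h, zero_dvd_iff] at hx)
  have h1 : ak N π = algebraMap (𝓞 N) N (algebraMap O (𝓞 N) π) := rfl
  rw [h1, HeightOneSpectrum.valuation_of_algebraMap]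
  have hle : v.intValuation (algebraMap O (𝓞 N) π) ≤ WithZero.exp (-((1 : ℕ) : ℤ)) := by
    rw [HeightOneSpectrum.intValuation_le_pow_iff_dvd, pow_one, Ideal.dvd_span_singleton]
    exact hv
  have hnle : ¬ v.intValuation (algebraMap O (𝓞 N) π) ≤ WithZero.exp (-((2 : ℕ) : ℤ)) := by
    rw [HeightOneSpectrum.intValuation_le_pow_iff_dvd]
    intro h
    have h2 : v.asIdeal * v.asIdeal ∣ Ideal.span {(l : 𝓞 N)} := by
      rw [← pow_two]
      refine h.trans ?_
      rw [Ideal.dvd_iff_le, Ideal.span_singleton_le_span_singleton]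
      exact hx
    have h3 := hU v.asIdeal h2
    exact v.isPrime.ne_top (Ideal.isUnit_iff.1 h3)
  rw [HeightOneSpectrum.intValuation_if_neg _ hx0] at hle hnle ⊢
  rw [WithZero.exp_le_exp] at hle hnle
  congr 1
  push_cast at hle hnle
  omega

end H13Y
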