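import Mathlib
import Pool.Agent.Lib.H13Y.GN9a
import Pool.Agent.Lib.H13Y.GN10
import Pool.Agent.Lib.H13Y.GN11b
import Pool.Agent.Lib.H13Y.GN12a

open NumberField IsDedekindDomain WeierstrassCurve

namespace H13Y

open H55P H28G H55B H13S H55R H99B
open H13Z (Dat Cc IsTB)

variable {Ω : Type} [Field Ω] [DecidableEq Ω] [Algebra F Ω] [IsAlgClosure F Ω]

theorem gn12b_lift {π : O} {N L : IntermediateField F Ω} (hL : IsTB π N L) {R : P27 Ω}
    (hR : R ∈ Tor π Ω) : ∃ R' ∈ Tor π L, mp L.val R' = R := by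
  by_cases h0 : R = 0
  · exact ⟨0, zero_mem _, by rw [map_zero, h0]⟩
  · have hx : ∀ s ∈ L.fixingSubgroup, s (xc R) = xc R ∧ s (yc R) = yc R := by
      intro s hs
      have h1 := ((hL.fix s).1 hs).2 R hR
      rw [ac_eq] at h1
      constructor
      · have h2 := congrArg xc h1
        rw [xc_mp] at h2
        exact h2
      · have h2 := congrArg yc h1
        rw [yc_mp] at h2
        exact h2
    have hxL : xc R ∈ L := ku2_mem L fun s hs => (hx s hs).1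
    have hyL : yc R ∈ L := ku2_mem L fun s hs => (hx s hs).2
    have he : (⟨yc R, hyL⟩ : L) ^ 2 + ⟨yc R, hyL⟩ = (⟨xc R, hxL⟩ : L) ^ 3 := Subtype.ext (eqn R)
    have h1 : mp L.val (pt _ _ he) = R :=
      pt_ext (mp_ne _ (pt_ne _ _ _)) h0 (by rw [xc_mp]; rfl) (by rw [yc_mp]; rfl)
    refine ⟨pt _ _ he, ?_, h1⟩
    rw [← mp_mem_Tor L.val, h1]
    exact hR

/-- Chunk GN12b (M). The global class over N, in terms of points over Ω: PORT of H13Z.glob_pts (GA8.lean) with N.fixingSubgroup for the whole group: exists_residue, H28G.exists_chi, exists_tor T₀ over L, m T = m₀ (q c) if T = mp (act c T₀). stab_N, pi_not_mem, glob_N (hun = unr_val hl0 D.dvd hU). W with an element x of w which is a unit at W is not above w. -/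
theorem glob_cls {π : O} {l : ℕ} (D : Dat π l) {N L : IntermediateField F Ω} [NumberField N]
    [NumberField L] (hL : IsTB π N L) (hU : UnrP l N) {γ : O} (hγ : Prime γ) (hγ3 : Prim γ) {f : ℕ}
    (h1 : π ∣ γ ^ f - 1) (w : Pl N) (hw : algebraMap O (𝓞 N) γ ∈ w.asIdeal)
    (hf : Ideal.absNorm w.asIdeal = H55B.Nm γ ^ f) :
    ∃ m : P27 Ω → Lˣ,
      (∀ T ∈ Tor π Ω, ∀ T' ∈ Tor π Ω, ∃ z : Lˣ, m (T + T') = m T * m T' * z ^ l) ∧
      (∀ s ∈ N.fixingSubgroup, ∀ T ∈ Tor π Ω, ∃ z : Lˣ,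
        ((m (ac W27 s T) : L) : Ω) = s ((m T : L) : Ω) * ((z : L) : Ω) ^ l) ∧
      (∀ T ∈ Tor π Ω, ∀ W : Pl L,
        (∃ x : 𝓞 N, x ∈ w.asIdeal ∧ W.valuation L (IntermediateField.inclusion hL.le (x : N)) = 1) →
          (l : ℤ) ∣ ord W (m T)) ∧
      (∀ T ∈ Tor π Ω, ∀ W : Pl L, W.valuation L (algebraMap F L (π : F)) < 1 → ∃ z : Lˣ,
        W.valuation L (((m T * (z ^ l)⁻¹ : Lˣ) : L) - 1) ≤ WithZero.exp (-2 : ℤ)) ∧
      ∃ T ∈ Tor π Ω, ∀ z : Lˣ, m T ≠ z ^ l := by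
  classical
  have : Fact l.Prime := ⟨D.hl⟩
  let _ := algNL hL.le
  have hint : Algebra.IsAlgebraic F Ω := IsAlgClosure.isAlgebraic
  obtain ⟨htow, hTF⟩ := tfld_of_tb D.pr hL
  have hrestr := exists_restr hL
  have hgal : IsGalois N L := hTF.gal
  obtain ⟨k, i1, i2, i3, q, hq, hk⟩ := exists_residue D.hl D.pr D.dvd
  obtain ⟨χ, hχi, hχ⟩ := H28G.exists_chi D.pr hTF q hq hk
  obtain ⟨T₀, hT₀, h0⟩ := exists_tor D.pr hTF.full
  have hwπ := pi_not_mem D.pr h1 w hw hf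
  obtain ⟨m₀, hm, hm1, hm2, a0, hm3⟩ := glob_N D.five D.pr D.prim D.dvd hTF
    (fun v hv => unr_val D.hl.ne_zero D.dvd hU v hv) q hq hk χ hχ w hwπ
    (fun Q hQ σ hσ => stab_N D.pr hTF hγ hγ3 h1 w hw hf Q hQ σ hσ)
  have hmem : ∀ (c : O) (v : Pl L), v.valuation L (algebraMap F L (c : F)) < 1 →
      algebraMap O (𝓞 L) c ∈ v.asIdeal := by
    intro c v hv
    have h1 : algebraMap F L (c : F) = algebraMap (𝓞 L) L (algebraMap O (𝓞 L) c) := rfl
    rw [h1, HeightOneSpectrum.valuation_lt_one_iff_mem] at hv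
    exact hv
  have hact0 : ∀ c c' : O, act c T₀ = act c' T₀ → q c = q c' := by
    intro c c' h
    have h1 : act (c - c') T₀ = 0 := by rw [act_sub, h, sub_self]
    rw [act_eq_zero D.pr hT₀ h0, ← hk, map_sub, sub_eq_zero] at h1
    exact h1
  have hex : ∀ T : P27 Ω, ∃ c : O, T ∈ Tor π Ω → mp L.val (act c T₀) = T := by
    intro T
    by_cases hT : T ∈ Tor π Ω
    · obtain ⟨R, hR, rfl⟩ := gn12b_lift hL hT
      obtain ⟨c, hc⟩ := tor_gen D.pr hTF.full hT₀ hR h0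
      exact ⟨c, fun _ => by rw [hc]⟩
    · exact ⟨0, fun h => absurd h hT⟩
  choose cc hcc using hex
  have hinj := mp_inj L.val
  have hPt : ∀ c : O, act c T₀ ∈ Tor π L := fun c => by
    rw [mem_Tor, ← act_mul, mul_comm, act_mul, mem_Tor.1 hT₀, map_zero]
  have hP : ∀ c : O, mp L.val (act c T₀) ∈ Tor π Ω := fun c => (mp_mem_Tor _ _ _).2 (hPt c)
  have hdet : ∀ (c : O), q (cc (mp L.val (act c T₀))) = q c := by
    intro c
    exact hact0 _ _ (hinj (hcc _ (hP c)))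
  refine ⟨fun T => m₀ (q (cc T)), ?_, ?_, ?_, ?_, ?_⟩
  · intro T hT T' hT'
    have h2 : q (cc (T + T')) = q (cc T) + q (cc T') := by
      rw [← map_add, ← hdet (cc T + cc T')]
      congr 2
      rw [act_add, map_add, hcc T hT, hcc T' hT']
    show ∃ z, m₀ (q (cc (T + T'))) = _
    rw [h2]
    exact hm.add _ _
  · intro σ hσ T hT
    obtain ⟨s, hs⟩ := hrestr σ hσ
    obtain ⟨c, hc⟩ := hq (χ s : k)
    have h2 : ac W27 σ T = mp L.val (act (c * cc T) T₀) := by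
      rw [act_mul, ← hχ s c hc _ (hPt (cc T))]
      conv_lhs => rw [← hcc T hT]
      rw [ac_eq]
      have hR := hPt (cc T)
      generalize act (cc T) T₀ = R at hR
      by_cases hR0 : R = 0
      · rw [hR0]
        simp only [map_zero]
      · refine pt_ext (mp_ne _ (mp_ne _ hR0)) (mp_ne _ (sp_ne s hR0)) ?_ ?_
        · rw [xc_mp, xc_mp, xc_mp, xc_sp]
          exact (hs _).symm
        · rw [yc_mp, yc_mp, yc_mp, yc_sp]
          exact (hs _).symm
    have h3 : q (cc (ac W27 σ T)) = χ s * q (cc T) := by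
      rw [h2, hdet, map_mul, hc]
    obtain ⟨z, hz⟩ := hm.equiv s (q (cc T))
    refine ⟨z, ?_⟩
    show ((m₀ (q (cc (ac W27 σ T))) : L) : Ω) = _
    rw [h3, hz, ← hs]
    rfl
  · intro T hT W hW
    obtain ⟨x, hx, hxW⟩ := hW
    refine hm1 _ W fun hWw => ?_
    rw [← hWw] at hx
    have h2 : algebraMap (𝓞 N) (𝓞 L) x ∈ W.asIdeal := hx
    have h3 := (HeightOneSpectrum.valuation_lt_one_iff_mem (K := L) W _).2 h2
    have h4 : W.valuation L (IntermediateField.inclusion hL.le (x : N)) < 1 := h3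
    rw [hxW] at h4
    exact lt_irrefl _ h4
  · intro T hT v hv
    exact hm2 _ v (hmem π v hv)
  · obtain ⟨c, hc⟩ := hq a0
    refine ⟨mp L.val (act c T₀), hP c, ?_⟩
    intro z
    show m₀ (q (cc (mp L.val (act c T₀)))) ≠ z ^ l
    rw [hdet, hc]
    exact hm3 z

end H13Y
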