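import Mathlib
import Pool.Agent.Lib.H13Y.Defs
import Pool.Agent.Lib.H13Z.LE
import Pool.Agent.Lib.H13S.VW
import Pool.Agent.Lib.H55P.Z10
import Pool.Agent.Lib.H55P.I6

open NumberField IsDedekindDomain

namespace H13Y

open H55P H28G H55B H13S
open H13Z (Dat Cc IsTB)

theorem yn1_fin {Ω : Type} [Field Ω] [Algebra F Ω] (K : IntermediateField F Ω) [NumberField K] :
    FiniteDimensional F K := by
  have : IsScalarTower ℚ F K := IsScalarTower.of_algebraMap_eq' (Subsingleton.elim _ _)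
  exact Module.Finite.of_restrictScalars_finite ℚ F K

/-- Chunk YN1 (M). Inertia elements above an unramified prime of a normal extension act trivially on it. w below V (exists_below), v₀ = w.under O: h v₀. Gal(L₀/F): L₀ is normal over F (hn), IsGalois. Ideal.card_inertia_eq_ramificationIdxIn: the inertia group of w has e elements, e = 1 because not RamF (all primes above v₀ have index < 2; ramificationIdxIn).
σ = restriction of s to L₀ lies in the inertia group: for x in 𝓞 L₀, x in V, V (s x - x) < 1, so σ x - x in w (Abv.lt). So σ = 1. -/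
theorem inert_triv {Ω : Type} [Field Ω] [DecidableEq Ω] [Algebra F Ω] [IsAlgClosure F Ω]
    {L₀ : IntermediateField F Ω} [NumberField L₀] (hn : ∀ s : Ω ≃ₐ[F] Ω, ∀ x ∈ L₀, s x ∈ L₀)
    {V : ValuationSubring Ω} (hV : ∃ x : L₀, (x : Ω) ∉ V)
    (h : ∀ v₀ : HeightOneSpectrum O, (∀ x : O, x ∈ v₀.asIdeal ↔ V.valuation (algebraMap F Ω (x : F)) < 1) →
      ¬ RamF L₀ v₀.asIdeal) {s : Ω ≃ₐ[F] Ω} (hs : Inert V s) : s ∈ L₀.fixingSubgroup := by
  have hac : IsAlgClosed Ω := IsAlgClosure.isAlgClosed F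
  have hal : Algebra.IsAlgebraic F Ω := IsAlgClosure.isAlgebraic
  have hcz : CharZero Ω := charZero_of_injective_algebraMap (algebraMap F Ω).injective
  have hfin : FiniteDimensional F L₀ := yn1_fin L₀
  refine inert_mem ⊥ L₀ bot_le (fun s _ => hn s) V ?_ s (H13Z.fix_bot s) hs
  intro v hv hram
  obtain ⟨v₀, h1, h2, -⟩ := bot_conv (⟨0, 0, 0, 0, 0⟩ : WeierstrassCurve (𝓞 F)) L₀ v
  refine h v₀ (fun x => ?_) (h2 hram)
  rw [h1, hv]
  rfl

theorem yn2_norm {Ω : Type} [Field Ω] [DecidableEq Ω] [Algebra F Ω] [IsAlgClosure F Ω] {l : ℕ}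
    {L₀ : IntermediateField F Ω} (hL : PExt l ⊥ L₀) : IsGalois F L₀ := by
  have hac : IsAlgClosed Ω := IsAlgClosure.isAlgClosed F
  have hal : Algebra.IsAlgebraic F Ω := IsAlgClosure.isAlgebraic
  have hnΩ : Normal F Ω := IsAlgClosure.normal F Ω
  have h1 : Normal F L₀ := by
    rw [IntermediateField.normal_iff_forall_map_le']
    rintro s _ ⟨x, hx, rfl⟩
    exact hL.norm s (H13Z.fix_bot s) x hx
  exact ⟨⟩

/-- An element of N in V is congruent to an integer of N. -/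
theorem yn2_approx {Ω : Type} [Field Ω] [Algebra F Ω] (N : IntermediateField F Ω) [NumberField N]
    (V : ValuationSubring Ω) (w : HeightOneSpectrum (𝓞 N)) (hw : Abv N V w) (x : N) (hx : (x : Ω) ∈ V) :
    ∃ y : 𝓞 N, V.valuation ((x : Ω) - ((y : N) : Ω)) < 1 := by
  have hwm := w.isMaximal
  have hunit : ∀ d : 𝓞 N, d ∉ w.asIdeal → V.valuation ((d : N) : Ω) = 1 := by
    intro d hd
    refine le_antisymm (vw_int N V d) (not_lt.1 fun h' => hd ?_)
    have h2 := (hw.lt (d : N)).1 h'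
    exact (w.valuation_lt_one_iff_mem d).1 h2
  have hlt : ∀ d : 𝓞 N, d ∈ w.asIdeal → V.valuation ((d : N) : Ω) < 1 := by
    intro d hd
    exact (hw.lt (d : N)).2 ((w.valuation_lt_one_iff_mem d).2 hd)
  have hx' : w.valuation N x ≤ 1 := (hw x).1 hx
  have key : ∃ n d : 𝓞 N, d ∉ w.asIdeal ∧ x * (d : N) = (n : N) := by
    obtain ⟨n, d, h | h⟩ := w.exists_primeCompl_mul_eq_or_mul_eq x
    · exact ⟨n, d, d.2, h⟩
    · refine ⟨d, n, ?_, h⟩
      intro hn
      have h1 := congrArg (w.valuation N) h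
      rw [map_mul] at h1
      have h2 : w.valuation N (algebraMap (𝓞 N) N (d : 𝓞 N)) = 1 :=
        le_antisymm (w.valuation_le_one _) (not_lt.1 fun h' => d.2 ((w.valuation_lt_one_iff_mem _).1 h'))
      have h3 : w.valuation N (algebraMap (𝓞 N) N n) < 1 := (w.valuation_lt_one_iff_mem n).2 hn
      rw [h2] at h1
      exact absurd h1 (ne_of_lt (lt_of_le_of_lt (mul_le_of_le_one_left' hx') h3))
  obtain ⟨n, d, hd, hnd⟩ := key
  obtain ⟨c, hc⟩ : ∃ c : 𝓞 N, 1 - d * c ∈ w.asIdeal := by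
    obtain ⟨c, hc⟩ := Ideal.Quotient.exists_inv (I := w.asIdeal) (a := Ideal.Quotient.mk _ d)
      (by rw [Ne, Ideal.Quotient.eq_zero_iff_mem]; exact hd)
    obtain ⟨c', rfl⟩ := Ideal.Quotient.mk_surjective c
    refine ⟨c', ?_⟩
    rw [← Ideal.Quotient.eq_zero_iff_mem, map_sub, map_mul, hc, map_one, sub_self]
  refine ⟨n * c, ?_⟩
  have hd1 := hunit d hd
  have hd0 : ((d : N) : Ω) ≠ 0 := by
    intro h0
    rw [h0, map_zero] at hd1
    exact zero_ne_one hd1
  have e1 : ((n : N) : Ω) = (x : Ω) * ((d : N) : Ω) := by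
    have h4 := congrArg (fun z : N => (z : Ω)) hnd
    exact h4.symm
  have e2 : (x : Ω) - (((n * c : 𝓞 N) : N) : Ω) = (x : Ω) * (((1 - d * c : 𝓞 N) : N) : Ω) := by
    have h5 : (((n * c : 𝓞 N) : N) : Ω) = ((n : N) : Ω) * ((c : N) : Ω) := by simp
    have h6 : (((1 - d * c : 𝓞 N) : N) : Ω) = 1 - ((d : N) : Ω) * ((c : N) : Ω) := by simp
    rw [h5, h6, e1]
    ring
  rw [e2, map_mul]
  exact lt_of_le_of_lt (mul_le_of_le_one_left' ((V.valuation_le_one_iff _).2 hx)) (hlt _ hc)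

theorem yn2_exp {Ω : Type} [Field Ω] [DecidableEq Ω] [Algebra F Ω] [IsAlgClosure F Ω] {l : ℕ} (hl : l.Prime)
    {N L₀ : IntermediateField F Ω} [NumberField N] [NumberField L₀] (hL : PExt l ⊥ L₀) (hNL : N ≤ L₀)
    (V : ValuationSubring Ω) (β : O) (hβ : Prime β) (hV : vo V β < 1)
    (w : HeightOneSpectrum (𝓞 N)) (hw : Abv N V w) (w₀ : HeightOneSpectrum (𝓞 L₀)) (hw₀ : Abv L₀ V w₀) :
    ∃ j : ℕ, Ideal.absNorm w.asIdeal = H55B.Nm β ^ (l ^ j) := by
  have hac : IsAlgClosed Ω := IsAlgClosure.isAlgClosed F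
  have hal : Algebra.IsAlgebraic F Ω := IsAlgClosure.isAlgebraic
  have hcz : CharZero Ω := charZero_of_injective_algebraMap (algebraMap F Ω).injective
  have hG := yn2_norm hL
  let _ : Algebra N L₀ := s13_alg hNL
  have t1 : IsScalarTower F N L₀ := IsScalarTower.of_algebraMap_eq fun x => rfl
  have hwp := w.isPrime
  have hwm := w.isMaximal
  have hw0p := w₀.isPrime
  have hw0m := w₀.isMaximal
  obtain ⟨k, hk⟩ := hL.deg
  rw [IntermediateField.finrank_bot, one_mul] at hk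
  obtain ⟨j, hj⟩ := s13_inertia l hl (M := F) (L := L₀) k hk w₀.asIdeal w₀.ne_bot
  have hover : w₀.asIdeal.LiesOver w.asIdeal := by
    constructor
    ext x
    rw [Ideal.mem_under, ← w₀.valuation_lt_one_iff_mem (K := L₀), ← w.valuation_lt_one_iff_mem (K := N),
      ← hw.lt, ← hw₀.lt]
    rfl
  have h2 := Ideal.inertiaDeg_tower (R := 𝓞 F) w.asIdeal w₀.asIdeal
  have h3 : w.asIdeal.inertiaDeg (𝓞 F) ∣ l ^ j := by
    rw [← hj, h2]
    exact dvd_mul_right _ _
  obtain ⟨i, -, hi⟩ := (Nat.dvd_prime_pow hl).1 h3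
  refine ⟨i, ?_⟩
  have hbot : Ideal.span {β} ≠ ⊥ := by
    rw [Ne, Ideal.span_singleton_eq_bot]
    exact hβ.ne_zero
  have hp : (Ideal.span {β}).IsPrime := (Ideal.span_singleton_prime hβ.ne_zero).2 hβ
  have hm : (Ideal.span {β}).IsMaximal := hp.isMaximal hbot
  have hmem : algebraMap O (𝓞 N) β ∈ w.asIdeal := by
    rw [← HeightOneSpectrum.valuation_lt_one_iff_mem (K := N), ← hw.lt]
    exact hV
  have hlies : w.asIdeal.LiesOver (Ideal.span {β}) := by
    constructor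
    refine hm.eq_of_le (Ideal.IsPrime.ne_top inferInstance) ?_
    rw [Ideal.span_singleton_le_iff_mem]
    exact hmem
  rw [← Ideal.absNorm_pow_inertiaDeg (Ideal.span {β}) w.asIdeal, hi]
  rfl

/-- Chunk YN2 (M). The residue field of N at V. w below V (exists_below: N is not contained in V because of 1/l). norm_above: absNorm w = Nm β^f. f is a power of l: w₀ = the prime of L₀ below V, absNorm w₀ = Nm β^f₀, f₀ = the inertia degree of w₀ over F divides [L₀ : F] = l^k (L₀/F Galois: e f g = n), f divides f₀ (absNorm w₀ = absNorm w^g', inertia degrees in the tower; or: the residue field of w is a subfield of the residue field of w₀).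
x in N, x in V: x = a/b, a, b in 𝓞 N, b not in w (or: x is congruent to an element of 𝓞 N), a^q - a in w (q = card of the residue field). φ: exists_frobK N. r: representatives of the q = absNorm w classes of 𝓞 N modulo w (Fin q ≃ 𝓞 N/w; differences are not in w: V = 1 by Abv). -/
theorem nb_res {Ω : Type} [Field Ω] [DecidableEq Ω] [Algebra F Ω] [IsAlgClosure F Ω] {l : ℕ} (hl : l.Prime)
    {N L₀ : IntermediateField F Ω} [NumberField N] [NumberField L₀] (hL : PExt l ⊥ L₀) (hNL : N ≤ L₀)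
    (V : ValuationSubring Ω) (β : O) (hβ : Prime β) (hV : vo V β < 1) (hVl : V.valuation (l : Ω) < 1) :
    ∃ q j : ℕ, q = H55B.Nm β ^ (l ^ j) ∧ (∀ x ∈ N, x ∈ V → V.valuation (x ^ q - x) < 1) ∧
      (∃ φ ∈ N.fixingSubgroup, Dec V φ ∧ ∀ x ∈ V, V.valuation (φ x - x ^ q) < 1) ∧
      ∃ r : Fin q → Ω, (∀ i, r i ∈ N ∧ V.valuation (r i) ≤ 1) ∧
        (∀ i i', i ≠ i' → V.valuation (r i - r i') = 1) ∧
        ∀ x ∈ N, x ∈ V → ∃ i, V.valuation (x - r i) < 1 := by
  have hcz : CharZero Ω := charZero_of_injective_algebraMap (algebraMap F Ω).injective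
  have hl0 : (l : Ω) ≠ 0 := Nat.cast_ne_zero.2 hl.ne_zero
  have hlinv : ((l : Ω)⁻¹) ∉ V := by
    rw [← V.valuation_le_one_iff, map_inv₀, not_le]
    exact (one_lt_inv₀ (zero_lt_iff.2 ((map_ne_zero _).2 hl0))).2 hVl
  have hN : ∃ x : N, (x : Ω) ∉ V := by
    refine ⟨(l : N)⁻¹, ?_⟩
    have e : (((l : N)⁻¹ : N) : Ω) = (l : Ω)⁻¹ := by simp
    rw [e]
    exact hlinv
  have hL' : ∃ x : L₀, (x : Ω) ∉ V := by
    refine ⟨(l : L₀)⁻¹, ?_⟩
    have e : (((l : L₀)⁻¹ : L₀) : Ω) = (l : Ω)⁻¹ := by simp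
    rw [e]
    exact hlinv
  obtain ⟨w, hw⟩ := exists_below N V hN
  obtain ⟨w₀, hw₀⟩ := exists_below L₀ V hL'
  have hwm := w.isMaximal
  obtain ⟨j, hj⟩ := yn2_exp hl hL hNL V β hβ hV w hw w₀ hw₀
  obtain ⟨φ, hφN, hφD, hφ⟩ := H13Z.exists_frobK N hw
  refine ⟨Ideal.absNorm w.asIdeal, j, hj, ?_, ⟨φ, hφN, hφD, hφ⟩, ?_⟩
  · intro x hx hxV
    have h1 := hφ x hxV
    have h2 : φ x = x := (IntermediateField.mem_fixingSubgroup_iff N φ).1 hφN x hx
    rw [h2] at h1
    rw [← neg_sub, Valuation.map_neg]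
    exact h1
  · have hcard : Nat.card (𝓞 N ⧸ w.asIdeal) = Ideal.absNorm w.asIdeal := rfl
    have hfin : Finite (𝓞 N ⧸ w.asIdeal) := Ideal.finiteQuotientOfFreeOfNeBot _ w.ne_bot
    have e : Fin (Ideal.absNorm w.asIdeal) ≃ (𝓞 N ⧸ w.asIdeal) := by
      rw [← hcard]
      exact (Finite.equivFin _).symm
    have hmk : ∀ y : 𝓞 N ⧸ w.asIdeal, Ideal.Quotient.mk w.asIdeal (Quotient.out y) = y := fun y =>
      Quotient.out_eq y
    refine ⟨fun i => (((Quotient.out (e i) : 𝓞 N) : N) : Ω), fun i => ⟨?_, vw_int N V _⟩, ?_, ?_⟩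
    · exact ((Quotient.out (e i) : 𝓞 N) : N).2
    · intro i i' hii
      have e1 : (((Quotient.out (e i) : 𝓞 N) : N) : Ω) - (((Quotient.out (e i') : 𝓞 N) : N) : Ω) =
          (((Quotient.out (e i) - Quotient.out (e i') : 𝓞 N) : N) : Ω) := by simp
      show V.valuation ((((Quotient.out (e i) : 𝓞 N) : N) : Ω) - (((Quotient.out (e i') : 𝓞 N) : N) : Ω)) = 1
      rw [e1]
      refine le_antisymm (vw_int N V _) (not_lt.1 fun h' => hii ?_)
      have h2 := (w.valuation_lt_one_iff_mem _).1 ((hw.lt _).1 h')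
      rw [← Ideal.Quotient.eq_zero_iff_mem, map_sub, hmk, hmk, sub_eq_zero] at h2
      exact e.injective h2
    · intro x hx hxV
      obtain ⟨y, hy⟩ := yn2_approx N V w hw ⟨x, hx⟩ hxV
      refine ⟨e.symm (Ideal.Quotient.mk w.asIdeal y), ?_⟩
      have h3 : y - Quotient.out (Ideal.Quotient.mk w.asIdeal y) ∈ w.asIdeal := by
        rw [← Ideal.Quotient.eq_zero_iff_mem, map_sub, hmk, sub_self]
      have h4 := (hw.lt _).2 ((w.valuation_lt_one_iff_mem _).2 h3)
      show V.valuation (x - (((Quotient.out (e (e.symm (Ideal.Quotient.mk w.asIdeal y))) : 𝓞 N) : N) : Ω)) < 1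
      rw [e.apply_symm_apply]
      have e2 : x - (((Quotient.out (Ideal.Quotient.mk w.asIdeal y) : 𝓞 N) : N) : Ω) =
          (x - ((y : N) : Ω)) + (((y - Quotient.out (Ideal.Quotient.mk w.asIdeal y) : 𝓞 N) : N) : Ω) := by
        have h5 : (((y - Quotient.out (Ideal.Quotient.mk w.asIdeal y) : 𝓞 N) : N) : Ω) =
          ((y : N) : Ω) - (((Quotient.out (Ideal.Quotient.mk w.asIdeal y) : 𝓞 N) : N) : Ω) := by simp
        rw [h5]
        ring
      rw [e2]
      exact V.valuation.map_add_lt hy h4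

/-- Chunk YN3 (S/M). inert: inert_triv for L₀ (hn from PExt with fix_bot); N ≤ L₀. v₀ with l in v₀: RamF would give a prime W with l in W^2 (v₀.map ≤ W^2), so W^2 divides (l), against UnrP (squarefree; W is prime, not the unit ideal). v₀ with 3 in v₀: as in crit_K / unr3_K (H55P/I6.lean): bot_conv', ram_norm with M = ⊥, K = L = L₀, three_norm. Then res: nb_res. -/
theorem nb_of {l : ℕ} (hl : l.Prime) (h5 : 5 ≤ l) {N L₀ : IntermediateField F FB} [NumberField N]
    [NumberField L₀] (hL : PExt l ⊥ L₀) (hNL : N ≤ L₀) (hU : UnrP l L₀) : Nb l N := by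
  have hbn : NumberField (⊥ : IntermediateField F FB) := H16C.FR_numberField _
  have hLf : FiniteDimensional F L₀ := hL.fin
  refine ⟨finDim_of_le hNL, ?_, ?_⟩
  · intro V hV s hs
    have hn : ∀ s : FB ≃ₐ[F] FB, ∀ x ∈ L₀, s x ∈ L₀ := fun s => hL.norm s (H13Z.fix_bot s)
    have hinv : ∀ n : ℕ, (n : FB) ≠ 0 → V.valuation (n : FB) < 1 → ∃ x : L₀, (x : FB) ∉ V := by
      intro n hn0 hlt
      refine ⟨((n : L₀))⁻¹, fun hmem => ?_⟩
      have h1 : V.valuation ((((n : L₀))⁻¹ : L₀) : FB) ≤ 1 := (V.valuation_le_one_iff _).2 hmem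
      have h2 : ((((n : L₀))⁻¹ : L₀) : FB) = (n : FB)⁻¹ := by push_cast; rfl
      rw [h2] at h1
      have h3 : V.valuation ((n : FB) * (n : FB)⁻¹) < 1 := by
        rw [map_mul]
        exact mul_lt_one_of_lt_of_le hlt h1
      rw [mul_inv_cancel₀ hn0, map_one] at h3
      exact lt_irrefl _ h3
    have hVne : ∃ x : L₀, (x : FB) ∉ V := by
      rcases hV with h | h
      · exact hinv l (Nat.cast_ne_zero.2 hl.ne_zero) h
      · refine hinv 3 (by norm_num) ?_
        exact_mod_cast h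
    refine IntermediateField.fixingSubgroup_le hNL (inert_triv hn hVne ?_ hs)
    intro v₀ hv₀ hr
    rcases hV with h | h
    · obtain ⟨W, hW, hle⟩ := hr
      have hlv : (l : O) ∈ v₀.asIdeal := by
        rw [hv₀]
        simpa using h
      have h1 : (l : 𝓞 L₀) ∈ W ^ 2 := by
        have := hle (Ideal.mem_map_of_mem (algebraMap O (𝓞 L₀)) hlv)
        rwa [map_natCast] at this
      have h2 : W ^ 2 ∣ Ideal.span {(l : 𝓞 L₀)} := by
        rw [Ideal.dvd_iff_le, Ideal.span_singleton_le_iff_mem]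
        exact h1
      have h3 : IsUnit W := hU W (by rwa [← sq])
      exact hW.ne_top (Ideal.isUnit_iff.1 h3)
    · obtain ⟨v', h1, h2, -⟩ := bot_conv' W27O L₀ v₀
      have hn := ram_norm l hl ⊥ L₀ hL L₀ bot_le le_rfl hU v' (h2 hr)
      refine three_norm l hl h5 v' ?_ hn
      have h3 : (3 : O) ∈ v₀.asIdeal := by
        rw [hv₀, show ((3 : O) : F) = (3 : F) from map_ofNat (algebraMap O F) 3, map_ofNat]
        exact h
      have := (h1 3).1 h3
      rwa [map_ofNat] at this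
  · intro V β hβ h1 h2
    exact nb_res hl hL hNL V β hβ h1 h2

end H13Y
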