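import Mathlib
import Pool.Agent.Lib.H13Y.G1
import Pool.Agent.Lib.H13Y.G3
import Pool.Agent.Lib.H13Y.G4
import Pool.Agent.Lib.H13Y.GT
import Pool.Agent.Lib.H13Y.YN
import Pool.Agent.Lib.H13Z.LA1
import Pool.Agent.Lib.H13Z.FZ5

open NumberField IsDedekindDomain WeierstrassCurve

namespace H13Y

open H55P H28G H55B H13S
open H13Z (Dat Cc IsTB SelNon)

/-- The existence of the global elements over all base fields (proved in GN*.lean). -/
def GNAll (l : ℕ) : Prop :=
  ∀ (π γ : O), Dat π l → Prime γ → Prim γ → π ∣ γ - 1 →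
    ∀ (N L₀ : IntermediateField F FB) (_ : NumberField N) (_ : NumberField L₀), PExt l ⊥ L₀ → N ≤ L₀ →
      UnrP l L₀ → Nb l N → ∀ w : HeightOneSpectrum (𝓞 N), algebraMap O (𝓞 N) γ ∈ w.asIdeal →
        (3 : 𝓞 N) ∉ w.asIdeal → (l : 𝓞 N) ∉ w.asIdeal →
          ∀ (L : IntermediateField F FB) (_ : NumberField L), IsTB π N L →
            ∃ m : P27 FB → (L)ˣ, GN π l N L w m

/-- Chunk YX1 (M). v₀ unramified in N and ramified in K: some prime w of N above v₀ is ramified in K. RamF K v₀: W prime of 𝓞 K with v₀.map ≤ W^2; w = W ∩ 𝓞 N (not 0, contains v₀). v₀ 𝓞 N = w J with J not contained in w (not RamF N: v₀.map is not contained in w^2). j in J, j not in w (so not in W). For x in w: x j in v₀ 𝓞 N (w J), so in W^2; j is not in W (maximal), so x in W^2 (W^2 is primary; or j u + r = 1 with r in W^2). -/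
theorem ram_up {Ω : Type} [Field Ω] [DecidableEq Ω] [Algebra F Ω] {N K : IntermediateField F Ω}
    [NumberField N] [NumberField K] (hNK : N ≤ K) (v₀ : HeightOneSpectrum O) (hK : RamF K v₀.asIdeal)
    (hN : ¬ RamF N v₀.asIdeal) : ∃ w : HeightOneSpectrum (𝓞 N),
      (∀ x : O, x ∈ v₀.asIdeal → algebraMap O (𝓞 N) x ∈ w.asIdeal) ∧ Ram N K w.asIdeal := by
  obtain ⟨W, hWp, hW⟩ := hK
  letI : Algebra N K := (IntermediateField.inclusion hNK).toRingHom.toAlgebra
  have t1 : IsScalarTower F N K := IsScalarTower.of_algebraMap_eq fun x => rfl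
  rw [Ideal.map_le_iff_le_comap] at hW
  obtain ⟨w, hw1, hw2, h | h⟩ := i3_tower (M := F) (N := N) (K := K) v₀ W fun x hx => hW hx
  · exact absurd ⟨w.asIdeal, w.isPrime, by
      rw [Ideal.map_le_iff_le_comap]
      exact fun x hx => h x hx⟩ hN
  · refine ⟨w, fun x hx => ?_, W, hWp, fun x y hx hxy => ?_⟩
    · rw [← hw2] at hx
      exact hx
    · have hl : W.LiesOver w.asIdeal := ⟨hw1.symm⟩
      have h2 := s13_le_sq w.asIdeal w.ne_bot W h x hx
      have h3 : y = algebraMap (𝓞 N) (𝓞 K) x := by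
        apply RingOfIntegers.ext
        apply Subtype.ext
        exact hxy
      rw [h3]
      exact h2

/-- Chunk YX2 (S). The ramified primes are not above 3 p: the first part of the proof of crit_K (H55P/I6.lean). -/
theorem bad_away {p : ℕ} (hp : p.Prime) (h5 : 5 ≤ p) {L₀ K : IntermediateField F FB} [NumberField L₀]
    [NumberField K] (hL : PExt p ⊥ L₀) (hKL : K ≤ L₀) (hU : UnrP p L₀) (v₀ : HeightOneSpectrum O)
    (hr : RamF K v₀.asIdeal) : (3 : O) ∉ v₀.asIdeal ∧ (p : O) ∉ v₀.asIdeal := by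
  have hbn : NumberField (⊥ : IntermediateField F FB) := H16C.FR_numberField _
  have hUK : UnrP p K := by
    let _ : Algebra K L₀ := (IntermediateField.inclusion hKL).toAlgebra
    exact UnrP.down K L₀ p hp hU
  obtain ⟨v, h1, h2, h3⟩ := bot_conv' W27O K v₀
  have hram := h2 hr
  have hn := ram_norm p hp ⊥ L₀ hL K bot_le hKL hUK v hram
  have hv3 : (3 : 𝓞 (⊥ : IntermediateField F FB)) ∉ v.asIdeal := fun h => three_norm p hp h5 v h hn
  have hpv : (p : 𝓞 (⊥ : IntermediateField F FB)) ∉ v.asIdeal := by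
    intro hm
    have h4 : Ideal.absNorm v.asIdeal ∣ p ^ Module.finrank ℚ (⊥ : IntermediateField F FB) := by
      rw [← pt8_norm]
      apply map_dvd
      rw [Ideal.dvd_iff_le, Ideal.span_singleton_le_iff_mem]
      exact hm
    obtain ⟨k, hk, hk'⟩ := (Nat.dvd_prime_pow hp).1 h4
    have hne : k ≠ 0 := by
      rintro rfl
      rw [pow_zero, Ideal.absNorm_eq_one_iff] at hk'
      exact v.isPrime.ne_top hk'
    have h6 : p ∣ Ideal.absNorm v.asIdeal := by
      rw [hk']
      exact dvd_pow_self p hne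
    have h7 : 1 ≤ Ideal.absNorm v.asIdeal := by
      refine Nat.one_le_iff_ne_zero.2 ?_
      rw [Ne, Ideal.absNorm_eq_zero_iff]
      exact v.ne_bot
    have h8 : p ∣ 1 := (Nat.dvd_sub_iff_right h7 h6).1 hn
    exact hp.one_lt.ne' (Nat.dvd_one.1 h8)
  refine ⟨fun h => hv3 ?_, fun h => hpv ?_⟩
  · have := (h1 3).1 h
    rwa [map_ofNat] at this
  · have := (h1 p).1 h
    rwa [map_natCast] at this

theorem sel_step_aux {γ : O} (hγ : Prime γ) {N : IntermediateField F FB} [NumberField N]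
    (w : HeightOneSpectrum (𝓞 N)) (hw : algebraMap O (𝓞 N) γ ∈ w.asIdeal) (n : ℕ) (h3 : ¬ γ ∣ (n : O)) :
    (n : 𝓞 N) ∉ w.asIdeal := by
  intro hn
  have hγ0 : γ ≠ 0 := hγ.ne_zero
  have hp : (Ideal.span {γ}).IsPrime := (Ideal.span_singleton_prime hγ0).2 hγ
  have hne : (Ideal.span {γ} : Ideal O) ≠ ⊥ := by
    rw [Ne, Ideal.span_singleton_eq_bot]
    exact hγ0
  have hmax : (Ideal.span {γ} : Ideal O).IsMaximal := hp.isMaximal hne
  have hle : Ideal.span {γ} ≤ w.asIdeal.under O := by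
    rw [Ideal.span_singleton_le_iff_mem]
    exact hw
  have hwp := w.isPrime
  have heq : Ideal.span {γ} = w.asIdeal.under O :=
    hmax.eq_of_le (inferInstance : (w.asIdeal.under O).IsPrime).ne_top hle
  apply h3
  rw [← Ideal.mem_span_singleton, heq, Ideal.mem_under, map_natCast]
  exact hn

/-- Chunk YX3 (M). One step. nb_of: Nb l N. exists_TB π (D.pr) (D.prim) N: L, NumberField L (L.fin: NumberField.of_module_finite F L). GNAll: m. H13Z.exists_pairA gives a pairing (PairA.pair). exists_gl: c, y; Gl. Class over N': Coc from cc (mul, cont restricted to N'.fixingSubgroup ≤ N.fixingSubgroup), l • c s = 0 (H13Z.lcb_l),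
local conditions: Gl.local with hK from ram_step, nonzero: cob_down (no_tors for K = N' ≤ L₀) would make c a coboundary over N, against Gl.not_cob. (3, l not in w: 3 in w would give γ | 3: w ∩ O = span {γ} is prime: 3 in w and γ in w, O: if γ does not divide 3 then γ, 3 are coprime, 1 in w.) -/
theorem sel_step {l : ℕ} (hl : l.Prime) (h5 : 5 ≤ l) (hG : GNAll l) {π γ : O} (D : Dat π l) (hγ : Prime γ)
    (hγ3 : Prim γ) (h1 : π ∣ γ - 1) (h3 : ¬ γ ∣ 3) (hγl : ¬ γ ∣ (l : O))
    {N N' L₀ : IntermediateField F FB} [NumberField N] [NumberField N'] [NumberField L₀]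
    (hL : PExt l ⊥ L₀) (hU : UnrP l L₀) (hNN : N ≤ N') (hNL : N' ≤ L₀)
    (hn : ∀ s ∈ N.fixingSubgroup, ∀ x ∈ N', s x ∈ N')
    (hd : Module.finrank F N' = Module.finrank F N * l) {w : HeightOneSpectrum (𝓞 N)}
    (hw : algebraMap O (𝓞 N) γ ∈ w.asIdeal) (hr : Ram N N' w.asIdeal) : SelNon W27 l N' := by
  have hL₀f : FiniteDimensional F L₀ := hL.fin
  have hN'f : FiniteDimensional F N' := finDim_of_le hNL
  have hNf : FiniteDimensional F N := finDim_of_le (hNN.trans hNL)
  have hN : Nb l N := nb_of hl h5 hL (hNN.trans hNL) hU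
  obtain ⟨L, hLT⟩ := H13Z.exists_TB π D.pr D.prim N
  have hLf : FiniteDimensional F L := hLT.fin
  have hLn : NumberField L := H16C.FR_numberField L
  have h3w : (3 : 𝓞 N) ∉ w.asIdeal := by
    have := sel_step_aux hγ w hw 3 (by exact_mod_cast h3)
    exact_mod_cast this
  have hlw : (l : 𝓞 N) ∉ w.asIdeal := sel_step_aux hγ w hw l hγl
  obtain ⟨m, hm⟩ := hG π γ D hγ hγ3 h1 N L₀ inferInstance inferInstance hL (hNN.trans hNL) hU hN w hw
    h3w hlw L hLn hLT
  obtain ⟨e, he⟩ := H13Z.exists_pairA (Ω := FB) π l D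
  obtain ⟨c, y, G⟩ := exists_gl D he.pair hN hLT h3w hlw hm
  have hmono : ∀ s ∈ N'.fixingSubgroup, s ∈ N.fixingSubgroup := fun s hs =>
    IntermediateField.fixingSubgroup_antitone hNN hs
  refine ⟨c, ⟨fun s hs t ht => G.cc.mul s (hmono s hs) t (hmono t ht), ?_⟩, fun s hs =>
    H13Z.lcb_l D (G.cc.val s (hmono s hs)), fun V hV => ?_, ?_⟩
  · obtain ⟨M, hM, h2⟩ := G.cc.cont
    exact ⟨M, hM, fun s hs hsM => h2 s (hmono s hs) hsM⟩
  · exact G.local he.pair hNN (fun V hV a ha h0 => ram_step hl hNN hn hd hr hV ha h0) hV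
  · rintro ⟨T, hT, h⟩
    refine G.not_cob he.pair ⟨T, hT, ?_⟩
    exact cob_down W27 l hNN hn (fun R hR hfix => no_tors hl h5 hL hNL R hR hfix)
      G.cc.mul (fun s hs => H13Z.lcb_l D (G.cc.val s hs)) hT h

end H13Y
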