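import Mathlib
import Pool.Agent.Lib.H13Y.GN12b
import Pool.Agent.Lib.H13Y.X1

open NumberField IsDedekindDomain WeierstrassCurve

namespace H13Y

open H55P H28G H55B H13S
open H13Z (Dat Cc IsTB)

/-- Chunk GN13a (S/M). The prime w of N lies above W and V lies above W, but not above w: there is x in w which is a unit at W. Let w' = W ∩ 𝓞 N (algNL; HeightOneSpectrum.under, or a direct argument with the valuation rings). If w' = w then for x in N: x in V iff W.valuation x ≤ 1 (Abv L V W) iff w.valuation x ≤ 1 (HeightOneSpectrum.valuation_liesOver: W.valuation is a positive power of w.valuation on N), so Abv N V w. So w' ≠ w and there is x in w, not in w' (both maximal). -/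
theorem exists_unit_at {Ω : Type} [Field Ω] [DecidableEq Ω] [Algebra F Ω] {N L : IntermediateField F Ω}
    [NumberField N] [NumberField L] (h : N ≤ L) {w : HeightOneSpectrum (𝓞 N)} {V : ValuationSubring Ω}
    {W : HeightOneSpectrum (𝓞 L)} (h1 : Abv L V W) (h2 : ¬ Abv N V w) :
    ∃ x : 𝓞 N, x ∈ w.asIdeal ∧ W.valuation L (IntermediateField.inclusion h (x : N)) = 1 := by
  sorry

/-- Chunk GN13b (S/M). The norm of w is a power of the norm of γ: w ∩ O = span {γ} (γ in w, prime, maximal), Ideal.absNorm of a prime above is absNorm of the prime below to the residue degree (Ideal.absNorm_eq_pow_inertiaDeg' or the like; D5 in H55R needs Galois: do not use it), Nm γ = absNorm (span {γ}). -/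
theorem exists_f {N : Type} [Field N] [NumberField N] [Algebra F N] {γ : O} (hγ : Prime γ)
    (w : HeightOneSpectrum (𝓞 N)) (hw : algebraMap O (𝓞 N) γ ∈ w.asIdeal) :
    ∃ f : ℕ, Ideal.absNorm w.asIdeal = H55B.Nm γ ^ f := by
  sorry

/-- Chunk GN13c (S). The hypothesis GNAll holds: glob_cls with exists_f (π | γ - 1 | γ^f - 1), UnrP l N from UnrP l L₀ (H55P.UnrP.down), exists_unit_at. -/
theorem gnAll (l : ℕ) : GNAll l := by
  sorry

end H13Y
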