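import Mathlib
import Pool.Agent.Lib.H13Y.X1
import Pool.Agent.Lib.H13Y.D3
import Pool.Agent.Lib.H55P.I7

open NumberField IsDedekindDomain WeierstrassCurve

namespace H13Y

open H55P H28G H13S
open H55B (F O E27)
open H13Z (SelNon SelNonT)

/-- Chunk YX4 (S/M). Induction on the degree of K (strong induction on Module.finrank F K). RamF K v₀ implies K ≠ ⊥ (ram_down or: RamF ⊥ v₀ would give v₀ ≤ v₀^2 in O; bot_conv). chain_step for M = ⊥: N ≤ K, degree p, K normal over N. If RamF N v₀: induction and non_up (no_tors for K). Otherwise ram_up: w; bad_away, bad_pi (H13Z/FZ5.lean): π, γ with v₀ = span {γ}; γ in w; sel_step with N' = K. -/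
theorem alg_half {p : ℕ} (hp : p.Prime) (h5 : 5 ≤ p) (hG : GNAll p) {L₀ : IntermediateField F FB}
    [NumberField L₀] (hL : PExt p ⊥ L₀) (hU : UnrP p L₀) (K : IntermediateField F FB) [NumberField K]
    (hKL : K ≤ L₀) (v₀ : HeightOneSpectrum O) (hr : RamF K v₀.asIdeal) (hb : ¬ GoodP p v₀) :
    SelNon W27 p K := by
  have hL₀f : FiniteDimensional F L₀ := hL.fin
  obtain ⟨n, hn⟩ : ∃ n, Module.finrank F K = n := ⟨_, rfl⟩
  induction n using Nat.strong_induction_on generalizing K with
  | _ n ih =>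
    have hbn : NumberField (⊥ : IntermediateField F FB) := H16C.FR_numberField _
    have hKf : FiniteDimensional F K := finDim_of_le hKL
    have hne : K ≠ ⊥ := by
      rintro rfl
      obtain ⟨v, -, h2, -⟩ := bot_conv' W27O (⊥ : IntermediateField F FB) v₀
      exact ram_self _ v (h2 hr)
    obtain ⟨N, -, hNK, hd, hnorm⟩ := chain_step p hp ⊥ K L₀ hL bot_le hKL hne
    have hNf : FiniteDimensional F N := finDim_of_le hNK
    have hNn : NumberField N := H16C.FR_numberField N
    have hlt : Module.finrank F N < n := by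
      have h0 : 0 < Module.finrank F N := Module.finrank_pos
      have h2 := hp.two_le
      rw [← hn, hd]
      nlinarith
    by_cases hrN : RamF N v₀.asIdeal
    · exact non_up W27 p hNK hnorm (fun R hR hfix => no_tors hp h5 hL hKL R hR hfix)
        (ih _ hlt N (hNK.trans hKL) hrN rfl)
    · obtain ⟨w, hw, hram⟩ := ram_up hNK v₀ hr hrN
      obtain ⟨h3, hpv⟩ := bad_away hp h5 hL hKL hU v₀ hr
      have hdvd : p ∣ Nat.card ((W27O.baseChange (O ⧸ v₀.asIdeal)).toAffine.Point) := by
        by_contra hc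
        exact hb ⟨h3, hpv, hc⟩
      obtain ⟨π, γ, D, hγ, hγ3, hγv, h1, hγ3', hγp⟩ := H13Z.bad_pi p hp h5 v₀ h3 hpv hdvd
      refine sel_step hp h5 hG D hγ hγ3 h1 hγ3' hγp hL hU hNK hKL hnorm hd (hw γ ?_) hram
      rw [hγv]
      exact Ideal.mem_span_singleton_self γ

/-- Chunk YX5 (S/M). THE ALGEBRAIC HALF OF THE EXACT CRITERION FOR ALL SUBFIELDS. As crit_sub (H55P/I7.lean): L with ExtU p L, K embedded in L, j : L → FB over F, ι : K → FB, L₀ = j.fieldRange, pext_range, UnrP p L₀ (L₀ is isomorphic to L), KF K ι ≤ L₀. If K is not InP then by inP_of there is v₀ with RamF (KF K ι) v₀, not GoodP p v₀: alg_half, non_KF, H13Z.non_transport for E27, ι: contradiction. -/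
theorem crit_algU {p : ℕ} (hp : p.Prime) (h5 : 5 ≤ p) (hG : GNAll p) (K : Type) [Field K] [NumberField K]
    (hK : SubU p K) (hn : ¬ SelNonT (E27.baseChange K) p) : InP p K := by
  obtain ⟨Lt, _, _, _, _, hGal, ⟨k, hk⟩, hUt⟩ := hK
  have hfL : FiniteDimensional F Lt := Module.finite_of_finrank_pos (by rw [hk]; exact pow_pos hp.pos k)
  let j : Lt →ₐ[F] FB := IsAlgClosed.lift
  obtain ⟨L, hLdef⟩ : ∃ L : IntermediateField F FB, L = j.fieldRange := ⟨_, rfl⟩
  have hL : PExt p ⊥ L := by
    rw [hLdef]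
    exact pext_range p hp Lt hGal k hk j
  have hLf : FiniteDimensional F L := hL.fin
  have hLn : NumberField L := H16C.FR_numberField L
  have hUL : UnrP p L := by
    subst hLdef
    let _ : Algebra j.fieldRange Lt :=
      (AlgEquiv.ofInjectiveField j).symm.toRingEquiv.toRingHom.toAlgebra
    exact UnrP.down j.fieldRange Lt p hp hUt
  let ι₀ : K →+* FB := j.toRingHom.comp (algebraMap K Lt)
  let ι : K →ₐ[ℚ] FB := ι₀.toRatAlgHom
  have hKL : KF K ι ≤ L := by
    unfold KF
    rw [IntermediateField.adjoin_le_iff, hLdef]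
    rintro _ ⟨x, rfl⟩
    exact ⟨algebraMap K Lt x, rfl⟩
  refine inP_of p hp K ι L hL hKL fun v₀ hr => ?_
  by_contra hb
  have hf : FiniteDimensional F (KF K ι) := finDim_of_le hKL
  have hnf : NumberField (KF K ι) := H16C.FR_numberField _
  have h1 : SelNon W27 p (KF K ι) := alg_half hp h5 hG hL hUL (KF K ι) hKL v₀ hr hb
  have h2 : SelNon (E27 : WeierstrassCurve ℚ) p ι.fieldRange := non_KF hp h5 K ι h1
  have hQF := tower_QF
  have hQA := alg_QFB
  exact hn (H13Z.non_transport E27 p K ι h2)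

end H13Y
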