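import Mathlib
import Pool.Agent.Lib.H13Y.X2
import Pool.Agent.Lib.H13Y.GN12b

open NumberField IsDedekindDomain WeierstrassCurve

namespace H13Y

open H55P H28G H55B H13S H55R
open H13Z (Dat Cc IsTB SelNon SelNonT)

/-- Chunk YX6 (S). out in terms of V: w' = the prime of N below V (V does not contain L, W is a prime of L below V: w' = W ∩ 𝓞 N, Abv N V w': for x in N: x in V iff W x ≤ 1 iff w' x ≤ 1; or H13S.exists_below for N: V does not contain N because W is not trivial on N). w ≠ w', so some x in w is not in w' (both maximal), V x = 1 (Abv.lt), W x = 1 (Abv for L). -/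
theorem out_conv {Ω : Type} [Field Ω] [DecidableEq Ω] [Algebra F Ω] [IsAlgClosure F Ω]
    {N L : IntermediateField F Ω} [NumberField N] [NumberField L] (hNL : N ≤ L) {w : HeightOneSpectrum (𝓞 N)}
    {V : ValuationSubring Ω} {W : HeightOneSpectrum (𝓞 L)} (hW : Abv L V W) (hV : ¬ Abv N V w) :
    ∃ x : 𝓞 N, x ∈ w.asIdeal ∧ W.valuation L (IntermediateField.inclusion hNL (x : N)) = 1 := by
  have hex : ∃ x : N, (x : Ω) ∉ V := by
    set m : ℕ := Ideal.absNorm W.asIdeal with hm
    have hm0 : m ≠ 0 := fun h => W.ne_bot (Ideal.absNorm_eq_zero_iff.1 h)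
    have h1 : W.valuation L ((m : 𝓞 L) : L) < 1 := by
      rw [HeightOneSpectrum.valuation_lt_one_iff_mem]
      exact Ideal.absNorm_mem _
    refine ⟨((m : ℕ) : N)⁻¹, fun hx => ?_⟩
    have h2 : (((m : L)⁻¹ : L) : Ω) ∈ V := by
      have e : (((m : L)⁻¹ : L) : Ω) = ((((m : ℕ) : N)⁻¹ : N) : Ω) := by
        push_cast
        rfl
      rw [e]
      exact hx
    have h3 := (hW _).1 h2
    have h4 : ((m : 𝓞 L) : L) = (m : L) := by simp
    rw [h4] at h1
    have hmL : (m : L) ≠ 0 := Nat.cast_ne_zero.2 hm0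
    have h5 : W.valuation L (m : L) * W.valuation L (m : L)⁻¹ = 1 := by
      rw [← map_mul, mul_inv_cancel₀ hmL, map_one]
    have h6 : W.valuation L (m : L) * W.valuation L (m : L)⁻¹ < 1 := by
      calc W.valuation L (m : L) * W.valuation L (m : L)⁻¹ ≤ W.valuation L (m : L) * 1 := by gcongr
        _ < 1 := by rw [mul_one]; exact h1
    rw [h5] at h6
    exact lt_irrefl _ h6
  obtain ⟨w', hw'⟩ := exists_below N V hex
  have hne : w ≠ w' := by
    rintro rfl
    exact hV hw'
  have hx : ∃ x : 𝓞 N, x ∈ w.asIdeal ∧ x ∉ w'.asIdeal := by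
    by_contra hcon
    push Not at hcon
    have hle : w.asIdeal ≤ w'.asIdeal := fun x hx => hcon x hx
    exact hne (HeightOneSpectrum.ext (w.isMaximal.eq_of_le w'.isMaximal.ne_top hle))
  obtain ⟨x, hx1, hx2⟩ := hx
  refine ⟨x, hx1, ?_⟩
  have hle : w'.valuation N (x : N) ≤ 1 := w'.valuation_le_one x
  have hnlt : ¬ w'.valuation N (x : N) < 1 := by
    intro h
    rw [HeightOneSpectrum.valuation_lt_one_iff_mem] at h
    exact hx2 h
  have e : ((IntermediateField.inclusion hNL (x : N) : L) : Ω) = ((x : N) : Ω) := rfl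
  apply le_antisymm
  · rw [← hW, e]
    exact (hw' _).2 hle
  · by_contra hcon
    push Not at hcon
    apply hnlt
    rw [← hw'.lt, ← e, hW.lt]
    exact hcon

/-- Chunk YX7 (S/M). glob_cls (GN12b.lean): UnrP l N from UnrP l L₀ (UnrP.down, T10.lean, or unrP_sub; N ≤ L₀), f from H13Z.norm_above for a V above w (H13S.exists_above N w; vo V γ < 1 because γ in w), π | γ - 1 | γ^f - 1; out: out_conv. -/
theorem gn_all {l : ℕ} : GNAll l := by
  intro π γ D hγ hγ3 h1 N L₀ _ _ hPE hNL₀ hU hNb w hw h3 hl L _ hTB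
  have hUN : UnrP l N := by
    letI : Algebra N L₀ := (IntermediateField.inclusion hNL₀).toRingHom.toAlgebra
    exact UnrP.down N L₀ l D.hl hU
  obtain ⟨V, hV⟩ := exists_above N w
  have hγV : vo V γ < 1 := by
    have h2 := (hV.lt (algebraMap (𝓞 N) N (algebraMap O (𝓞 N) γ))).2 (by
      rw [HeightOneSpectrum.valuation_lt_one_iff_mem]
      exact hw)
    exact h2
  obtain ⟨f, hf0, hf⟩ := H13Z.norm_above N hV hγ hγV
  have hdvd : π ∣ γ ^ f - 1 := by
    have h2 := sub_dvd_pow_sub_pow γ 1 f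
    rw [one_pow] at h2
    exact h1.trans h2
  obtain ⟨m, m1, m2, m3, m4, m5⟩ := glob_cls D hTB hUN hγ hγ3 hdvd w hw hf
  exact ⟨m, ⟨m1, m2, fun T hT V W hVW hVw => m3 T hT W (out_conv hTB.le hVW hVw), m4, m5⟩⟩

/-- THE EXACT CRITERION, algebraic half, for all subfields K: if the classical p-Selmer group over K is zero then only good primes ramify. -/
theorem crit_alg {p : ℕ} (hp : p.Prime) (h5 : 5 ≤ p) (K : Type) [Field K] [NumberField K]
    (hK : SubU p K) (hn : ¬ SelNonT (E27.baseChange K) p) : InP p K :=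
  crit_algU hp h5 gn_all K hK hn

end H13Y
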